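import Pool.Agent.P.MP_0ad054_nt.An.BV

/-! Bilinear sums with general coefficients, averaged over primitive characters. -/

namespace Pool.Agent.P.MP_0ad054_nt.Chen

open Finset Complex DirichletCharacter An An.BVP

namespace BV2P

theorem cut2 {r : ℕ} (χ : DirichletCharacter ℂ r) (a b : ℕ → ℂ) (X : ℕ) {M : ℕ} (hM : 1 ≤ M) :
    ∑ k ∈ Ioc M (2 * M), a k * ∑ l ∈ Icc 1 (X / k), b l * χ (k * l : ℕ) =
      ∑ j ∈ range (X + 1), tw (2 * M) (fun k => if M < k then a k * cf (X + 1) j (X / k) else 0) χ *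
        tw (X / M) (fun l => b l * e ((j : ℝ) / (X + 1 : ℕ) * l)) χ := by
  simp only [tw, sum_mul_sum]
  rw [sum_comm]
  have e1 : Ioc M (2 * M) = (Icc 1 (2 * M)).filter fun k => M < k := by
    ext k; simp only [mem_Ioc, mem_filter, mem_Icc]; omega
  rw [e1, sum_filter]
  refine sum_congr rfl fun k _ => ?_
  split_ifs with hk
  swap
  · simp
  have h1 : X / k ≤ X / M := Nat.div_le_div_left hk.le hM
  have e2 : Icc 1 (X / k) = (Icc 1 (X / M)).filter fun l => l ≤ X / k := by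
    ext l; simp only [mem_filter, mem_Icc]; omega
  rw [sum_comm, e2, sum_filter, mul_sum]
  refine sum_congr rfl fun l hl => ?_
  rw [mem_Icc] at hl
  have h2 := cf_sum (N := X + 1) (Y := X / k) (Nat.lt_succ_of_le (hl.2.trans (Nat.div_le_self _ _)))
    hl.1 (Nat.lt_succ_of_le (Nat.div_le_self _ _))
  calc _ = a k * b l * χ k * χ l * (if l ≤ X / k then (1 : ℂ) else 0) := by
        split_ifs
        · rw [Nat.cast_mul, map_mul]; ring
        · simp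
    _ = _ := by rw [← h2, mul_sum]; exact sum_congr rfl fun j _ => by ring

theorem block2 {C : ℝ} (C0 : 0 ≤ C)
    (hL : ∀ (R X : ℕ) (a : ℕ → ℂ), ∑ q ∈ Icc 1 R, (q : ℝ) / q.totient *
      ∑ χ ∈ prim q, ‖tw X a χ‖ ^ 2 ≤
      C * (X + (R : ℝ) ^ 2) * (1 + Real.log R) * ∑ n ∈ Icc 1 X, ‖a n‖ ^ 2)
    {a b : ℕ → ℂ} (ha : ∀ k, ‖a k‖ ≤ 1) (hb : ∀ l, ‖b l‖ ≤ Real.log l) {X R M : ℕ} {y : ℝ}
    (y0 : 0 < y) (hy : ∀ k, a k ≠ 0 → y ≤ k ∧ k * y ≤ X) (hX : 2 ≤ X) (hR : 1 ≤ R)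
    (hRX : R ≤ X) (hM1 : 1 ≤ M) {D : ℝ} (D0 : 0 ≤ D) (h1 : X ≤ R * D)
    (h2 : 2 * (X : ℝ) ^ 2 ≤ y * D ^ 2) (h3 : (R : ℝ) ^ 2 * X ≤ D ^ 2) :
    ∑ r ∈ Ioc R (2 * R), 1 / (r.totient : ℝ) * ∑ χ ∈ prim r,
      ‖∑ k ∈ Ioc M (2 * M), a k * ∑ l ∈ Icc 1 (X / k), b l * χ (k * l : ℕ)‖ ≤
      1024 * C * Real.log X ^ 3 * D := by
  have l0 := Real.log_natCast_nonneg X
  by_cases hz : ∀ k ∈ Ioc M (2 * M), a k = 0
  · refine le_trans (le_of_eq (sum_eq_zero fun r _ => ?_)) (by positivity)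
    refine mul_eq_zero_of_right _ (sum_eq_zero fun χ _ => norm_eq_zero.2 (sum_eq_zero fun k hk => ?_))
    rw [hz k hk, zero_mul]
  push Not at hz
  obtain ⟨k0, hk0, hk1⟩ := hz
  obtain ⟨k2, k3⟩ := hy k0 hk1
  rw [mem_Ioc] at hk0
  have k4 : y ≤ 2 * M := k2.trans (by exact_mod_cast hk0.2)
  have k5 : M * y ≤ X := le_trans (by gcongr; exact hk0.1.le) k3
  have l1 : 1 + Real.log (2 * R : ℕ) ≤ 4 * Real.log X := by
    have := log_mono (a := 2 * R) (X := X ^ 2) (by nlinarith)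
    rw [Nat.cast_pow, Real.log_pow] at this
    have h3 := half_le_log hX
    push_cast at this ⊢
    linarith
  have l2 : 0 ≤ 1 + Real.log (2 * R : ℕ) := by positivity
  have key : ∀ j : ℕ, ∑ r ∈ Ioc R (2 * R), 1 / (r.totient : ℝ) * ∑ χ ∈ prim r,
      ‖tw (2 * M) (fun k => if M < k then a k * cf (X + 1) j (X / k) else 0) χ‖ *
        ‖tw (X / M) (fun l => b l * e ((j : ℝ) / (X + 1 : ℕ) * l)) χ‖ ≤
      ((X + 1 : ℕ) : ℝ)⁻¹ * mn (X + 1 : ℕ) (j / (X + 1 : ℕ)) * (32 * C * Real.log X ^ 2 * D) :=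
    fun j => by
    set w := ((X + 1 : ℕ) : ℝ)⁻¹ * mn (X + 1 : ℕ) (j / (X + 1 : ℕ)) with hw
    have w0 : 0 ≤ w := mul_nonneg (by positivity) (mn_nonneg (by positivity) _)
    refine bil hL hR _ _ _ _ (by positivity) ?_
    have a1 : ∑ k ∈ Icc 1 (2 * M), ‖if M < k then a k * cf (X + 1) j (X / k) else 0‖ ^ 2 ≤
        2 * M * w ^ 2 := by
      refine (sum_le_card_nsmul _ _ (w ^ 2) fun k _ => ?_).trans (by simp)
      gcongr
      split_ifs
      · rw [norm_mul]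
        exact (mul_le_of_le_one_left (norm_nonneg _) (ha k)).trans
          (norm_cf_le ((Nat.div_le_self _ _).trans (Nat.le_succ _)) j)
      · simpa using w0
    have a2 : ∑ l ∈ Icc 1 (X / M), ‖b l * e ((j : ℝ) / (X + 1 : ℕ) * l)‖ ^ 2 ≤
        (X / M : ℕ) * Real.log X ^ 2 := by
      refine (sum_le_card_nsmul _ _ (Real.log X ^ 2) fun l hl => ?_).trans (by simp)
      gcongr
      rw [norm_mul, norm_e, mul_one]
      exact (hb l).trans (log_mono ((mem_Icc.1 hl).2.trans (Nat.div_le_self _ _)))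
    set Y : ℝ := ((X / M : ℕ) : ℝ) with hY
    have Y0 : 0 ≤ Y := Nat.cast_nonneg _
    have a3 : M * Y ≤ X := by rw [hY]; exact_mod_cast Nat.mul_div_le X M
    have X0 : (0 : ℝ) ≤ X := Nat.cast_nonneg _
    have a4 : (M : ℝ) * X ≤ D ^ 2 := by
      refine le_of_mul_le_mul_left (le_trans ?_ h2) y0
      nlinarith [mul_le_mul_of_nonneg_right k5 X0]
    have a5 : Y * X ≤ D ^ 2 := by
      have : y * Y ≤ 2 * X := le_trans (by gcongr) (show 2 * M * Y ≤ 2 * X by linarith)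
      refine le_of_mul_le_mul_left (le_trans ?_ h2) y0
      nlinarith [mul_le_mul_of_nonneg_right this X0]
    have a6 : (X : ℝ) ^ 2 ≤ R ^ 2 * D ^ 2 := by rw [← mul_pow]; gcongr
    have a7 : (2 * M + 4 * (R : ℝ) ^ 2) * (Y + 4 * R ^ 2) * (M * Y) ≤ 32 * (R ^ 2 * D ^ 2) := by
      refine le_trans (mul_le_mul_of_nonneg_left a3 (by positivity)) ?_
      have R2 : (0 : ℝ) ≤ R ^ 2 := sq_nonneg _
      nlinarith [mul_le_mul_of_nonneg_left a4 R2, mul_le_mul_of_nonneg_left a5 R2,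
        mul_le_mul_of_nonneg_left h3 R2, mul_le_mul_of_nonneg_right a3 X0, mul_nonneg R2 (sq_nonneg D)]
    calc _ ≤ C * ((2 * M : ℕ) + 4 * (R : ℝ) ^ 2) * (4 * Real.log X) * (2 * M * w ^ 2) *
          (C * (Y + 4 * (R : ℝ) ^ 2) * (4 * Real.log X) * (Y * Real.log X ^ 2)) := by gcongr
      _ = 32 * (C * w * Real.log X ^ 2) ^ 2 * ((2 * M + 4 * (R : ℝ) ^ 2) * (Y + 4 * R ^ 2) * (M * Y)) := by
          push_cast; ring
      _ ≤ 32 * (C * w * Real.log X ^ 2) ^ 2 * (32 * (R ^ 2 * D ^ 2)) := by gcongr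
      _ = _ := by ring
  calc _ ≤ ∑ r ∈ Ioc R (2 * R), ∑ j ∈ range (X + 1), 1 / (r.totient : ℝ) * ∑ χ ∈ prim r,
        ‖tw (2 * M) (fun k => if M < k then a k * cf (X + 1) j (X / k) else 0) χ‖ *
        ‖tw (X / M) (fun l => b l * e ((j : ℝ) / (X + 1 : ℕ) * l)) χ‖ := by
        refine sum_le_sum fun r _ => ?_
        rw [← mul_sum, sum_comm]
        gcongr with χ
        rw [cut2 χ a b X hM1]
        exact (norm_sum_le _ _).trans_eq (sum_congr rfl fun j _ => norm_mul _ _)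
    _ ≤ 32 * Real.log X * (32 * C * Real.log X ^ 2 * D) := by
        rw [sum_comm]
        refine (sum_le_sum fun j _ => key j).trans ?_
        rw [← sum_mul]
        gcongr
        exact sum_w hX
    _ = _ := by ring

theorem typeII2 {C : ℝ} (C0 : 0 ≤ C)
    (hL : ∀ (R X : ℕ) (a : ℕ → ℂ), ∑ q ∈ Icc 1 R, (q : ℝ) / q.totient *
      ∑ χ ∈ prim q, ‖tw X a χ‖ ^ 2 ≤
      C * (X + (R : ℝ) ^ 2) * (1 + Real.log R) * ∑ n ∈ Icc 1 X, ‖a n‖ ^ 2)
    {a b : ℕ → ℂ} (ha : ∀ k, ‖a k‖ ≤ 1) (hb : ∀ l, ‖b l‖ ≤ Real.log l) {X R K : ℕ} {y : ℝ}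
    (y1 : 1 < y) (hy : ∀ k, a k ≠ 0 → y ≤ k ∧ k * y ≤ X) (hX : 2 ≤ X) (hR : 1 ≤ R)
    (hK : K ≤ X) {D : ℝ} (D0 : 0 ≤ D) (h1 : X ≤ R * D) (h2 : 2 * (X : ℝ) ^ 2 ≤ y * D ^ 2)
    (h3 : (K : ℝ) ^ 2 * X ≤ D ^ 2) :
    ∑ r ∈ Ioc R K, 1 / (r.totient : ℝ) * ∑ χ ∈ prim r,
      ‖∑ k ∈ Icc 1 X, a k * ∑ l ∈ Icc 1 (X / k), b l * χ (k * l : ℕ)‖ ≤
      9216 * C * Real.log X ^ 5 * D := by
  have l0 := Real.log_natCast_nonneg X
  set J := Nat.log 2 X + 1 with hJ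
  have hXJ : ∀ a, 1 ≤ a → X ≤ a * 2 ^ J := fun a ha =>
    (Nat.lt_pow_succ_log_self one_lt_two X).le.trans (Nat.le_mul_of_pos_left _ ha)
  set g : ℕ → ℝ := fun r => 1 / (r.totient : ℝ) * ∑ χ ∈ prim r,
      ‖∑ k ∈ Icc 1 X, a k * ∑ l ∈ Icc 1 (X / k), b l * χ (k * l : ℕ)‖ with hg
  have g0 : ∀ r, 0 ≤ g r := fun r => by positivity
  have e1 : Ioc R K = (Ioc R (R * 2 ^ J)).filter fun r => r ≤ K := by
    have := hXJ R hR
    ext r; simp only [mem_Ioc, mem_filter]; omega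
  have a1 : a 1 = 0 := by
    by_contra h
    have := (hy 1 h).1
    push_cast at this
    linarith
  have e2 : ∀ f : ℕ → ℂ, ∑ k ∈ Icc 1 X, a k * f k = ∑ k ∈ Ioc 1 X, a k * f k := fun f => by
    refine (sum_subset Ioc_subset_Icc_self fun k h6 h7 => ?_).symm
    simp only [mem_Ioc, mem_Icc] at h6 h7
    obtain rfl : k = 1 := by omega
    rw [a1, zero_mul]
  have key : ∀ i, ∑ r ∈ Ioc (R * 2 ^ i) (2 * (R * 2 ^ i)), (if r ≤ K then g r else 0) ≤
      J * (1024 * C * Real.log X ^ 3 * D) := fun i => by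
    have hR' : R ≤ R * 2 ^ i := Nat.le_mul_of_pos_right _ (by positivity)
    set R' := R * 2 ^ i
    rcases le_or_gt K R' with h | h
    · refine le_trans (le_of_eq (sum_eq_zero fun r hr => if_neg ?_)) (by positivity)
      have := (mem_Ioc.1 hr).1
      omega
    have h4 : (R : ℝ) ≤ R' := by exact_mod_cast hR'
    have h5 : (R' : ℝ) ≤ K := by exact_mod_cast h.le
    calc _ ≤ ∑ r ∈ Ioc R' (2 * R'), ∑ j ∈ range J, 1 / (r.totient : ℝ) * ∑ χ ∈ prim r,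
          ‖∑ k ∈ Ioc (1 * 2 ^ j) (2 * (1 * 2 ^ j)), a k *
            ∑ l ∈ Icc 1 (X / k), b l * χ (k * l : ℕ)‖ := by
          refine sum_le_sum fun r _ => le_trans (b := g r) (by split_ifs; exacts [le_rfl, g0 r]) ?_
          rw [← mul_sum, sum_comm]
          simp only [hg]
          gcongr with χ
          rw [e2, sum_subset (Ioc_subset_Ioc_right (hXJ 1 le_rfl)) fun k h6 h7 => by
            simp only [mem_Ioc] at h6 h7
            rw [Nat.div_eq_of_lt (by omega)]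
            simp, sum_Ioc_dyadic]
          exact norm_sum_le _ _
      _ ≤ _ := by
          rw [sum_comm]
          refine (sum_le_card_nsmul _ _ _ fun j _ => block2 C0 hL ha hb (by linarith) hy hX
            (hR.trans hR') (h.le.trans hK) (Nat.le_mul_of_pos_right _ (by positivity)) D0
            (h1.trans (by gcongr)) h2 (le_trans (by gcongr) h3)).trans (by simp)
  rw [e1, sum_filter, sum_Ioc_dyadic]
  refine (sum_le_card_nsmul _ _ _ fun i _ => key i).trans ?_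
  rw [card_range, nsmul_eq_mul]
  calc _ ≤ 3 * Real.log X * (3 * Real.log X * (1024 * C * Real.log X ^ 3 * D)) := by
        gcongr <;> exact natLog_le hX
    _ = _ := by ring

end BV2P

end Pool.Agent.P.MP_0ad054_nt.Chen
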