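import Pool.Agent.P.MP_0ad054_nt.Chen.Defs
import Pool.Agent.P.MP_0ad054_nt.Chen.BV2A
import Pool.Agent.P.MP_0ad054_nt.An.Vaughan

/-! Bombieri-Vinogradov for a bilinear sequence. -/

namespace Pool.Agent.P.MP_0ad054_nt.Chen

open Finset Complex DirichletCharacter An An.BVP
open scoped ArithmeticFunction.vonMangoldt

namespace BV2P

/-- coefficients restricted to numbers coprime to `m` -/
noncomputable def ca (c : ℕ → ℝ) (m k : ℕ) : ℂ := if k.Coprime m then (c k : ℂ) else 0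

/-- the bilinear form -/
noncomputable def bl (X : ℕ) (c : ℕ → ℝ) (m : ℕ) {r : ℕ} (χ : DirichletCharacter ℂ r) : ℂ :=
  ∑ k ∈ Icc 1 X, ca c m k * ∑ l ∈ Icc 1 (X / k), ca (fun n => Λ n) m l * χ (k * l : ℕ)

theorem norm_ca_le (c : ℕ → ℝ) (m k : ℕ) : ‖ca c m k‖ ≤ |c k| := by
  unfold ca
  split_ifs <;> simp

theorem ca_ne {c : ℕ → ℝ} {m k : ℕ} (h : ca c m k ≠ 0) : c k ≠ 0 := fun h0 => h (by simp [ca, h0])

theorem change_apply {r d : ℕ} (h : r ∣ d) (χ : DirichletCharacter ℂ r) (n : ℕ) :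
    changeLevel h χ n = if n.Coprime (d / r) then χ n else 0 := by
  by_cases hn : n.Coprime d
  · have := changeLevel_eq_cast_of_dvd' χ h (Nat.isCoprime_iff_coprime.2 hn)
    simp only [Int.cast_natCast] at this
    rw [this, if_pos (hn.coprime_dvd_right (Nat.div_dvd_of_dvd h))]
  · rw [MulChar.map_nonunit _ (mt (ZMod.isUnit_iff_coprime n d).1 hn)]
    split_ifs with h2
    · refine (MulChar.map_nonunit _ (mt (ZMod.isUnit_iff_coprime n r).1 fun h3 => hn ?_)).symm
      rw [← Nat.div_mul_cancel h]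
      exact Nat.Coprime.mul_right h2 h3
    · rfl

theorem tw_eq {r d : ℕ} (h : r ∣ d) (χ : DirichletCharacter ℂ r) (X : ℕ) (c : ℕ → ℝ) :
    tw X (fun a => bet c a) (changeLevel h χ) = bl X c (d / r) χ := by
  have h1 := VaughanP.sum_anti X fun k l => (c k : ℂ) * Λ l * changeLevel h χ (k * l : ℕ)
  have h2 : tw X (fun a => bet c a) (changeLevel h χ) = ∑ n ∈ Icc 1 X, ∑ p ∈ n.divisorsAntidiagonal,
      (c p.1 : ℂ) * Λ p.2 * changeLevel h χ (p.1 * p.2 : ℕ) := by
    refine sum_congr rfl fun n _ => ?_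
    rw [Nat.sum_divisorsAntidiagonal fun k l => (c k : ℂ) * Λ l * changeLevel h χ (k * l : ℕ)]
    simp only [bet]
    rw [ofReal_sum, sum_mul]
    refine sum_congr rfl fun k hk => ?_
    rw [Nat.mul_div_cancel' (Nat.dvd_of_mem_divisors hk), ofReal_mul]
  rw [h2, h1, bl]
  refine sum_congr rfl fun k _ => ?_
  rw [mul_sum]
  refine sum_congr rfl fun l _ => ?_
  rw [change_apply, ca, ca]
  by_cases h3 : k.Coprime (d / r)
  · by_cases h4 : l.Coprime (d / r)
    · rw [if_pos h3, if_pos h4, if_pos (Nat.Coprime.mul_left h3 h4), mul_assoc]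
    · rw [if_neg h4, if_neg fun h5 => h4 (Nat.Coprime.coprime_mul_left h5), mul_zero, zero_mul,
        mul_zero]
  · rw [if_neg h3, if_neg fun h5 => h3 (Nat.Coprime.coprime_mul_right h5), mul_zero, zero_mul]

theorem small {r m X : ℕ} (χ : DirichletCharacter ℂ r) {c : ℕ → ℝ} (hc : ∀ k, |c k| ≤ 1)
    (hX : 2 ≤ X) (hm : m ≠ 0) (hmX : m ≤ X) (T : ℕ → ℂ) {S V : ℝ} (S0 : 0 ≤ S) (V0 : 0 ≤ V)
    (hV : ∀ k, c k ≠ 0 → (k : ℝ) ≤ V)
    (hT : ∀ k ∈ Icc 1 X, c k ≠ 0 → ‖tw (X / k) (fun n => Λ n) χ - T k‖ ≤ S * (X / k) + 1) :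
    ‖bl X c m χ - ∑ k ∈ Icc 1 X, ca c m k * χ k * T k‖ ≤
      3 * S * X * Real.log X + V * (1 + 3 * Real.log X ^ 2) := by
  have hl := half_le_log hX
  have h1 : ∀ k ∈ Icc 1 X, ‖ca c m k * ∑ l ∈ Icc 1 (X / k), ca (fun n => Λ n) m l * χ (k * l : ℕ) -
      ca c m k * χ k * T k‖ ≤ S * X * (1 / k) +
        if k ∈ Icc 1 ⌊V⌋₊ then 1 + 3 * Real.log X ^ 2 else 0 := fun k hk => by
    by_cases h0 : c k = 0
    · have : ca c m k = 0 := by simp [ca, h0]
      rw [this, zero_mul, zero_mul, zero_mul, sub_zero, norm_zero]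
      split_ifs <;> positivity
    rw [if_pos (mem_Icc.2 ⟨(mem_Icc.1 hk).1, Nat.le_floor (hV k h0)⟩)]
    have e : ∑ l ∈ Icc 1 (X / k), ca (fun n => Λ n) m l * χ (k * l : ℕ) =
        χ k * ∑ l ∈ Icc 1 (X / k), ca (fun n => Λ n) m l * χ l := by
      rw [mul_sum]
      exact sum_congr rfl fun l _ => by rw [Nat.cast_mul, map_mul]; ring
    have h2 : ‖∑ l ∈ Icc 1 (X / k), ca (fun n => Λ n) m l * χ l - tw (X / k) (fun n => Λ n) χ‖ ≤
        3 * Real.log X ^ 2 := by
      refine le_trans ?_ ((err hm (X / k)).trans ?_)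
      · rw [tw, ← sum_sub_distrib, sum_filter]
        refine (norm_sum_le _ _).trans (sum_le_sum fun n _ => ?_)
        unfold ca
        by_cases hn : n.Coprime m
        · rw [if_pos hn, if_neg (not_not.2 hn), sub_self, norm_zero]
        · rw [if_neg hn, if_pos hn, zero_mul, zero_sub, norm_neg, norm_mul, Complex.norm_real,
            Real.norm_of_nonneg ArithmeticFunction.vonMangoldt_nonneg]
          exact mul_le_of_le_one_right ArithmeticFunction.vonMangoldt_nonneg (χ.norm_le_one _)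
      · have h3 := natLog_le hX
        have h4 : (Nat.log 2 (X / k) : ℝ) ≤ Nat.log 2 X := by
          exact_mod_cast Nat.log_mono_right (Nat.div_le_self _ _)
        push_cast at h3
        calc _ ≤ (3 * Real.log X) * Real.log X := by
              exact mul_le_mul (by linarith) (log_mono hmX) (Real.log_natCast_nonneg m) (by linarith)
          _ = _ := by ring
    rw [e, mul_assoc, ← mul_sub, ← mul_sub, norm_mul, norm_mul]
    calc _ ≤ 1 * (1 * (3 * Real.log X ^ 2 + (S * (X / k) + 1))) := by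
          gcongr
          · exact (norm_ca_le c m k).trans (hc k)
          · exact χ.norm_le_one _
          · exact (norm_sub_le_norm_sub_add_norm_sub _ _ _).trans (add_le_add h2 (hT k hk h0))
      _ = _ := by ring
  rw [bl, ← sum_sub_distrib]
  refine (norm_sum_le _ _).trans ((sum_le_sum h1).trans ?_)
  rw [sum_add_distrib, ← mul_sum, sum_ite_mem]
  refine add_le_add ?_ ?_
  · calc _ ≤ S * X * (3 * Real.log X) := by
          gcongr
          exact (sum_inv_le_log X).trans (by linarith)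
      _ = _ := by ring
  · refine (sum_le_sum_of_subset_of_nonneg inter_subset_right fun _ _ _ => by positivity).trans ?_
    rw [sum_const, Nat.card_Icc, Nat.add_sub_cancel, nsmul_eq_mul]
    gcongr
    exact Nat.floor_le V0

theorem sw2 (hS : An.S_SW) (hP : An.S_PNT) (A B : ℕ) : ∃ C : ℝ, 0 < C ∧ ∀ X Y : ℕ, 2 ≤ X → Y ≤ X →
    (X : ℝ) ^ (1 / 20 : ℝ) ≤ Y + 1 →
    (∀ (q : ℕ) (χ : DirichletCharacter ℂ q), q ≠ 0 → (q : ℝ) ≤ Real.log X ^ B → χ ≠ 1 →
      ‖tw Y (fun n => Λ n) χ‖ ≤ C / Real.log X ^ A * Y) ∧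
    |∑ n ∈ Icc 1 Y, Λ n - Y| ≤ C / Real.log X ^ A * Y := by
  obtain ⟨CS, CS0, hS⟩ := hS A (2 * B)
  obtain ⟨CP, CP0, hP⟩ := hP A
  refine ⟨40 ^ A * (CS + CP) + 3 * 1600 ^ (A + 1), by positivity, fun X Y hX hY hXY => ?_⟩
  have hl := half_le_log hX
  have X0 : (0 : ℝ) < X := by positivity
  set l := Real.log X with hl'
  have l0 : 0 < l := by linarith
  rcases le_or_gt l 1600 with h | h
  · have h1 : ∑ n ∈ Icc 1 Y, Λ n ≤ Y * l := by
      refine (sum_le_card_nsmul _ _ l fun n hn => ?_).trans (by simp)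
      exact ArithmeticFunction.vonMangoldt_le_log.trans (log_mono ((mem_Icc.1 hn).2.trans hY))
    have h2 : 0 ≤ ∑ n ∈ Icc 1 Y, Λ n := sum_nonneg fun _ _ => ArithmeticFunction.vonMangoldt_nonneg
    have h3 : 3 * l ≤ (40 ^ A * (CS + CP) + 3 * 1600 ^ (A + 1)) / l ^ A := by
      rw [le_div_iff₀ (by positivity)]
      have : l ^ (A + 1) ≤ 1600 ^ (A + 1) := by gcongr
      rw [pow_succ] at this
      have : 0 ≤ 40 ^ A * (CS + CP) := by positivity
      linarith
    have Y0 : (0 : ℝ) ≤ Y := Nat.cast_nonneg _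
    have h4 := mul_le_mul_of_nonneg_right h3 Y0
    refine ⟨fun q χ _ _ _ => ?_, ?_⟩
    · refine le_trans ?_ (h1.trans (by nlinarith))
      refine (norm_sum_le _ _).trans (sum_le_sum fun n _ => ?_)
      rw [norm_mul, Complex.norm_real, Real.norm_of_nonneg ArithmeticFunction.vonMangoldt_nonneg]
      exact mul_le_of_le_one_right ArithmeticFunction.vonMangoldt_nonneg (χ.norm_le_one _)
    · rw [abs_le]
      constructor <;> nlinarith
  · have h1 : l / 20 ≤ Real.log (Y + 1) := by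
      have := Real.log_le_log (by positivity) hXY
      rw [Real.log_rpow X0] at this
      linarith
    have h2 : 2 ≤ Y := by
      by_contra h2
      have h3 : (Y : ℝ) + 1 ≤ 2 := by exact_mod_cast (show Y + 1 ≤ 2 by omega)
      have h4 := Real.log_le_log (by positivity) h3
      have := Real.log_two_lt_d9
      linarith
    have Y2 : (2 : ℝ) ≤ Y := by exact_mod_cast h2
    have h3 : l ≤ 40 * Real.log Y := by
      have h4 : Real.log (Y + 1) ≤ Real.log ((Y : ℝ) ^ 2) := by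
        gcongr
        nlinarith
      rw [Real.log_pow] at h4
      push_cast at h4
      linarith
    have h4 : 0 < Real.log Y := by linarith
    have h5 : ∀ C : ℝ, 0 < C → C ≤ CS + CP → C * Y / Real.log Y ^ A ≤
        (40 ^ A * (CS + CP) + 3 * 1600 ^ (A + 1)) / l ^ A * Y := fun C C0 hC => by
      rw [mul_div_right_comm]
      gcongr ?_ * _
      rw [div_le_div_iff₀ (by positivity) (by positivity)]
      calc C * l ^ A ≤ (CS + CP) * (40 * Real.log Y) ^ A := by gcongr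
        _ = (40 ^ A * (CS + CP) + 0) * Real.log Y ^ A := by ring
        _ ≤ _ := by gcongr; positivity
    refine ⟨fun q χ hq h6 h7 => ?_, (hP Y h2).trans (h5 CP CP0 (by linarith))⟩
    have : NeZero q := ⟨hq⟩
    refine (hS Y q χ h2 (h6.trans ?_) h7).trans (h5 CS CS0 (by linarith))
    rw [pow_mul]
    gcongr
    nlinarith

/-- sums over primitive characters -/
noncomputable def PQ (X : ℕ) (c : ℕ → ℝ) (m r : ℕ) : ℝ :=
  if 2 ≤ r then ∑ χ ∈ prim r, ‖bl X c m χ‖ else 0

theorem PQ_nonneg (X : ℕ) (c : ℕ → ℝ) (m r : ℕ) : 0 ≤ PQ X c m r := by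
  unfold PQ; split_ifs <;> positivity

open Classical in
theorem sum_erase_le2 {d : ℕ} [NeZero d] (X : ℕ) (c : ℕ → ℝ) :
    ∑ χ ∈ univ.erase (1 : DirichletCharacter ℂ d), ‖tw X (fun a => bet c a) χ‖ ≤
      ∑ r ∈ d.divisors, PQ X c (d / r) r := by
  rw [← sum_fiberwise_of_maps_to (t := d.divisors) (g := conductor) fun χ _ =>
    Nat.mem_divisors.2 ⟨conductor_dvd_level χ, NeZero.ne d⟩]
  refine sum_le_sum fun r hr => ?_
  have h := Nat.dvd_of_mem_divisors hr
  have r0 := Nat.pos_of_mem_divisors hr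
  unfold PQ
  split_ifs with h2
  · have h3 : (univ.erase (1 : DirichletCharacter ℂ d)).filter (fun χ => conductor χ = r) ⊆
        (prim r).image (changeLevel h) := fun χ hχ => by
      obtain rfl := (mem_filter.1 hχ).2
      exact mem_image.2 ⟨χ.primitiveCharacter, mem_filter.2 ⟨mem_univ _,
        χ.primitiveCharacter_isPrimitive⟩, χ.changeLevel_primitiveCharacter⟩
    exact (sum_le_sum_of_subset_of_nonneg h3 fun _ _ _ => norm_nonneg _).trans
      ((sum_image_le_of_nonneg fun _ _ => norm_nonneg _).trans (sum_le_sum fun χ _ =>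
        (congrArg norm (tw_eq h χ X c)).le))
  · refine le_of_eq (sum_eq_zero fun χ hχ => ?_)
    rw [mem_filter, mem_erase, Ne, eq_one_iff_conductor_eq_one] at hχ
    omega

theorem ap2 {d : ℕ} (hd : d ≠ 0) {r : ℤ} (hr : IsCoprime r d) (X : ℕ) (c : ℕ → ℝ) (H : ℝ) :
    |∑ a ∈ (Icc 1 X).filter (fun a : ℕ => (d : ℤ) ∣ a - r), bet c a - (X : ℝ) / d.totient * H| ≤
      1 / (d.totient : ℝ) * (∑ r ∈ d.divisors, PQ X c (d / r) r +
        ‖bl X c d (1 : DirichletCharacter ℂ 1) - (X * H : ℝ)‖) := by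
  classical
  have : NeZero d := ⟨hd⟩
  have hφ : (0 : ℝ) < d.totient := by exact_mod_cast Nat.totient_pos.2 (NeZero.pos d)
  have hu : IsUnit (r : ZMod d) := (ZMod.coe_int_isUnit_iff_isCoprime r d).2 hr.symm
  have h1 : ((d.totient * ∑ n ∈ (Icc 1 X).filter (fun n : ℕ => (d : ℤ) ∣ n - r), bet c n : ℝ) : ℂ) =
      ∑ χ : DirichletCharacter ℂ d, χ (r : ZMod d)⁻¹ * tw X (fun a => bet c a) χ := by
    simp only [tw, mul_sum, sum_filter, ofReal_sum]
    rw [sum_comm]
    refine sum_congr rfl fun n _ => ?_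
    simp only [mul_left_comm _ (bet c n : ℂ), ← mul_sum, sum_char_inv_mul_char_eq ℂ hu,
      ← ZMod.intCast_eq_intCast_iff_dvd_sub, Int.cast_natCast]
    split_ifs <;> simp [mul_comm]
  have h2 := tw_eq (one_dvd d) 1 X c
  rw [changeLevel_one, Nat.div_one] at h2
  rw [← add_sum_erase _ _ (mem_univ 1), MulChar.one_apply
    (IsUnit.of_mul_eq_one _ (ZMod.inv_mul_of_unit _ hu)), one_mul, h2] at h1
  have h4 : ‖∑ χ ∈ univ.erase (1 : DirichletCharacter ℂ d), χ (r : ZMod d)⁻¹ *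
      tw X (fun a => bet c a) χ‖ ≤ _ := (norm_sum_le _ _).trans ((sum_le_sum fun χ _ =>
        (norm_mul_le _ _).trans (mul_le_of_le_one_left (norm_nonneg _) (χ.norm_le_one _))).trans
          (sum_erase_le2 X c))
  rw [one_div, le_inv_mul_iff₀ hφ, ← abs_of_pos hφ, ← abs_mul, abs_of_pos hφ, mul_sub, ← mul_assoc,
    mul_div_cancel₀ _ hφ.ne', ← Real.norm_eq_abs, ← Complex.norm_real, ofReal_sub, h1]
  refine le_trans (le_of_eq ?_) ((norm_add_le _ _).trans (add_le_add_left h4 _))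
  congr 1
  ring

theorem sum_div_le2 (K : ℕ) (P : ℕ → ℕ → ℝ) (hP : ∀ m r, 0 ≤ P m r) {B : ℝ} (B0 : 0 ≤ B)
    (h : ∀ m ∈ Icc 1 K, ∑ r ∈ Icc 1 K, 1 / (r.totient : ℝ) * P m r ≤ B) :
    ∑ k ∈ Icc 1 K, 1 / (k.totient : ℝ) * ∑ r ∈ k.divisors, P (k / r) r ≤
      (1 + Real.log K) ^ 2 * B := by
  refine le_trans (sum_le_sum fun k _ => ?_) ((sum_divisors_split K
    (fun a b => 1 / (b.totient : ℝ) * (1 / (a.totient : ℝ) * P b a))
    fun a b => by have := hP b a; positivity).trans ?_)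
  · rw [mul_sum]
    refine sum_le_sum fun r hr => ?_
    have h1 := Nat.totient_super_multiplicative (k / r) r
    rw [Nat.div_mul_cancel (Nat.dvd_of_mem_divisors hr)] at h1
    have h2 := Nat.totient_pos.2 (Nat.pos_of_mem_divisors hr)
    have h3 := Nat.totient_pos.2 (Nat.div_pos (Nat.divisor_le hr) (Nat.pos_of_mem_divisors hr))
    rw [← mul_assoc, div_mul_div_comm, one_mul]
    have := hP (k / r) r
    gcongr
    exact_mod_cast h1
  · rw [sum_comm]
    refine le_trans (sum_le_sum (g := fun m => 1 / (m.totient : ℝ) * B) fun m hm => ?_) ?_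
    · rw [← mul_sum]
      exact mul_le_mul_of_nonneg_left (h m hm) (by positivity)
    · rw [← sum_mul]
      gcongr
      exact sum_inv_totient K

end BV2P

open BV2P in
theorem bv2 (hL : An.S_LS) (hS : An.S_SW) (hP : An.S_PNT) : S_BV2 := by
  intro θ A hθ
  obtain ⟨CL, CL0, hL⟩ := hL
  obtain ⟨CS, CS0, hS⟩ := sw2 hS hP (2 * (A + 7)) (A + 7)
  set η : ℝ := min (1 / 2 - θ) (1 / 40) with hη
  have η0 : 0 < η := lt_min (by linarith) (by norm_num)
  obtain ⟨c0, c00, hc0⟩ := log_pow_le η0 (A + 7)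
  refine ⟨9 * ((1 + 2 ^ (A + 7)) * (48 * CS + 56 * c0 * (2 * c0 + 2)) + 9216 * CL * (2 * c0 + 2)),
    by positivity, fun X K a c hX hK ha hc hs => ?_⟩
  have hl := half_le_log hX
  have X1 : (1 : ℝ) < X := by exact_mod_cast one_lt_two.trans_le hX
  have X0 : (0 : ℝ) < X := by linarith
  set l := Real.log X with hl'
  have l0 : 0 < l := by linarith
  have l1 : 1 ≤ 2 * l := by linarith
  have l2 : 1 ≤ 32 * l ^ 5 := (one_le_pow₀ (n := 5) l1).trans_eq (by ring)
  have l3 : l ≤ 16 * l ^ 5 := by nlinarith [one_le_pow₀ (n := 4) l1]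
  have l4 : l ^ 2 ≤ 8 * l ^ 5 := by nlinarith [one_le_pow₀ (n := 3) l1, pow_pos l0 2]
  rcases Nat.eq_zero_or_pos K with rfl | K0
  · simp only [Icc_eq_empty_of_lt one_pos, sum_empty]
    positivity
  have K1 : (1 : ℝ) ≤ K := by exact_mod_cast K0
  set w : ℝ := (X : ℝ) ^ η with hw
  set y : ℝ := (X : ℝ) ^ (1 / 20 : ℝ) with hy
  have w1 : 1 ≤ w := Real.one_le_rpow X1.le η0.le
  have w0 : 0 < w := by linarith
  have y1 : 1 < y := Real.one_lt_rpow X1 (by norm_num)
  have y0 : 0 < y := by linarith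
  have w2 : (K : ℝ) ^ 2 * w ^ 2 ≤ X := by
    calc _ ≤ ((X : ℝ) ^ θ) ^ 2 * ((X : ℝ) ^ (1 / 2 - θ)) ^ 2 := by
          gcongr
          exact Real.rpow_le_rpow_of_exponent_le X1.le (min_le_left _ _)
      _ = _ := by
        rw [← Real.rpow_mul_natCast X0.le, ← Real.rpow_mul_natCast X0.le, ← Real.rpow_add X0]
        refine Eq.trans (congrArg _ ?_) (Real.rpow_one _)
        push_cast
        ring
  have w3 : w ^ 2 ≤ y := by
    rw [hw, ← Real.rpow_mul_natCast X0.le]
    refine Real.rpow_le_rpow_of_exponent_le X1.le ?_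
    have := min_le_right (1 / 2 - θ) (1 / 40 : ℝ)
    push_cast
    linarith
  have hy2 : ∀ k, c k ≠ 0 → y ≤ k ∧ k * y ≤ X := fun k hk => by
    refine ⟨(hs k hk).1, ?_⟩
    calc _ ≤ (X : ℝ) ^ (19 / 20 : ℝ) * y := by gcongr; exact (hs k hk).2
      _ = _ := by rw [hy, ← Real.rpow_add X0]; norm_num
  set Z : ℝ := X / l ^ (A + 7) with hZ
  have Z0 : 0 < Z := by positivity
  have hZ' : Z * l ^ (A + 7) = X := div_mul_cancel₀ _ (by positivity)
  set D := (2 * c0 + 2) * Z with hD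
  have D0 : 0 < D := by positivity
  have D1 : 2 * X ≤ D * w := by
    have := mul_le_mul_of_nonneg_left (hc0 X X1.le) Z0.le
    rw [hZ'] at this
    rw [hD]
    linarith [mul_pos Z0 w0]
  have D2 : 4 * (X : ℝ) ^ 2 ≤ D ^ 2 * w ^ 2 := by
    linarith [pow_le_pow_left₀ (by positivity) D1 2]
  have K2 : 1 ≤ (K : ℝ) ^ 2 := one_le_pow₀ K1
  have w4 : 1 ≤ w ^ 2 := one_le_pow₀ w1
  have D4 : (K : ℝ) ^ 2 * X ≤ D ^ 2 := by
    refine le_of_mul_le_mul_right (le_trans ?_ D2) (one_pos.trans_le w4)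
    calc _ = (K : ℝ) ^ 2 * w ^ 2 * X := by ring
      _ ≤ X * X := by gcongr
      _ ≤ _ := by linarith [sq_nonneg (X : ℝ)]
  have D5 : 2 * (X : ℝ) ^ 2 ≤ y * D ^ 2 := by
    linarith [mul_le_mul_of_nonneg_left w3 (sq_nonneg D), sq_nonneg (X : ℝ)]
  have KX : K ≤ X := by
    have : (K : ℝ) ≤ X := (le_self_pow₀ K1 two_ne_zero).trans
      ((le_mul_of_one_le_right (by positivity) w4).trans w2)
    exact_mod_cast this
  set F := ⌊l ^ (A + 7)⌋₊ with hF
  have F1 : (F : ℝ) ≤ l ^ (A + 7) := Nat.floor_le (by positivity)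
  have F2 : (X : ℝ) ≤ (max 1 F : ℕ) * D := by
    have h1 : (1 : ℝ) ≤ (max 1 F : ℕ) := by exact_mod_cast le_max_left _ _
    have h2 : (F : ℝ) ≤ (max 1 F : ℕ) := by exact_mod_cast le_max_right _ _
    have h3 := Nat.lt_floor_add_one (l ^ (A + 7))
    have h4 : l ^ (A + 7) ≤ 2 * (max 1 F : ℕ) := by linarith
    calc _ = Z * l ^ (A + 7) := hZ'.symm
      _ ≤ Z * (2 * (max 1 F : ℕ)) := by gcongr
      _ = (max 1 F : ℕ) * ((0 + 2) * Z) := by ring
      _ ≤ _ := by rw [hD]; gcongr; positivity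
  set S : ℝ := CS / l ^ (2 * (A + 7)) with hS'
  have S0 : 0 ≤ S := by positivity
  set E : ℝ := 3 * S * X * l + X / y * (1 + 3 * l ^ 2) with hE
  have E0 : 0 ≤ E := by positivity
  have hV : ∀ k, c k ≠ 0 → (k : ℝ) ≤ X / y := fun k hk => (le_div_iff₀ y0).2 (hy2 k hk).2
  have hS2 := fun k (hk : k ∈ Icc 1 X) (h0 : c k ≠ 0) => hS X (X / k) hX (Nat.div_le_self _ _) (by
    have k0 : 0 < k := (mem_Icc.1 hk).1
    have h1 : (X : ℝ) / k < (X / k : ℕ) + 1 := by
      rw [← Nat.floor_div_eq_div (K := ℝ)]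
      exact Nat.lt_floor_add_one _
    refine le_trans ?_ h1.le
    rw [le_div_iff₀ (by exact_mod_cast k0), mul_comm]
    exact (hy2 k h0).2)
  have h1 : ∀ m ∈ Icc 1 K, ∑ r ∈ Icc 1 K, 1 / (r.totient : ℝ) * PQ X c m r ≤
      F * E + 9216 * CL * l ^ 5 * D := fun m hm => by
    rw [mem_Icc] at hm
    have hII := typeII2 CL0.le hL (a := ca c m) (b := ca (fun n => Λ n) m)
      (fun k => (norm_ca_le c m k).trans (hc k)) (fun n => (norm_ca_le _ m n).trans
        ((abs_of_nonneg ArithmeticFunction.vonMangoldt_nonneg).trans_le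
          ArithmeticFunction.vonMangoldt_le_log)) y1 (fun k hk => hy2 k (ca_ne hk)) hX
      (le_max_left 1 F) KX D0.le F2 D5 D4
    set g : ℕ → ℝ := fun r => 1 / (r.totient : ℝ) * ∑ χ ∈ prim r, ‖bl X c m χ‖ with hg
    have g0 : ∀ r, 0 ≤ g r := fun r => by positivity
    have h2 : ∀ r ∈ Icc 1 K, 1 / (r.totient : ℝ) * PQ X c m r ≤
        (if r ∈ Icc 1 F then E else 0) + if r ∈ Ioc (max 1 F) K then g r else 0 := fun r hr => by
      rw [mem_Icc] at hr
      have r0 : r ≠ 0 := by omega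
      have p2 : (0 : ℝ) ≤ if r ∈ Icc 1 F then E else 0 := by split_ifs <;> positivity
      have p3 : (0 : ℝ) ≤ if r ∈ Ioc (max 1 F) K then g r else 0 := by
        split_ifs
        exacts [g0 r, le_rfl]
      unfold PQ
      by_cases h2 : 2 ≤ r
      swap
      · rw [if_neg h2, mul_zero]
        positivity
      rw [if_pos h2]
      by_cases h3 : r ≤ F
      · rw [if_pos (mem_Icc.2 ⟨hr.1, h3⟩)]
        have := avg_le (f := fun χ => ‖bl X c m χ‖) r0 E0 fun χ hχ => by
          have h4 := small χ hc hX (by omega) (hm.2.trans KX) (fun _ => 0) S0 (by positivity) hV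
            fun k hk h0 => by
              rw [sub_zero]
              refine ((hS2 k hk h0).1 r χ r0 (le_trans (by exact_mod_cast h3) F1)
                (prim_ne_one h2 hχ)).trans (le_trans ?_ (le_add_of_nonneg_right zero_le_one))
              exact mul_le_mul_of_nonneg_left Nat.cast_div_le S0
          simpa only [mul_zero, sum_const_zero, sub_zero] using h4
        linarith
      · rw [if_neg fun h => h3 (mem_Icc.1 h).2, if_pos (mem_Ioc.2 ⟨by omega, hr.2⟩), zero_add]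
    refine (sum_le_sum h2).trans ?_
    rw [sum_add_distrib, sum_ite_mem, sum_ite_mem]
    refine add_le_add ?_ ((sum_le_sum_of_subset_of_nonneg inter_subset_right
      fun _ _ _ => g0 _).trans hII)
    refine (sum_le_sum_of_subset_of_nonneg inter_subset_right fun _ _ _ => E0).trans ?_
    rw [sum_const, Nat.card_Icc, Nat.add_sub_cancel, nsmul_eq_mul]
  have h2 : (1 + Real.log K) ^ 2 ≤ 9 * l ^ 2 := by
    have := log_mono KX
    calc _ ≤ (3 * l) ^ 2 := by gcongr; linarith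
      _ = _ := by ring
  have h3 : ∀ d ∈ Icc 1 K, ‖bl X c d (1 : DirichletCharacter ℂ 1) -
      (X * ∑ k ∈ (Icc 1 X).filter (fun k => k.Coprime d), c k / k : ℝ)‖ ≤ E := fun d hd => by
    rw [mem_Icc] at hd
    have h4 := small (m := d) (1 : DirichletCharacter ℂ 1) hc hX (by omega) (hd.2.trans KX)
      (fun k => ((X / k : ℝ) : ℂ)) S0 (by positivity) hV fun k hk h0 => by
        have h5 : tw (X / k) (fun n => Λ n) (1 : DirichletCharacter ℂ 1) =
            (∑ n ∈ Icc 1 (X / k), Λ n : ℝ) := by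
          simp [tw, MulChar.one_apply (isUnit_of_subsingleton _)]
        rw [h5, ← ofReal_sub, Complex.norm_real, Real.norm_eq_abs]
        refine (abs_sub_le _ ((X / k : ℕ) : ℝ) _).trans (add_le_add ((hS2 k hk h0).2.trans
          (mul_le_mul_of_nonneg_left Nat.cast_div_le S0)) ?_)
        have h6 : (X : ℝ) / k < (X / k : ℕ) + 1 := by
          rw [← Nat.floor_div_eq_div (K := ℝ)]
          exact Nat.lt_floor_add_one _
        have h7 : ((X / k : ℕ) : ℝ) ≤ X / k := Nat.cast_div_le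
        rw [abs_le]
        constructor <;> linarith
    refine le_trans (le_of_eq (congrArg (fun t => ‖bl X c d (1 : DirichletCharacter ℂ 1) - t‖) ?_)) h4
    rw [mul_sum, ofReal_sum, sum_filter]
    refine sum_congr rfl fun k _ => ?_
    rw [ca, MulChar.one_apply (isUnit_of_subsingleton _)]
    split_ifs
    · push_cast
      ring
    · simp
  have h4 : (F + 1) * E ≤ (1 + 2 ^ (A + 7)) * (Z * l ^ 5 * (48 * CS + 56 * c0 * (2 * c0 + 2))) := by
    have h5 : (F : ℝ) + 1 ≤ (1 + 2 ^ (A + 7)) * l ^ (A + 7) := by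
      have := one_le_pow₀ (n := A + 7) l1
      rw [mul_pow] at this
      linarith
    have h6 : l ^ (A + 7) * (X / y) ≤ c0 * D := by
      have h7 : l ^ (A + 7) ≤ c0 * w := hc0 X X1.le
      have h8 : X / y * w ≤ D := by
        refine le_of_mul_le_mul_right ?_ w0
        calc _ = X / y * w ^ 2 := by ring
          _ ≤ X / y * y := by gcongr
          _ = X := div_mul_cancel₀ _ y0.ne'
          _ ≤ _ := by linarith
      calc _ ≤ c0 * w * (X / y) := by gcongr
        _ = c0 * (X / y * w) := by ring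
        _ ≤ _ := by gcongr
    have h7 : l ^ (A + 7) * (S * X) = CS * Z := by
      rw [hS', hZ, two_mul, pow_add l (A + 7)]
      field_simp
    calc _ ≤ (1 + 2 ^ (A + 7)) * l ^ (A + 7) * E := by gcongr
      _ = (1 + 2 ^ (A + 7)) * (3 * (l ^ (A + 7) * (S * X)) * l +
            l ^ (A + 7) * (X / y) * (1 + 3 * l ^ 2)) := by rw [hE]; ring
      _ ≤ (1 + 2 ^ (A + 7)) * (3 * (CS * Z) * (16 * l ^ 5) +
            c0 * D * (32 * l ^ 5 + 3 * (8 * l ^ 5))) := by rw [h7]; gcongr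
      _ = _ := by rw [hD]; ring
  calc _ ≤ ∑ d ∈ Icc 1 K, (1 / (d.totient : ℝ) * ∑ r ∈ d.divisors, PQ X c (d / r) r +
        1 / (d.totient : ℝ) * E) := by
        refine sum_le_sum fun d hd => (ap2 (by have := (mem_Icc.1 hd).1; omega) (ha d hd) X c _).trans ?_
        rw [← mul_add]
        exact mul_le_mul_of_nonneg_left (add_le_add le_rfl (h3 d hd)) (by positivity)
    _ ≤ 9 * l ^ 2 * (F * E + 9216 * CL * l ^ 5 * D) + 9 * l ^ 2 * E := by
        rw [sum_add_distrib, ← sum_mul]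
        refine add_le_add ((sum_div_le2 K _ (PQ_nonneg X c) (by positivity) h1).trans
          (mul_le_mul_of_nonneg_right h2 (by positivity))) ?_
        exact mul_le_mul_of_nonneg_right ((sum_inv_totient K).trans h2) E0
    _ = 9 * l ^ 2 * ((F + 1) * E + 9216 * CL * l ^ 5 * D) := by ring
    _ ≤ 9 * l ^ 2 * ((1 + 2 ^ (A + 7)) * (Z * l ^ 5 * (48 * CS + 56 * c0 * (2 * c0 + 2))) +
          9216 * CL * l ^ 5 * D) := by gcongr
    _ = _ := by
        rw [hD, hZ]
        field_simp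
        ring

end Pool.Agent.P.MP_0ad054_nt.Chen
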