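import Pool.Agent.P.MP_0ad054_nt.Chen.Defs
import Pool.Agent.P.MP_a14ce1_nt.Ch.Mertens

/-! Two sided Mertens product. -/

namespace Pool.Agent.P.MP_0ad054_nt.Chen

open Finset Pool.Agent.P.MP_a14ce1_nt.Ch

namespace DimP

theorem S_close : ∃ K : ℝ, 0 < K ∧ ∀ a b : ℕ, 2 ≤ a → a ≤ b →
    |Mertens.S a b - (Real.log (Real.log b) - Real.log (Real.log a))| ≤ K / Real.log a := by
  obtain ⟨C, hC0, hC⟩ := Mertens.mertens_nat
  refine ⟨3 * C + 1, by linarith, fun a b ha hab => ?_⟩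
  have h1 := Mertens.S_bound hC ha b hab
  have ha1 : (1 : ℝ) < a := by exact_mod_cast (by omega : 1 < a)
  have hla : 0 < Real.log a := Real.log_pos ha1
  have hlab : Real.log a ≤ Real.log b :=
    Real.log_le_log (by linarith) (by exact_mod_cast hab)
  have hlb : 0 < Real.log b := hla.trans_le hlab
  have h2 : |(Mertens.A a - Real.log a) / Real.log a| ≤ C * (1 / Real.log a) := by
    rw [abs_div, abs_of_pos hla, mul_one_div]
    gcongr
    exact hC a (by omega)
  have h3 : |(Mertens.A b - Real.log b) / Real.log b| ≤ C * (1 / Real.log a) := by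
    rw [abs_div, abs_of_pos hlb, mul_one_div]
    have := hC b (by omega)
    gcongr
  have h4 : 0 < 1 / Real.log b := by positivity
  have h5 : (3 * C + 1) / Real.log a = (3 * C + 1) * (1 / Real.log a) := by ring
  rw [h5]
  rw [abs_le] at h1 h2 h3 ⊢
  constructor <;> nlinarith [h1.1, h1.2, h2.1, h2.2, h3.1, h3.2]

theorem inv_le {l : ℕ} (hl : 4 ≤ l) :
    0 ≤ (1 - gg l)⁻¹ ∧ (1 - gg l)⁻¹ ≤ Real.exp (1 / l + 4 * ((l : ℝ) ^ 2)⁻¹) := by
  have h : (4 : ℝ) ≤ l := by exact_mod_cast hl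
  have h1 : (l : ℝ) - 1 ≠ 0 := by linarith
  have h2 : (0 : ℝ) < l - 2 := by linarith
  have e : (1 - gg l)⁻¹ = 1 / ((l : ℝ) - 2) + 1 := by
    unfold gg
    have : 1 - 1 / ((l : ℝ) - 1) = (l - 2) / (l - 1) := by field_simp; ring
    rw [this, inv_div]
    field_simp
    ring
  rw [e]
  refine ⟨by positivity, (Real.add_one_le_exp _).trans (Real.exp_le_exp.2 ?_)⟩
  have e2 : 1 / (l : ℝ) + 4 * ((l : ℝ) ^ 2)⁻¹ = (l + 4) / l ^ 2 := by field_simp
  rw [e2, div_le_div_iff₀ h2 (by positivity)]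
  nlinarith

theorem le_exp {l : ℕ} (hl : 4 ≤ l) : 0 ≤ 1 - gg l ∧ 1 - gg l ≤ Real.exp (-(1 / l)) := by
  have h : (4 : ℝ) ≤ l := by exact_mod_cast hl
  have h1 : (0 : ℝ) < l - 1 := by linarith
  have h2 : gg l ≤ 1 := by
    unfold gg
    rw [div_le_one h1]; linarith
  have h3 : 1 / (l : ℝ) ≤ gg l := one_div_le_one_div_of_le h1 (by linarith)
  have h4 := Real.add_one_le_exp (-(1 / (l : ℝ)))
  exact ⟨by linarith, by linarith⟩

theorem floor_log {w : ℝ} (hw : 3 ≤ w) :
    Real.log w ≤ Real.log ⌊w⌋₊ * Real.exp (1 / Real.log ⌊w⌋₊) := by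
  have h1 : 3 ≤ ⌊w⌋₊ := Nat.le_floor (by exact_mod_cast hw)
  have h2 : (1 : ℝ) < ⌊w⌋₊ := by exact_mod_cast (by omega : 1 < ⌊w⌋₊)
  have h3 := Real.log_pos h2
  have h4 := (Mertens.log_floor (y := w) (by linarith)).2
  have h5 := Real.add_one_le_exp (1 / Real.log ⌊w⌋₊)
  calc _ ≤ Real.log ⌊w⌋₊ + 1 := h4
    _ = Real.log ⌊w⌋₊ * (1 / Real.log ⌊w⌋₊ + 1) := by field_simp; ring
    _ ≤ _ := by gcongr

end DimP

open DimP in
theorem dim : S_Dim := by
  obtain ⟨K, hK, hS⟩ := S_close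
  intro η hη
  have hl : 0 < Real.log (1 + η) := Real.log_pos (by linarith)
  refine ⟨max 3 (Real.exp ((K + 5) / Real.log (1 + η) + 1)), le_max_left _ _,
    fun w z hw hwz => ?_⟩
  have hw3 : 3 ≤ w := (le_max_left _ _).trans hw
  have hwe : (K + 5) / Real.log (1 + η) + 1 ≤ Real.log w := by
    rw [Real.le_log_iff_exp_le (by linarith)]
    exact (le_max_right _ _).trans hw
  have f1 := floor_log hw3
  have f2 := floor_log (hw3.trans hwz)
  have f3 := Mertens.log_floor (y := w) (by linarith)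
  have f4 := (Mertens.log_floor (y := z) (by linarith)).1
  have ha : 3 ≤ ⌊w⌋₊ := Nat.le_floor (by exact_mod_cast hw3)
  have hab : ⌊w⌋₊ ≤ ⌊z⌋₊ := Nat.floor_le_floor hwz
  have hmem : ∀ l ∈ prs w z, 4 ≤ l := fun l hl => by
    have := (mem_Ioc.1 (mem_filter.1 hl).1).1
    omega
  have hSe : ∑ l ∈ prs w z, (1 : ℝ) / l = Mertens.S ⌊w⌋₊ ⌊z⌋₊ := rfl
  have hsq : ∑ l ∈ prs w z, ((l : ℝ) ^ 2)⁻¹ ≤ ((⌊w⌋₊ : ℕ) : ℝ)⁻¹ := by
    have h1 := sum_Ioc_inv_sq_le_sub (α := ℝ) (k := ⌊w⌋₊) (by omega) hab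
    have h2 : ∑ l ∈ prs w z, ((l : ℝ) ^ 2)⁻¹ ≤ ∑ l ∈ Ioc ⌊w⌋₊ ⌊z⌋₊, ((l : ℝ) ^ 2)⁻¹ :=
      sum_le_sum_of_subset_of_nonneg (filter_subset _ _) fun _ _ _ => by positivity
    have h3 : (0 : ℝ) ≤ ((⌊z⌋₊ : ℕ) : ℝ)⁻¹ := by positivity
    linarith
  have h0 := hS _ _ (by omega) hab
  generalize Mertens.S ⌊w⌋₊ ⌊z⌋₊ = s at hSe h0
  set a := ⌊w⌋₊
  set b := ⌊z⌋₊
  have ha1 : (1 : ℝ) < a := by exact_mod_cast (by omega : 1 < a)
  have hla : 0 < Real.log a := Real.log_pos ha1
  have hlab : Real.log a ≤ Real.log b := Real.log_le_log (by linarith) (by exact_mod_cast hab)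
  have hlb : 0 < Real.log b := hla.trans_le hlab
  have hlw : 0 < Real.log w := hla.trans_le f3.1
  have hlz : 0 < Real.log z := hlb.trans_le f4
  set u := 1 / Real.log a with hu
  have hu0 : 0 < u := by positivity
  have hKu : K / Real.log a = K * u := by rw [hu]; ring
  rw [hKu, abs_le] at h0
  have hE : Real.exp ((K + 5) * u) ≤ 1 + η := by
    rw [← Real.le_log_iff_exp_le (by linarith), hu, mul_one_div, div_le_iff₀ hla]
    have : (K + 5) / Real.log (1 + η) ≤ Real.log a := by linarith [f3.2]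
    rw [div_le_iff₀ hl] at this
    linarith
  have hau : (a : ℝ)⁻¹ ≤ u := by
    rw [hu, one_div]
    exact inv_anti₀ hla (by linarith [Real.log_le_sub_one_of_pos (x := a) (by linarith)])
  constructor
  · calc _ ≤ ∏ l ∈ prs w z, Real.exp (1 / l + 4 * ((l : ℝ) ^ 2)⁻¹) :=
          prod_le_prod (fun l hl => (inv_le (hmem l hl)).1) fun l hl => (inv_le (hmem l hl)).2
      _ = Real.exp (s + 4 * ∑ l ∈ prs w z, ((l : ℝ) ^ 2)⁻¹) := by
          rw [← Real.exp_sum, sum_add_distrib, hSe, mul_sum]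
      _ ≤ Real.exp (Real.log (Real.log b) - Real.log (Real.log a) + (K + 4) * u) :=
          Real.exp_le_exp.2 (by nlinarith [h0.2])
      _ = Real.log b / Real.log a * Real.exp ((K + 4) * u) := by
          rw [Real.exp_add, Real.exp_sub, Real.exp_log hla, Real.exp_log hlb]
      _ ≤ Real.log z / Real.log w * Real.exp u * Real.exp ((K + 4) * u) := by
          gcongr
          rw [div_mul_eq_mul_div, div_le_div_iff₀ hla hlw]
          calc Real.log b * Real.log w ≤ Real.log z * (Real.log a * Real.exp u) := by gcongr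
            _ = _ := by ring
      _ = Real.log z / Real.log w * Real.exp ((K + 5) * u) := by
          rw [mul_assoc, ← Real.exp_add]; congr 2; ring
      _ ≤ Real.log z / Real.log w * (1 + η) := by gcongr
      _ = _ := by ring
  · have hbu : Real.exp (1 / Real.log b) ≤ Real.exp u :=
      Real.exp_le_exp.2 (one_div_le_one_div_of_le hla hlab)
    calc _ ≤ ∏ l ∈ prs w z, Real.exp (-(1 / l)) :=
          prod_le_prod (fun l hl => (le_exp (hmem l hl)).1) fun l hl => (le_exp (hmem l hl)).2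
      _ = Real.exp (-s) := by rw [← Real.exp_sum, sum_neg_distrib, hSe]
      _ ≤ Real.exp (Real.log (Real.log a) - Real.log (Real.log b) + (K + 4) * u) :=
          Real.exp_le_exp.2 (by nlinarith [h0.1])
      _ = Real.log a / Real.log b * Real.exp ((K + 4) * u) := by
          rw [Real.exp_add, Real.exp_sub, Real.exp_log hla, Real.exp_log hlb]
      _ ≤ Real.log w / Real.log z * Real.exp u * Real.exp ((K + 4) * u) := by
          gcongr
          rw [div_mul_eq_mul_div, div_le_div_iff₀ hlb hlz]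
          have f5 : Real.log z ≤ Real.log b * Real.exp u := f2.trans (by gcongr)
          have f6 := f3.1
          calc Real.log a * Real.log z ≤ Real.log w * (Real.log b * Real.exp u) := by gcongr
            _ = _ := by ring
      _ = Real.log w / Real.log z * Real.exp ((K + 5) * u) := by
          rw [mul_assoc, ← Real.exp_add]; congr 2; ring
      _ ≤ Real.log w / Real.log z * (1 + η) := by gcongr
      _ = _ := by ring

end Pool.Agent.P.MP_0ad054_nt.Chen
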