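import Pool.Agent.P.MP_0ad054_nt.Chen.Defs
import Pool.Agent.P.MP_0ad054_nt.Sun.Weights

/-! The fundamental lemma of the sieve, weight form. -/

namespace Pool.Agent.P.MP_0ad054_nt.Chen

open Finset Pool.Agent.P.MP_0ad054_nt.Sun Pool.Agent.Lib.H9 Pool.Agent.P.MP_0ad054_nt.Sun.WeightsP

namespace FLP

/-- relative error of a block -/
noncomputable def tt (k z : ℕ) (P : Finset ℕ) (g : ℕ → ℝ) (j : Fin z) : ℝ :=
  (∑ i ∈ blk z P j, g i) ^ (2 * (k + j) + 1) / (2 * (k + j) + 1).factorial /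
    ∏ i ∈ blk z P j, (1 - g i)

theorem tail2 {k z : ℕ} {P : Finset ℕ} {g : ℕ → ℝ}
    (hP : ∀ p ∈ P, p.Prime ∧ p ≤ z) (hg : ∀ p ∈ P, 0 ≤ g p ∧ g p ≤ 2 / p ∧ g p ≤ 1 / 2) :
    ∑ j : Fin z, tt k z P g j ≤ Real.exp 48 / 2 ^ k := by
  have hBP : ∀ j, blk z P j ⊆ P := fun j => filter_subset _ _
  have hblock : ∀ j, ∑ i ∈ blk z P j, g i ≤ 12 := by
    intro j
    have h1 : ∑ p ∈ blk z P j, (1 : ℝ) / p ≤ 6 := by
      refine sum_inv_block_le _ (fun p hp => (hP p (hBP j hp)).1) ?_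
      intro p hp q hq
      have hp' := bidx_spec (hP p (hBP j hp)).1.two_le (hP p (hBP j hp)).2
      have hq' := bidx_spec (hP q (hBP j hq)).1.two_le (hP q (hBP j hq)).2
      rw [(mem_filter.1 hp).2] at hp'
      rw [(mem_filter.1 hq).2] at hq'
      have : q ^ 2 ^ (j : ℕ) < (p ^ 2) ^ 2 ^ (j : ℕ) := by
        rw [← pow_mul, ← pow_succ']; omega
      exact lt_of_pow_lt_pow_left₀ _ (Nat.zero_le _) this
    calc ∑ i ∈ blk z P j, g i ≤ ∑ i ∈ blk z P j, 2 * (1 / (i : ℝ)) :=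
          sum_le_sum fun i hi => by rw [mul_one_div]; exact (hg i (hBP j hi)).2.1
      _ = 2 * ∑ i ∈ blk z P j, (1 : ℝ) / i := by rw [mul_sum]
      _ ≤ 12 := by linarith
  have h1 : ∀ j : Fin z, tt k z P g j ≤ Real.exp 48 / 2 ^ k / 2 * (1 / 2) ^ (j : ℕ) := by
    intro j
    unfold tt
    have hs0 : 0 ≤ ∑ i ∈ blk z P j, g i := sum_nonneg fun i hi => (hg i (hBP j hi)).1
    have hV := exp_neg_le_prod (blk z P j) g (η := 1 / 2) (by norm_num)
      (fun i hi => ⟨(hg i (hBP j hi)).1, by linarith [(hg i (hBP j hi)).2.2]⟩)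
    have hV2 : Real.exp (-24) ≤ ∏ i ∈ blk z P j, (1 - g i) := by
      refine le_trans (Real.exp_le_exp.2 ?_) hV
      have := hblock j
      linarith
    set m := 2 * (k + j) + 1 with hm
    have h2 : (∑ i ∈ blk z P j, g i) ^ m / (m.factorial : ℝ) ≤ Real.exp 24 / 2 ^ m := by
      calc (∑ i ∈ blk z P j, g i) ^ m / (m.factorial : ℝ) ≤ 12 ^ m / m.factorial := by
            gcongr; exact hblock j
        _ = (2 * 12) ^ m / m.factorial / 2 ^ m := by rw [mul_pow 2 12]; field_simp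
        _ ≤ _ := by
          gcongr
          have := Real.pow_div_factorial_le_exp (2 * 12) (by norm_num) m
          norm_num at this ⊢
          exact this
    have h3 : (2 : ℝ) ^ k * 2 * 2 ^ (j : ℕ) ≤ 2 ^ m := by
      rw [← pow_succ, ← pow_add]
      exact pow_le_pow_right₀ (by norm_num) (by omega)
    calc _ ≤ Real.exp 24 / 2 ^ m / Real.exp (-24) := by gcongr
      _ = Real.exp 48 / 2 ^ m := by
        rw [Real.exp_neg, show (48 : ℝ) = 24 + 24 by norm_num, Real.exp_add]; field_simp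
      _ ≤ Real.exp 48 / (2 ^ k * 2 * 2 ^ (j : ℕ)) := by gcongr
      _ = _ := by rw [one_div_pow]; field_simp
  refine (sum_le_sum fun j _ => h1 j).trans ?_
  rw [← mul_sum, Fin.sum_univ_eq_sum_range (fun j => (1 / 2 : ℝ) ^ j) z]
  have h2 := sum_geometric_two_le z
  have h3 : 0 ≤ Real.exp 48 / 2 ^ k := by positivity
  nlinarith

section

variable {k z : ℕ} {P : Finset ℕ} {g : ℕ → ℝ}

theorem V_pos (hg : ∀ p ∈ P, 0 ≤ g p ∧ g p ≤ 2 / p ∧ g p ≤ 1 / 2) (j : Fin z) :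
    0 < ∏ i ∈ blk z P j, (1 - g i) :=
  prod_pos fun i hi => by linarith [(hg i (mem_filter.1 hi).1).2.2]

theorem g01 (hg : ∀ p ∈ P, 0 ≤ g p ∧ g p ≤ 2 / p ∧ g p ≤ 1 / 2) (j : Fin z) :
    ∀ i ∈ blk z P j, 0 ≤ g i ∧ g i ≤ 1 := fun i hi =>
  ⟨(hg i (mem_filter.1 hi).1).1, by linarith [(hg i (mem_filter.1 hi).1).2.2]⟩

theorem tt_nonneg (hg : ∀ p ∈ P, 0 ≤ g p ∧ g p ≤ 2 / p ∧ g p ≤ 1 / 2) (j : Fin z) :
    0 ≤ tt k z P g j := by
  have h1 := V_pos hg j
  have h2 : 0 ≤ ∑ i ∈ blk z P j, g i := sum_nonneg fun i hi => (g01 hg j i hi).1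
  unfold tt
  positivity

theorem Z_le (hg : ∀ p ∈ P, 0 ≤ g p ∧ g p ≤ 2 / p ∧ g p ≤ 1 / 2) (j : Fin z) :
    sform (blk z P j) (cZ (2 * (k + j) + 1)) g ≤ (∏ i ∈ blk z P j, (1 - g i)) * tt k z P g j := by
  have h1 := V_pos hg j
  refine (sform_cZ_le _ g (fun i hi => (g01 hg j i hi).1) _).trans (le_of_eq ?_)
  unfold tt
  field_simp

theorem Y_le (hP : ∀ p ∈ P, p.Prime ∧ p ≤ z)
    (hg : ∀ p ∈ P, 0 ≤ g p ∧ g p ≤ 2 / p ∧ g p ≤ 1 / 2) :
    ∏ j, sform (blk z P j) (cy k z j) g ≤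
      (∏ l ∈ P, (1 - g l)) * Real.exp (Real.exp 48 / 2 ^ k) := by
  have hb : ∀ p ∈ P, bidx z p < z := fun p hp => (bidx_spec (hP p hp).1.two_le (hP p hp).2).2.2
  have h1 : ∀ j, sform (blk z P j) (cy k z j) g ≤
      (∏ i ∈ blk z P j, (1 - g i)) * Real.exp (tt k z P g j) := by
    intro j
    have a1 := sform_cY_sub_le _ _ (g01 hg j) (k + j)
    have a2 := Z_le (k := k) hg j
    have a3 := Real.add_one_le_exp (tt k z P g j)
    have a4 := V_pos hg j
    unfold cy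
    nlinarith
  calc _ ≤ ∏ j, (∏ i ∈ blk z P j, (1 - g i)) * Real.exp (tt k z P g j) :=
        prod_le_prod (fun j _ => (V_pos hg j).le.trans (prod_le_sform_cY _ _ (g01 hg j) _))
          fun j _ => h1 j
    _ = (∏ l ∈ P, (1 - g l)) * Real.exp (∑ j, tt k z P g j) := by
        rw [prod_mul_distrib, prod_blk hb, Real.exp_sum]
    _ ≤ _ := by
        have : 0 ≤ ∏ l ∈ P, (1 - g l) :=
          prod_nonneg fun i hi => by linarith [(hg i hi).2.2]
        gcongr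
        exact tail2 hP hg

theorem corr_le (hg : ∀ p ∈ P, 0 ≤ g p ∧ g p ≤ 2 / p ∧ g p ≤ 1 / 2) :
    ∑ l, ∏ j, sform (blk z P j) (cz k z l j) g ≤
      (∏ j, sform (blk z P j) (cy k z j) g) * ∑ j, tt k z P g j := by
  have hVy : ∀ j, ∏ i ∈ blk z P j, (1 - g i) ≤ sform (blk z P j) (cy k z j) g :=
    fun j => prod_le_sform_cY _ _ (g01 hg j) _
  rw [mul_sum]
  refine sum_le_sum fun l _ => ?_
  rw [hsplit, ← mul_prod_erase univ (fun j => sform (blk z P j) (cy k z j) g) (mem_univ l)]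
  have hP : 0 ≤ ∏ j ∈ univ.erase l, sform (blk z P j) (cy k z j) g :=
    prod_nonneg fun j _ => (V_pos hg j).le.trans (hVy j)
  rw [mul_right_comm]
  refine mul_le_mul_of_nonneg_right ?_ hP
  exact (Z_le hg l).trans (mul_le_mul_of_nonneg_right (hVy l) (tt_nonneg hg l))

end

/-- the upper bound weight -/
noncomputable def up (k z : ℕ) (T : Finset ℕ) : ℝ := ∏ j, cy k z j (blk z T j).card

theorem exp_sub_one_le {x : ℝ} : Real.exp x - 1 ≤ x * Real.exp x := by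
  have h1 := Real.add_one_le_exp (-x)
  have h2 := Real.exp_pos x
  have h3 : Real.exp (-x) * Real.exp x = 1 := by rw [← Real.exp_add]; simp
  nlinarith

end FLP

open FLP in
theorem fl : S_FL := by
  set E := Real.exp 48 with hE
  have hE0 : 0 < E := Real.exp_pos _
  refine ⟨E * Real.exp E, by positivity, fun σ k P g z hσ hz hA hPz => ?_⟩
  by_cases hz2 : z < 2
  · have hP : P = ∅ := by
      refine eq_empty_of_forall_notMem fun l hl => ?_
      have h1 : (2 : ℝ) ≤ l := by exact_mod_cast (hA l hl).1.two_le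
      linarith [hPz l hl]
    subst hP
    refine ⟨fun _ => 1, ⟨fun _ => by simp, fun T hT _ => ?_, fun w _ => by simp [Sf]⟩, ?_⟩
    · rw [subset_empty.1 hT]
      simpa using one_le_pow₀ hz
    · simp only [Sf, powerset_empty, sum_singleton, prod_empty, mul_one, sub_self, mul_zero]
      positivity
  push Not at hz2
  set Z := ⌊z⌋₊ with hZ
  have hZ2 : 2 ≤ Z := Nat.le_floor (by exact_mod_cast hz2)
  have hP : ∀ p ∈ P, p.Prime ∧ p ≤ Z := fun p hp => ⟨(hA p hp).1, Nat.le_floor (hPz p hp)⟩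
  have hg : ∀ p ∈ P, 0 ≤ g p ∧ g p ≤ 2 / p ∧ g p ≤ 1 / 2 := fun p hp => (hA p hp).2
  have hb : ∀ p ∈ P, bidx Z p < Z := fun p hp => (bidx_spec (hP p hp).1.two_le (hP p hp).2).2.2
  have hlev : ∀ T ⊆ P, (∀ j : Fin Z, (blk Z T j).card ≤ 2 * (k + j) + 1) →
      ((∏ l ∈ T, l : ℕ) : ℝ) ≤ z ^ (4 * k + 6) := by
    intro T hT hc
    have h1 := level hZ2 (fun p hp => hP p (hT hp)) hc
    have h2 : (Z : ℝ) ≤ z := Nat.floor_le (by linarith)
    calc ((∏ l ∈ T, l : ℕ) : ℝ) ≤ ((Z ^ (4 * k + 6) : ℕ) : ℝ) := by exact_mod_cast h1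
      _ = (Z : ℝ) ^ (4 * k + 6) := by push_cast; rfl
      _ ≤ _ := by gcongr
  have hV : 0 ≤ ∏ l ∈ P, (1 - g l) := prod_nonneg fun i hi => by linarith [(hg i hi).2.2]
  have hx : E / 2 ^ k ≤ E := div_le_self hE0.le (one_le_pow₀ one_le_two)
  have hx0 : 0 ≤ E / 2 ^ k := by positivity
  have hex : Real.exp (E / 2 ^ k) ≤ Real.exp E := Real.exp_le_exp.2 hx
  have hY := Y_le (k := k) hP hg
  have hw01 : ∀ w : ℕ → ℝ, (∀ l, w l = 0 ∨ w l = 1) → ∀ i, 0 ≤ w i ∧ w i ≤ 1 := by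
    intro w hw i
    rcases hw i with h | h <;> rw [h] <;> norm_num
  rcases hσ with rfl | rfl
  · have hS : ∀ w, Sf P (up k Z) w = ∏ j, sform (blk Z P j) (cy k Z j) w := fun w =>
      sum_pow_eq hb _ w
    refine ⟨up k Z, ⟨fun T => ?_, fun T hT h => hlev T hT fun j => ?_, fun w hw => ?_⟩, ?_⟩
    · unfold up
      rw [abs_prod]
      exact prod_le_one (fun _ _ => abs_nonneg _) (fun j _ => abs_cY _ _)
    · by_contra hc
      refine h (prod_eq_zero (mem_univ j) ?_)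
      simp only [cy, cY]
      rw [if_neg (by omega)]
    · rw [one_mul, hS, ← prod_blk hb, sub_nonneg]
      exact prod_le_prod (fun j _ => prod_nonneg fun i _ => by linarith [(hw01 w hw i).2])
        fun j _ => prod_le_sform_cY _ _ (fun i _ => hw01 w hw i) _
    · rw [one_mul, hS]
      have h1 := exp_sub_one_le (x := E / 2 ^ k)
      have h2 : Real.exp (E / 2 ^ k) - 1 ≤ E * Real.exp E / 2 ^ k := by
        calc _ ≤ E / 2 ^ k * Real.exp (E / 2 ^ k) := h1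
          _ ≤ E / 2 ^ k * Real.exp E := by gcongr
          _ = _ := by ring
      nlinarith [mul_le_mul_of_nonneg_left h2 hV]
  · refine ⟨lam k Z, ⟨abs_lam k Z, fun T hT h => hlev T hT (card_le_of_lam h), fun w hw => ?_⟩, ?_⟩
    · have := upper hb k w (hw01 w hw)
      linarith
    · rw [Sf_eq hb]
      have h1 := corr_le (k := k) (z := Z) hg
      have h2 : ∏ l ∈ P, (1 - g l) ≤ ∏ j, sform (blk Z P j) (cy k Z j) g := by
        rw [← prod_blk hb]
        exact prod_le_prod (fun j _ => (V_pos hg j).le)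
          fun j _ => prod_le_sform_cY _ _ (g01 hg j) _
      have h3 := tail2 (k := k) hP hg
      have h4 : 0 ≤ ∑ j, tt k Z P g j := sum_nonneg fun j _ => tt_nonneg hg j
      have h5 : (∏ j, sform (blk Z P j) (cy k Z j) g) * ∑ j, tt k Z P g j ≤
          (∏ l ∈ P, (1 - g l)) * Real.exp E * (E / 2 ^ k) := by
        refine mul_le_mul (hY.trans ?_) h3 h4 (by positivity)
        gcongr
      have h6 : (∏ l ∈ P, (1 - g l)) * Real.exp E * (E / 2 ^ k) =
          E * Real.exp E / 2 ^ k * ∏ l ∈ P, (1 - g l) := by ring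
      linarith

end Pool.Agent.P.MP_0ad054_nt.Chen
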