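import Pool.Agent.P.MP_0ad054_nt.Chen.LinB

/-! The linear sieve by a duality argument. -/

namespace Pool.Agent.P.MP_0ad054_nt.Chen

open Finset Pool.Agent.P.MP_0ad054_nt.Sun

namespace LinP

lemma restrict {s T c : ℝ} (h : Valid 1 T c) (hc : 0 ≤ c) (hs : 0 < s) (hT : s ≤ T) :
    Valid 1 s ((1 + c) * T / s - 1) := by
  have := buchV 1 s T 1 c 1 0 (fun _ => s - 1) (fun _ => 1) (fun _ => 0) (fun _ => 0) hs hT
    zero_le_one hc (by simp) (fun _ _ => valid_low _) (fun _ _ => by linarith)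
    (fun x hx _ => ⟨0, by simp, by linarith, by simp⟩) h
  refine valid_mono this le_rfl (le_of_eq ?_)
  simp only [range_zero, sum_empty]
  ring

lemma abel (a : ℕ → ℝ) (R : ℕ) :
    ∑ r ∈ range R, (a r - a (r + 1)) * (r + 1) + R * a R = ∑ r ∈ range R, a r := by
  induction R with
  | zero => simp
  | succ R ih => rw [sum_range_succ, sum_range_succ, ← ih]; push_cast; ring

lemma disc (σ c : ℝ) (M m R : ℕ) (hM : 0 < M) (G : ℕ → ℝ)
    (hG : ∀ i, m ≤ i → Valid (-σ) ((i : ℝ) / M) (G i)) (hG0 : ∀ i, 0 ≤ G i)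
    (hG1 : ∀ i, m ≤ i → G (i + 1) ≤ G i) (hc : 0 ≤ c)
    (hV : Valid σ (((m + R + M : ℕ) : ℝ) / M) c) :
    Valid σ (((m + M : ℕ) : ℝ) / M)
      ((∑ i ∈ Ico m (m + R), G i + ((m + R + M : ℕ) : ℝ) * c) / ((m + M : ℕ) : ℝ)) := by
  have hM' : (0 : ℝ) < M := by exact_mod_cast hM
  have hj : (0 : ℝ) < ((m + M : ℕ) : ℝ) := by push_cast; positivity
  have := buchV σ (((m + M : ℕ) : ℝ) / M) (((m + R + M : ℕ) : ℝ) / M) (G (m + R)) c R R
    (fun r => ((m + r : ℕ) : ℝ) / M) (fun r => G (m + r))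
    (fun r => ((m + M + r + 1 : ℕ) : ℝ) / M) (fun r => G (m + r) - G (m + r + 1))
    (by positivity)
    (div_le_div_of_nonneg_right (by exact_mod_cast (by omega)) hM'.le) (hG0 _) hc
    (fun r _ => ⟨by linarith [hG1 (m + r) (by omega)],
      div_le_div_of_nonneg_right (by exact_mod_cast (by omega)) hM'.le⟩)
    (fun r _ => hG _ (by omega)) (fun r _ => by positivity)
    (by
      intro x hx1 hx2
      rw [div_le_iff₀ hM'] at hx1
      rw [lt_div_iff₀ hM'] at hx2
      have hx0 : 0 ≤ x * M := hj.le.trans hx1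
      have h1 : m + M ≤ ⌊x * M⌋₊ := Nat.le_floor hx1
      have h2 : ⌊x * M⌋₊ < m + R + M := (Nat.floor_lt hx0).2 hx2
      obtain ⟨r, hr⟩ := Nat.exists_eq_add_of_le h1
      have hrR : r < R := by omega
      have h3 : ((m + M + r : ℕ) : ℝ) ≤ x * M := by rw [← hr]; exact Nat.floor_le hx0
      have h4 : x * M < ((m + M + r : ℕ) : ℝ) + 1 := by rw [← hr]; exact Nat.lt_floor_add_one _
      refine ⟨r, mem_range.2 hrR, ?_, ?_⟩
      · rw [div_add_one hM'.ne', div_le_iff₀ hM']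
        push_cast at h3 ⊢; linarith
      · have e1 : ∑ j ∈ Ico r R, (G (m + j) - G (m + j + 1)) = G (m + r) - G (m + R) := by
          have := sum_Ico_sub (fun j => -G (m + j)) hrR.le
          simp only [neg_sub_neg] at this
          rw [← this]
          exact sum_congr rfl fun j _ => by rw [add_assoc]
        have e2 : ∑ j ∈ Ico r R, (G (m + j) - G (m + j + 1)) ≤ ∑ j ∈ range R,
            if x < ((m + M + j + 1 : ℕ) : ℝ) / M then G (m + j) - G (m + j + 1) else 0 := by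
          rw [← sum_filter]
          refine sum_le_sum_of_subset_of_nonneg (fun j hj => ?_) fun j _ _ => by
            linarith [hG1 (m + j) (by omega)]
          have := mem_Ico.1 hj
          refine mem_filter.2 ⟨mem_range.2 this.2, ?_⟩
          rw [lt_div_iff₀ hM']
          have h5 : (r : ℝ) ≤ j := by exact_mod_cast this.1
          push_cast at h4 ⊢; linarith
        linarith)
    hV
  refine valid_mono this le_rfl (le_of_eq ?_)
  rw [sum_Ico_eq_sum_range, Nat.add_sub_cancel_left, ← abel (fun r => G (m + r)) R,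
    eq_div_iff hj.ne', add_mul, add_mul, sum_mul]
  congr 1
  · congr 1
    · refine sum_congr rfl fun r _ => ?_
      rw [add_assoc m r 1]
      field_simp
      push_cast; ring
    · field_simp
      push_cast; ring
  · field_simp

noncomputable def Fs (σ s : ℝ) : ℝ := sInf {c | 0 ≤ c ∧ Valid σ s c}

lemma Fs_nonneg (σ s : ℝ) : 0 ≤ Fs σ s := Real.sInf_nonneg fun _ h => h.1

lemma Fs_le {σ s c : ℝ} (hc : 0 ≤ c) (h : Valid σ s c) : Fs σ s ≤ c :=
  csInf_le ⟨0, fun _ h => h.1⟩ ⟨hc, h⟩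

lemma Fs_valid {σ s : ℝ} (h : ∃ c, 0 ≤ c ∧ Valid σ s c) : Valid σ s (Fs σ s) := by
  refine valid_closed fun ε hε => ?_
  obtain ⟨c, hc, hc2⟩ := Real.lt_sInf_add_pos (s := {c | 0 ≤ c ∧ Valid σ s c}) h hε
  exact valid_mono hc.2 le_rfl hc2.le

lemma dbl (f : ℕ → ℝ) (hf : ∀ i, 0 ≤ f i) (M b n : ℕ) :
    ∑ j ∈ Ico (b + M) n, ∑ i ∈ Ico (j - M) n, f i ≤ ∑ i ∈ Ico b n, ((i : ℝ) - b + 1) * f i := by
  calc _ = ∑ j ∈ Ico (b + M) n, ∑ i ∈ Ico b n, if j ≤ i + M then f i else 0 := by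
        refine sum_congr rfl fun j hj => ?_
        rw [← sum_filter]
        refine sum_congr ?_ fun _ _ => rfl
        have := mem_Ico.1 hj
        ext i; simp only [mem_Ico, mem_filter]; omega
    _ ≤ _ := by
        rw [sum_comm]
        refine sum_le_sum fun i hi => ?_
        rw [← sum_filter, sum_const, nsmul_eq_mul]
        refine mul_le_mul_of_nonneg_right ?_ (hf i)
        have h1 := mem_Ico.1 hi
        have h2 : ((Ico (b + M) n).filter (fun j => j ≤ i + M)).card ≤ i - b + 1 := by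
          refine (card_le_card (t := Icc (b + M) (i + M)) fun j hj => ?_).trans ?_
          · simp only [mem_Ico, mem_filter, mem_Icc] at hj ⊢; omega
          · rw [Nat.card_Icc]; omega
        have h3 : ((i - b + 1 : ℕ) : ℝ) = (i : ℝ) - b + 1 := by
          rw [Nat.cast_add, Nat.cast_sub h1.1]; simp
        rw [← h3]; exact_mod_cast h2

lemma sum_lin (M R : ℕ) : ∑ i ∈ Ico M (M + R), ((i : ℝ) - M + 1) = R * (R + 1) / 2 := by
  induction R with
  | zero => simp
  | succ R ih =>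
    rw [← add_assoc, sum_Ico_succ_top (by omega), ih]; push_cast; ring

lemma harm (M R : ℕ) (hM : 0 < M) :
    Real.log ((M + R : ℕ) : ℝ) - Real.log M ≤ ∑ i ∈ Ico M (M + R), 1 / (i : ℝ) := by
  induction R with
  | zero => simp
  | succ R ih =>
    rw [← add_assoc, sum_Ico_succ_top (by omega)]
    have h0 : (0 : ℝ) < ((M + R : ℕ) : ℝ) := by exact_mod_cast (by omega : 0 < M + R)
    have h1 : Real.log ((M + R + 1 : ℕ) : ℝ) - Real.log ((M + R : ℕ) : ℝ) ≤
        1 / ((M + R : ℕ) : ℝ) := by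
      rw [← Real.log_div (by positivity) h0.ne']
      refine (Real.log_le_sub_one_of_pos (by positivity)).trans (le_of_eq ?_)
      field_simp
      push_cast; ring
    linarith

lemma lp (M n : ℕ) (hM : 2 ≤ M) (hn : 4 * M ≤ n) (A e : ℝ) (hA0 : 0 ≤ A) (u v : ℕ → ℝ)
    (hu : ∀ i, 0 ≤ u i) (hv : ∀ i, 0 ≤ v i) (he : 0 ≤ e)
    (ha : ∀ j, 2 * M ≤ j → j ≤ n → j * v j ≤ ∑ i ∈ Ico (j - M) n, u i + e)
    (hb : ∀ j, 3 * M ≤ j → j ≤ n → j * u j ≤ ∑ i ∈ Ico (j - M) n, v i + e)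
    (hA : ∀ i, M ≤ i → i ≤ 3 * M → u i = A * M / i - 1) :
    4 * v (4 * M) ≤ 4 - A * Real.log 3 + A / (M - 1) + 3 * n * e := by
  have hM' : (2 : ℝ) ≤ M := by exact_mod_cast hM
  have hn' : 4 * (M : ℝ) ≤ n := by exact_mod_cast hn
  set SU := ∑ i ∈ Ico (3 * M) n, u i with hSU
  set SV := ∑ i ∈ Ico (2 * M) n, v i with hSV
  set H := ∑ i ∈ Ico M (3 * M), 1 / (i : ℝ) with hH
  have hH3 : Real.log 3 ≤ H := by
    have := harm M (2 * M) (by omega)
    rw [show M + 2 * M = 3 * M by ring, Nat.cast_mul, Real.log_mul (by norm_num) (by linarith)]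
      at this
    push_cast at this
    linarith
  have c1 : ∀ a : ℕ, ∑ _j ∈ Ico a n, e ≤ n * e := fun a => by
    rw [sum_const, nsmul_eq_mul, Nat.card_Ico]
    exact mul_le_mul_of_nonneg_right (by exact_mod_cast Nat.sub_le n a) he
  have h1 : ∑ j ∈ Ico (2 * M) n, (j : ℝ) * v j ≤
      ∑ i ∈ Ico M n, ((i : ℝ) - M + 1) * u i + n * e := by
    have := dbl u hu M M n
    rw [← two_mul] at this
    refine (sum_le_sum fun j hj => ha j (mem_Ico.1 hj).1 (mem_Ico.1 hj).2.le).trans ?_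
    rw [sum_add_distrib]
    exact add_le_add this (c1 _)
  have h2 : ∑ j ∈ Ico (3 * M) n, (j : ℝ) * u j ≤
      ∑ i ∈ Ico (2 * M) n, ((i : ℝ) - (2 * M : ℕ) + 1) * v i + n * e := by
    have := dbl v hv M (2 * M) n
    rw [show 2 * M + M = 3 * M by ring] at this
    refine (sum_le_sum fun j hj => hb j (mem_Ico.1 hj).1 (mem_Ico.1 hj).2.le).trans ?_
    rw [sum_add_distrib]
    exact add_le_add this (c1 _)
  rw [← sum_Ico_consecutive _ (show M ≤ 3 * M by omega) (show 3 * M ≤ n by omega)] at h1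
  have e1 : ∑ i ∈ Ico (3 * M) n, ((i : ℝ) - M + 1) * u i =
      ∑ j ∈ Ico (3 * M) n, (j : ℝ) * u j - (M - 1) * SU := by
    rw [hSU, mul_sum, ← sum_sub_distrib]
    exact sum_congr rfl fun i _ => by ring
  have e2 : ∑ i ∈ Ico (2 * M) n, ((i : ℝ) - (2 * M : ℕ) + 1) * v i =
      ∑ j ∈ Ico (2 * M) n, (j : ℝ) * v j - (2 * M - 1) * SV := by
    rw [hSV, mul_sum, ← sum_sub_distrib]
    exact sum_congr rfl fun i _ => by push_cast; ring
  have e3 : ∑ i ∈ Ico M (3 * M), ((i : ℝ) - M + 1) * u i =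
      A * M * (2 * M) - A * M * (M - 1) * H - M * (2 * M + 1) := by
    have e4 := sum_lin M (2 * M)
    rw [show M + 2 * M = 3 * M by ring] at e4
    have e5 : ∑ _i ∈ Ico M (3 * M), A * M = A * M * (2 * M) := by
      rw [sum_const, nsmul_eq_mul, Nat.card_Ico, show 3 * M - M = 2 * M by omega]
      push_cast; ring
    have e6 : (M : ℝ) * (2 * M + 1) = ∑ i ∈ Ico M (3 * M), ((i : ℝ) - M + 1) := by
      rw [e4]; push_cast; ring
    rw [e6, ← e5, hH, mul_sum, ← sum_sub_distrib, ← sum_sub_distrib]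
    refine sum_congr rfl fun i hi => ?_
    have := mem_Ico.1 hi
    have hi0 : (0 : ℝ) < i := by exact_mod_cast (by omega : 0 < i)
    rw [hA i this.1 this.2.le]
    field_simp
    ring
  have h3 := hb (3 * M) le_rfl (by omega)
  rw [hA (3 * M) (by omega) le_rfl, show 3 * M - M = 2 * M by omega, ← hSV] at h3
  have e7 : ((3 * M : ℕ) : ℝ) * (A * M / ((3 * M : ℕ) : ℝ) - 1) = M * (A - 3) := by
    push_cast; field_simp
  rw [e7] at h3
  have h4 := ha (4 * M) (by omega) hn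
  rw [show 4 * M - M = 3 * M by omega, ← hSU] at h4
  push_cast at h4
  rw [e1, e3] at h1
  rw [e2] at h2
  have h5 : (2 * (M : ℝ) - 1) * (M * (A - 3)) ≤ (2 * M - 1) * (SV + e) :=
    mul_le_mul_of_nonneg_left h3 (by linarith)
  have h6 : A * M * (M - 1) * Real.log 3 ≤ A * M * (M - 1) * H :=
    mul_le_mul_of_nonneg_left hH3 (mul_nonneg (by positivity) (by linarith))
  have h7 : ((M : ℝ) - 1) * (4 * M * v (4 * M)) ≤ (M - 1) * (SU + e) :=
    mul_le_mul_of_nonneg_left h4 (by linarith)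
  have hM1 : (0 : ℝ) < M * (M - 1) := mul_pos (by linarith) (by linarith)
  have h8 : 3 * M * e ≤ n * e := mul_le_mul_of_nonneg_right (by linarith) he
  have h9 : 1 * (3 * n * e) ≤ M * (M - 1) * (3 * n * e) :=
    mul_le_mul_of_nonneg_right (by nlinarith) (by positivity)
  have e8 : (M : ℝ) * (M - 1) * (A / (M - 1)) = A * M := by
    have : (M : ℝ) - 1 ≠ 0 := by linarith
    field_simp
  refine le_of_mul_le_mul_left ?_ hM1
  nlinarith

lemma decay (C : ℝ) (M : ℕ) (δ : ℝ) (hδ : 0 < δ) :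
    ∃ k : ℕ, ((M * (4 * k + 6) : ℕ) : ℝ) ^ 2 * (C / 2 ^ k) ≤ δ := by
  have h2 := tendsto_pow_const_div_const_pow_of_one_lt 2 (r := (2 : ℝ)) one_lt_two
  have h1 := tendsto_pow_const_div_const_pow_of_one_lt 1 (r := (2 : ℝ)) one_lt_two
  have h0 := tendsto_pow_const_div_const_pow_of_one_lt 0 (r := (2 : ℝ)) one_lt_two
  have h := ((h2.const_mul (16 * C * (M : ℝ) ^ 2)).add (h1.const_mul (48 * C * (M : ℝ) ^ 2))).add
    (h0.const_mul (36 * C * (M : ℝ) ^ 2))
  simp only [mul_zero, add_zero] at h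
  obtain ⟨k, hk⟩ := (h.eventually (gt_mem_nhds hδ)).exists
  refine ⟨k, le_trans (le_of_eq ?_) hk.le⟩
  push_cast; ring

end LinP

open LinP in
theorem lin (h : S_FL) : S_Lin := by
  obtain ⟨C, hC, h⟩ := h
  have hFL : ∀ σ : ℝ, σ = 1 ∨ σ = -1 → ∀ k : ℕ, Valid σ ((4 * k + 6 : ℕ) : ℝ) (C / 2 ^ k) := by
    intro σ hσ k ε hε
    refine ⟨1, one_pos, 1, fun P g z hz hD hP => ?_⟩
    obtain ⟨lam, h1, h2⟩ := h σ k P g z hσ hz hD.1 hP
    refine ⟨lam, by rwa [Real.rpow_natCast], h2.trans ?_⟩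
    have := VV_pos hD.1
    unfold VV at this ⊢
    nlinarith
  have hu : ∀ s : ℝ, 0 < s → Valid 1 s (Fs 1 s) := by
    intro s hs
    refine Fs_valid ?_
    have h1 := hFL 1 (Or.inl rfl) 0
    norm_num at h1
    rcases le_total s 6 with h6 | h6
    · refine ⟨_, ?_, restrict h1 hC.le hs h6⟩
      rw [sub_nonneg, one_le_div hs]; nlinarith
    · exact ⟨C, hC.le, valid_mono h1 h6 le_rfl⟩
  have hv : ∀ s : ℝ, Valid (-1) s (Fs (-1) s) := fun s => Fs_valid ⟨1, zero_le_one, valid_low s⟩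
  set A : ℝ := (1 + Fs 1 3) * 3 with hA
  have hA3 : 3 ≤ A := by have := Fs_nonneg 1 3; linarith
  have key : 4 * Fs (-1) 4 ≤ 4 - A * Real.log 3 := by
    refine le_of_forall_pos_le_add fun δ hδ => ?_
    obtain ⟨M0, hM0⟩ := exists_nat_ge (2 * A / δ)
    set M := M0 + 2 with hM
    have hM2 : 2 ≤ M := by omega
    have hM' : (0 : ℝ) < M := by exact_mod_cast (by omega : 0 < M)
    obtain ⟨k, hk⟩ := decay C M (δ / 6) (by positivity)
    set n := M * (4 * k + 5) with hn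
    have hnM : n + M = M * (4 * k + 6) := by rw [hn]; ring
    have hT : ((n + M : ℕ) : ℝ) / M = ((4 * k + 6 : ℕ) : ℝ) := by
      rw [hnM]; push_cast; field_simp
    have h5 : 5 * M ≤ n := by rw [hn]; nlinarith
    set u : ℕ → ℝ := fun i => if i ≤ 3 * M then max 0 (A * M / i - 1) else Fs 1 (i / M) with hu'
    set v : ℕ → ℝ := fun i => Fs (-1) (i / M) with hv'
    have u3 : ∀ i : ℕ, 1 ≤ i → i ≤ 3 * M → u i = A * M / i - 1 := by
      intro i h1 h2
      have h3 : (0 : ℝ) < i := by exact_mod_cast h1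
      have h4 : (i : ℝ) ≤ 3 * M := by exact_mod_cast h2
      simp only [hu', if_pos h2]
      refine max_eq_right ?_
      rw [sub_nonneg, one_le_div h3]; nlinarith
    have u4 : ∀ i : ℕ, 3 * M ≤ i → u i = Fs 1 (i / M) := by
      intro i h1
      rcases h1.eq_or_lt with h2 | h2
      · rw [u3 i (by omega) h2.ge, ← h2, hA]
        push_cast
        rw [mul_div_cancel_right₀ _ hM'.ne']
        field_simp
        ring
      · simp only [hu', if_neg (not_le.2 h2)]
    have u0 : ∀ i, 0 ≤ u i := fun i => by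
      simp only [hu']; split_ifs; exacts [le_max_left _ _, Fs_nonneg _ _]
    have v0 : ∀ i, 0 ≤ v i := fun i => Fs_nonneg _ _
    have uV : ∀ i : ℕ, 1 ≤ i → Valid 1 ((i : ℝ) / M) (u i) := by
      intro i h1
      have h3 : (0 : ℝ) < i := by exact_mod_cast h1
      rcases le_total i (3 * M) with h2 | h2
      · have h4 : (i : ℝ) ≤ 3 * M := by exact_mod_cast h2
        have := restrict (hu 3 (by norm_num)) (Fs_nonneg _ _) (s := (i : ℝ) / M) (by positivity)
          ((div_le_iff₀ hM').2 h4)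
        rw [u3 i h1 h2]
        refine valid_mono this le_rfl (le_of_eq ?_)
        rw [← hA]; field_simp
      · rw [u4 i h2]; exact hu _ (by positivity)
    have cs : ∀ i : ℕ, (i : ℝ) / M ≤ ((i + 1 : ℕ) : ℝ) / M := fun i => by gcongr; omega
    have uA : ∀ i : ℕ, 1 ≤ i → u (i + 1) ≤ u i := by
      intro i h1
      have h3 : (0 : ℝ) < i := by exact_mod_cast h1
      rcases lt_or_ge i (3 * M) with h2 | h2
      · rw [u3 i h1 h2.le, u3 (i + 1) (by omega) h2]
        have : 0 ≤ A * M := by positivity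
        gcongr; omega
      · rw [u4 (i + 1) (by omega)]
        exact Fs_le (u0 i) (valid_mono (uV i h1) (cs i) le_rfl)
    have vA : ∀ i : ℕ, v (i + 1) ≤ v i := fun i =>
      Fs_le (v0 i) (valid_mono (hv _) (cs i) le_rfl)
    have hc0 : 0 ≤ C / 2 ^ k := by positivity
    have gen : ∀ (σ : ℝ) (G : ℕ → ℝ) (j : ℕ), σ = 1 ∨ σ = -1 → 2 * M ≤ j → j ≤ n →
        (∀ i : ℕ, 1 ≤ i → Valid (-σ) ((i : ℝ) / M) (G i)) → (∀ i, 0 ≤ G i) →
        (∀ i, 1 ≤ i → G (i + 1) ≤ G i) →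
        j * Fs σ (j / M) ≤ ∑ i ∈ Ico (j - M) n, G i + ((n + M : ℕ) : ℝ) * (C / 2 ^ k) := by
      intro σ G j hσ h1 h2 g1 g2 g3
      have e1 : j - M + (n - (j - M)) = n := by omega
      have e2 : j - M + M = j := by omega
      have hj : (0 : ℝ) < j := by exact_mod_cast (by omega : 0 < j)
      have e0 : 1 ≤ j - M := by omega
      have := disc σ (C / 2 ^ k) M (j - M) (n - (j - M)) (by omega) G
        (fun i hi => g1 i (e0.trans hi)) g2 (fun i hi => g3 i (e0.trans hi)) hc0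
        (by rw [e1, hT]; exact hFL σ hσ k)
      rw [e1, e2] at this
      have h3 := Fs_le (div_nonneg (add_nonneg (sum_nonneg fun i _ => g2 i) (by positivity))
        hj.le) this
      rwa [le_div_iff₀ hj, mul_comm] at h3
    have hlp := lp M n hM2 (by omega) A (((n + M : ℕ) : ℝ) * (C / 2 ^ k)) (by linarith) u v u0 v0
      (by positivity)
      (fun j h1 h2 => gen (-1) u j (Or.inr rfl) h1 h2 (by simpa using uV) u0 uA)
      (fun j h1 h2 => by
        rw [u4 j h1]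
        exact gen 1 v j (Or.inl rfl) (by omega) h2 (fun i _ => hv _) v0 (fun i _ => vA i))
      (fun i h1 h2 => u3 i (by omega) h2)
    have e3 : v (4 * M) = Fs (-1) 4 := by
      simp only [hv']; push_cast; rw [mul_div_cancel_right₀ _ hM'.ne']
    rw [e3] at hlp
    rw [← hnM] at hk
    have a1 : A / (M - 1) ≤ δ / 2 := by
      have : (M : ℝ) - 1 = M0 + 1 := by rw [hM]; push_cast; ring
      rw [this, div_le_iff₀ (by positivity)]
      rw [div_le_iff₀ hδ] at hM0
      nlinarith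
    have a2 : (n : ℝ) * (((n + M : ℕ) : ℝ) * (C / 2 ^ k)) ≤
        ((n + M : ℕ) : ℝ) * (((n + M : ℕ) : ℝ) * (C / 2 ^ k)) := by
      gcongr; omega
    nlinarith
  refine ⟨A, by linarith, fun ε hε => ?_⟩
  obtain ⟨η1, hη1, z1, h1⟩ := hu 3 (by norm_num) ε hε
  obtain ⟨η2, hη2, z2, h2⟩ := hv 4 ε hε
  refine ⟨min η1 η2, lt_min hη1 hη2, max z1 z2, fun P g z hz hD hP => ⟨?_, ?_⟩⟩
  · obtain ⟨lam, a1, a2⟩ := h1 P g z ((le_max_left _ _).trans hz) (dim_mono hD (min_le_left _ _)) hP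
    refine ⟨lam, by rw [← Real.rpow_natCast]; exact_mod_cast a1, ?_⟩
    unfold VV at a2
    rw [hA]; linarith
  · obtain ⟨lam, a1, a2⟩ := h2 P g z ((le_max_right _ _).trans hz)
      (dim_mono hD (min_le_right _ _)) hP
    refine ⟨lam, by rw [← Real.rpow_natCast]; exact_mod_cast a1, ?_⟩
    have := VV_pos hD.1
    unfold VV at a2 this
    nlinarith

end Pool.Agent.P.MP_0ad054_nt.Chen
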