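import Pool.Agent.P.MP_0ad054_nt.Chen.Defs
import Pool.Agent.P.MP_a14ce1_nt.Ch.Mertens

/-! The numerical inequality behind Chen's weights. -/

namespace Pool.Agent.P.MP_0ad054_nt.Chen

open Finset

namespace NumP

lemma mem_prs {w z : ℝ} (hw : 0 ≤ w) (hz : 0 ≤ z) {p : ℕ} :
    p ∈ prs w z ↔ p.Prime ∧ w < p ∧ (p : ℝ) ≤ z := by
  simp only [prs, mem_filter, mem_Ioc, Nat.floor_lt hw, Nat.le_floor_iff hz]
  tauto

lemma split (f : ℕ → ℝ) {u w z : ℝ} (h1 : u ≤ w) (h2 : w ≤ z) :
    ∑ p ∈ prs u z, f p = ∑ p ∈ prs u w, f p + ∑ p ∈ prs w z, f p := by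
  simp only [prs, sum_filter]
  exact (sum_Ioc_consecutive _ (Nat.floor_mono h1) (Nat.floor_mono h2)).symm

lemma mass : ∃ C : ℝ, 0 < C ∧ ∀ w z : ℝ, 1 ≤ w → w ≤ z →
    |∑ p ∈ prs w z, Real.log p / p - (Real.log z - Real.log w)| ≤ C := by
  obtain ⟨C, hC, h⟩ := Pool.Agent.P.MP_a14ce1_nt.Ch.m2
  refine ⟨2 * C, by positivity, fun w z hw hz => ?_⟩
  have h1 := h w hw
  have h2 := h z (hw.trans hz)
  have h3 := split (fun p => Real.log p / p) (show (0 : ℝ) ≤ w by linarith) hz
  change |∑ p ∈ prs 0 w, Real.log p / p - Real.log w| ≤ C at h1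
  change |∑ p ∈ prs 0 z, Real.log p / p - Real.log z| ≤ C at h2
  rw [abs_le] at *
  constructor <;> linarith [h1.1, h1.2, h2.1, h2.2]

/-- primes with exponent in `(a, b]` -/
noncomputable def T (L a b : ℝ) : Finset ℕ := prs (Real.exp (a * L)) (Real.exp (b * L))

lemma mem_T {L a b : ℝ} (hL : 0 < L) {p : ℕ} :
    p ∈ T L a b ↔ p.Prime ∧ a < Real.log p / L ∧ Real.log p / L ≤ b := by
  rw [T, mem_prs (Real.exp_pos _).le (Real.exp_pos _).le]
  refine and_congr_right fun hp => ?_
  have h0 : (0 : ℝ) < p := by exact_mod_cast hp.pos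
  rw [lt_div_iff₀ hL, div_le_iff₀ hL, Real.lt_log_iff_exp_lt h0, Real.log_le_iff_le_exp h0]

lemma cell {C : ℝ} (hC : ∀ w z : ℝ, 1 ≤ w → w ≤ z →
      |∑ p ∈ prs w z, Real.log p / p - (Real.log z - Real.log w)| ≤ C)
    {L s h K M : ℝ} (hL : 0 < L) (hs : 0 ≤ s) (hh : 0 ≤ h) (hK : 0 ≤ K) (φ Φ : ℝ → ℝ)
    (hd : ∀ t, s ≤ t → t ≤ s + h → HasDerivAt Φ (φ t) t)
    (hl : ∀ t u, s ≤ t → t ≤ s + h → s ≤ u → u ≤ s + h → |φ t - φ u| ≤ K * |t - u|)
    (hM : ∀ t, s ≤ t → t ≤ s + h → |φ t| ≤ M) :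
    ∑ p ∈ T L s (s + h), φ (Real.log p / L) * (Real.log p / p / L) ≤
      Φ (s + h) - Φ s + (K * h ^ 2 + (M + K * h) * (C / L)) := by
  obtain ⟨ξ, h1, h2, h3⟩ : ∃ ξ, s ≤ ξ ∧ ξ ≤ s + h ∧ Φ (s + h) - Φ s = φ ξ * h := by
    rcases hh.eq_or_lt with h0 | h0
    · subst h0; exact ⟨s, le_rfl, by simp, by simp⟩
    · obtain ⟨ξ, hξ, h3⟩ := exists_hasDerivAt_eq_slope Φ φ (show s < s + h by linarith)
        (fun t ht => (hd t ht.1 ht.2).continuousAt.continuousWithinAt)
        (fun t ht => hd t ht.1.le ht.2.le)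
      refine ⟨ξ, hξ.1.le, hξ.2.le, ?_⟩
      rw [h3, add_sub_cancel_left, div_mul_cancel₀ _ h0.ne']
  have hm := hC (Real.exp (s * L)) (Real.exp ((s + h) * L))
    (Real.one_le_exp (by positivity)) (Real.exp_le_exp.2 (by nlinarith))
  rw [Real.log_exp, Real.log_exp] at hm
  set S := ∑ p ∈ prs (Real.exp (s * L)) (Real.exp ((s + h) * L)), Real.log p / p with hS
  have hb : ∑ p ∈ T L s (s + h), φ (Real.log p / L) * (Real.log p / p / L) ≤
      (φ ξ + K * h) * (S / L) := by
    rw [hS, sum_div, mul_sum]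
    refine sum_le_sum fun p hp => ?_
    obtain ⟨hp1, hp2, hp3⟩ := (mem_T hL).1 hp
    have h4 := hl _ ξ hp2.le hp3 h1 h2
    have h5 : |Real.log p / L - ξ| ≤ h := by rw [abs_le]; constructor <;> linarith
    have h6 : φ (Real.log p / L) ≤ φ ξ + K * h := by
      have := (abs_le.1 h4).2
      have := mul_le_mul_of_nonneg_left h5 hK
      linarith
    have h7 : 0 ≤ Real.log p / p / L := by
      have := Real.log_natCast_nonneg p
      positivity
    exact mul_le_mul_of_nonneg_right h6 h7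
  have h8 : |S / L - h| ≤ C / L := by
    have : S / L - h = (S - ((s + h) * L - s * L)) / L := by field_simp; ring
    rw [this, abs_div, abs_of_pos hL]
    exact div_le_div_of_nonneg_right hm hL.le
  have h9 : |φ ξ + K * h| ≤ M + K * h := by
    have := hM ξ h1 h2
    have h0 : 0 ≤ K * h := by positivity
    rw [abs_le] at *
    constructor <;> linarith [this.1, this.2]
  have h10 : (φ ξ + K * h) * (S / L - h) ≤ (M + K * h) * (C / L) := by
    refine (le_abs_self _).trans ?_
    rw [abs_mul]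
    exact mul_le_mul h9 h8 (abs_nonneg _) ((abs_nonneg _).trans h9)
  rw [h3]
  nlinarith

lemma cells {C : ℝ} (hC : ∀ w z : ℝ, 1 ≤ w → w ≤ z →
      |∑ p ∈ prs w z, Real.log p / p - (Real.log z - Real.log w)| ≤ C)
    {L a h K M : ℝ} (hL : 0 < L) (ha : 0 ≤ a) (hh : 0 ≤ h) (hK : 0 ≤ K) (φ Φ : ℝ → ℝ) (n : ℕ)
    (hd : ∀ t, a ≤ t → t ≤ a + n * h → HasDerivAt Φ (φ t) t)
    (hl : ∀ t u, a ≤ t → t ≤ a + n * h → a ≤ u → u ≤ a + n * h → |φ t - φ u| ≤ K * |t - u|)
    (hM : ∀ t, a ≤ t → t ≤ a + n * h → |φ t| ≤ M) :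
    ∑ p ∈ T L a (a + n * h), φ (Real.log p / L) * (Real.log p / p / L) ≤
      Φ (a + n * h) - Φ a + n * (K * h ^ 2 + (M + K * h) * (C / L)) := by
  induction n with
  | zero => simp [T, prs]
  | succ n ih =>
    have e : a + ((n + 1 : ℕ) : ℝ) * h = a + n * h + h := by push_cast; ring
    have h0 : 0 ≤ (n : ℝ) * h := by positivity
    rw [e] at hd hl hM ⊢
    have i1 := ih (fun t h1 h2 => hd t h1 (by linarith))
      (fun t u h1 h2 h3 h4 => hl t u h1 (by linarith) h3 (by linarith))
      (fun t h1 h2 => hM t h1 (by linarith))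
    have i2 := cell hC (s := a + n * h) hL (by linarith) hh hK φ Φ
      (fun t h1 h2 => hd t (by linarith) h2)
      (fun t u h1 h2 h3 h4 => hl t u (by linarith) h2 (by linarith) h4)
      (fun t h1 h2 => hM t (by linarith) h2)
    have i3 := split (fun p => φ (Real.log p / L) * (Real.log p / p / L))
      (u := Real.exp (a * L)) (w := Real.exp ((a + n * h) * L))
      (z := Real.exp ((a + n * h + h) * L)) (Real.exp_le_exp.2 (by nlinarith))
      (Real.exp_le_exp.2 (by nlinarith))
    unfold T at *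
    rw [i3]
    push_cast
    linarith

lemma inv_lip {t u : ℝ} (ht : 1 / 10 ≤ t) (hu : 1 / 10 ≤ u) : |1 / t - 1 / u| ≤ 100 * |t - u| := by
  have h1 : 0 < t := by linarith
  have h2 : 0 < u := by linarith
  have : 1 / t - 1 / u = (u - t) / (t * u) := by field_simp
  rw [this, abs_div, abs_of_pos (mul_pos h1 h2), abs_sub_comm, div_le_iff₀ (mul_pos h1 h2)]
  have : 1 ≤ 100 * (t * u) := by nlinarith
  nlinarith [abs_nonneg (t - u)]

lemma main (ε : ℝ) (hε : 0 < ε) : ∃ L0 : ℝ, 0 < L0 ∧ ∀ L a b g A A' B D : ℝ, L0 ≤ L →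
    1 / 10 ≤ a → a ≤ b → b ≤ 1 → b + 1 / 10 ≤ g → |A| ≤ 10 → |A'| ≤ 10 → |B| ≤ 10 → |D| ≤ 10 →
    ∑ p ∈ T L a b, (A * (1 / (Real.log p / L)) + A' * (1 / (g - Real.log p / L)) + B +
        D * (Real.log p / L)) * (Real.log p / p / L) ≤
      A * Real.log (b / a) + A' * Real.log ((g - a) / (g - b)) + B * (b - a) +
        D * ((b ^ 2 - a ^ 2) / 2) + ε := by
  obtain ⟨C, hC0, hC⟩ := mass
  obtain ⟨n, hn⟩ := exists_nat_ge (2 * 2010 / ε + 1)
  have hn1 : (1 : ℝ) ≤ n := by
    have : 0 ≤ 2 * 2010 / ε := by positivity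
    linarith
  have hn0 : (0 : ℝ) < n := by linarith
  refine ⟨2 * n * 2230 * C / ε, by positivity, ?_⟩
  intro L a b g A A' B D hL ha hab hb hg hA hA' hB hD
  have hL0 : 0 < L := lt_of_lt_of_le (by positivity) hL
  have e : a + n * ((b - a) / n) = b := by field_simp; ring
  have hh : 0 ≤ (b - a) / n := div_nonneg (by linarith) hn0.le
  have key := cells hC (a := a) (h := (b - a) / n) (K := 2010) (M := 220) hL0 (by linarith) hh
    (by norm_num) (fun t => A * (1 / t) + A' * (1 / (g - t)) + B + D * t)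
    (fun t => A * Real.log t - A' * Real.log (g - t) + B * t + D * (t ^ 2 / 2)) n ?_ ?_ ?_
  · rw [e] at key
    refine key.trans ?_
    rw [Real.log_div (by linarith) (by linarith), Real.log_div (by linarith) (by linarith)]
    have h1 : (b - a) / n ≤ 1 / n := div_le_div_of_nonneg_right (by linarith) hn0.le
    have h2 : (n : ℝ) * (2010 * ((b - a) / n) ^ 2) ≤ ε / 2 := by
      have h3 : ((b - a) / n) ^ 2 ≤ (1 / n) ^ 2 := pow_le_pow_left₀ hh h1 2
      have h4 : (n : ℝ) * (2010 * (1 / n) ^ 2) = 2010 / n := by field_simp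
      have h5 : 2010 / (n : ℝ) ≤ ε / 2 := by
        rw [div_le_iff₀ hn0]
        have : 2 * 2010 / ε ≤ n := by linarith
        rw [div_le_iff₀ hε] at this
        linarith
      calc (n : ℝ) * (2010 * ((b - a) / n) ^ 2) ≤ n * (2010 * (1 / n) ^ 2) := by gcongr
        _ ≤ ε / 2 := by rw [h4]; exact h5
    have h6 : (n : ℝ) * ((220 + 2010 * ((b - a) / n)) * (C / L)) ≤ ε / 2 := by
      have h7 : (b - a) / n ≤ 1 := h1.trans (by rw [div_le_one hn0]; exact hn1)
      have h8 : (n : ℝ) * ((220 + 2010 * ((b - a) / n)) * (C / L)) ≤ n * (2230 * (C / L)) := by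
        gcongr; linarith
      refine h8.trans ?_
      rw [div_le_iff₀ hε] at hL
      have : (n : ℝ) * (2230 * (C / L)) = n * 2230 * C / L := by ring
      rw [this, div_le_iff₀ hL0]
      linarith
    linarith
  · rw [e]
    intro t h1 h2
    have d1 := (Real.hasDerivAt_log (show t ≠ 0 by linarith)).const_mul A
    have d2 := (((hasDerivAt_id t).const_sub g).log (show g - id t ≠ 0 by simp; linarith)).const_mul A'
    have d3 := (hasDerivAt_id t).const_mul B
    have d4 := (((hasDerivAt_id t).pow 2).div_const 2).const_mul D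
    have d5 := ((d1.sub d2).add d3).add d4
    refine HasDerivAt.congr_deriv d5 ?_
    simp only [id, Nat.cast_ofNat]
    ring
  · rw [e]
    intro t u h1 h2 h3 h4
    have l1 := inv_lip (t := t) (u := u) (by linarith) (by linarith)
    have l2 := inv_lip (t := g - t) (u := g - u) (by linarith) (by linarith)
    have e2 : g - t - (g - u) = -(t - u) := by ring
    rw [e2, abs_neg] at l2
    have e3 : A * (1 / t) + A' * (1 / (g - t)) + B + D * t -
        (A * (1 / u) + A' * (1 / (g - u)) + B + D * u) =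
        A * (1 / t - 1 / u) + A' * (1 / (g - t) - 1 / (g - u)) + D * (t - u) := by ring
    show |A * (1 / t) + A' * (1 / (g - t)) + B + D * t -
        (A * (1 / u) + A' * (1 / (g - u)) + B + D * u)| ≤ _
    rw [e3]
    refine (abs_add_three _ _ _).trans ?_
    rw [abs_mul, abs_mul, abs_mul]
    have m1 := mul_le_mul hA l1 (abs_nonneg _) (by norm_num)
    have m2 := mul_le_mul hA' l2 (abs_nonneg _) (by norm_num)
    have m3 := mul_le_mul_of_nonneg_right hD (abs_nonneg (t - u))
    linarith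
  · rw [e]
    intro t h1 h2
    have l1 : |1 / t| ≤ 10 := by
      rw [abs_of_pos (by apply one_div_pos.2; linarith), div_le_iff₀ (by linarith)]; linarith
    have l2 : |1 / (g - t)| ≤ 10 := by
      rw [abs_of_pos (by apply one_div_pos.2; linarith), div_le_iff₀ (by linarith)]; linarith
    have l3 : |t| ≤ 1 := by rw [abs_le]; constructor <;> linarith
    have m1 := mul_le_mul hA l1 (abs_nonneg _) (by norm_num)
    have m2 := mul_le_mul hA' l2 (abs_nonneg _) (by norm_num)
    have m3 := mul_le_mul hD l3 (abs_nonneg _) (by norm_num)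
    rw [← abs_mul] at m1 m2 m3
    show |A * (1 / t) + A' * (1 / (g - t)) + B + D * t| ≤ 220
    rw [abs_le] at *
    constructor <;> linarith [m1.1, m1.2, m2.1, m2.2, m3.1, m3.2, hB.1, hB.2]

lemma log_le_cubic {x : ℝ} (hx : -1 < x) : Real.log (1 + x) ≤ x - x ^ 2 / 2 + x ^ 3 / 3 := by
  have hd : ∀ t : ℝ, -1 < t → HasDerivAt (fun t => t - t ^ 2 / 2 + t ^ 3 / 3 - Real.log (1 + t))
      (t ^ 3 / (1 + t)) t := by
    intro t ht
    have h0 : 1 + id t ≠ 0 := by simp only [id]; linarith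
    have d1 := ((hasDerivAt_id t).const_add 1).log h0
    have d2 := ((hasDerivAt_id t).pow 2).div_const 2
    have d3 := ((hasDerivAt_id t).pow 3).div_const 3
    refine HasDerivAt.congr_deriv ((((hasDerivAt_id t).sub d2).add d3).sub d1) ?_
    simp only [id, Nat.cast_ofNat] at h0 ⊢
    field_simp
    ring
  rcases lt_trichotomy x 0 with h | h | h
  · obtain ⟨ξ, hξ, h3⟩ := exists_hasDerivAt_eq_slope _ _ h
      (fun t ht => (hd t (by linarith [ht.1])).continuousAt.continuousWithinAt)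
      (fun t ht => hd t (by linarith [ht.1]))
    have h1 : ξ ^ 3 / (1 + ξ) ≤ 0 :=
      div_nonpos_of_nonpos_of_nonneg (Odd.pow_nonpos (by decide) hξ.2.le) (by linarith [hξ.1])
    rw [h3, div_nonpos_iff] at h1
    rcases h1 with h1 | h1
    · linarith [h1.2]
    · have := h1.1
      simp at this
      linarith
  · subst h; simp
  · obtain ⟨ξ, hξ, h3⟩ := exists_hasDerivAt_eq_slope _ _ h
      (fun t ht => (hd t (by linarith [ht.1])).continuousAt.continuousWithinAt)
      (fun t ht => hd t (by linarith [ht.1]))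
    have h1 : 0 ≤ ξ ^ 3 / (1 + ξ) :=
      div_nonneg (pow_nonneg hξ.1.le 3) (by linarith [hξ.1])
    rw [h3, div_nonneg_iff] at h1
    rcases h1 with h1 | h1
    · have := h1.1
      simp at this
      linarith
    · linarith [h1.2]

lemma log_a : Real.log ((3334 / 10000) / (499 / 4000)) ≤ 984 / 1000 := by
  rw [Real.log_le_iff_le_exp (by norm_num)]
  refine le_trans ?_ (Real.sum_le_exp_of_nonneg (by norm_num) 6)
  simp only [sum_range_succ, range_zero, sum_empty, Nat.factorial]
  norm_num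

lemma log_b : Real.log ((499 / 1000 - 499 / 4000) / (499 / 1000 - 3334 / 10000)) ≤ 817 / 1000 := by
  rw [Real.log_le_iff_le_exp (by norm_num)]
  refine le_trans ?_ (Real.sum_le_exp_of_nonneg (by norm_num) 6)
  simp only [sum_range_succ, range_zero, sum_empty, Nat.factorial]
  norm_num

/-- the inner integral -/
lemma inner_le {α : ℝ} (h1 : 499 / 4000 ≤ α) (h2 : α ≤ 3334 / 10000) :
    1 / (9999 / 10000 - α) * Real.log (((10001 / 10000 - α) / 2) / (1 / 3)) +
      1 / (9999 / 10000 - α) * Real.log ((9999 / 10000 - α - 1 / 3) /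
        (9999 / 10000 - α - (10001 / 10000 - α) / 2)) ≤
      733 / 1000 - 6 / 10 * α - 9 / 2 * α ^ 2 := by
  have p1 : 0 < ((10001 / 10000 - α) / 2) / (1 / 3) := by
    apply div_pos <;> linarith
  have p3 : 0 < 9999 / 10000 - α - (10001 / 10000 - α) / 2 := by linarith
  have p2 : 0 < (9999 / 10000 - α - 1 / 3) / (9999 / 10000 - α - (10001 / 10000 - α) / 2) :=
    div_pos (by linarith) p3
  rw [← mul_add, ← Real.log_mul p1.ne' p2.ne']
  have h3 : ((10001 / 10000 - α) / 2) / (1 / 3) * ((9999 / 10000 - α - 1 / 3) /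
      (9999 / 10000 - α - (10001 / 10000 - α) / 2)) ≤ 1 + (1001 / 1000 - 3 * α) := by
    rw [← mul_div_assoc, div_le_iff₀ p3]
    nlinarith
  have h4 := (Real.log_le_log (mul_pos p1 p2) h3).trans
    (log_le_cubic (x := 1001 / 1000 - 3 * α) (by linarith))
  have p4 : 0 < 9999 / 10000 - α := by linarith
  rw [one_div, inv_mul_le_iff₀ p4]
  refine h4.trans ?_
  nlinarith [mul_nonneg (sub_nonneg.2 h1) (sq_nonneg (α - 27 / 100)),
    mul_nonneg (sub_nonneg.2 h2) (sq_nonneg (α - 17 / 100)),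
    mul_nonneg (sub_nonneg.2 h1) (sub_nonneg.2 h2), sq_nonneg (α - 1 / 4)]

lemma log7 : Real.log 7 ≤ 2 := by
  rw [Real.log_le_iff_le_exp (by norm_num)]
  refine le_trans ?_ (Real.sum_le_exp_of_nonneg (by norm_num) 5)
  simp only [sum_range_succ, range_zero, sum_empty, Nat.factorial]
  norm_num

lemma Qs_sub {N : ℕ} (hN : 0 < N) (hL : 100000 ≤ Real.log N) :
    Qs N ⊆ T (Real.log N) (499 / 4000) (3334 / 10000) := by
  have hN' : (0 : ℝ) < N := by exact_mod_cast hN
  intro q hq
  rw [Qs, mem_prs (by unfold zz; positivity) (by unfold yy; positivity)] at hq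
  rw [T, mem_prs (Real.exp_pos _).le (Real.exp_pos _).le]
  obtain ⟨h1, h2, h3⟩ := hq
  refine ⟨h1, ?_, h3.trans ?_⟩
  · rwa [zz, Real.rpow_def_of_pos hN', mul_comm] at h2
  · rw [yy, Real.rpow_def_of_pos (by positivity), Real.exp_le_exp,
      Real.log_mul (by norm_num) hN'.ne']
    linarith [log7]

lemma term1 {N q : ℕ} (hN : 0 < N) (hL : 100000 ≤ Real.log N)
    (hq : q ∈ T (Real.log N) (499 / 4000) (3334 / 10000)) :
    0 ≤ (1 * (1 / (Real.log q / Real.log N)) + 1 * (1 / (499 / 1000 - Real.log q / Real.log N)) +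
      0 + 0 * (Real.log q / Real.log N)) * (Real.log q / q / Real.log N) ∧
    gg q * (Real.log (Dl N) / Real.log (Dl N / q)) ≤ 10001 / 10000 *
      ((1 * (1 / (Real.log q / Real.log N)) + 1 * (1 / (499 / 1000 - Real.log q / Real.log N)) +
      0 + 0 * (Real.log q / Real.log N)) * (Real.log q / q / Real.log N)) := by
  have hN' : (0 : ℝ) < N := by exact_mod_cast hN
  set L := Real.log N with hLd
  have hL0 : 0 < L := by linarith
  obtain ⟨h1, h2, h3⟩ := (mem_T hL0).1 hq
  have hq0 : (0 : ℝ) < q := by exact_mod_cast h1.pos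
  set α := Real.log q / L with hα
  have e1 : Real.log q = α * L := by rw [hα]; field_simp
  have e2 : Real.log (Dl N) = 499 / 1000 * L := by rw [Dl, Real.log_rpow hN']
  have e3 : Real.log (Dl N / q) = (499 / 1000 - α) * L := by
    rw [Real.log_div (by unfold Dl; positivity) hq0.ne', e2, e1]; ring
  have p1 : 0 < α := by linarith
  have p2 : 0 < 499 / 1000 - α := by linarith
  have hq1 : (10001 : ℝ) ≤ q := by
    have := Real.add_one_le_exp (Real.log q)
    rw [Real.exp_log hq0] at this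
    nlinarith
  have e4 : (1 * (1 / α) + 1 * (1 / (499 / 1000 - α)) + 0 + 0 * α) * (Real.log q / q / L) =
      1 / q * (499 / 1000 / (499 / 1000 - α)) := by
    have e6 : (499 / 1000 : ℝ) = (499 / 1000 - α) + α := by ring
    rw [e1]
    nth_rewrite 2 [e6]
    generalize 499 / 1000 - α = g at *
    field_simp
    ring
  have e5 : Real.log (Dl N) / Real.log (Dl N / q) = 499 / 1000 / (499 / 1000 - α) := by
    rw [e2, e3]; field_simp
  rw [e4, e5]
  refine ⟨by positivity, ?_⟩
  rw [← mul_assoc]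
  refine mul_le_mul_of_nonneg_right ?_ (by positivity)
  rw [gg, mul_one_div, div_le_div_iff₀ (by linarith) hq0]
  linarith

lemma Hc_le {N : ℕ} (h : ∀ p ∈ Pr N, 0 ≤ Real.log (Nl N / (p.1 * p.2 : ℕ))) :
    Hc N (ck N) ≤ ∑ p ∈ Pr N, 1 / Real.log (Nl N / (p.1 * p.2 : ℕ)) / (p.1 * p.2 : ℕ) := by
  unfold Hc ck
  simp only [sum_div]
  rw [sum_comm]
  refine sum_le_sum fun p hp => ?_
  have h0 := h p hp
  have e : ∀ k ∈ Icc 1 N, (if p.1 * p.2 = k then 1 / Real.log (Nl N / k) else 0) / (k : ℝ) =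
      if p.1 * p.2 = k then 1 / Real.log (Nl N / k) / k else 0 := by
    intro k _; split_ifs <;> simp
  rw [sum_congr rfl e, sum_ite_eq]
  split_ifs
  · exact le_rfl
  · positivity

lemma term2 {N q r : ℕ} (hN : 0 < N) (hL : 100000 ≤ Real.log N)
    (hq : q ∈ T (Real.log N) (499 / 4000) (3334 / 10000))
    (hr : r ∈ T (Real.log N) (1 / 3) ((10001 / 10000 - Real.log q / Real.log N) / 2)) :
    0 ≤ Real.log (Nl N / (q * r : ℕ)) ∧
    1 / Real.log (Nl N / (q * r : ℕ)) / (q * r : ℕ) = 1 / (q * Real.log N) *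
      ((1 / (9999 / 10000 - Real.log q / Real.log N) * (1 / (Real.log r / Real.log N)) +
        1 / (9999 / 10000 - Real.log q / Real.log N) *
          (1 / (9999 / 10000 - Real.log q / Real.log N - Real.log r / Real.log N)) + 0 +
        0 * (Real.log r / Real.log N)) * (Real.log r / r / Real.log N)) := by
  have hN' : (0 : ℝ) < N := by exact_mod_cast hN
  set L := Real.log N with hLd
  have hL0 : 0 < L := by linarith
  obtain ⟨h1, h2, h3⟩ := (mem_T hL0).1 hq
  obtain ⟨h4, h5, h6⟩ := (mem_T hL0).1 hr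
  have hq0 : (0 : ℝ) < q := by exact_mod_cast h1.pos
  have hr0 : (0 : ℝ) < r := by exact_mod_cast h4.pos
  set α := Real.log q / L with hα
  set β := Real.log r / L with hβ
  have e1 : Real.log q = α * L := by rw [hα]; field_simp
  have e2 : Real.log r = β * L := by rw [hβ]; field_simp
  have e3 : Real.log (Nl N / (q * r : ℕ)) = (9999 / 10000 - α - β) * L := by
    push_cast
    rw [Real.log_div (by unfold Nl; positivity) (by positivity), Nl, Real.log_rpow hN',
      Real.log_mul hq0.ne' hr0.ne', e1, e2]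
    ring
  have p1 : 0 < β := by linarith
  have p2 : 0 < 9999 / 10000 - α := by linarith
  have p3 : 0 < 9999 / 10000 - α - β := by linarith
  rw [e3, e2]
  refine ⟨by positivity, ?_⟩
  push_cast
  generalize 9999 / 10000 - α = g at *
  field_simp
  ring

lemma Pr_sub {N : ℕ} (hN : 0 < N) (hL : 100000 ≤ Real.log N) {p : ℕ × ℕ} (hp : p ∈ Pr N) :
    p.1 ∈ T (Real.log N) (499 / 4000) (3334 / 10000) ∧
    p.2 ∈ T (Real.log N) (1 / 3) ((10001 / 10000 - Real.log p.1 / Real.log N) / 2) := by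
  have hN' : (0 : ℝ) < N := by exact_mod_cast hN
  have hL0 : 0 < Real.log N := by linarith
  simp only [Pr, mem_filter, mem_product] at hp
  obtain ⟨⟨h1, h2⟩, h3⟩ := hp
  have h4 := Qs_sub hN hL h1
  refine ⟨h4, ?_⟩
  rw [mem_prs (by unfold yy; positivity) (by positivity)] at h2
  obtain ⟨h5, h6, -⟩ := h2
  have hq0 : (0 : ℝ) < p.1 := by exact_mod_cast ((mem_T hL0).1 h4).1.pos
  have hr0 : (0 : ℝ) < p.2 := by exact_mod_cast h5.pos
  rw [mem_T hL0]
  refine ⟨h5, ?_, ?_⟩
  · rw [lt_div_iff₀ hL0, Real.lt_log_iff_exp_lt hr0]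
    refine lt_of_le_of_lt ?_ h6
    rw [yy, Real.rpow_def_of_pos (by positivity), Real.exp_le_exp,
      Real.log_mul (by norm_num) hN'.ne']
    have := Real.log_nonneg (show (1 : ℝ) ≤ 7 by norm_num)
    linarith
  · have h7 : (p.1 : ℝ) * p.2 ^ 2 ≤ 7 * N := by exact_mod_cast h3
    have h8 := Real.log_le_log (by positivity) h7
    rw [Real.log_mul hq0.ne' (by positivity), Real.log_pow, Real.log_mul (by norm_num) hN'.ne']
      at h8
    rw [div_le_iff₀ hL0]
    have e : (10001 / 10000 - Real.log p.1 / Real.log N) / 2 * Real.log N =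
        (10001 / 10000 * Real.log N - Real.log p.1) / 2 := by field_simp
    rw [e]
    push_cast at h8
    linarith [log7]

end NumP

open NumP in
theorem num : S_Num := by
  obtain ⟨L0, hL0, H⟩ := NumP.main (1 / 1000) (by norm_num)
  refine ⟨⌈Real.exp (max L0 100000)⌉₊, fun N hN => ?_⟩
  have hN1 : Real.exp (max L0 100000) ≤ N := (Nat.le_ceil _).trans (by exact_mod_cast hN)
  have hN' : (0 : ℝ) < N := lt_of_lt_of_le (Real.exp_pos _) hN1
  have hN0 : 0 < N := by exact_mod_cast hN'
  have hm : max L0 100000 ≤ Real.log N := (Real.le_log_iff_exp_le hN').2 hN1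
  have hL : 100000 ≤ Real.log N := (le_max_right _ _).trans hm
  have hL1 : L0 ≤ Real.log N := (le_max_left _ _).trans hm
  have hLp : 0 < Real.log N := by linarith
  -- first sum
  have s1 : ∑ q ∈ Qs N, gg q * (Real.log (Dl N) / Real.log (Dl N / q)) ≤
      10001 / 10000 * (1802 / 1000) := by
    have h1 := H (Real.log N) (499 / 4000) (3334 / 10000) (499 / 1000) 1 1 0 0 hL1 (by norm_num)
      (by norm_num) (by norm_num) (by norm_num) (by norm_num) (by norm_num) (by norm_num)
      (by norm_num)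
    refine (sum_le_sum fun q hq => (term1 hN0 hL (Qs_sub hN0 hL hq)).2).trans ?_
    rw [← mul_sum]
    refine mul_le_mul_of_nonneg_left ?_ (by norm_num)
    refine (sum_le_sum_of_subset_of_nonneg (Qs_sub hN0 hL)
      fun q hq _ => (term1 hN0 hL hq).1).trans (h1.trans ?_)
    linarith [log_a, log_b]
  -- second sum
  have s2 : Hc N (ck N) ≤ 383 / 1000 / Real.log N := by
    refine (Hc_le fun p hp => (term2 hN0 hL (Pr_sub hN0 hL hp).1 (Pr_sub hN0 hL hp).2).1).trans ?_
    set L := Real.log N with hLd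
    have h1 : ∑ p ∈ Pr N, 1 / Real.log (Nl N / (p.1 * p.2 : ℕ)) / (p.1 * p.2 : ℕ) ≤
        ∑ q ∈ T L (499 / 4000) (3334 / 10000),
          ∑ r ∈ T L (1 / 3) ((10001 / 10000 - Real.log q / L) / 2),
            1 / Real.log (Nl N / (q * r : ℕ)) / (q * r : ℕ) := by
      rw [← sum_finset_product' (((T L (499 / 4000) (3334 / 10000)) ×ˢ prs (yy N) (7 * N) ∪
          (T L (499 / 4000) (3334 / 10000)) ×ˢ T L (1 / 3) 1).filter
          (fun p : ℕ × ℕ => p.2 ∈ T L (1 / 3) ((10001 / 10000 - Real.log p.1 / L) / 2))) _ _ ?_]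
      · refine sum_le_sum_of_subset_of_nonneg ?_ ?_
        · intro p hp
          have h7 := Pr_sub hN0 hL hp
          refine mem_filter.2 ⟨mem_union_left _ (mem_product.2 ⟨h7.1, ?_⟩), h7.2⟩
          exact (mem_product.1 (mem_filter.1 hp).1).2
        · intro p hp _
          obtain ⟨h7, h8⟩ := mem_filter.1 hp
          have h9 : p.1 ∈ T L (499 / 4000) (3334 / 10000) := by
            rcases mem_union.1 h7 with h | h <;> exact (mem_product.1 h).1
          have := (term2 hN0 hL h9 h8).1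
          positivity
      · intro p
        rw [mem_filter]
        constructor
        · rintro ⟨h7, h8⟩
          refine ⟨?_, h8⟩
          rcases mem_union.1 h7 with h | h <;> exact (mem_product.1 h).1
        · rintro ⟨h7, h8⟩
          refine ⟨mem_union_right _ (mem_product.2 ⟨h7, ?_⟩), h8⟩
          obtain ⟨a1, a2, a3⟩ := (mem_T hLp).1 h8
          obtain ⟨-, a4, -⟩ := (mem_T hLp).1 h7
          exact (mem_T hLp).2 ⟨a1, a2, by linarith⟩
    refine h1.trans ?_
    have h2 := H L (499 / 4000) (3334 / 10000) 2 (734 / 1000) 0 (-(6 / 10)) (-(9 / 2)) hL1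
      (by norm_num) (by norm_num) (by norm_num) (by norm_num) (by norm_num [abs_le])
      (by norm_num) (by norm_num [abs_le]) (by norm_num [abs_le])
    have h3 : ∑ q ∈ T L (499 / 4000) (3334 / 10000), (734 / 1000 * (1 / (Real.log q / L)) +
        0 * (1 / (2 - Real.log q / L)) + -(6 / 10) + -(9 / 2) * (Real.log q / L)) *
        (Real.log q / q / L) ≤ 383 / 1000 := by
      refine h2.trans ?_
      linarith [log_a]
    refine le_trans ?_ (div_le_div_of_nonneg_right h3 hLp.le)
    rw [sum_div]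
    refine sum_le_sum fun q hq => ?_
    rw [sum_congr rfl fun r hr => (term2 hN0 hL hq hr).2, ← mul_sum]
    obtain ⟨q1, q2, q3⟩ := (mem_T hLp).1 hq
    have hq0 : (0 : ℝ) < q := by exact_mod_cast q1.pos
    rw [← hLd]
    set α := Real.log q / L with hα
    have e1 : Real.log q = α * L := by rw [hα]; field_simp
    have p1 : 0 < α := by linarith
    have hg : |1 / (9999 / 10000 - α)| ≤ 10 := by
      rw [abs_of_pos (by apply one_div_pos.2; linarith), div_le_iff₀ (by linarith)]; linarith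
    have h4 := H L (1 / 3) ((10001 / 10000 - α) / 2) (9999 / 10000 - α) (1 / (9999 / 10000 - α))
      (1 / (9999 / 10000 - α)) 0 0 hL1 (by norm_num) (by linarith) (by linarith) (by linarith)
      hg hg (by norm_num) (by norm_num)
    have h5 := inner_le q2.le q3
    have e2 : (734 / 1000 * (1 / α) + 0 * (1 / (2 - α)) + -(6 / 10) + -(9 / 2) * α) *
        (Real.log q / q / L) / L = 1 / (q * L) * (734 / 1000 - 6 / 10 * α - 9 / 2 * α ^ 2) := by
      rw [e1, zero_mul]; field_simp; ring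
    rw [e2]
    refine mul_le_mul_of_nonneg_left (h4.trans ?_) (by positivity)
    linarith
  have s3 : Real.log (7 * N) ≤ 10001 / 10000 * Real.log N := by
    rw [Real.log_mul (by norm_num) hN'.ne']
    linarith [log7]
  have s4 : Real.log (7 * N) * Hc N (ck N) ≤ 10001 / 10000 * (383 / 1000) := by
    have h0 : 0 ≤ Real.log (7 * N) := Real.log_nonneg (by
      have : (1 : ℝ) ≤ N := by exact_mod_cast hN0
      linarith)
    calc Real.log (7 * N) * Hc N (ck N) ≤ Real.log (7 * N) * (383 / 1000 / Real.log N) :=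
          mul_le_mul_of_nonneg_left s2 h0
      _ ≤ 10001 / 10000 * Real.log N * (383 / 1000 / Real.log N) :=
          mul_le_mul_of_nonneg_right s3 (by positivity)
      _ = _ := by field_simp
  linarith

end Pool.Agent.P.MP_0ad054_nt.Chen
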