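import Pool.Agent.P.MP_0ad054_nt.Chen.ChenA

/-! The sign of Chen's minorant. -/

namespace Pool.Agent.P.MP_0ad054_nt.Chen

open Finset Pool.Agent.P.MP_0ad054_nt.Sun Pool.Agent.Lib.H9 ChenP
open scoped ArithmeticFunction.vonMangoldt

namespace SignP

theorem Yf_ge (y k : ℕ) {w : ℕ → ℝ} (hw : ∀ l, w l = 0 ∨ w l = 1) :
    ∏ l ∈ Nat.primesLE y, (1 - w l) ≤ Yf y k w :=
  prod_le_sform_cY _ _ (fun l _ => by rcases hw l with h | h <;> rw [h] <;> norm_num) k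

theorem Yf_eq (y k a : ℕ) (hc : ((Nat.primesLE y).filter (fun l => l ∣ a)).card ≤ 2 * k) :
    Yf y k (w2 a) = ∏ l ∈ Nat.primesLE y, (1 - w2 a l) := by
  have h1 := Yf_ge y k (w2_01 a)
  have h2 := sform_cY_sub_le (Nat.primesLE y) (w2 a)
    (fun l _ => by rcases w2_01 a l with h | h <;> rw [h] <;> norm_num) k
  have h3 : sform (Nat.primesLE y) (cZ (2 * k + 1)) (w2 a) = 0 := by
    refine sum_eq_zero fun T hT => ?_
    unfold cZ
    split_ifs with h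
    · rw [one_mul]
      by_contra h0
      have : T ⊆ (Nat.primesLE y).filter (fun l => l ∣ a) := by
        intro l hl
        refine mem_filter.2 ⟨mem_powerset.1 hT hl, ?_⟩
        by_contra h5
        exact h0 (prod_eq_zero hl (by unfold w2; rw [if_neg h5]))
      have := card_le_card this
      omega
    · rw [zero_mul]
  unfold Yf at h1 ⊢
  linarith

theorem ck_ne {N d : ℕ} (h : ck N d ≠ 0) : ∃ p ∈ Pr N, p.1 * p.2 = d := by
  obtain ⟨p, hp, h1⟩ := exists_ne_zero_of_sum_ne_zero h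
  split_ifs at h1 with h2
  · exact ⟨p, hp, h2⟩
  · exact absurd rfl h1

theorem ck_eq {N : ℕ} {p : ℕ × ℕ} (hp : p ∈ Pr N) :
    ck N (p.1 * p.2) = 1 / Real.log (Nl N / (p.1 * p.2 : ℕ)) := by
  unfold ck
  rw [sum_eq_single p (fun p' hp' hne => if_neg fun e => hne ?_) (fun h => absurd hp h), if_pos rfl]
  obtain ⟨⟨a1, -, a2⟩, ⟨a3, a4, -⟩, -⟩ := mem_Pr.1 hp
  obtain ⟨⟨b1, -, b2⟩, ⟨b3, b4, -⟩, -⟩ := mem_Pr.1 hp'
  have h1 : p'.1 = p.1 := by
    rcases (Nat.Prime.dvd_mul b1).1 (e ▸ dvd_mul_right p'.1 p'.2) with h | h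
    · exact (Nat.prime_dvd_prime_iff_eq b1 a1).1 h
    · rw [(Nat.prime_dvd_prime_iff_eq b1 a3).1 h] at b2; linarith
  rw [h1] at e
  exact Prod.ext h1 (Nat.eq_of_mul_eq_mul_left a1.pos e)

theorem split3 {a : ℕ} (ha : a ≠ 0) (h : 2 < a.primeFactorsList.length) :
    ∃ p1 p2 p3 r : ℕ, p1.Prime ∧ p2.Prime ∧ p3.Prime ∧ p1 ≤ p2 ∧ p2 ≤ p3 ∧ (r = 1 ∨ p3 ≤ r) ∧
      a = p1 * p2 * p3 * r := by
  have h1 := Nat.prod_primeFactorsList ha
  have h2 := Nat.isChain_primeFactorsList a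
  have h3 : ∀ p ∈ a.primeFactorsList, p.Prime := fun p => Nat.prime_of_mem_primeFactorsList
  generalize a.primeFactorsList = L at h h1 h2 h3
  rcases L with _ | ⟨p1, _ | ⟨p2, _ | ⟨p3, L⟩⟩⟩
  · simp at h
  · simp at h
  · simp at h
  simp only [List.isChain_cons_cons] at h2
  refine ⟨p1, p2, p3, L.prod, h3 _ (by simp), h3 _ (by simp), h3 _ (by simp), h2.1, h2.2.1, ?_,
    by rw [← h1]; simp only [List.prod_cons]; ring⟩
  rcases L with _ | ⟨p4, L⟩
  · exact Or.inl rfl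
  · simp only [List.isChain_cons_cons] at h2
    refine Or.inr (h2.2.2.1.trans (Nat.le_of_dvd (Nat.pos_of_ne_zero fun e => ha ?_) (by simp)))
    rw [← h1, List.prod_cons, List.prod_cons, List.prod_cons, e]; simp

end SignP

open SignP

theorem sign : S_Sign := by
  obtain ⟨N1, h1, hN1⟩ := ev_Nl
  obtain ⟨N2, -, hN2⟩ := ev_pow (a := 2 / 3) (b := 9 / 10) (by norm_num) 4
  refine ⟨max N1 N2, fun N hN => ?_⟩
  have hL := hN1 N ((le_max_left _ _).trans hN)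
  have hN' : (1 : ℝ) ≤ N := by exact_mod_cast h1.trans ((le_max_left _ _).trans hN)
  have hck := ck_nonneg hL
  have hz : (N : ℝ) ^ (1 / 10 : ℝ) ≤ zz N := Real.rpow_le_rpow_of_exponent_le hN' (by norm_num)
  refine ⟨fun d => ⟨?_, fun h => ?_⟩, ?_, fun y k D m μ1 μ3 hC hy hm hm' => ?_⟩
  · by_cases h : ck N d = 0
    · rw [h]; simp
    obtain ⟨p, hp, rfl⟩ := ck_ne h
    rw [abs_of_nonneg (hck _), ck_eq hp]
    exact (div_le_one (by linarith [hL p hp])).2 (hL p hp)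
  · obtain ⟨p, hp, rfl⟩ := ck_ne h
    refine ⟨(Pr_le hp).trans (hN2 N ((le_max_right _ _).trans hN)), fun l hl hd => ?_⟩
    obtain ⟨⟨a1, a2, a3⟩, ⟨a4, a5, -⟩, -⟩ := mem_Pr.1 hp
    rcases (Nat.Prime.dvd_mul hl).1 hd with h | h
    · rw [(Nat.prime_dvd_prime_iff_eq hl a1).1 h]; linarith
    · rw [(Nat.prime_dvd_prime_iff_eq hl a4).1 h]; linarith
  · by_contra h
    obtain ⟨p, hp, h2⟩ := ck_ne h
    exact (mem_Pr.1 hp).1.1.ne_one (Nat.eq_one_of_mul_eq_one_right h2)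
  obtain ⟨-, -, c1, c2, c3, c4⟩ := hC
  have hNl : 1 ≤ Nl N := Real.one_le_rpow hN' (by norm_num)
  have hlog : 0 ≤ Real.log (7 * N) := Real.log_nonneg (by linarith)
  have hbet : ∀ a, 0 ≤ bet (ck N) a := fun a =>
    sum_nonneg fun k _ => mul_nonneg (hck k) ArithmeticFunction.vonMangoldt_nonneg
  have hY2 : 0 ≤ Yf y k (w2 m) := (prod_01_nonneg (w2_01 m) _).trans (Yf_ge y k (w2_01 m))
  have hFB : 0 ≤ FB y k μ3 (ck N) m := mul_nonneg (mul_nonneg (hbet _) hY2) (c3 m)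
  have hle : FF N y k μ1 μ3 m ≤ FA y k μ1 m := by
    unfold FF; nlinarith [mul_nonneg hlog hFB]
  refine ⟨hle.trans (le_abs_self _), fun hB hF => ?_⟩
  unfold B2 at hB
  push Not at hB
  obtain ⟨b1, b2, b3, b4⟩ := hB
  have hm3 : 3 ≤ m := by exact_mod_cast (by linarith : (3 : ℝ) ≤ m)
  have ha : ((m - 2 : ℕ) : ℝ) = m - 2 := by rw [Nat.cast_sub (by omega)]; norm_num
  have hFA : FA y k μ1 m =
      Real.log m * (∏ l ∈ Nat.primesLE y, (1 - w2 (m - 2) l)) * Wm μ1 (m - 2) := by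
    unfold FA
    rw [← Yf_eq y k _ b3, ArithmeticFunction.vonMangoldt_apply_prime b1]; rfl
  have hpos := hF.trans_le hle
  have hlm : 0 ≤ Real.log m := Real.log_natCast_nonneg m
  have hP0 := prod_01_nonneg (w2_01 (m - 2)) (Nat.primesLE y)
  have hP1 := prod_01_le (w2_01 (m - 2)) (Nat.primesLE y)
  have hW : 0 < Wm μ1 (m - 2) := by
    rw [hFA] at hpos
    exact pos_of_mul_pos_right hpos (mul_nonneg hlm hP0)
  have hbig : ∀ q : ℕ, q.Prime → q ∣ m - 2 → zz N < q := by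
    intro q hq hd
    by_contra h
    by_cases h' : y < q
    · exact absurd (c1 _ q (by omega) hq hd h' (not_lt.1 h) fun e => b2 q e hd) hW.not_ge
    · rw [hFA, prod_eq_zero (Nat.mem_primesLE.2 ⟨not_lt.1 h', hq⟩)
        (by unfold w2; rw [if_pos hd]; norm_num)] at hpos
      simp at hpos
  refine ⟨?_, hbig⟩
  by_contra hc
  obtain ⟨p1, p2, p3, r, q1, q2, q3, l1, l2, l3, e⟩ := split3 (by omega) (not_le.1 hc)
  have hW' := c2 _ (by omega) hbig
  have hy0 := yy_nonneg N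
  have hcube : ((m - 2 : ℕ) : ℝ) < yy N ^ 3 := by
    rw [yy_cube, ha]
    have : (m : ℝ) ≤ 7 * N := by exact_mod_cast hm'
    linarith
  have hr : 1 ≤ r := Nat.pos_of_ne_zero fun h => by rw [h, mul_zero] at e; omega
  have d1 : p1 ∣ m - 2 := ⟨p2 * p3 * r, by rw [e]; ring⟩
  have d2 : p2 ∣ m - 2 := ⟨p1 * p3 * r, by rw [e]; ring⟩
  have m1 : p1 ∈ Qs N := by
    refine (mem_prs (zz_nonneg N)).2 ⟨q1, hbig _ q1 d1, ?_⟩
    refine (lt_of_pow_lt_pow_left₀ 3 hy0 (lt_of_le_of_lt ?_ hcube)).le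
    have : p1 ^ 3 ≤ m - 2 := by
      rw [e]
      calc p1 ^ 3 = p1 * p1 * p1 * 1 := by ring
        _ ≤ _ := by gcongr; exact l1.trans l2
    exact_mod_cast this
  have g2 : yy N < p2 := by
    by_contra h
    have m2 : p2 ∈ Qs N := (mem_prs (zz_nonneg N)).2 ⟨q2, hbig _ q2 d2, not_lt.1 h⟩
    have hne : p1 ≠ p2 := fun h' => b4 p1 q1 (hbig _ q1 d1) ⟨p3 * r, by rw [e, ← h']; ring⟩
    have : 2 ≤ ((Qs N).filter (fun q => q ∣ m - 2)).card :=
      one_lt_card.2 ⟨p1, mem_filter.2 ⟨m1, d1⟩, p2, mem_filter.2 ⟨m2, d2⟩, hne⟩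
    have : (2 : ℝ) ≤ ((Qs N).filter (fun q => q ∣ m - 2)).card := by exact_mod_cast this
    linarith
  obtain rfl : r = 1 := by
    refine l3.resolve_right fun h => ?_
    have : p2 ^ 3 ≤ m - 2 := by
      rw [e]
      calc p2 ^ 3 = 1 * p2 * p2 * p2 := by ring
        _ ≤ _ := by gcongr; exacts [q1.one_le, l2.trans h]
    have : (p2 : ℝ) ^ 3 ≤ (m - 2 : ℕ) := by exact_mod_cast this
    have := pow_lt_pow_left₀ g2 hy0 (n := 3) (by norm_num)
    linarith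
  rw [mul_one] at e
  have hPr : (p1, p2) ∈ Pr N := by
    refine mem_Pr.2 ⟨(mem_prs (zz_nonneg N)).1 m1, ⟨q2, g2, ?_⟩, ?_⟩
    · exact_mod_cast (Nat.le_of_dvd (by omega) d2).trans (by omega)
    · calc p1 * p2 ^ 2 = p1 * p2 * p2 := by ring
        _ ≤ p1 * p2 * p3 := by gcongr
        _ ≤ _ := by omega
  have hk : (0 : ℝ) < (p1 * p2 : ℕ) := by exact_mod_cast Nat.mul_pos q1.pos q2.pos
  have t1 : 1 ≤ bet (ck N) (m - 2) := by
    refine le_trans ?_ (single_le_sum (f := fun k => ck N k * Λ ((m - 2) / k))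
      (fun k _ => mul_nonneg (hck k) ArithmeticFunction.vonMangoldt_nonneg)
      (Nat.mem_divisors.2 ⟨⟨p3, e⟩, by omega⟩))
    have h5 := hL _ hPr
    have h6 := ck_eq hPr
    dsimp only at h5 h6 ⊢
    rw [h6, e, Nat.mul_div_cancel_left _ (Nat.mul_pos q1.pos q2.pos),
      ArithmeticFunction.vonMangoldt_apply_prime q3, one_div_mul_eq_div, le_div_iff₀ (by linarith),
      one_mul]
    refine Real.log_le_log (by positivity) ?_
    rw [div_le_iff₀ hk]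
    have : ((m - 2 : ℕ) : ℝ) = p3 * (p1 * p2 : ℕ) := by rw [e]; push_cast; ring
    linarith
  have hDl : Dl N ≤ Nl N := Real.rpow_le_rpow_of_exponent_le hN' (by norm_num)
  have hzl : zz N ≤ Nl N := Real.rpow_le_rpow_of_exponent_le hN' (by norm_num)
  have t2 : 1 ≤ Yf y k (w2 m) := by
    refine le_trans (le_of_eq (prod_eq_one fun l hl => ?_).symm) (Yf_ge y k (w2_01 m))
    obtain ⟨f1, f2⟩ := Nat.mem_primesLE.1 hl
    unfold w2
    rw [if_neg, sub_zero]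
    intro h
    rw [(Nat.prime_dvd_prime_iff_eq f2 b1).1 h] at f1
    have : (m : ℝ) ≤ y := by exact_mod_cast f1
    linarith
  have t3 := c4 m b1 (by linarith)
  have t4 : 1 ≤ FB y k μ3 (ck N) m :=
    one_le_mul_of_one_le_of_one_le (one_le_mul_of_one_le_of_one_le t1 t2) t3
  have t5 : Wm μ1 (m - 2) ≤ 1 / 2 := by
    have : 1 ≤ ((Qs N).filter (fun q => q ∣ m - 2)).card :=
      card_pos.2 ⟨p1, mem_filter.2 ⟨m1, d1⟩⟩
    have : (1 : ℝ) ≤ ((Qs N).filter (fun q => q ∣ m - 2)).card := by exact_mod_cast this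
    linarith
  have t6 : Real.log m ≤ Real.log (7 * N) :=
    Real.log_le_log (by positivity) (by exact_mod_cast hm')
  have t7 : FA y k μ1 m ≤ Real.log (7 * N) * 1 * (1 / 2) := by
    rw [hFA]; gcongr
  unfold FF at hF
  nlinarith

end Pool.Agent.P.MP_0ad054_nt.Chen
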