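import Pool.Agent.P.MP_0ad054_nt.Chen.CenAB

/-! Class sums of the first part of Chen's minorant. -/

namespace Pool.Agent.P.MP_0ad054_nt.Chen

open Finset Pool.Agent.Lib.H9 Pool.Agent.P.MP_0ad054_nt.Sun Pool.Agent.P.MP_0ad054_nt.Sun.CentralP
open scoped ArithmeticFunction.vonMangoldt

open CenAP in
theorem cenA (h : An.S_BV) : S_CenA := by
  intro B B1
  obtain ⟨C1, hC1, bv⟩ := h (4991 / 9995) (B + B1) (by norm_num)
  obtain ⟨C2, hC2, sv⟩ := save B
  obtain ⟨C3, hC3, ht⟩ := tau_RR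
  refine ⟨(6 * C3 + 5) * C2 + 7 * C1 * 4 ^ (B + B1) + 14 * Real.exp 16, 11, by positivity,
    fun N y k q X b μ hy hyk hk hμ hq hq' hqL hX => ?_⟩
  have s := sz hy hyk hk
  have R8 := s.R8
  have R1 : 1 ≤ RR N := by linarith
  have L1 := s.L1
  have N1 : 1 ≤ N := by exact_mod_cast R1.trans s.RN
  have hM : |Mm N μ| ≤ LL N ^ 3 :=
    (Mm_le N fun d => (hμ d).1).trans (pow_le_pow_right₀ L1 (by norm_num))
  refine wrap L1 (by positivity) (by positivity) (by positivity) hC2.le (sv N N1) ?_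
  have p0 : 0 ≤ RR N ^ 9999 * LL N ^ 4 := by positivity
  have p1 : 0 ≤ 7 * C1 * 4 ^ (B + B1) * N * (1 / LL N ^ B) := by positivity
  have p2 : 0 ≤ 14 * Real.exp 16 * N * (LL N ^ 11 / 2 ^ k) := by positivity
  have p3 : 0 ≤ C3 * (RR N ^ 9999 * LL N ^ 4) := by positivity
  rcases lt_or_ge (X : ℝ) (RR N ^ 9995) with hs | hs
  · have : 0 ≤ RR N ^ 9995 := by positivity
    refine (short hy s _ _ hC3 hM (by linarith) fun m hm => ?_).trans (by linarith)
    have m1 := (mem_Icc.1 hm).2.trans hX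
    rw [FA, abs_mul, abs_mul, abs_of_nonneg ArithmeticFunction.vonMangoldt_nonneg]
    refine mul_le_mul (mul_le_mul (ArithmeticFunction.vonMangoldt_le_log.trans (s.l7 m m1))
      ((Yf_le hy k fun l => ?_).trans s.yk) (abs_nonneg _) (by positivity))
      ((Wm_le _ fun d => (hμ d).1).trans (ht N _ (by omega))) (abs_nonneg _) (by positivity)
    unfold w1
    split_ifs <;> simp
  obtain ⟨x2, hK, l2⟩ := level2 s hs
  set K0 := ⌊RR N ^ 4991⌋₊ with hK0
  have b1 := bv X K0 (cH q b 2) x2 hK fun K _ => cH_cop q b 2 K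
  have e1 := bv_le s hC1 hqL hX l2 (sum_nonneg fun _ _ => abs_nonneg _) b1
  have e2 := reduce hy hq hq' hμ (level s) b (Or.inl rfl) (Icc 3 X) (fun n => Λ n) X (C3 * RR N)
    (N := N) fun n hn => (ind_sum N (a := n - 2) (by have := (mem_Icc.1 hn).1; omega)
      (by have := (mem_Icc.1 hn).1; omega)).trans
      (ht N _ (by have := (mem_Icc.1 hn).2; omega))
  have e3 : ∑ K ∈ Icc 1 K0, EH (Icc 3 X) (fun n => Λ n) X q b 2 K ≤
      ∑ K ∈ Icc 1 K0, |∑ n ∈ (Icc 1 X).filter (fun n : ℕ => (K : ℤ) ∣ n - cH q b 2 K), Λ n -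
        (X : ℝ) / K.totient| + K0 * 2 := by
    refine (sum_le_sum fun K _ => cut _ X (fun n => Λ n) _ (fun n hn => ?_)
      (fun _ _ => rfl) _).trans (by rw [sum_add_distrib]; simp)
    rw [abs_of_nonneg ArithmeticFunction.vonMangoldt_nonneg]
    refine ArithmeticFunction.vonMangoldt_le_log.trans ?_
    rcases n.eq_zero_or_pos with rfl | h
    · simp
    · have : (n : ℝ) ≤ 2 := by exact_mod_cast hn
      linarith [Real.log_le_sub_one_of_pos (Nat.cast_pos.2 h : (0 : ℝ) < n)]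
  have qR : (q : ℝ) ≤ RR N := le_trans (by exact_mod_cast hq') s.yR
  have e4 : (q : ℝ) * (K0 * 2) ≤ 2 * (RR N ^ 9999 * LL N ^ 4) :=
    calc _ ≤ RR N * (RR N ^ 4991 * 2) := by
          gcongr
          exact Nat.floor_le (by positivity)
      _ = 2 * (RR N ^ 4992 * 1) := by ring
      _ ≤ _ := by
          gcongr
          · norm_num
          · exact one_le_pow₀ L1
  have e5 : ∑ r ∈ Nat.primesLE y, ∑ n ∈ (Icc 3 X).filter (fun n => r ∣ n), |Λ n| ≤
      RR N * (2 * LL N) := by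
    refine (sum_le_card_nsmul _ _ (2 * LL N) fun r hr => ?_).trans ?_
    · simp only [abs_of_nonneg ArithmeticFunction.vonMangoldt_nonneg]
      exact (lam_prime (Nat.mem_primesLE.1 hr).2 (by omega) fun n hn =>
        ⟨(mem_Icc.1 (mem_filter.1 hn).1).2, (mem_filter.1 hn).2⟩).trans (s.l7 X hX)
    · rw [nsmul_eq_mul]
      exact mul_le_mul_of_nonneg_right (card_primes s) (by positivity)
  have yk := s.yk
  have e6 : (y : ℝ) ^ (2 * k) * (C3 * RR N *
      ∑ r ∈ Nat.primesLE y, ∑ n ∈ (Icc 3 X).filter (fun n => r ∣ n), |Λ n|) ≤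
      2 * (C3 * (RR N ^ 9999 * LL N ^ 4)) :=
    calc _ ≤ RR N * (C3 * RR N * (RR N * (2 * LL N))) := by gcongr
      _ = 2 * (C3 * (RR N ^ 3 * LL N ^ 1)) := by ring
      _ ≤ _ := by gcongr <;> norm_num
  have e7 := mul_le_mul_of_nonneg_left e3 (Nat.cast_nonneg q : (0 : ℝ) ≤ q)
  have e8 := model hy s hq hq' hk hX (b := b) (Or.inl ⟨rfl, rfl⟩) (FA y k μ) (H := 1)
    (M := Mm N μ) (by rwa [one_mul]) (E := _) (le_trans (le_of_eq (by
      rw [mul_one]
      congr 2
      refine sum_congr rfl fun m hm => ?_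
      have m3 := (mem_Icc.1 (mem_filter.1 hm).1).1
      rw [FA, mul_assoc, Wm_eq (N := N) (n := m) (h := 2) (by omega) (by omega) (Dl_le s hμ),
        show w1 m = ind 2 m from funext fun l => w1_eq m3 l])) e2)
  simp only [one_mul] at e8
  rw [mul_add] at e7
  linarith

end Pool.Agent.P.MP_0ad054_nt.Chen
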