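import Pool.Agent.P.MP_0ad054_nt.Chen.Defs
import Pool.Agent.P.MP_0ad054_nt.Sun.Mom

/-! Moments of the weights of Chen type. -/

namespace Pool.Agent.P.MP_0ad054_nt.Chen

open Finset Pool.Agent.P.MP_0ad054_nt.Sun Pool.Agent.Lib.H9 Pool.Agent.P.MP_0ad054_nt.Sun.MomP
open scoped ArithmeticFunction.vonMangoldt

namespace Mom2P

theorem Wm_le {μ : ℕ → ℝ} (h : ∀ d, |μ d| ≤ 1) (a : ℕ) : |Wm μ a| ≤ tau a := by
  refine (abs_sum_le_sum_abs _ _).trans ?_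
  have := sum_le_card_nsmul a.divisors (fun d => |μ d|) 1 fun d _ => h d
  simpa [tau] using this

theorem bet_le {c : ℕ → ℝ} (h : ∀ d, |c d| ≤ 1) (a : ℕ) : |bet c a| ≤ Real.log a := by
  refine (abs_sum_le_sum_abs _ _).trans ?_
  rw [← ArithmeticFunction.vonMangoldt_sum, ← Nat.sum_div_divisors a (fun n => Λ n)]
  refine sum_le_sum fun k _ => ?_
  have h1 := @ArithmeticFunction.vonMangoldt_nonneg (a / k)
  rw [abs_mul, abs_of_nonneg h1]
  exact mul_le_of_le_one_left h1 (h k)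

theorem Mm_le {μ : ℕ → ℝ} (h : ∀ d, |μ d| ≤ 1) (N : ℕ) : |Mm N μ| ≤ LL N ^ 2 := by
  refine (abs_sum_le_sum_abs _ _).trans ?_
  refine le_trans (sum_le_sum fun m hm => ?_) (by simpa [LL] using sum_tau_pow_div_le 1 N)
  have m0 : 0 < m := (mem_Icc.1 hm).1
  have hφ := Nat.totient_pos.2 m0
  have hφ' : (0 : ℝ) < m.totient := by exact_mod_cast hφ
  rw [abs_div, abs_of_pos hφ']
  refine (div_le_div_of_nonneg_right (h m) hφ'.le).trans ?_
  rw [div_le_div_iff₀ hφ' (by exact_mod_cast m0), one_mul, tau]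
  have := sum_le_card_nsmul m.divisors Nat.totient m.totient fun d hd =>
    Nat.le_of_dvd hφ (Nat.totient_dvd_of_dvd (Nat.dvd_of_mem_divisors hd))
  rw [Nat.sum_totient] at this
  exact_mod_cast this

theorem Hc_le {c : ℕ → ℝ} (h : ∀ d, |c d| ≤ 1) (N : ℕ) : |Hc N c| ≤ LL N := by
  refine (abs_sum_le_sum_abs _ _).trans (le_trans (sum_le_sum fun m _ => ?_) (sum_inv_le_log N))
  rw [abs_div, Nat.abs_cast]
  exact div_le_div_of_nonneg_right (h m) (Nat.cast_nonneg _)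

theorem Y2 (y k : ℕ) {m : ℕ} (hm : 3 ≤ m) : |Yf y k (w2 m)| ≤ tau m :=
  abs_form_le _ (primes y) (fun T => cY (2 * k + 1) T.card) (fun _ => abs_cY _ _) (by omega)

theorem md0_le {N y : ℕ} (hy : 2 ≤ y) (hyN : y ≤ N) (k : ℕ) {m : ℕ} (hm : 3 ≤ m) :
    |md0 y k m| ≤ Real.exp 16 * LL N ^ 8 * (tau m * tau (m - 2)) := by
  have h4 : cW y ≤ Real.exp 16 * LL N ^ 8 := by
    refine (cW_le_log hy).trans ?_
    have h1 : (0 : ℝ) < y := by positivity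
    have h2 : (y : ℝ) ≤ N := by exact_mod_cast hyN
    have h3 := Real.log_le_log h1 h2
    have h4 := Real.log_natCast_nonneg y
    have h5 : Real.log y + 1 ≤ LL N := by unfold LL; linarith
    gcongr
  unfold md0
  have h1 := one_le_cW y
  have h2 := Y0 y k hm
  have h3 := one_le_LL N
  rw [abs_mul, abs_of_nonneg (by linarith : 0 ≤ cW y)]
  gcongr

theorem sA_le {μ : ℕ → ℝ} (h : ∀ d, |μ d| ≤ 1) (y k : ℕ) {m : ℕ} (hm : 3 ≤ m) :
    |Yf y k (w1 m) * Wm μ (m - 2)| ≤ tau (m - 2) ^ 2 := by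
  rw [abs_mul, sq]
  exact mul_le_mul (Y1 _ _ hm) (Wm_le h _) (abs_nonneg _) (tau_nonneg _)

theorem FA_sq {μ : ℕ → ℝ} (h : ∀ d, |μ d| ≤ 1) {N : ℕ} (hN : 1 ≤ N) (y k : ℕ) {m : ℕ}
    (hm : m ∈ Icc 3 (7 * N)) : FA y k μ m ^ 2 ≤ 9 * LL N ^ 2 * tau (m - 2) ^ 4 := by
  rw [mem_Icc] at hm
  have h1 := lam_le hN hm.2
  have h2 := sA_le h y k hm.1
  have h3 := @ArithmeticFunction.vonMangoldt_nonneg m
  have h4 := one_le_LL N
  unfold FA
  rw [← sq_abs, mul_assoc, abs_mul, abs_of_nonneg h3]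
  calc _ ≤ (3 * LL N * tau (m - 2) ^ 2) ^ 2 := by gcongr
    _ = _ := by ring

theorem FB_sq {μ c : ℕ → ℝ} (h : ∀ d, |μ d| ≤ 1) (hc : ∀ d, |c d| ≤ 1) {N : ℕ} (hN : 1 ≤ N)
    (y k : ℕ) {m : ℕ} (hm : m ∈ Icc 3 (7 * N)) :
    FB y k μ c m ^ 2 ≤ 9 * LL N ^ 2 * tau m ^ 4 := by
  rw [mem_Icc] at hm
  have h1 : |bet c (m - 2)| ≤ 3 * LL N := by
    have := bet_le hc (m - 2)
    have := log_le hN (m := m - 2) (by omega)
    linarith
  have h2 := Y2 y k hm.1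
  have h3 := Wm_le h m
  have h4 := one_le_LL N
  have h5 := tau_nonneg m
  unfold FB
  rw [← sq_abs, abs_mul, abs_mul]
  calc _ ≤ (3 * LL N * tau m * tau m) ^ 2 := by gcongr
    _ = _ := by ring

theorem mod_sq {N y : ℕ} (hy : 2 ≤ y) (hyN : y ≤ N) (k : ℕ) {m : ℕ} (hm : 3 ≤ m) {x : ℝ}
    (hx : |x| ≤ LL N ^ 3) : (x * md0 y k m) ^ 2 ≤ Real.exp 16 ^ 2 * (LL N ^ 22 * G m) := by
  have h1 := md0_le hy hyN k hm
  have h2 := le_G hm 2 2 (by norm_num)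
  have h3 := one_le_LL N
  rw [← sq_abs, abs_mul]
  calc _ ≤ (LL N ^ 3 * (Real.exp 16 * LL N ^ 8 * (tau m * tau (m - 2)))) ^ 2 := by gcongr
    _ = Real.exp 16 ^ 2 * (LL N ^ 22 * (tau m ^ 2 * tau (m - 2) ^ 2)) := by ring
    _ ≤ _ := by gcongr

theorem tau_prime {l : ℕ} (hl : l.Prime) : tau l = 2 := by
  unfold tau; rw [hl.divisors, card_pair hl.one_lt.ne]; norm_num

theorem sum_dvd2 : ∃ (C : ℝ) (k : ℕ), 1 ≤ C ∧ ∀ N l : ℕ, 1 ≤ N → 0 < l → tau l ≤ 4 →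
    ∑ m ∈ (Icc 3 (7 * N)).filter (fun m => l ∣ m - 2), tau (m - 2) ^ 4 ≤
      C * N * LL N ^ k * (1 / l) := by
  refine ⟨1792 * 3 ^ 2 ^ 4, 2 ^ 4, ?_, fun N l hN hl0 ht => ?_⟩
  · have : (1 : ℝ) ≤ 3 ^ 2 ^ 4 := one_le_pow₀ (by norm_num)
    linarith
  have hl' : (0 : ℝ) < l := by exact_mod_cast hl0
  have h := sum_tau hN (Nat.div_le_self (7 * N) l) 4
  have h1 : ∑ m ∈ (Icc 3 (7 * N)).filter (fun m => l ∣ m - 2), tau (m - 2) ^ 4 ≤
      ∑ m ∈ (Icc 3 (7 * N)).filter (fun m => l ∣ m - 2), 256 * tau ((m - 2) / l) ^ 4 := by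
    refine sum_le_sum fun m hm => ?_
    have h2 := tau_mul_le l ((m - 2) / l)
    rw [Nat.mul_div_cancel' (mem_filter.1 hm).2] at h2
    have := tau_nonneg (m - 2)
    have := tau_nonneg ((m - 2) / l)
    have h3 : tau (m - 2) ≤ 4 * tau ((m - 2) / l) := h2.trans (by gcongr)
    calc _ ≤ (4 * tau ((m - 2) / l)) ^ 4 := by gcongr
      _ = _ := by ring
  have h2 : ∑ m ∈ (Icc 3 (7 * N)).filter (fun m => l ∣ m - 2), tau ((m - 2) / l) ^ 4 ≤
      ∑ n ∈ Icc 1 (7 * N / l), tau n ^ 4 := by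
    rw [← sum_image (f := fun n => tau n ^ 4) (g := fun m => (m - 2) / l)
      (fun a ha b hb hab => by
        simp only [coe_filter, mem_Icc, Set.mem_ofPred_eq] at ha hb hab
        have e1 := Nat.mul_div_cancel' ha.2
        have e2 := Nat.mul_div_cancel' hb.2
        rw [hab] at e1
        omega)]
    refine sum_le_sum_of_subset_of_nonneg (fun n hn => ?_) fun n _ _ => pow_nonneg (tau_nonneg n) _
    obtain ⟨m, hm, rfl⟩ := mem_image.1 hn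
    rw [mem_filter, mem_Icc] at hm
    rw [mem_Icc]
    exact ⟨Nat.div_pos (Nat.le_of_dvd (by omega) hm.2) hl0, Nat.div_le_div_right (by omega)⟩
  rw [← mul_sum] at h1
  have h3 : ((7 * N / l : ℕ) : ℝ) ≤ 7 * N * (1 / l) := by
    refine Nat.cast_div_le.trans (le_of_eq ?_)
    push_cast; ring
  have h4 := one_le_LL N
  calc _ ≤ 256 * (((7 * N / l : ℕ) : ℝ) * (3 * LL N) ^ 2 ^ 4) := by linarith
    _ ≤ 256 * (7 * N * (1 / l) * (3 * LL N) ^ 2 ^ 4) := by gcongr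
    _ = _ := by rw [mul_pow]; ring

theorem sum_np2 : ∃ C : ℝ, 0 < C ∧ ∀ (N : ℕ) (s : ℕ → ℝ), 1 ≤ N →
    (∀ m, 3 ≤ m → |s m| ≤ tau (m - 2) ^ 2) →
    ∑ m ∈ (Icc 3 (7 * N)).filter (fun m => ¬ m.Prime), (Λ m * s m) ^ 2 ≤
      C * N * LL N ^ 2 * (N : ℝ) ^ (-(1 / 4) : ℝ) := by
  obtain ⟨C, hC, h⟩ := tau_le' (ε := 1 / 16) (by norm_num)
  refine ⟨54 * C ^ 4, by positivity, fun N s hN hs => ?_⟩
  have hN' : (1 : ℝ) ≤ N := by exact_mod_cast hN
  have hL := one_le_LL N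
  set u : ℝ := (N : ℝ) ^ (1 / 4 : ℝ) with hu
  have hu0 : 0 < u := by positivity
  have hu4 : u ^ 4 = N := by
    rw [hu, ← Real.rpow_natCast, ← Real.rpow_mul (by linarith)]; norm_num
  have hu1 : (N : ℝ) ^ (-(1 / 4) : ℝ) = u⁻¹ := by rw [Real.rpow_neg (by linarith)]
  have h1 : ∀ m ∈ (Icc 3 (7 * N)).filter (fun m => ¬ m.Prime), (Λ m * s m) ^ 2 ≤
      3 * LL N * (C ^ 4 * u) * Λ m := by
    intro m hm
    rw [mem_filter, mem_Icc] at hm
    have a1 := lam_le hN hm.1.2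
    have a2 := hs m hm.1.1
    have a3 := @ArithmeticFunction.vonMangoldt_nonneg m
    have a4 := h N (m - 2) (by omega)
    have a5 := tau_nonneg (m - 2)
    have a6 : s m ^ 2 ≤ C ^ 4 * u := by
      rw [← sq_abs]
      calc _ ≤ (tau (m - 2) ^ 2) ^ 2 := by gcongr
        _ ≤ ((C * (N : ℝ) ^ (1 / 16 : ℝ)) ^ 2) ^ 2 := by gcongr
        _ = C ^ 4 * ((N : ℝ) ^ (1 / 16 : ℝ)) ^ 4 := by ring
        _ = _ := by
          rw [hu, ← Real.rpow_natCast ((N : ℝ) ^ (1 / 16 : ℝ)), ← Real.rpow_mul (by linarith)]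
          norm_num
    calc _ = Λ m * s m ^ 2 * Λ m := by ring
      _ ≤ _ := by gcongr
  refine (sum_le_sum h1).trans ?_
  rw [← mul_sum]
  have h2 := Chebyshev.psi_sub_theta_le (x := ((7 * N : ℕ) : ℝ)) (by push_cast; linarith)
  rw [Chebyshev.psi_sub_theta_eq_sum_not_prime, Nat.floor_natCast] at h2
  have h3 : ∑ m ∈ (Icc 3 (7 * N)).filter (fun m => ¬ m.Prime), Λ m ≤
      ∑ m ∈ (Ioc 0 (7 * N)).filter (fun m => ¬ m.Prime), Λ m := by
    refine sum_le_sum_of_subset_of_nonneg (filter_subset_filter _ fun m hm => ?_)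
      fun _ _ _ => ArithmeticFunction.vonMangoldt_nonneg
    rw [mem_Icc] at hm; rw [mem_Ioc]; omega
  have h4 : Real.sqrt ((7 * N : ℕ) : ℝ) ≤ 3 * u ^ 2 := by
    rw [Real.sqrt_le_left (by positivity)]
    push_cast
    nlinarith
  have h5 := log_le hN (le_refl (7 * N))
  have h6 := Real.log_natCast_nonneg (7 * N)
  have h7 : ∑ m ∈ (Icc 3 (7 * N)).filter (fun m => ¬ m.Prime), Λ m ≤
      2 * (3 * u ^ 2) * (3 * LL N) := by
    refine h3.trans (h2.trans ?_)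
    gcongr
    linarith
  calc _ ≤ 3 * LL N * (C ^ 4 * u) * (2 * (3 * u ^ 2) * (3 * LL N)) := by gcongr
    _ = _ := by rw [hu1, ← hu4]; field_simp; ring

theorem sum_sq_le {z : ℝ} (hz : 1 ≤ z) (n : ℕ) :
    ∑ q ∈ (Ioo ⌊z⌋₊ n).filter Nat.Prime, 1 / ((q ^ 2 : ℕ) : ℝ) ≤ 2 * (1 / z) := by
  have h1 := sum_Ioo_inv_sq_le (α := ℝ) ⌊z⌋₊ n
  have h2 : ∑ q ∈ (Ioo ⌊z⌋₊ n).filter Nat.Prime, 1 / ((q ^ 2 : ℕ) : ℝ) ≤
      ∑ q ∈ Ioo ⌊z⌋₊ n, ((q : ℝ) ^ 2)⁻¹ := by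
    simp only [one_div, Nat.cast_pow]
    exact sum_le_sum_of_subset_of_nonneg (filter_subset _ _) fun _ _ _ => by positivity
  have h3 : 2 / ((⌊z⌋₊ : ℝ) + 1) ≤ 2 / z :=
    div_le_div_of_nonneg_left (by norm_num) (by linarith) (Nat.lt_floor_add_one z).le
  rw [mul_one_div]
  linarith

end Mom2P

open Mom2P in
open Classical in
theorem mom2 : S_Mom2 := by
  obtain ⟨C1, k1, hC1, h1⟩ := sum_G
  obtain ⟨C2, k2, hC2, h2⟩ := sum_dvd2
  obtain ⟨C3, hC3, h3⟩ := sum_np2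
  set E := Real.exp 16 ^ 2 with hE
  have hE0 : 0 < E := by positivity
  refine ⟨(18 + 2 * E) * C1 + 18 * C2 + C3, k1 + k2 + 22, by positivity,
    fun N y k D z μ μ' c hy hyN hz hμ hμ' hc => ?_⟩
  have hN : 1 ≤ N := by omega
  have hL := one_le_LL N
  have hN0 : (0 : ℝ) ≤ N := Nat.cast_nonneg _
  set W := N * LL N ^ (k1 + k2 + 22) with hW
  have hW0 : 0 ≤ W := by positivity
  have hpow : ∀ j, j ≤ k1 + k2 + 22 → N * LL N ^ j ≤ W := fun j hj =>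
    mul_le_mul_of_nonneg_left (pow_le_pow_right₀ hL hj) hN0
  have hG : LL N ^ 22 * ∑ m ∈ Icc 3 (7 * N), G m ≤ C1 * W := by
    calc _ ≤ LL N ^ 22 * (C1 * N * LL N ^ k1) := by gcongr; exact h1 N hN
      _ = C1 * (N * LL N ^ (k1 + 22)) := by ring
      _ ≤ _ := by gcongr; exact hpow _ (by omega)
  have hL2 : LL N ^ 2 ≤ LL N ^ 22 := pow_le_pow_right₀ hL (by norm_num)
  have b1 : ∀ m ∈ Icc 3 (7 * N), FA y k μ m ^ 2 ≤ 9 * (LL N ^ 22 * G m) := by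
    intro m hm
    have := le_G (mem_Icc.1 hm).1 0 4 (by norm_num)
    rw [pow_zero, one_mul] at this
    have := tau_nonneg (m - 2)
    refine (FA_sq hμ hN y k hm).trans ?_
    rw [mul_assoc]
    gcongr
  have b2 : ∀ m ∈ Icc 3 (7 * N), FB y k μ' c m ^ 2 ≤ 9 * (LL N ^ 22 * G m) := by
    intro m hm
    have := le_G (mem_Icc.1 hm).1 4 0 (by norm_num)
    rw [pow_zero, mul_one] at this
    have := tau_nonneg m
    refine (FB_sq hμ' hc hN y k hm).trans ?_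
    rw [mul_assoc]
    gcongr
  have c1 : 0 ≤ C1 * W := by positivity
  have c2 : 0 ≤ C2 * W := by positivity
  have c3 : 0 ≤ C3 * W := by positivity
  have c4 : 0 ≤ E * (C1 * W) := by positivity
  have e0 : ((18 + 2 * E) * C1 + 18 * C2 + C3) * N * LL N ^ (k1 + k2 + 22) =
      18 * (C1 * W) + 2 * (E * (C1 * W)) + 18 * (C2 * W) + C3 * W := by rw [hW]; ring
  rw [e0]
  have gen : ∀ (F : ℕ → ℝ) (x : ℝ), (∀ m ∈ Icc 3 (7 * N), F m ^ 2 ≤ 9 * (LL N ^ 22 * G m)) →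
      |x| ≤ LL N ^ 3 → ∑ m ∈ Icc 3 (7 * N), (F m - x * md0 y k m) ^ 2 ≤
      18 * (C1 * W) + 2 * (E * (C1 * W)) + 18 * (C2 * W) + C3 * W := by
    intro F x hF hx
    have : ∀ m ∈ Icc 3 (7 * N), (F m - x * md0 y k m) ^ 2 ≤ (18 + 2 * E) * (LL N ^ 22 * G m) := by
      intro m hm
      have a1 := hF m hm
      have a2 := mod_sq hy hyN k (mem_Icc.1 hm).1 hx
      nlinarith [sq_nonneg (F m + x * md0 y k m)]
    refine (sum_le_sum this).trans ?_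
    rw [← mul_sum, ← mul_sum]
    calc _ ≤ (18 + 2 * E) * (C1 * W) := by gcongr
      _ ≤ _ := by linarith
  refine ⟨gen _ _ b1 ((Mm_le hμ N).trans (pow_le_pow_right₀ hL (by norm_num))), gen _ _ b2 ?_, ?_⟩
  · rw [abs_mul]
    have a1 := Hc_le hc N
    have a2 := Mm_le hμ' N
    calc _ ≤ LL N * LL N ^ 2 := by gcongr
      _ = _ := by ring
  set Q := (Ioo ⌊z⌋₊ (7 * N)).filter Nat.Prime with hQ
  have key : ∑ m ∈ (Icc 3 (7 * N)).filter (B2 y k D z), FA y k μ m ^ 2 ≤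
      ∑ m ∈ Icc 3 (7 * N), ((if ¬ m.Prime then (Λ m * (Yf y k (w1 m) * Wm μ (m - 2))) ^ 2 else 0) +
        9 * LL N ^ 2 * ∑ l ∈ D.primeFactors, (if l ∣ m - 2 then tau (m - 2) ^ 4 else 0) +
        9 * (LL N ^ 22 * G m) / 2 ^ k +
        9 * LL N ^ 2 * ∑ q ∈ Q, (if q ^ 2 ∣ m - 2 then tau (m - 2) ^ 4 else 0)) := by
    rw [sum_filter]
    refine sum_le_sum fun m hm => ?_
    have a4 := tau_nonneg (m - 2)
    have t1 : 0 ≤ (if ¬ m.Prime then (Λ m * (Yf y k (w1 m) * Wm μ (m - 2))) ^ 2 else 0) := by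
      split_ifs <;> positivity
    have t0 : ∀ l ∈ D.primeFactors, 0 ≤ (if l ∣ m - 2 then tau (m - 2) ^ 4 else 0) :=
      fun l _ => by split_ifs <;> positivity
    have t0' : ∀ q ∈ Q, 0 ≤ (if q ^ 2 ∣ m - 2 then tau (m - 2) ^ 4 else 0) :=
      fun l _ => by split_ifs <;> positivity
    have t2 : 0 ≤ 9 * LL N ^ 2 *
        ∑ l ∈ D.primeFactors, (if l ∣ m - 2 then tau (m - 2) ^ 4 else 0) :=
      mul_nonneg (by positivity) (sum_nonneg t0)
    have t3 : 0 ≤ 9 * (LL N ^ 22 * G m) / 2 ^ k := by have := G_nonneg m; positivity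
    have t4 : 0 ≤ 9 * LL N ^ 2 * ∑ q ∈ Q, (if q ^ 2 ∣ m - 2 then tau (m - 2) ^ 4 else 0) :=
      mul_nonneg (by positivity) (sum_nonneg t0')
    have a0 := FA_sq hμ hN y k hm
    by_cases hB : B2 y k D z m
    · rw [if_pos hB]
      rcases hB with hB | ⟨l, hl, hB⟩ | hB | ⟨q, hq, hzq, hB⟩
      · rw [if_pos hB]
        have : FA y k μ m = Λ m * (Yf y k (w1 m) * Wm μ (m - 2)) := by unfold FA; ring
        rw [this]
        linarith
      · have := single_le_sum t0 hl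
        rw [if_pos hB] at this
        have : 9 * LL N ^ 2 * tau (m - 2) ^ 4 ≤ 9 * LL N ^ 2 *
          ∑ l ∈ D.primeFactors, (if l ∣ m - 2 then tau (m - 2) ^ 4 else 0) := by gcongr
        linarith
      · rw [mem_Icc] at hm
        have a1 := le_G hm.1 0 5 (by norm_num)
        rw [pow_zero, one_mul] at a1
        have a2 := bad_le hB (pow_card_le_tau _ (primes y) (by omega))
        have : FA y k μ m ^ 2 ≤ 9 * (LL N ^ 22 * G m) / 2 ^ k := by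
          calc _ ≤ 9 * LL N ^ 2 * tau (m - 2) ^ 4 * (tau (m - 2) / 2 ^ k) :=
              a0.trans (le_mul_of_one_le_right (by positivity) a2)
            _ = 9 * (LL N ^ 2 * tau (m - 2) ^ 5) / 2 ^ k := by ring
            _ ≤ _ := by gcongr
        linarith
      · have hqQ : q ∈ Q := by
          rw [mem_Icc] at hm
          have a1 : q ≤ m - 2 :=
            Nat.le_of_dvd (by omega) ((dvd_pow_self q two_ne_zero).trans hB)
          have a2 : ⌊z⌋₊ < q := (Nat.floor_lt (by linarith)).2 hzq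
          exact mem_filter.2 ⟨mem_Ioo.2 ⟨a2, by omega⟩, hq⟩
        have := single_le_sum t0' hqQ
        rw [if_pos hB] at this
        have : 9 * LL N ^ 2 * tau (m - 2) ^ 4 ≤ 9 * LL N ^ 2 *
          ∑ q ∈ Q, (if q ^ 2 ∣ m - 2 then tau (m - 2) ^ 4 else 0) := by gcongr
        linarith
    · rw [if_neg hB]; linarith
  refine key.trans ?_
  rw [sum_add_distrib, sum_add_distrib, sum_add_distrib, ← sum_filter, ← mul_sum, sum_comm,
    ← sum_div, ← mul_sum, ← mul_sum, ← mul_sum, sum_comm (s := Icc 3 (7 * N))]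
  have d1 := h3 N (fun m => Yf y k (w1 m) * Wm μ (m - 2)) hN fun m hm => sA_le hμ y k hm
  have d2 : ∑ l ∈ D.primeFactors, ∑ m ∈ Icc 3 (7 * N),
      (if l ∣ m - 2 then tau (m - 2) ^ 4 else 0) ≤
      C2 * N * LL N ^ k2 * ∑ l ∈ D.primeFactors, 1 / (l : ℝ) := by
    rw [mul_sum]
    refine sum_le_sum fun l hl => ?_
    rw [← sum_filter]
    have hp := Nat.prime_of_mem_primeFactors hl
    exact h2 N l hN hp.pos (by rw [tau_prime hp]; norm_num)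
  have d2' : ∑ q ∈ Q, ∑ m ∈ Icc 3 (7 * N), (if q ^ 2 ∣ m - 2 then tau (m - 2) ^ 4 else 0) ≤
      C2 * N * LL N ^ k2 * (2 * (1 / z)) := by
    refine le_trans ?_ (mul_le_mul_of_nonneg_left (sum_sq_le hz (7 * N)) (by positivity))
    rw [mul_sum]
    refine sum_le_sum fun q hq => ?_
    rw [← sum_filter]
    have hp := (mem_filter.1 hq).2
    refine h2 N (q ^ 2) hN (pow_pos hp.pos 2) ?_
    have := tau_mul_le q q
    rw [tau_prime hp, ← sq] at this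
    linarith
  set S := ∑ l ∈ D.primeFactors, 1 / (l : ℝ)
  have hS : 0 ≤ S := sum_nonneg fun _ _ => by positivity
  set u := (N : ℝ) ^ (-(1 / 4) : ℝ)
  have hu : 0 ≤ u := by positivity
  set v : ℝ := 1 / 2 ^ k with hv
  have hv0 : 0 ≤ v := by positivity
  set t : ℝ := 1 / z
  have ht0 : 0 ≤ t := by positivity
  have d3 : C3 * N * LL N ^ 2 * u ≤ C3 * W * u := by
    rw [mul_assoc C3]; gcongr; exact hpow _ (by omega)
  have d4 : 9 * LL N ^ 2 * ∑ l ∈ D.primeFactors, ∑ m ∈ Icc 3 (7 * N),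
      (if l ∣ m - 2 then tau (m - 2) ^ 4 else 0) ≤ 9 * (C2 * W) * S := by
    calc _ ≤ 9 * LL N ^ 2 * (C2 * N * LL N ^ k2 * S) := by gcongr
      _ = 9 * (C2 * (N * LL N ^ (k2 + 2))) * S := by ring
      _ ≤ _ := by gcongr; exact hpow _ (by omega)
  have d4' : 9 * LL N ^ 2 * ∑ q ∈ Q, ∑ m ∈ Icc 3 (7 * N),
      (if q ^ 2 ∣ m - 2 then tau (m - 2) ^ 4 else 0) ≤ 18 * (C2 * W) * t := by
    calc _ ≤ 9 * LL N ^ 2 * (C2 * N * LL N ^ k2 * (2 * t)) := by gcongr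
      _ = 18 * (C2 * (N * LL N ^ (k2 + 2))) * t := by ring
      _ ≤ _ := by gcongr; exact hpow _ (by omega)
  have d5 : 9 * (LL N ^ 22 * ∑ m ∈ Icc 3 (7 * N), G m) / 2 ^ k ≤ 9 * (C1 * W) * v := by
    rw [hv, mul_one_div]; gcongr
  generalize C1 * W = x1 at *
  generalize C2 * W = x2 at *
  generalize C3 * W = x3 at *
  generalize E * x1 = x4 at *
  nlinarith [mul_nonneg c1 hS, mul_nonneg c1 hu, mul_nonneg c1 hv0, mul_nonneg c2 hS,
    mul_nonneg c2 hu, mul_nonneg c2 hv0, mul_nonneg c3 hS, mul_nonneg c3 hu, mul_nonneg c3 hv0,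
    mul_nonneg c4 hS, mul_nonneg c4 hu, mul_nonneg c4 hv0, mul_nonneg c1 ht0, mul_nonneg c2 ht0,
    mul_nonneg c3 ht0, mul_nonneg c4 ht0]

end Pool.Agent.P.MP_0ad054_nt.Chen
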