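import Pool.Agent.P.MP_0ad054_nt.Chen.Trans2A
import Pool.Agent.P.MP_0ad054_nt.Sun.RG

/-! The transference step without a minor arc hypothesis, by duality. -/

namespace Pool.Agent.P.MP_0ad054_nt.Chen

open Finset ZMod Pool.Agent.P.MP_0ad054_nt.Sun Pool.Agent.P.MP_0ad054_nt.Sun.TransP
open scoped ComplexConjugate

namespace Trans2P

theorem rG_bd {ε : ℝ} (hε : 0 < ε) (hε1 : ε ≤ 1) : ∃ C : ℝ, 0 < C ∧ ∀ N g : ℕ, 1 ≤ N →
    g ≤ 40 * N → rG N g ≤ C * (N : ℝ) ^ ε := by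
  obtain ⟨C, hC, h⟩ := tau_le (ε := ε / 2) (by linarith)
  refine ⟨1 + 80 * C ^ 2, by positivity, fun N g hN hg => ?_⟩
  have hN1 : (1 : ℝ) ≤ N := by exact_mod_cast hN
  have h1 : 1 ≤ (N : ℝ) ^ ε := Real.one_le_rpow hN1 hε.le
  rcases Nat.eq_zero_or_pos g with rfl | hg0
  · have := RGP.rG_zero N
    rw [Nat.cast_zero]
    nlinarith [mul_nonneg (sq_nonneg C) (zero_le_one.trans h1)]
  · refine (RGP.rG_le N g hg0).trans ?_
    have a1 : (g : ℝ) ≤ 40 * N := by exact_mod_cast hg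
    have a2 : (40 : ℝ) ^ ε ≤ 40 := by
      simpa using Real.rpow_le_rpow_of_exponent_le (by norm_num : (1 : ℝ) ≤ 40) hε1
    have a3 : tau g ^ 2 ≤ C ^ 2 * (40 * (N : ℝ) ^ ε) := by
      have := tau_nonneg g
      calc _ ≤ (C * (g : ℝ) ^ (ε / 2)) ^ 2 := by gcongr; exact h g
        _ = C ^ 2 * (g : ℝ) ^ ε := by
            rw [mul_pow, ← Real.rpow_natCast ((g : ℝ) ^ (ε / 2)),
              ← Real.rpow_mul (Nat.cast_nonneg g)]
            norm_num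
        _ ≤ C ^ 2 * (40 * N : ℝ) ^ ε := by gcongr
        _ = C ^ 2 * ((40 : ℝ) ^ ε * (N : ℝ) ^ ε) := by
            rw [Real.mul_rpow (by norm_num) (by linarith)]
        _ ≤ _ := by gcongr
    nlinarith

/-- the kernel of the counting form -/
noncomputable def cf (M N D : ℕ) (γ : ℤ → ℂ) (g : ZMod M) : ℂ :=
  TT N D γ (fun _ => 1) (fun m => if (m : ZMod M) = g then 1 else 0)

/-- the counting form of a pure frequency -/
noncomputable def Gm (M N D : ℕ) (γ : ℤ → ℂ) (r : ZMod M) : ℂ :=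
  TT N D γ (fun _ => 1) (fun m => e ((r.val : ℝ) / M * m))

theorem TT_proj {M : ℕ} [NeZero M] (N D : ℕ) (γ : ℤ → ℂ) (R : Finset (ZMod M))
    (F : ZMod M → ℂ) : TT N D γ (fun _ => 1) (fun m => proj R F m) =
      ∑ r ∈ R, ((M : ℂ)⁻¹ * dft F r) * Gm M N D γ r := by
  simp only [proj_apply, char_eq]
  exact TT_sum N D γ _ R _ _

theorem dft_cf {M : ℕ} [NeZero M] (N D : ℕ) (γ : ℤ → ℂ) (r : ZMod M) :
    dft (fun g => conj (cf M N D γ g)) r = conj (Gm M N D γ r) := by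
  have h : Gm M N D γ r = ∑ g : ZMod M, stdAddChar (r * g) * cf M N D γ g := by
    unfold Gm cf
    rw [← TT_sum]
    congr 1
    funext m
    simp only [mul_ite, mul_one, mul_zero, sum_ite_eq, mem_univ, if_true, char_eq]
  rw [h, dft_apply, map_sum]
  refine sum_congr rfl fun g _ => ?_
  rw [map_mul, conj_char, smul_eq_mul, mul_comm g r]

theorem cf_le {M N D : ℕ} [NeZero M] (hM : 8 * N < M) (hD : 1 ≤ D) (hDN : D ≤ N) {γ : ℤ → ℂ}
    (hγ : ∀ n, ‖γ n‖ ≤ 1) {T : ℝ} (hT : ∀ g : ℕ, g < M → rG N g ≤ T) (g : ZMod M) :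
    ‖cf M N D γ g‖ ≤ (Del D).card * (9 * ((N : ℝ) / D) * T) := by
  unfold cf TT
  refine (norm_sum_le _ _).trans ((sum_le_card_nsmul _ _ _ fun δ _ => ?_).trans
    (by rw [nsmul_eq_mul]))
  unfold T1
  rw [sum_comm]
  have hT0 : 0 ≤ T := (TransP.rG_nonneg N _).trans (hT 0 (by omega))
  have h2 := card_box ((Nat.one_le_div_iff hD).2 hDN)
  have h3 : ((N / D : ℕ) : ℝ) ≤ N / D := Nat.cast_div_le
  refine (norm_sum_le _ _).trans ((sum_le_card_nsmul _ _ T fun η _ => ?_).trans ?_)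
  · refine (norm_sum_le _ _).trans (le_trans ?_ (hT _ (ZMod.val_lt (g - (AA δ η : ZMod M)))))
    unfold rG
    rw [card_filter]
    push_cast
    refine sum_le_sum fun ξ hξ => ?_
    by_cases h : ((GG ξ + AA δ η : ℤ) : ZMod M) = g
    · obtain ⟨a1, a2⟩ := mem_box hξ
      have a5 : 0 ≤ GG ξ := by unfold GG; positivity
      have a6 : GG ξ < M := by unfold GG; omega
      have a7 : GG ξ = ((g - (AA δ η : ZMod M)).val : ℕ) := by
        rw [← h]; push_cast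
        rw [add_sub_cancel_right, ZMod.val_intCast, Int.emod_eq_of_lt a5 a6]
      push_cast at h
      rw [if_pos h, if_pos a7, mul_one, mul_one]
      exact hγ _
    · push_cast at h
      rw [if_neg h, mul_zero, norm_zero]
      positivity
  · rw [nsmul_eq_mul]
    gcongr
    linarith

theorem quad {x a b : ℝ} (ha : 0 ≤ a) (hb : 0 ≤ b) (h : x ^ 2 ≤ a * x + b ^ 2) : x ≤ a + b := by
  by_contra hh
  push Not at hh
  nlinarith

theorem sqrt_le_of {t C w u v : ℝ} (ht : 0 ≤ t) (hC : 0 ≤ C) (hw : 0 ≤ w) (hu : 0 ≤ u)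
    (hv : 0 ≤ v) (h : t ^ 2 ≤ C * w ^ 2 * (u ^ 2 + v ^ 2)) : t ≤ Real.sqrt C * w * (u + v) := by
  refine (sq_le_sq₀ ht (by positivity)).1 (h.trans ?_)
  rw [mul_pow, mul_pow, Real.sq_sqrt hC]
  gcongr
  nlinarith [mul_nonneg hu hv]

theorem alg1 {C3 C4 a b : ℝ} (h3 : 0 ≤ C3) (h4 : 0 ≤ C4) (hb : 0 ≤ b) (h : a ≤ b) :
    9 * C4 * a + 324 * 81 * b ≤ (324 * 81 + C3 + 63 * C4) * b := by
  nlinarith [mul_nonneg h3 hb, mul_nonneg h4 hb, mul_le_mul_of_nonneg_left h h4]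

theorem alg2 {C3 C4 : ℝ} (h3 : 0 ≤ C3) (h4 : 0 ≤ C4) :
    40 * (9 * C4) ^ 2 ≤ (324 * 81 + C3 + 63 * C4) ^ 2 := by
  have : 63 * C4 ≤ 324 * 81 + C3 + 63 * C4 := by linarith
  have h2 : (63 * C4) ^ 2 ≤ (324 * 81 + C3 + 63 * C4) ^ 2 := by gcongr
  nlinarith [sq_nonneg C4]

theorem alg3 {A x s C2 p1 p2 p3 : ℝ} (hA : 1 ≤ A) (hs : 0 ≤ s) (hC : 0 ≤ C2) (q1 : 0 ≤ p1)
    (q2 : 0 ≤ p2) (q3 : 0 ≤ p3) (h : A * x ^ 2 ≤ s * (p1 * x + p2 ^ 2) + C2 * (x * p3)) :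
    x ≤ (s + C2 + Real.sqrt s) * (p1 + p2 + p3) := by
  have c5 : x ≤ (s * p1 + C2 * p3) + Real.sqrt s * p2 := by
    refine quad (by positivity) (by positivity) ?_
    rw [mul_pow, Real.sq_sqrt hs]
    have := le_mul_of_one_le_left (sq_nonneg x) hA
    linarith
  refine c5.trans ?_
  have := Real.sqrt_nonneg s
  nlinarith [mul_nonneg hs q2, mul_nonneg hs q3, mul_nonneg hC q1, mul_nonneg hC q2,
    mul_nonneg this q1, mul_nonneg this q3]

theorem dual (hU : S_U2) (hB : S_UB) (hR : S_RG) (hM : S_GamMin) :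
    ∃ c : ℝ, 0 < c ∧ ∃ (C : ℝ) (k : ℕ), 0 < C ∧
    ∀ (M N D : ℕ) [NeZero M] (K : ℝ) (γ : ℤ → ℂ) (R : Finset (ZMod M)),
    1 ≤ N → M.Prime → 20 * N < M → M ≤ 40 * N → 1 ≤ D → (D : ℝ) ≤ (N : ℝ) ^ c →
    1 ≤ K → K ≤ (N : ℝ) ^ c → (∀ n, ‖γ n‖ ≤ 1) → (∀ n, γ n ≠ 0 → 3 ≤ n ∧ n ≤ N) →
    (∀ r ∉ R, Minor N ((N : ℝ) ^ (1 / 1000 : ℝ)) ((r.val : ℝ) / M)) →
    (R.card : ℝ) ≤ 324 * ((N : ℝ) ^ (1 / 1000 : ℝ)) ^ 3 →
    ∑ r ∈ Rᶜ, ‖Gm M N D γ r‖ ^ 2 ≤ (M : ℝ) / N * (C * ((Del D).card * ((N : ℝ) ^ 2 / D)) *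
      (Real.sqrt (K / (Del D).card) + (N : ℝ) ^ (-c) + LL N ^ k / Real.sqrt K)) ^ 2 := by
  obtain ⟨c, hc, C1, hC1, H1⟩ := hU (1 / 20000) (by norm_num) (by norm_num)
  obtain ⟨C2, k, hC2, H2⟩ := part_compl hB hR
  obtain ⟨C3, hC3, H3⟩ := hM
  set ε := min (c / 4) (1 / 20000) with hε
  have hε0 : 0 < ε := lt_min (by linarith) (by norm_num)
  have hεa : ε ≤ c / 4 := min_le_left _ _
  have hεb : ε ≤ 1 / 20000 := min_le_right _ _
  obtain ⟨C4, hC4, H4⟩ := rG_bd hε0 (by linarith)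
  set A := 324 * 81 + C3 + 63 * C4 with hA
  have hA0 : 0 < A := by positivity
  set s := Real.sqrt C1 with hs
  have hs0 : 0 ≤ s := Real.sqrt_nonneg _
  refine ⟨ε, hε0, A * (s + C2 + Real.sqrt s), k, by positivity,
    fun M N D _ K γ R hN hp hM1 hM2 hD hDc hK hKc hγ hγ' hmin hRc => ?_⟩
  have hN0 : (0 : ℝ) < N := by exact_mod_cast hN
  have hN1 : (1 : ℝ) ≤ N := by exact_mod_cast hN
  have hD0 : (0 : ℝ) < D := by exact_mod_cast hD
  have mono : ∀ a b : ℝ, a ≤ b → (N : ℝ) ^ a ≤ (N : ℝ) ^ b := fun a b h =>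
    Real.rpow_le_rpow_of_exponent_le hN1 h
  have hDN : D ≤ N := by
    have := hDc.trans (mono ε 1 (by linarith))
    rw [Real.rpow_one] at this
    exact_mod_cast this
  have hNM : (N : ℝ) ≤ M := by exact_mod_cast (by omega : N ≤ M)
  have hM40 : (M : ℝ) ≤ 40 * N := by exact_mod_cast hM2
  have hM0 : (0 : ℝ) < M := by linarith
  rcases (Del D).eq_empty_or_nonempty with h0 | h0
  · simp [Gm, TT, h0]
  have hd : (0 : ℝ) < (Del D).card := by exact_mod_cast h0.card_pos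
  set d : ℝ := ((Del D).card : ℝ) with hdd
  set W : ℝ := d * ((N : ℝ) ^ 2 / D) with hW
  have hW0 : 0 < W := by positivity
  set B := ∑ r ∈ Rᶜ, ‖Gm M N D γ r‖ ^ 2 with hBd
  have hB0 : 0 ≤ B := sum_nonneg fun _ _ => by positivity
  set ν : ℝ := A * (W / N) with hν
  have hν0 : 0 < ν := by positivity
  set Φ : ZMod M → ℂ := fun g => conj (cf M N D γ g) with hΦ
  set φ : ZMod M → ℂ := ((ν : ℂ))⁻¹ • proj Rᶜ Φ with hφ
  have hφn : ∀ g, ‖φ g‖ = ν⁻¹ * ‖proj Rᶜ Φ g‖ := by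
    intro g
    rw [hφ, Pi.smul_apply, norm_smul, norm_inv, Complex.norm_real, Real.norm_of_nonneg hν0.le]
  have a0 : ∑ g, ‖proj Rᶜ Φ g‖ ^ 2 = B / M := by
    rw [eq_div_iff hM0.ne', mul_comm, ← parseval, hBd, ← sum_filter_add_sum_filter_not univ
      (fun r => r ∈ Rᶜ)]
    rw [sum_eq_zero (s := univ.filter (fun r => ¬ r ∈ Rᶜ)) fun r hr => by
      rw [dft_proj, if_neg (mem_filter.1 hr).2]; simp]
    rw [add_zero, filter_mem_eq_inter, univ_inter]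
    exact sum_congr rfl fun r hr => by rw [dft_proj, if_pos hr, dft_cf, Complex.norm_conj]
  set E := ν⁻¹ ^ 2 * (B / M) with hE
  have hE0 : 0 ≤ E := by positivity
  have a1 : ∑ g, ‖φ g‖ ^ 2 = E := by
    simp only [hφn, mul_pow, ← mul_sum, a0, hE]
  have a2 : ‖TT N D γ (fun _ => 1) (fun m => φ m)‖ = ν * E := by
    have b1 : TT N D γ (fun _ => 1) (fun m => φ m) =
        (ν : ℂ)⁻¹ * TT N D γ (fun _ => 1) (fun m => proj Rᶜ Φ m) := by
      rw [← TT_mul]; rfl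
    have b2 : TT N D γ (fun _ => 1) (fun m => proj Rᶜ Φ m) = ((B / M : ℝ) : ℂ) := by
      rw [TT_proj, hBd, Complex.ofReal_div, Complex.ofReal_sum, sum_div]
      refine sum_congr rfl fun r _ => ?_
      rw [dft_cf, normSq_eq]
      push_cast
      ring
    rw [b1, b2, norm_mul, norm_inv, Complex.norm_real, Complex.norm_real,
      Real.norm_of_nonneg hν0.le, Real.norm_of_nonneg (by positivity), hE]
    field_simp
  have a3 : ∀ g, ‖Φ g‖ ≤ W / N * (9 * C4 * (N : ℝ) ^ ε) := by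
    intro g
    rw [hΦ, Complex.norm_conj]
    refine (cf_le (by omega) hD hDN hγ (fun g hg => H4 N g hN (by omega)) g).trans (le_of_eq ?_)
    rw [hW, ← hdd]; field_simp
  have a4 : ∀ g, ‖proj R Φ g‖ ≤ W / N * (324 * 81 * (N : ℝ) ^ (1 / 100 : ℝ)) := by
    intro g
    rw [proj_apply]
    refine (norm_sum_le _ _).trans ((sum_le_card_nsmul _ _ (81 * (W / N)) fun r _ => ?_).trans ?_)
    · rw [norm_mul, U2P.norm_ch, mul_one, norm_mul, norm_inv, Complex.norm_natCast, dft_cf,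
        Complex.norm_conj]
      have := TT_triv hD hDN hγ (φ := fun m => e ((r.val : ℝ) / M * m)) fun n => (norm_e _).le
      calc _ ≤ (N : ℝ)⁻¹ * (d * (81 * ((N : ℝ) ^ 2 / D))) := by gcongr; exact this
        _ = _ := by rw [hW]; ring
    · have b4 : ((N : ℝ) ^ (1 / 1000 : ℝ)) ^ 3 ≤ (N : ℝ) ^ (1 / 100 : ℝ) := by
        rw [← Real.rpow_natCast, ← Real.rpow_mul hN0.le]
        exact mono _ _ (by norm_num)
      rw [nsmul_eq_mul]
      calc _ ≤ 324 * (N : ℝ) ^ (1 / 100 : ℝ) * (81 * (W / N)) := by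
            gcongr; exact hRc.trans (by gcongr)
        _ = _ := by ring
  have a5 : ∀ g, ‖φ g‖ ≤ (N : ℝ) ^ (1 / 100 : ℝ) := by
    intro g
    have b1 : proj Rᶜ Φ g = Φ g - proj R Φ g := by rw [proj_add R Φ g]; ring
    rw [hφn, inv_mul_le_iff₀ hν0, b1]
    refine (norm_sub_le _ _).trans ((add_le_add (a3 g) (a4 g)).trans ?_)
    have b2 := mono ε (1 / 100) (by linarith)
    have b3 : 0 ≤ (N : ℝ) ^ (1 / 100 : ℝ) := by positivity
    rw [← mul_add, hν, mul_comm A, mul_assoc (W / N)]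
    exact mul_le_mul_of_nonneg_left (alg1 hC3.le hC4.le b3 b2) (by positivity)
  have a6 : E ≤ (N : ℝ) ^ (1 + c) := by
    have b1 : B / M ≤ 40 * N * (W / N * (9 * C4 * (N : ℝ) ^ ε)) ^ 2 := by
      rw [← a0]
      refine (proj_sq_le _ _).trans ((sum_le_card_nsmul _ _
        ((W / N * (9 * C4 * (N : ℝ) ^ ε)) ^ 2) fun g _ => ?_).trans ?_)
      · gcongr; exact a3 g
      · rw [nsmul_eq_mul, card_univ, ZMod.card]; gcongr
    have b2 : ((N : ℝ) ^ ε) ^ 2 ≤ (N : ℝ) ^ c := by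
      rw [← Real.rpow_natCast, ← Real.rpow_mul hN0.le]
      exact mono _ _ (by push_cast; linarith)
    have b3 : 40 * (9 * C4) ^ 2 ≤ A ^ 2 := alg2 hC3.le hC4.le
    calc E ≤ ν⁻¹ ^ 2 * (40 * N * (W / N * (9 * C4 * (N : ℝ) ^ ε)) ^ 2) := by rw [hE]; gcongr
      _ = 40 * (9 * C4) ^ 2 / A ^ 2 * (N * ((N : ℝ) ^ ε) ^ 2) := by rw [hν]; field_simp
      _ ≤ 1 * (N * (N : ℝ) ^ c) := by
          gcongr
          exact (div_le_one (by positivity)).2 b3
      _ = _ := by rw [Real.rpow_add hN0, Real.rpow_one, one_mul]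
  have a7 : ∀ r, ‖dft φ r‖ ≤ (N : ℝ) ^ (1 - 1 / 20000 : ℝ) := by
    intro r
    rw [hφ, _root_.map_smul, Pi.smul_apply, dft_proj, norm_smul, norm_inv, Complex.norm_real,
      Real.norm_of_nonneg hν0.le]
    split_ifs with hr
    · rw [dft_cf, Complex.norm_conj, inv_mul_le_iff₀ hν0]
      have b1 : ‖Gm M N D γ r‖ ≤ d * (C3 * (N : ℝ) ^ (2 - 1 / 10000 : ℝ)) := by
        unfold Gm TT
        exact (norm_sum_le _ _).trans ((sum_le_card_nsmul _ _ _ fun δ _ =>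
          H3 N D δ _ γ hD hDN (hmin r (mem_compl.1 hr)) hγ).trans (by rw [nsmul_eq_mul]))
      refine b1.trans ?_
      have b2 : (N : ℝ) ^ (2 - 1 / 10000 : ℝ) * D ≤ N * (N : ℝ) ^ (1 - 1 / 20000 : ℝ) := by
        calc _ ≤ (N : ℝ) ^ (2 - 1 / 10000 : ℝ) * (N : ℝ) ^ (1 / 20000 : ℝ) := by
              gcongr; exact hDc.trans (mono _ _ hεb)
          _ = (N : ℝ) ^ (1 + (1 - 1 / 20000) : ℝ) := by rw [← Real.rpow_add hN0]; norm_num
          _ = _ := by rw [Real.rpow_add hN0, Real.rpow_one]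
      have b3 : C3 ≤ A := by rw [hA]; linarith
      rw [← le_div_iff₀ hD0] at b2
      calc _ ≤ d * (A * (N * (N : ℝ) ^ (1 - 1 / 20000 : ℝ) / D)) := by gcongr
        _ = _ := by rw [hν, hW]; field_simp
    · rw [norm_zero, mul_zero]; positivity
  have a8 := H1 N D M K E γ (uK N K) φ hN hp hM1 hM2 hD (hDc.trans (mono _ _ (by linarith))) hK
    (hKc.trans (mono _ _ (by linarith))) hE0 a6 hγ
    (fun g => by unfold uK; split_ifs <;> simp)
    (fun g => by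
      unfold uK
      split_ifs with hg
      · simpa using hg
      · rw [norm_zero, zero_mul]; linarith) a5 a1.le a7
  have a9 := H2 M N D K E γ φ (by omega) hD hDN hK hγ hγ' a1.le
  rw [← hdd] at a8 a9
  rw [← hW] at a9
  clear_value E φ Φ ν B W d
  set x := Real.sqrt (E / N) with hx
  have hx0 : 0 ≤ x := Real.sqrt_nonneg _
  have hx2 : x ^ 2 = E / N := Real.sq_sqrt (div_nonneg hE0 hN0.le)
  set p1 := Real.sqrt (K / d) with hp1
  set p2 := (N : ℝ) ^ (-ε) with hp2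
  set p3 := LL N ^ k / Real.sqrt K with hp3
  have q1 : 0 ≤ p1 := Real.sqrt_nonneg _
  have q2 : 0 ≤ p2 := by positivity
  have q3 : 0 ≤ p3 := by have := one_le_LL N; positivity
  clear_value x p1 p2 p3
  have c1 : ‖TT N D γ (uK N K) (fun m => φ m)‖ ≤ s * W * (p1 * x + p2 ^ 2) := by
    refine sqrt_le_of (norm_nonneg _) hC1.le hW0.le (by positivity) (by positivity)
      (a8.trans ?_)
    have b1 : (N : ℝ) ^ (-c) ≤ (p2 ^ 2) ^ 2 := by
      rw [← pow_mul, hp2, ← Real.rpow_natCast, ← Real.rpow_mul hN0.le]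
      exact mono _ _ (by push_cast; linarith)
    rw [mul_pow p1, hx2, hp1, Real.sq_sqrt (by positivity)]
    calc _ = C1 * W ^ 2 * (K / d * (E / N) + (N : ℝ) ^ (-c)) := by rw [hW]; field_simp
      _ ≤ _ := by gcongr
  have c2 : ν * E ≤ s * W * (p1 * x + p2 ^ 2) + C2 * W * (x * p3) := by
    rw [← a2]
    refine le_trans ?_ (add_le_add c1 a9)
    refine le_trans (le_of_eq ?_) (norm_add_le _ _)
    rw [TT_compl N D γ (uK N K), sub_add_cancel]
  have c3 : ν * E = A * x ^ 2 * W := by rw [hx2, hν]; ring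
  have c4 : A * x ^ 2 ≤ s * (p1 * x + p2 ^ 2) + C2 * (x * p3) := by
    refine le_of_mul_le_mul_right ?_ hW0
    rw [← c3]
    exact c2.trans (le_of_eq (by ring))
  have hA1 : 1 ≤ A := by rw [hA]; linarith
  have c6 := alg3 hA1 hs0 hC2.le q1 q2 q3 c4
  calc B = (M : ℝ) / N * (A * W * x) ^ 2 := by
        rw [mul_pow, hx2, hE, hν]; field_simp
    _ ≤ (M : ℝ) / N * (A * W * ((s + C2 + Real.sqrt s) * (p1 + p2 + p3))) ^ 2 := by gcongr
    _ = _ := by ring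

end Trans2P

open Trans2P in
theorem trans2 (hU : S_U2) (hB : S_UB) (hG : S_Gamma) (hK : S_Kap) (hR : S_RG) (hM : S_GamMin) :
    S_Trans2 := by
  obtain ⟨c, hc, C1, k, hC1, H1⟩ := dual hU hB hR hM
  obtain ⟨C3, hC3, H3⟩ := part_major hG hK
  refine ⟨min c (1 / 1000), lt_min hc (by norm_num), C1 + C3, k, by positivity, ?_⟩
  intro N D K y E2 S γ f hN hD hDc hK1 hKc hy hS hγ hγ' hE hAP
  set c2 := min c (1 / 1000) with hc2
  have hca : c2 ≤ c := min_le_left _ _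
  have hcb : c2 ≤ 1 / 1000 := min_le_right _ _
  have hN0 : (0 : ℝ) < N := by exact_mod_cast hN
  have hN1 : (1 : ℝ) ≤ N := by exact_mod_cast hN
  have mono : ∀ a b : ℝ, a ≤ b → (N : ℝ) ^ a ≤ (N : ℝ) ^ b := fun a b h =>
    Real.rpow_le_rpow_of_exponent_le hN1 h
  have hD1 : 1 ≤ D := Nat.pos_of_ne_zero hD.1.ne_zero
  have hQN : (N : ℝ) ^ (1 / 1000 : ℝ) ≤ N := by simpa using mono (1 / 1000) 1 (by norm_num)
  have hQ1 : 1 ≤ (N : ℝ) ^ (1 / 1000 : ℝ) := Real.one_le_rpow hN1 (by norm_num)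
  have hDQ := hDc.trans (mono _ _ hcb)
  have hDN : D ≤ N := by exact_mod_cast hDQ.trans hQN
  obtain ⟨M, hp, hM, hM'⟩ := Nat.exists_prime_lt_and_le_two_mul (20 * N) (by omega)
  have : NeZero M := ⟨hp.ne_zero⟩
  have hM7 : 7 * N < M := by omega
  have hM40 : M ≤ 40 * N := by omega
  have hM0 : (0 : ℝ) < M := by exact_mod_cast hp.pos
  classical
  set R : Finset (ZMod M) :=
    univ.filter (fun r => ¬ Minor N ((N : ℝ) ^ (1 / 1000 : ℝ)) ((r.val : ℝ) / M)) with hRd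
  have hex : ∀ r : ZMod M, ∃ β : ℚ, r ∈ R → -1 ≤ β ∧ β ≤ 2 ∧
      (β.den : ℝ) ≤ (N : ℝ) ^ (1 / 1000 : ℝ) ∧
      N * |(r.val : ℝ) / M - β| ≤ (N : ℝ) ^ (1 / 1000 : ℝ) := by
    intro r
    by_cases hr : r ∈ R
    · obtain ⟨β, hβ⟩ := approx hN hQN r (mem_filter.1 hr).2
      exact ⟨β, fun _ => hβ⟩
    · exact ⟨0, fun h => absurd h hr⟩
  choose β hβ using hex
  set F := ext M N f with hF
  have hE0 : 0 ≤ E2 := le_trans (sum_nonneg fun _ _ => by positivity) hE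
  have b1 := H1 M N D K γ R hN hp hM hM40 hD1 (hDc.trans (mono _ _ hca)) hK1
    (hKc.trans (mono _ _ hca)) hγ hγ'
    (fun r hr => by
      by_contra hh
      exact hr (mem_filter.2 ⟨mem_univ _, hh⟩))
    (count hM40 R β hQ1 hβ)
  have b3 := H3 M N D y E2 S γ f R β hN hM7 hM40 hD hDQ hDN hy hS hγ (fun n hn => (hγ' n hn).2)
    hE hAP hβ
  have hL := one_le_LL N
  have b2 : ‖TT N D γ (fun _ => 1) (fun m => proj Rᶜ F m)‖ ≤ Real.sqrt (E2 / N) *
      (C1 * ((Del D).card * ((N : ℝ) ^ 2 / D)) *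
      (Real.sqrt (K / (Del D).card) + (N : ℝ) ^ (-c) + LL N ^ k / Real.sqrt K)) := by
    have c2 : ∑ r ∈ Rᶜ, ‖(M : ℂ)⁻¹ * dft F r‖ ^ 2 ≤ E2 / M := by
      refine (sum_le_sum_of_subset_of_nonneg (subset_univ _) fun _ _ _ => by positivity).trans ?_
      simp only [norm_mul, norm_inv, Complex.norm_natCast, mul_pow, ← mul_sum]
      rw [parseval, hF, sq_ext hM7]
      calc _ ≤ (M : ℝ)⁻¹ ^ 2 * (M * E2) := by gcongr
        _ = E2 / M := by field_simp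
    refine (sq_le_sq₀ (norm_nonneg _) (by positivity)).1 ?_
    rw [TT_proj]
    refine (cs_norm _ _ _).trans ((mul_le_mul c2 b1 (sum_nonneg fun _ _ => by positivity)
      (by positivity)).trans (le_of_eq ?_))
    rw [mul_pow (Real.sqrt _), Real.sq_sqrt (by positivity)]
    field_simp
  have e0 : TT N D γ (fun _ => 1) (fun m => f m.toNat) =
      TT N D γ (fun _ => 1) (fun m => proj R F m) +
        TT N D γ (fun _ => 1) (fun m => proj Rᶜ F m) := by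
    rw [← TT_add]
    refine TT_congr hγ' fun m m1 m2 => ?_
    rw [← proj_add, hF, ext_cast hM7 f m m1 m2]
  rw [e0, mul_assoc (C1 + C3)]
  refine (norm_add_le _ _).trans ((add_le_add b3 b2).trans ?_)
  have d1 : (N : ℝ) ^ (-c) ≤ (N : ℝ) ^ (-c2) := mono _ _ (by linarith)
  have d2 : (N : ℝ) ^ (-(1 / 100) : ℝ) ≤ (N : ℝ) ^ (-c2) := mono _ _ (by linarith)
  set W : ℝ := (Del D).card * ((N : ℝ) ^ 2 / D) with hW
  have hW0 : 0 ≤ W := by positivity
  have p0 := Real.sqrt_nonneg (E2 / N)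
  have p1 := Real.sqrt_nonneg (K / (Del D).card)
  have p2 : 0 ≤ y ^ (-(1 / 16) : ℝ) := by positivity
  have p3 : 0 ≤ LL N ^ k / Real.sqrt K := by positivity
  have p4 : 0 ≤ y ^ 5 * S / N := by positivity
  rw [add_mul C1, add_mul (C1 * W), add_comm]
  have p5 : 0 ≤ (N : ℝ) ^ (-c2) := by positivity
  refine add_le_add ?_ ?_
  · rw [mul_left_comm]
    refine mul_le_mul_of_nonneg_left (le_trans ?_ (le_add_of_nonneg_right p4)) (by positivity)
    exact mul_le_mul_of_nonneg_left (by linarith) p0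
  · refine mul_le_mul_of_nonneg_left (add_le_add ?_ le_rfl) (by positivity)
    exact mul_le_mul_of_nonneg_left (by linarith) p0

end Pool.Agent.P.MP_0ad054_nt.Chen
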