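import Pool.Agent.P.MP_0ad054_nt.An.All
import Pool.Agent.P.MP_0ad054_nt.Sun.Arith
import Pool.Agent.P.MP_0ad054_nt.Sun.Delta
import Pool.Agent.P.MP_0ad054_nt.Sun.Gamma
import Pool.Agent.P.MP_0ad054_nt.Sun.Mom
import Pool.Agent.P.MP_0ad054_nt.Sun.RG
import Pool.Agent.P.MP_0ad054_nt.Sun.Rad
import Pool.Agent.P.MP_0ad054_nt.Sun.Sphere
import Pool.Agent.P.MP_0ad054_nt.Sun.U2
import Pool.Agent.P.MP_0ad054_nt.Chen.BV2
import Pool.Agent.P.MP_0ad054_nt.Chen.CenA
import Pool.Agent.P.MP_0ad054_nt.Chen.CenB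
import Pool.Agent.P.MP_0ad054_nt.Chen.Chen
import Pool.Agent.P.MP_0ad054_nt.Chen.Dim
import Pool.Agent.P.MP_0ad054_nt.Chen.FL
import Pool.Agent.P.MP_0ad054_nt.Chen.Lin
import Pool.Agent.P.MP_0ad054_nt.Chen.Mom2
import Pool.Agent.P.MP_0ad054_nt.Chen.Num
import Pool.Agent.P.MP_0ad054_nt.Chen.Sign
import Pool.Agent.P.MP_0ad054_nt.Chen.Trans2

/-! The interface statements without hypotheses. -/

namespace Pool.Agent.P.MP_0ad054_nt.Chen

open Pool.Agent.P.MP_0ad054_nt.Sun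

theorem trans2_all : S_Trans2 := trans2 u2 ub (gamma rad arith) kapb rg gamMin

theorem lin_all : S_Lin := lin fl

theorem chen_all : S_Chen := chen lin_all dim num

theorem bv2_all : S_BV2 := bv2 An.ls An.sw_all An.pnt_all

theorem cenA_all : S_CenA := cenA An.bv_all

theorem cenB_all : S_CenB := cenB bv2_all

theorem primes_all : S_Primes := primes An.bv_all

end Pool.Agent.P.MP_0ad054_nt.Chen
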