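import Pool.Agent.P.MP_0ad054_nt.Chen.Defs
import Pool.Agent.P.MP_0ad054_nt.Sun.Central

/-! Class sums of sifted sequences: the reduction to sums in progressions. -/

namespace Pool.Agent.P.MP_0ad054_nt.Chen

open Finset Pool.Agent.Lib.H9 Pool.Agent.P.MP_0ad054_nt.Sun Pool.Agent.P.MP_0ad054_nt.Sun.CentralP
open scoped ArithmeticFunction.vonMangoldt

namespace CenAP

open Classical in
/-- the residue class attached to a modulus -/
noncomputable def cH (q : ℕ) (b h : ℤ) (K : ℕ) : ℤ :=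
  if hh : ∃ c : ℤ, IsCoprime c K ∧ (q : ℤ) ∣ c - b ∧ ((K / q : ℕ) : ℤ) ∣ c - h then hh.choose
  else 1

lemma cH_cop (q : ℕ) (b h : ℤ) (K : ℕ) : IsCoprime (cH q b h K) K := by
  unfold cH
  split_ifs with hh
  · exact hh.choose_spec.1
  · exact isCoprime_one_left

/-- error term in a progression -/
noncomputable def EH (A : Finset ℕ) (f : ℕ → ℝ) (x : ℝ) (q : ℕ) (b h : ℤ) (K : ℕ) : ℝ :=
  |∑ n ∈ A.filter (fun n : ℕ => (K : ℤ) ∣ n - cH q b h K), f n - x / K.totient|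

/-- local densities -/
noncomputable def gh (q : ℕ) (b h : ℤ) (l : ℕ) : ℝ :=
  if l ∣ q then (if (l : ℤ) ∣ b - h then 1 else 0) else if l = 2 then 0 else 1 / ((l : ℝ) - 1)

noncomputable def ind (h : ℤ) (n l : ℕ) : ℝ := if (l : ℤ) ∣ n - h then 1 else 0

lemma ind_nonneg (h : ℤ) (n l : ℕ) : 0 ≤ ind h n l := by
  unfold ind
  split_ifs <;> norm_num

lemma pair {y q d : ℕ} (hy : 2 ≤ y) (hq : 0 < q) (hq' : q ≤ y) (b : ℤ) {h : ℤ}
    (hh : h = 2 ∨ h = -2) (U : Finset ℕ) (hU : U ⊆ Nat.primesLE y)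
    (hd' : ∀ p : ℕ, p.Prime → p ∣ d → y < p) (A : Finset ℕ) (f : ℕ → ℝ) (x : ℝ) :
    |∑ n ∈ A.filter (fun n : ℕ => (q : ℤ) ∣ n - b), f n * ((∏ l ∈ U, ind h n l) * ind h n d)
      - x * (II q b * (∏ l ∈ U, gh q b h l) * (1 / d.totient))|
      ≤ EH A f x q b h (q * ((∏ l ∈ U.filter (fun l => ¬ l ∣ q), l) * d))
        + ∑ r ∈ Nat.primesLE y, ∑ n ∈ A.filter (fun n => r ∣ n), |f n| * ind h n d := by
  have hp : ∀ (l : ℕ) (a a' : ℤ), (l : ℤ) ∣ a - a' → (l : ℤ) ∣ a - h → (l : ℤ) ∣ a' - h :=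
    fun l a a' h1 h2 => by simpa using dvd_sub h2 h1
  have hUp : ∀ l ∈ U, l.Prime := fun l hl => (Nat.mem_primesLE.1 (hU hl)).2
  have E0 : 0 ≤ EH A f x q b h (q * ((∏ l ∈ U.filter (fun l => ¬ l ∣ q), l) * d)) := abs_nonneg _
  have t0 : ∀ r : ℕ, 0 ≤ ∑ n ∈ A.filter (fun n => r ∣ n), |f n| * ind h n d := fun r =>
    sum_nonneg fun n _ => mul_nonneg (abs_nonneg _) (ind_nonneg _ _ _)
  have l0 : 0 ≤ ∑ r ∈ Nat.primesLE y, ∑ n ∈ A.filter (fun n => r ∣ n), |f n| * ind h n d :=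
    sum_nonneg fun r _ => t0 r
  by_cases h0 : ∀ l ∈ U, l ∣ q → (l : ℤ) ∣ b - h
  swap
  · push Not at h0
    obtain ⟨l, h1, h2, h3⟩ := h0
    rw [sum_eq_zero fun n hn => by
      have := prod_ind_zero (p := fun l a => (l : ℤ) ∣ a - h) hp h1 h2 h3 (mem_filter.1 hn).2
      simp only [ind]
      rw [this, zero_mul, mul_zero], prod_eq_zero h1 (by rw [gh, if_pos h2, if_neg h3])]
    simp only [mul_zero, zero_mul, sub_zero, abs_zero]
    positivity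
  set V := U.filter fun l => ¬ l ∣ q with hV
  have hV' : ∀ l ∈ V, l.Prime ∧ ¬ l ∣ q := fun l hl =>
    ⟨hUp l (mem_filter.1 hl).1, (mem_filter.1 hl).2⟩
  have e0 : ∑ n ∈ A.filter (fun n : ℕ => (q : ℤ) ∣ n - b), f n * ((∏ l ∈ U, ind h n l) * ind h n d)
      = ∑ n ∈ A.filter (fun n : ℕ => (q : ℤ) ∣ n - b ∧ ∀ l ∈ V, (l : ℤ) ∣ n - h),
        f n * ind h n d := by
    rw [← filter_filter, sum_filter (s := A.filter _)]
    refine sum_congr rfl fun n hn => ?_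
    have := prod_ind (p := fun l a => (l : ℤ) ∣ a - h) hp h0 (mem_filter.1 hn).2
    simp only [ind]
    rw [this]
    split_ifs <;> simp
  rw [e0]
  have bad : ∀ r : ℕ, r.Prime → r ≤ y →
      (∀ n : ℕ, (q : ℤ) ∣ n - b → (∀ l ∈ V, (l : ℤ) ∣ n - h) → r ∣ n) →
      |∑ n ∈ A.filter (fun n : ℕ => (q : ℤ) ∣ n - b ∧ ∀ l ∈ V, (l : ℤ) ∣ n - h),
        f n * ind h n d - 0| ≤ EH A f x q b h (q * ((∏ l ∈ V, l) * d))
        + ∑ r ∈ Nat.primesLE y, ∑ n ∈ A.filter (fun n => r ∣ n), |f n| * ind h n d :=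
      fun r hr hry h1 => by
    rw [sub_zero]
    refine le_add_of_nonneg_of_le E0 ((abs_sum_le_sum_abs _ _).trans (le_trans ?_
      (single_le_sum (f := fun r => ∑ n ∈ A.filter (fun n => r ∣ n), |f n| * ind h n d)
        (fun r _ => t0 r) (Nat.mem_primesLE.2 ⟨hry, hr⟩))))
    simp only [abs_mul, abs_of_nonneg (ind_nonneg _ _ _)]
    refine sum_le_sum_of_subset_of_nonneg (fun n hn => ?_)
      fun n _ _ => mul_nonneg (abs_nonneg _) (ind_nonneg _ _ _)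
    rw [mem_filter] at hn ⊢
    exact ⟨hn.1, h1 n hn.2.1 hn.2.2⟩
  by_cases hb : IsCoprime b q
  swap
  · rw [II, if_neg hb, zero_div, zero_mul, zero_mul, mul_zero]
    obtain ⟨r, hr, h1, h2⟩ :=
      Nat.Prime.not_coprime_iff_dvd.1 (mt Int.isCoprime_iff_nat_coprime.2 hb)
    refine bad r hr ((Nat.le_of_dvd hq (by simpa using h2)).trans hq')
      fun n h3 _ => Int.natCast_dvd_natCast.1 ?_
    simpa using dvd_add ((Int.natCast_dvd.2 h2).trans h3) (Int.natCast_dvd.2 h1)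
  by_cases h2 : 2 ∈ V
  · rw [prod_eq_zero (mem_filter.1 h2).1 (by rw [gh, if_neg (hV' 2 h2).2, if_pos rfl]), mul_zero,
      zero_mul, mul_zero]
    refine bad 2 Nat.prime_two hy fun n _ h3 => ?_
    have := h3 2 h2
    omega
  set v := ∏ l ∈ V, l with hv
  have cqd : q.Coprime d := Nat.Coprime.symm (Nat.coprime_of_dvd fun p hp h1 h3 =>
    absurd (hd' p hp h1) (not_lt.2 ((Nat.le_of_dvd hq h3).trans hq')))
  have cvd : v.Coprime d := Nat.Coprime.prod_left fun l hl =>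
    (Nat.Prime.coprime_iff_not_dvd (hV' l hl).1).2 fun h3 => absurd (hd' l (hV' l hl).1 h3)
      (not_lt.2 (Nat.mem_primesLE.1 (hU (mem_filter.1 hl).1)).1)
  have hc : q.Coprime (v * d) := Nat.Coprime.mul_right (cop_prod hV') cqd
  have hc' : IsCoprime (q : ℤ) ((v * d : ℕ) : ℤ) := Nat.isCoprime_iff_coprime.2 hc
  have hex : ∃ c : ℤ, IsCoprime c (q * (v * d) : ℕ) ∧ (q : ℤ) ∣ c - b ∧
      ((q * (v * d) / q : ℕ) : ℤ) ∣ c - h := by
    obtain ⟨u, w, huv⟩ := hc'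
    have h2d : IsCoprime (2 : ℤ) ((v * d : ℕ) : ℤ) := Nat.isCoprime_iff_coprime.2
      (Nat.Coprime.mul_right (Nat.Coprime.prod_right fun l hl =>
        (Nat.coprime_primes Nat.prime_two (hV' l hl).1).2 fun e => h2 (e ▸ hl))
        ((Nat.Prime.coprime_iff_not_dvd Nat.prime_two).2 fun h3 =>
          absurd (hd' 2 Nat.prime_two h3) (not_lt.2 hy)))
    have hhd : IsCoprime h ((v * d : ℕ) : ℤ) := by
      rcases hh with rfl | rfl
      · exact h2d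
      · exact h2d.neg_left
    have e1 : b + q * (u * (h - b)) = h + (v * d : ℕ) * (w * (b - h)) := by
      linear_combination (h - b) * huv
    refine ⟨b + q * (u * (h - b)), ?_, by simp, ?_⟩
    · rw [Nat.cast_mul]
      refine IsCoprime.mul_right (hb.add_mul_left_left _) ?_
      rw [e1]
      exact hhd.add_mul_left_left _
    · rw [Nat.mul_div_cancel_left _ hq, e1]
      simp
  have hs := hex.choose_spec
  have ec : cH q b h (q * (v * d)) = hex.choose := dif_pos hex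
  rw [← ec, Nat.mul_div_cancel_left _ hq] at hs
  refine le_add_of_le_of_nonneg (le_of_eq ?_) l0
  rw [EH]
  congr 2
  · simp only [ind, mul_boole]
    rw [← sum_filter, filter_filter]
    refine sum_congr (filter_congr fun n _ => ?_) fun _ _ => rfl
    have k1 : (q : ℤ) ∣ n - b ↔ (q : ℤ) ∣ n - cH q b h (q * (v * d)) :=
      dvd_iff_dvd_of_dvd_sub (by simpa using hs.2.1)
    have k2 : ((v * d : ℕ) : ℤ) ∣ n - h ↔ ((v * d : ℕ) : ℤ) ∣ n - cH q b h (q * (v * d)) :=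
      dvd_iff_dvd_of_dvd_sub (by simpa using hs.2.2)
    have k3 : (∀ l ∈ V, (l : ℤ) ∣ n - h) ↔ (v : ℤ) ∣ n - h := by
      rw [hv]
      push_cast
      refine ⟨fun h3 => prod_dvd_of_coprime (fun l hl l' hl' hne => ?_) h3,
        fun h3 l hl => (dvd_prod_of_mem (fun i : ℕ => (i : ℤ)) hl).trans h3⟩
      exact Nat.isCoprime_iff_coprime.2 ((Nat.coprime_primes (hV' l hl).1 (hV' l' hl').1).2 hne)
    have k4 : (v : ℤ) ∣ n - h ∧ (d : ℤ) ∣ n - h ↔ ((v * d : ℕ) : ℤ) ∣ n - h := by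
      rw [Nat.cast_mul]
      exact ⟨fun h3 => (Nat.isCoprime_iff_coprime.2 cvd).mul_dvd h3.1 h3.2,
        fun h3 => ⟨(dvd_mul_right _ _).trans h3, (dvd_mul_left _ _).trans h3⟩⟩
    rw [and_assoc, k1, k3, k4, k2, Nat.cast_mul q]
    exact ⟨fun h3 => hc'.mul_dvd h3.1 h3.2,
      fun h3 => ⟨(dvd_mul_right _ _).trans h3, (dvd_mul_left _ _).trans h3⟩⟩
  · have k : ∏ l ∈ U, gh q b h l = ∏ l ∈ V, 1 / ((l : ℝ) - 1) := by
      rw [hV, prod_filter]
      refine prod_congr rfl fun l hl => ?_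
      by_cases h3 : l ∣ q
      · simp [gh, h3, h0 l hl h3]
      · have : l ≠ 2 := fun e => h2 (e ▸ mem_filter.2 ⟨hl, h3⟩)
        simp [gh, h3, this]
    rw [k, II, if_pos hb, Nat.totient_mul hc, Nat.totient_mul cvd, Nat.cast_mul, Nat.cast_mul,
      totient_prod V fun l hl => (hV' l hl).1, prod_div_distrib, prod_const_one]
    ring

/-- the sets of primes in the Bonferroni weight -/
noncomputable def Ts (y k : ℕ) : Finset (Finset ℕ) :=
  (Nat.primesLE y).powerset.filter (fun T => T.card ≤ 2 * k)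

lemma Yf_eq (y k : ℕ) (w : ℕ → ℝ) :
    Yf y k w = ∑ T ∈ Ts y k, cY (2 * k + 1) T.card * ∏ l ∈ T, w l := by
  rw [Ts, sum_filter_of_ne fun T _ h => ?_, Yf, sform]
  by_contra h1
  exact left_ne_zero_of_mul h (if_neg (by omega))

lemma cY_le (m i : ℕ) : |cY m i| ≤ 1 := by
  unfold cY
  split_ifs <;> simp

lemma mem_Ts {y k : ℕ} (hy : 2 ≤ y) {T : Finset ℕ} (hT : T ∈ Ts y k) :
    T ⊆ Nat.primesLE y ∧ (∀ l ∈ T, l.Prime) ∧ ∏ l ∈ T, l ≤ y ^ (2 * k) := by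
  simp only [Ts, mem_filter, mem_powerset] at hT
  exact ⟨hT.1, fun l hl => (Nat.mem_primesLE.1 (hT.1 hl)).2, (prod_le_pow_card _ _ y fun l hl =>
    (Nat.mem_primesLE.1 (hT.1 hl)).1).trans (Nat.pow_le_pow_right (by omega) hT.2)⟩

lemma card_Ts {y : ℕ} (hy : 2 ≤ y) (k : ℕ) : ((Ts y k).card : ℝ) ≤ (y : ℝ) ^ (2 * k) := by
  have := card_le_card_of_injOn (s := Ts y k) (t := Icc 1 (y ^ (2 * k)))
    (fun T => ∏ l ∈ T, l) (fun T hT => mem_coe.2 (mem_Icc.2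
      ⟨prod_pos' (mem_Ts hy hT).2.1, (mem_Ts hy hT).2.2⟩)) fun T hT T' hT' h => by
      rw [← Nat.primeFactors_prod (mem_Ts hy hT).2.1, ← Nat.primeFactors_prod (mem_Ts hy hT').2.1]
      exact congrArg _ h
  rw [Nat.card_Icc, Nat.add_sub_cancel] at this
  exact_mod_cast this

lemma Yf_le {y : ℕ} (hy : 2 ≤ y) (k : ℕ) {w : ℕ → ℝ} (hw : ∀ l, |w l| ≤ 1) :
    |Yf y k w| ≤ (y : ℝ) ^ (2 * k) := by
  rw [Yf_eq]
  refine (abs_sum_le_sum_abs _ _).trans ((sum_le_card_nsmul _ _ 1 fun T _ => ?_).trans ?_)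
  · rw [abs_mul, abs_prod]
    exact mul_le_one₀ (cY_le _ _) (prod_nonneg fun _ _ => abs_nonneg _)
      (prod_le_one (fun _ _ => abs_nonneg _) fun l _ => hw l)
  · simpa using card_Ts hy k

/-- the support of the weights -/
noncomputable def Ds (N : ℕ) (μ : ℕ → ℝ) : Finset ℕ := (Icc 1 N).filter (fun d => μ d ≠ 0)

lemma sum_Ds (N : ℕ) (μ F : ℕ → ℝ) : ∑ d ∈ Icc 1 N, μ d * F d = ∑ d ∈ Ds N μ, μ d * F d :=
  (sum_filter_of_ne fun _ _ h => left_ne_zero_of_mul h).symm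

lemma sum_pairs2 {y k q N K0 : ℕ} {D : ℝ} {μ : ℕ → ℝ} (hy : 2 ≤ y) (hq : 0 < q) (hq' : q ≤ y)
    (hμ : Lev y D μ) (hK : (y : ℝ) ^ (2 * k + 1) * D < K0 + 1) (F : ℕ → ℝ) (hF : ∀ K, 0 ≤ F K) :
    ∑ e ∈ Ts y k ×ˢ Ds N μ, F (q * ((∏ l ∈ e.1.filter (fun l => ¬ l ∣ q), l) * e.2))
      ≤ q * ∑ K ∈ Icc 1 K0, F K := by
  set φ : Finset ℕ × ℕ → ℕ × ℕ := fun e => (∏ l ∈ e.1.filter (fun l => l ∣ q), l,
    q * ((∏ l ∈ e.1.filter (fun l => ¬ l ∣ q), l) * e.2)) with hφ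
  have hm : ∀ e ∈ Ts y k ×ˢ Ds N μ, e.1 ∈ Ts y k ∧ 0 < e.2 ∧ (e.2 : ℝ) ≤ D ∧
      ∀ p : ℕ, p.Prime → p ∣ e.2 → y < p := fun e he => by
    simp only [Ds, mem_product, mem_filter, mem_Icc] at he
    have := (hμ e.2).2 he.2.2
    exact ⟨he.1, he.2.1.1, this.1, fun p hp h => by exact_mod_cast this.2 p hp h⟩
  have key : ∀ e ∈ Ts y k ×ˢ Ds N μ, ∀ l, l ∈ e.1 ↔ l.Prime ∧ l ≤ y ∧ l ∣ (∏ j ∈ e.1, j) * e.2 :=
      fun e he l => by
    obtain ⟨h1, -, -, h2⟩ := hm e he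
    obtain ⟨a1, a2, -⟩ := mem_Ts hy h1
    refine ⟨fun h => ⟨a2 l h, (Nat.mem_primesLE.1 (a1 h)).1,
      (dvd_prod_of_mem (fun i : ℕ => i) h).mul_right _⟩, fun ⟨b1, b2, b3⟩ => ?_⟩
    rcases (Nat.Prime.dvd_mul b1).1 b3 with h | h
    · rw [← Nat.primeFactors_prod a2]
      exact Nat.mem_primeFactors.2 ⟨b1, h, (prod_pos' a2).ne'⟩
    · exact absurd (h2 l b1 h) (not_lt.2 b2)
  have hi : Set.InjOn φ (Ts y k ×ˢ Ds N μ : Finset _) := fun e he e' he' h => by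
    simp only [hφ, Prod.mk.injEq, Nat.mul_right_inj hq.ne'] at h
    have h1 : (∏ j ∈ e.1, j) * e.2 = (∏ j ∈ e'.1, j) * e'.2 := by
      rw [← prod_filter_mul_prod_filter_not _ (fun l => l ∣ q), mul_assoc, h.1, h.2, ← mul_assoc,
        prod_filter_mul_prod_filter_not]
    have h2 : e.1 = e'.1 := by
      ext l
      rw [key e he, key e' he', h1]
    rw [← h2] at h1
    exact Prod.ext h2 (Nat.eq_of_mul_eq_mul_left (prod_pos' (mem_Ts hy (hm e he).1).2.1) h1)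
  calc _ = ∑ z ∈ (Ts y k ×ˢ Ds N μ).image φ, F z.2 :=
        (sum_image (f := fun z : ℕ × ℕ => F z.2) hi).symm
    _ ≤ ∑ z ∈ Icc 1 q ×ˢ Icc 1 K0, F z.2 := by
        refine sum_le_sum_of_subset_of_nonneg (fun z hz => ?_) fun _ _ _ => hF _
        obtain ⟨e, he, rfl⟩ := mem_image.1 hz
        obtain ⟨h0, h3, h4, -⟩ := hm e he
        obtain ⟨-, h1, h2⟩ := mem_Ts hy h0
        simp only [hφ, mem_product, mem_Icc]
        refine ⟨⟨prod_pos' fun l hl => h1 l (mem_filter.1 hl).1, Nat.le_of_dvd hq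
          (prod_primes_dvd q (fun l hl => (h1 l (mem_filter.1 hl).1).prime)
            fun l hl => (mem_filter.1 hl).2)⟩,
          Nat.mul_pos hq (Nat.mul_pos (prod_pos' fun l hl => h1 l (mem_filter.1 hl).1) h3), ?_⟩
        have h5 : ∏ l ∈ e.1.filter (fun l => ¬ l ∣ q), l ≤ y ^ (2 * k) :=
          (prod_le_prod_of_subset_of_one_le' (filter_subset _ _) fun l hl _ => (h1 l hl).pos).trans h2
        have h6 : ((q * ((∏ l ∈ e.1.filter (fun l => ¬ l ∣ q), l) * e.2) : ℕ) : ℝ) ≤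
            (y : ℝ) ^ (2 * k + 1) * D := by
          rw [Nat.cast_mul, Nat.cast_mul, pow_succ', mul_assoc]
          gcongr
          exact_mod_cast h5
        exact Nat.lt_succ_iff.1 (by exact_mod_cast h6.trans_lt hK)
    _ = _ := by rw [sum_product]; simp

/-- the reduction to sums in progressions -/
lemma reduce {y k q N K0 : ℕ} {D : ℝ} {μ : ℕ → ℝ} (hy : 2 ≤ y) (hq : 0 < q) (hq' : q ≤ y)
    (hμ : Lev y D μ) (hK : (y : ℝ) ^ (2 * k + 1) * D < K0 + 1) (b : ℤ) {h : ℤ}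
    (hh : h = 2 ∨ h = -2) (A : Finset ℕ) (f : ℕ → ℝ) (x t : ℝ)
    (ht : ∀ n ∈ A, ∑ d ∈ Icc 1 N, ind h n d ≤ t) :
    |∑ n ∈ A.filter (fun n : ℕ => (q : ℤ) ∣ n - b),
        f n * (Yf y k (ind h n) * ∑ d ∈ Icc 1 N, μ d * ind h n d)
      - x * (II q b * Yf y k (gh q b h) * Mm N μ)|
      ≤ q * ∑ K ∈ Icc 1 K0, EH A f x q b h K + (y : ℝ) ^ (2 * k) *
        (t * ∑ r ∈ Nat.primesLE y, ∑ n ∈ A.filter (fun n => r ∣ n), |f n|) := by
  have e1 : Mm N μ = ∑ d ∈ Ds N μ, μ d * (1 / d.totient) := by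
    rw [← sum_Ds, Mm]
    simp only [mul_one_div]
  have e2 : ∀ n : ℕ, f n * (Yf y k (ind h n) * ∑ d ∈ Icc 1 N, μ d * ind h n d) =
      ∑ e ∈ Ts y k ×ˢ Ds N μ, cY (2 * k + 1) e.1.card * μ e.2 *
        (f n * ((∏ l ∈ e.1, ind h n l) * ind h n e.2)) := fun n => by
    rw [sum_Ds, Yf_eq, sum_mul_sum, sum_product, mul_sum]
    refine sum_congr rfl fun T _ => ?_
    rw [mul_sum]
    exact sum_congr rfl fun d _ => by ring
  have e3 : x * (II q b * Yf y k (gh q b h) * Mm N μ) =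
      ∑ e ∈ Ts y k ×ˢ Ds N μ, cY (2 * k + 1) e.1.card * μ e.2 *
        (x * (II q b * (∏ l ∈ e.1, gh q b h l) * (1 / e.2.totient))) := by
    rw [e1, Yf_eq, mul_assoc, sum_mul_sum, sum_product, mul_sum, mul_sum]
    refine sum_congr rfl fun T _ => ?_
    rw [mul_sum, mul_sum]
    exact sum_congr rfl fun d _ => by ring
  rw [sum_congr rfl fun n _ => e2 n, e3, sum_comm, ← sum_sub_distrib]
  refine (abs_sum_le_sum_abs _ _).trans ((sum_le_sum (g := fun e =>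
    EH A f x q b h (q * ((∏ l ∈ e.1.filter (fun l => ¬ l ∣ q), l) * e.2))
      + ∑ r ∈ Nat.primesLE y, ∑ n ∈ A.filter (fun n => r ∣ n), |f n| * ind h n e.2)
      fun e he => ?_).trans ?_)
  · rw [← mul_sum, ← mul_sub, abs_mul]
    simp only [Ds, mem_product, mem_filter, mem_Icc] at he
    refine (mul_le_of_le_one_left (abs_nonneg _) ?_).trans (pair hy hq hq' b hh _
      (mem_Ts hy he.1).1 (fun p hp h1 => by
        exact_mod_cast ((hμ e.2).2 he.2.2).2 p hp h1) A f x)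
    rw [abs_mul]
    exact mul_le_one₀ (cY_le _ _) (abs_nonneg _) (hμ _).1
  rw [sum_add_distrib]
  refine add_le_add (sum_pairs2 hy hq hq' hμ hK _ fun _ => abs_nonneg _) ?_
  rw [sum_product]
  simp only [sum_const, nsmul_eq_mul]
  refine mul_le_mul (card_Ts hy k) ?_ (sum_nonneg fun d _ => sum_nonneg fun r _ =>
    sum_nonneg fun n _ => mul_nonneg (abs_nonneg _) (ind_nonneg _ _ _)) (by positivity)
  rw [sum_comm, mul_sum]
  refine sum_le_sum fun r _ => ?_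
  rw [sum_comm, mul_sum]
  refine sum_le_sum fun n hn => ?_
  rw [← mul_sum, mul_comm t]
  exact mul_le_mul_of_nonneg_left ((sum_le_sum_of_subset_of_nonneg (filter_subset _ _)
    fun d _ _ => ind_nonneg _ _ _).trans (ht n (mem_filter.1 hn).1)) (abs_nonneg _)

end CenAP

end Pool.Agent.P.MP_0ad054_nt.Chen
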