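import Pool.Agent.P.MP_0ad054_nt.Chen.CenAA

/-! Class sums of sifted sequences: the model and the main terms. -/

namespace Pool.Agent.P.MP_0ad054_nt.Chen

open Finset Pool.Agent.Lib.H9 Pool.Agent.P.MP_0ad054_nt.Sun Pool.Agent.P.MP_0ad054_nt.Sun.CentralP
open scoped ArithmeticFunction.vonMangoldt

namespace CenAP

lemma md0_eq (y k : ℕ) {m : ℕ} (hm : 3 ≤ m) :
    md0 y k m = cW y * Yf y k fun l => if pp y l m then 1 else 0 := by
  rw [md0]
  congr 1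
  unfold Yf sform
  refine sum_congr rfl fun T hT => congrArg _ (prod_congr rfl fun l hl => ?_)
  rw [w0]
  refine if_congr ?_ rfl rfl
  rw [pp, if_pos (Nat.mem_primesLE.1 (mem_powerset.1 hT hl)).1, ← Int.natCast_dvd_natCast,
    Nat.cast_mul, Nat.cast_sub (by omega)]
  rfl

lemma md0_side {y q : ℕ} (k : ℕ) (hy : 2 ≤ y) (hq : 0 < q) (b : ℤ) (X : ℕ) :
    |∑ m ∈ (Icc 3 X).filter (fun m : ℕ => (q : ℤ) ∣ m - b), md0 y k m
      - cW y * (X / q * Yf y k (g2 y q b))| ≤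
      cW y * ((y : ℝ) ^ (2 * k) * (q * (y : ℝ) ^ (2 * k) + 2)) := by
  have h0 : 0 ≤ cW y := zero_le_one.trans (one_le_cW _)
  rw [sum_congr rfl fun m hm => md0_eq y k (mem_Icc.1 (mem_filter.1 hm).1).1, ← mul_sum, ← mul_sub,
    abs_mul, abs_of_nonneg h0]
  refine mul_le_mul_of_nonneg_left ?_ h0
  simp only [Yf_eq, mul_sum]
  rw [sum_comm, ← sum_sub_distrib]
  refine (abs_sum_le_sum_abs _ _).trans
    ((sum_le_card_nsmul _ _ (q * (y : ℝ) ^ (2 * k) + 2) fun T hT => ?_).trans ?_)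
  · rw [mul_left_comm, ← mul_sum, ← mul_sub, abs_mul]
    refine (mul_le_of_le_one_left (abs_nonneg _) (cY_le _ _)).trans ?_
    refine (cut _ X (fun n => ∏ l ∈ T, (if pp y l n then (1 : ℝ) else 0)) _
      (fun n _ => prod_ind_le _ _) (fun n _ => rfl) _).trans (add_le_add_left ?_ _)
    have := count (pp_per y) hq b _ (mem_Ts hy hT).2.1 1 X
    rw [add_comm, Ico_add_one_right_eq_Icc] at this
    refine this.trans (mul_le_mul_of_nonneg_left ?_ (Nat.cast_nonneg _))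
    exact_mod_cast (mem_Ts hy hT).2.2
  · rw [nsmul_eq_mul]
    exact mul_le_mul_of_nonneg_right (card_Ts hy k) (by positivity)

lemma main_one {y k q : ℕ} (hy : 2 ≤ y) (hq : 0 < q) (hq' : q ≤ y)
    (hk : 50 * (1 + Real.log y) ≤ k) (b : ℤ) :
    |II q b * Yf y k (g1 q b) - cW y / q * Yf y k (g2 y q b)| ≤ 2 * cW y / 2 ^ k := by
  have c1 : ∀ l ∈ Nat.primesLE y, 0 ≤ g1 q b l ∧ g1 q b l ≤ 1 := fun l hl => by
    have h : (2 : ℝ) ≤ l := by exact_mod_cast (Nat.mem_primesLE.1 hl).2.two_le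
    unfold g1
    split_ifs
    iterate 3 simp
    exact ⟨div_nonneg zero_le_one (by linarith), (div_le_one (by linarith)).2 (by linarith)⟩
  have y1 := Yf_approx hy hk hq hq' c1 fun l hl h => by
    have h2 : (2 : ℝ) ≤ l := by exact_mod_cast (Nat.mem_primesLE.1 hl).2.two_le
    rw [g1, if_neg h]
    split_ifs
    · positivity
    · rw [div_le_div_iff₀ (by linarith) (by linarith)]
      linarith
  have y2 := Yf_approx hy hk hq hq' (g := g2 y q b) (fun l hl => by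
    have h : (2 : ℝ) ≤ l := by exact_mod_cast (Nat.mem_primesLE.1 hl).2.two_le
    rw [g2_small b hl]
    split_ifs
    iterate 3 norm_num
    exact ⟨by positivity, (div_le_one (by linarith)).2 h⟩) fun l hl h => by
    rw [g2_small b hl, if_neg h]
    split_ifs with h2
    · subst h2
      norm_num
    · rfl
  have e := main_eq hq hq' b
  obtain ⟨i0, i1⟩ := II_bd q hq b
  have w1 := one_le_cW y
  have w3 : cW y / q ≤ cW y := div_le_self (by linarith) (by exact_mod_cast hq)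
  have w4 : 0 ≤ cW y / q := by positivity
  have p2 : (0 : ℝ) ≤ 1 / 2 ^ k := by positivity
  rw [show 2 * cW y / 2 ^ k = 2 * (cW y * (1 / 2 ^ k)) by ring]
  generalize cW y / q = V at *
  generalize Yf y k (g1 q b) = Y1, Yf y k (g2 y q b) = Y2,
    ∏ l ∈ Nat.primesLE y, (1 - g1 q b l) = A1,
    ∏ l ∈ Nat.primesLE y, (1 - g2 y q b l) = A2, II q b = I,
    (1 : ℝ) / 2 ^ k = v, cW y = U at *
  have e1 : I * Y1 - V * Y2 = I * (Y1 - A1) - V * (Y2 - A2) := by linear_combination e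
  have t1 : |I * (Y1 - A1)| ≤ U * v := by
    rw [abs_mul, abs_of_nonneg i0]
    exact mul_le_mul (i1.trans w1) y1 (abs_nonneg _) (by positivity)
  have t2 : |V * (Y2 - A2)| ≤ U * v := by
    rw [abs_mul, abs_of_nonneg w4]
    exact mul_le_mul w3 y2 (abs_nonneg _) (by positivity)
  rw [abs_le] at t1 t2
  rw [e1, abs_le]
  constructor <;> linarith

lemma main_two {y k q : ℕ} (hy : 2 ≤ y) (hq : 0 < q) (hq' : q ≤ y)
    (hk : 50 * (1 + Real.log y) ≤ k) {b β h : ℤ} (hβ : β = b ∧ h = 2 ∨ β = b - 2 ∧ h = -2) :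
    |II q β * Yf y k (gh q β h) - cW y / q * Yf y k (g2 y q b)| ≤ 2 * cW y / 2 ^ k := by
  rcases hβ with ⟨rfl, rfl⟩ | ⟨rfl, rfl⟩
  · exact main_one hy hq hq' hk β
  have e1 : II q (b - 2) = II q (2 - b) := by
    unfold II
    rw [← neg_sub 2 b]
    simp only [IsCoprime.neg_left_iff]
  have e2 : gh q (b - 2) (-2) = g1 q (2 - b) := by
    ext l
    unfold gh g1
    refine if_congr Iff.rfl (if_congr ?_ rfl rfl) rfl
    rw [← dvd_neg]
    exact iff_of_eq (congrArg _ (by ring))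
  have e3 : Yf y k (g2 y q b) = Yf y k (g2 y q (2 - b)) := by
    unfold Yf sform
    refine sum_congr rfl fun T hT => congrArg _ (prod_congr rfl fun l hl => ?_)
    rw [g2_small _ (mem_powerset.1 hT hl), g2_small _ (mem_powerset.1 hT hl),
      show (2 - b) * (2 - b - 2) = b * (b - 2) by ring]
  rw [e1, e2, e3]
  exact main_one hy hq hq' hk _

lemma sum_inv_tot (K : ℕ) : ∑ m ∈ Icc 1 K, 1 / (m.totient : ℝ) ≤ LL K ^ 2 := by
  refine le_trans (sum_le_sum fun m hm => ?_) (by simpa [LL] using sum_tau_pow_div_le 1 K)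
  have m0 : 0 < m := (mem_Icc.1 hm).1
  have hφ := Nat.totient_pos.2 m0
  rw [div_le_div_iff₀ (by exact_mod_cast hφ) (by exact_mod_cast m0), one_mul, tau]
  have := sum_le_card_nsmul m.divisors Nat.totient m.totient fun d hd =>
    Nat.le_of_dvd hφ (Nat.totient_dvd_of_dvd (Nat.dvd_of_mem_divisors hd))
  rw [Nat.sum_totient] at this
  exact_mod_cast this

lemma Mm_le (N : ℕ) {μ : ℕ → ℝ} (hμ : ∀ d, |μ d| ≤ 1) : |Mm N μ| ≤ LL N ^ 2 := by
  refine (abs_sum_le_sum_abs _ _).trans ((sum_le_sum fun d _ => ?_).trans (sum_inv_tot N))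
  rw [abs_div, Nat.abs_cast]
  exact div_le_div_of_nonneg_right (hμ d) (Nat.cast_nonneg _)

lemma Hc_le (N : ℕ) {c : ℕ → ℝ} (hc : ∀ d, |c d| ≤ 1) : |Hc N c| ≤ LL N := by
  refine (abs_sum_le_sum_abs _ _).trans ((sum_le_sum fun d _ => ?_).trans (sum_inv_le_log N))
  rw [abs_div, Nat.abs_cast]
  exact div_le_div_of_nonneg_right (hc d) (Nat.cast_nonneg _)

lemma Wm_le (a : ℕ) {μ : ℕ → ℝ} (hμ : ∀ d, |μ d| ≤ 1) : |Wm μ a| ≤ tau a := by
  refine (abs_sum_le_sum_abs _ _).trans ((sum_le_card_nsmul _ _ 1 fun d _ => hμ d).trans ?_)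
  simp [tau]

lemma Wm_eq {N a n : ℕ} {h : ℤ} {μ : ℕ → ℝ} (ha : a ≠ 0) (hn : (n : ℤ) - h = a)
    (hμ : ∀ d, μ d ≠ 0 → d ≤ N) : Wm μ a = ∑ d ∈ Icc 1 N, μ d * ind h n d := by
  simp only [ind, hn, mul_boole, Int.natCast_dvd_natCast]
  rw [← sum_filter, Wm, ← sum_filter_ne_zero, eq_comm, ← sum_filter_ne_zero, eq_comm]
  refine sum_congr ?_ fun _ _ => rfl
  ext d
  simp only [mem_filter, Nat.mem_divisors, mem_Icc]
  exact ⟨fun h => ⟨⟨⟨Nat.pos_of_dvd_of_pos h.1.1 (Nat.pos_of_ne_zero ha), hμ d h.2⟩, h.1.1⟩, h.2⟩,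
    fun h => ⟨⟨h.1.2, ha⟩, h.2⟩⟩

lemma ind_sum (N : ℕ) {a n : ℕ} {h : ℤ} (ha : a ≠ 0) (hn : (n : ℤ) - h = a) :
    ∑ d ∈ Icc 1 N, ind h n d ≤ tau a := by
  simp only [ind, hn, Int.natCast_dvd_natCast, sum_boole, tau]
  exact_mod_cast card_le_card fun d hd => Nat.mem_divisors.2 ⟨(mem_filter.1 hd).2, ha⟩

/-- the small power of `N` -/
noncomputable def RR (N : ℕ) : ℝ := (N : ℝ) ^ (1 / 10000 : ℝ)

lemma RR_pow (N j : ℕ) : RR N ^ j = (N : ℝ) ^ (j / 10000 : ℝ) := by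
  rw [RR, ← Real.rpow_natCast, ← Real.rpow_mul (Nat.cast_nonneg _)]
  congr 1
  ring

lemma RR_N (N : ℕ) : RR N ^ 10000 = N := by
  rw [RR_pow]
  norm_num

lemma tau_RR : ∃ C : ℝ, 0 < C ∧ ∀ N a : ℕ, a ≤ 7 * N → tau a ≤ C * RR N := by
  obtain ⟨C, hC, h⟩ := tau_le (ε := 1 / 10000) (by norm_num)
  refine ⟨C * 7 ^ (1 / 10000 : ℝ), by positivity, fun N a ha => (h a).trans ?_⟩
  rw [mul_assoc, RR, ← Real.mul_rpow (by norm_num) (Nat.cast_nonneg _)]
  gcongr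
  exact_mod_cast ha

lemma save (B : ℕ) : ∃ C : ℝ, 0 < C ∧ ∀ N : ℕ, 1 ≤ N →
    RR N ^ 9999 * LL N ^ 4 ≤ C * N * (1 / LL N ^ B) := by
  obtain ⟨C, hC, h⟩ := one_add_log_le (ε := 1 / 10000 / (4 + B : ℕ)) (by positivity)
  refine ⟨C ^ (4 + B), by positivity, fun N hN => ?_⟩
  have l0 := Real.log_natCast_nonneg N
  have h1 := pow_le_pow_left₀ (by linarith) (h N (by exact_mod_cast hN)) (4 + B)
  rw [mul_pow, ← Real.rpow_natCast (_ ^ _), ← Real.rpow_mul (Nat.cast_nonneg _),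
    div_mul_cancel₀ _ (by positivity), pow_add] at h1
  have L0 : 0 < LL N := by unfold LL; linarith
  have R0 : 0 ≤ RR N := Real.rpow_nonneg (Nat.cast_nonneg _) _
  rw [mul_one_div, le_div_iff₀ (by positivity), ← RR_N N, mul_assoc, pow_succ (RR N) 9999]
  have := mul_le_mul_of_nonneg_left h1 (show 0 ≤ RR N ^ 9999 by positivity)
  change RR N ^ 9999 * (LL N ^ 4 * LL N ^ B) ≤ RR N ^ 9999 * (C ^ (4 + B) * RR N) at this
  linarith

/-- the size conditions -/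
structure Sz (N y k : ℕ) : Prop where
  R8 : 8 ≤ RR N
  yR : (y : ℝ) ≤ RR N
  yk : (y : ℝ) ^ (2 * k) ≤ RR N
  yk1 : (y : ℝ) ^ (2 * k + 1) ≤ RR N
  RN : RR N ≤ N
  l1 : 1 ≤ Real.log N
  L1 : 1 ≤ LL N
  l7 : ∀ X : ℕ, X ≤ 7 * N → Real.log X ≤ 2 * LL N
  pN : ∀ j : ℕ, j ≤ 10000 → RR N ^ j ≤ N

lemma sz {N y k : ℕ} (hy : 2 ≤ y) (h : (y : ℝ) ^ (2 * k + 1) ≤ (N : ℝ) ^ (1 / 10000 : ℝ))
    (hk : 50 * (1 + Real.log y) ≤ k) : Sz N y k := by
  have y2 : (2 : ℝ) ≤ y := by exact_mod_cast hy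
  have k1 : 1 ≤ k := by
    have : (1 : ℝ) ≤ k := by linarith [Real.log_natCast_nonneg y]
    exact_mod_cast this
  change _ ≤ RR N at h
  have R8 : 8 ≤ RR N := by
    refine le_trans ?_ ((pow_le_pow_right₀ (by linarith) (show 3 ≤ 2 * k + 1 by omega)).trans h)
    exact le_trans (by norm_num) (pow_le_pow_left₀ (by norm_num) y2 3)
  have pN : ∀ j : ℕ, j ≤ 10000 → RR N ^ j ≤ N := fun j hj =>
    (pow_le_pow_right₀ (by linarith) hj).trans_eq (RR_N N)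
  have RN : RR N ≤ N := by simpa using pN 1 (by norm_num)
  have l1 : 1 ≤ Real.log N := by
    rw [Real.le_log_iff_exp_le (by linarith)]
    linarith [Real.exp_one_lt_d9]
  refine ⟨R8, (le_self_pow₀ (by linarith) (by omega)).trans h,
    (pow_le_pow_right₀ (by linarith) (by omega)).trans h, h, RN, l1, by unfold LL; linarith,
    fun X hX => ?_, pN⟩
  rcases X.eq_zero_or_pos with rfl | h0
  · unfold LL
    simp only [Nat.cast_zero, Real.log_zero]
    linarith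
  have x7 : (X : ℝ) ≤ 7 * N := by exact_mod_cast hX
  have := Real.log_le_log (by exact_mod_cast h0) (show (X : ℝ) ≤ N ^ 2 by nlinarith)
  rw [Real.log_pow] at this
  unfold LL
  push_cast at this
  linarith

lemma md0_le {N y k : ℕ} (hy : 2 ≤ y) (s : Sz N y k) (m : ℕ) : |md0 y k m| ≤ RR N := by
  rw [md0, abs_mul, abs_of_nonneg (zero_le_one.trans (one_le_cW _))]
  refine le_trans (mul_le_mul (cW_le_self (by omega)) (Yf_le hy k fun l => ?_) (abs_nonneg _)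
    (Nat.cast_nonneg _)) (by rw [← pow_succ']; exact s.yk1)
  unfold w0
  split_ifs <;> simp

/-- short ranges are trivial -/
lemma short {N y k X : ℕ} (hy : 2 ≤ y) (s : Sz N y k) (P : ℕ → Prop) [DecidablePred P]
    (F : ℕ → ℝ) {C H : ℝ} (hC : 0 < C) (hH : |H| ≤ LL N ^ 3) (hX : (X : ℝ) ≤ 3 * RR N ^ 9995)
    (hF : ∀ m ∈ Icc 3 X, |F m| ≤ 2 * LL N * RR N * (C * RR N)) :
    |∑ m ∈ (Icc 3 X).filter P, (F m - H * md0 y k m)| ≤ (6 * C + 3) * (RR N ^ 9999 * LL N ^ 4) := by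
  have R1 : 1 ≤ RR N := by linarith [s.R8]
  have L1 := s.L1
  refine (abs_sum_le_sum_abs _ _).trans ((sum_le_card_nsmul _ _
    ((2 * C + 1) * (RR N ^ 4 * LL N ^ 4)) fun m hm => (abs_sub _ _).trans ?_).trans ?_)
  · have h1 := hF m (mem_filter.1 hm).1
    have h2 : |H * md0 y k m| ≤ RR N ^ 4 * LL N ^ 4 := by
      rw [abs_mul, mul_comm]
      exact mul_le_mul ((md0_le hy s m).trans (le_self_pow₀ R1 (by norm_num)))
        (hH.trans (pow_le_pow_right₀ L1 (by norm_num))) (abs_nonneg _) (by positivity)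
    have h3 : RR N ^ 2 * LL N ≤ RR N ^ 4 * LL N ^ 4 :=
      mul_le_mul (pow_le_pow_right₀ R1 (by norm_num)) (le_self_pow₀ L1 (by norm_num))
        (by positivity) (by positivity)
    have h4 := mul_le_mul_of_nonneg_left h3 hC.le
    nlinarith
  · have x3 : (((Icc 3 X).filter P).card : ℝ) ≤ X := by
      exact_mod_cast (card_filter_le _ _).trans (by simp)
    rw [nsmul_eq_mul]
    calc _ ≤ 3 * RR N ^ 9995 * ((2 * C + 1) * (RR N ^ 4 * LL N ^ 4)) := by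
          gcongr
          exact x3.trans hX
      _ = _ := by ring

/-- comparison with the model -/
lemma model {N y k q X : ℕ} (hy : 2 ≤ y) (s : Sz N y k) (hq : 0 < q) (hq' : q ≤ y)
    (hk : 50 * (1 + Real.log y) ≤ k) (hX : X ≤ 7 * N) {b β h : ℤ}
    (hβ : β = b ∧ h = 2 ∨ β = b - 2 ∧ h = -2) (F : ℕ → ℝ) {H M E : ℝ} (hH : |H * M| ≤ LL N ^ 3)
    (hE : |∑ m ∈ (Icc 3 X).filter (fun m : ℕ => (q : ℤ) ∣ m - b), F m -
      X * H * (II q β * Yf y k (gh q β h) * M)| ≤ E) :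
    |∑ m ∈ (Icc 3 X).filter (fun m : ℕ => (q : ℤ) ∣ m - b), (F m - H * M * md0 y k m)| ≤
      E + 3 * (RR N ^ 9999 * LL N ^ 4) + 14 * Real.exp 16 * N * (LL N ^ 11 / 2 ^ k) := by
  have R1 : 1 ≤ RR N := by linarith [s.R8]
  have L1 := s.L1
  have e3 := md0_side k hy hq b X
  have e4 := main_two hy hq hq' hk hβ
  have c0 := one_le_cW y
  have c1 : cW y ≤ RR N := (cW_le_self (by omega)).trans s.yR
  have yN : y ≤ N := by exact_mod_cast s.yR.trans s.RN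
  have c2 := cW_le_LL hy yN
  have qR : (q : ℝ) ≤ RR N := le_trans (by exact_mod_cast hq') s.yR
  have x7 : (X : ℝ) ≤ 7 * N := by exact_mod_cast hX
  have yk := s.yk
  have e5 : cW y * ((y : ℝ) ^ (2 * k) * (q * (y : ℝ) ^ (2 * k) + 2)) ≤ 3 * RR N ^ 9999 :=
    calc _ ≤ RR N * (RR N * (RR N * RR N + 2)) := by gcongr
      _ = RR N ^ 4 + 2 * RR N ^ 2 := by ring
      _ ≤ RR N ^ 9999 + 2 * RR N ^ 9999 := by gcongr <;> norm_num
      _ = _ := by ring
  have t1 := mul_le_mul hH (e3.trans e5) (abs_nonneg _) (by positivity)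
  have t2 : |H * M| * (X * |II q β * Yf y k (gh q β h) - cW y / q * Yf y k (g2 y q b)|) ≤
      14 * Real.exp 16 * N * (LL N ^ 11 / 2 ^ k) :=
    calc _ ≤ LL N ^ 3 * (7 * N * (2 * (Real.exp 16 * LL N ^ 8) / 2 ^ k)) := by
          gcongr
          refine e4.trans ?_
          gcongr
      _ = _ := by ring
  have t3 : LL N ^ 3 * (3 * RR N ^ 9999) ≤ 3 * (RR N ^ 9999 * LL N ^ 4) :=
    calc _ ≤ LL N ^ 4 * (3 * RR N ^ 9999) := by gcongr; norm_num
      _ = _ := by ring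
  rw [← Nat.abs_cast (R := ℝ) X, ← abs_mul, ← abs_mul] at t2
  rw [← abs_mul] at t1
  rw [sum_sub_distrib, ← mul_sum]
  generalize ∑ m ∈ (Icc 3 X).filter (fun m : ℕ => (q : ℤ) ∣ m - b), F m = S1,
    ∑ m ∈ (Icc 3 X).filter (fun m : ℕ => (q : ℤ) ∣ m - b), md0 y k m = S2,
    Yf y k (gh q β h) = Y1, Yf y k (g2 y q b) = Y2 at *
  have e : S1 - H * M * S2 = (S1 - X * H * (II q β * Y1 * M)) -
      H * M * (S2 - cW y * (X / q * Y2)) + H * M * (X * (II q β * Y1 - cW y / q * Y2)) := by ring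
  rw [abs_le] at hE t1 t2
  rw [e, abs_le]
  constructor <;> linarith

lemma level {N y k : ℕ} (s : Sz N y k) :
    (y : ℝ) ^ (2 * k + 1) * Dl N < (⌊RR N ^ 4991⌋₊ : ℕ) + 1 := by
  refine lt_of_le_of_lt ?_ (Nat.lt_floor_add_one _)
  have : Dl N = RR N ^ 4990 := by
    rw [RR_pow, Dl]
    norm_num
  have R0 : 0 ≤ RR N := by linarith [s.R8]
  rw [this, pow_succ' (RR N) 4990]
  exact mul_le_mul_of_nonneg_right s.yk1 (by positivity)

lemma level2 {N y k X : ℕ} (s : Sz N y k) (hX : RR N ^ 9995 ≤ X) :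
    2 ≤ X ∧ ((⌊RR N ^ 4991⌋₊ : ℕ) : ℝ) ≤ (X : ℝ) ^ (4991 / 9995 : ℝ) ∧ LL N / 4 ≤ Real.log X := by
  have R8 := s.R8
  have h1 : RR N ≤ X := (le_self_pow₀ (by linarith) (by norm_num)).trans hX
  refine ⟨by exact_mod_cast (show (2 : ℝ) ≤ X by linarith),
    (Nat.floor_le (by positivity)).trans ?_, ?_⟩
  · refine le_trans (le_of_eq ?_) (Real.rpow_le_rpow (by positivity) hX (by norm_num))
    rw [← Real.rpow_natCast _ 9995, ← Real.rpow_mul (by linarith), ← Real.rpow_natCast]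
    norm_num
  · have h2 := Real.log_le_log (by positivity) hX
    have h3 := congrArg Real.log (RR_N N)
    rw [Real.log_pow] at h2 h3
    have := s.l1
    unfold LL
    push_cast at h2 h3
    linarith

lemma Dl_le {N y k : ℕ} (s : Sz N y k) {μ : ℕ → ℝ} (hμ : Lev y (Dl N) μ) (d : ℕ) (h : μ d ≠ 0) :
    d ≤ N := by
  have : Dl N = RR N ^ 4990 := by
    rw [RR_pow, Dl]
    norm_num
  exact_mod_cast (((hμ d).2 h).1.trans_eq this).trans (s.pN _ (by norm_num))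

lemma bv_le {N y k q X B B1 : ℕ} (s : Sz N y k) {C1 S : ℝ} (hC : 0 < C1)
    (hqL : (q : ℝ) ≤ LL N ^ B1) (hX : X ≤ 7 * N) (l2 : LL N / 4 ≤ Real.log X) (h0 : 0 ≤ S)
    (h : S ≤ C1 * X / Real.log X ^ (B + B1)) :
    q * S ≤ 7 * C1 * 4 ^ (B + B1) * N * (1 / LL N ^ B) := by
  have L1 := s.L1
  have x7 : (X : ℝ) ≤ 7 * N := by exact_mod_cast hX
  calc _ ≤ LL N ^ B1 * (C1 * (7 * N) / (LL N / 4) ^ (B + B1)) := by
        refine mul_le_mul hqL (h.trans ?_) h0 (by positivity)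
        gcongr
    _ = _ := by
        rw [div_pow, pow_add (LL N)]
        field_simp

lemma card_primes {N y k : ℕ} (s : Sz N y k) : ((Nat.primesLE y).card : ℝ) ≤ RR N := by
  refine le_trans ?_ s.yR
  have : Nat.primesLE y ⊆ Icc 1 y := fun l hl =>
    mem_Icc.2 ⟨(Nat.mem_primesLE.1 hl).2.pos, (Nat.mem_primesLE.1 hl).1⟩
  exact_mod_cast (card_le_card this).trans (by simp)

lemma wrap {N k B : ℕ} {x c1 c2 c3 C2 : ℝ} (L1 : 1 ≤ LL N) (h1 : 0 ≤ c1) (h2 : 0 ≤ c2)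
    (h3 : 0 ≤ c3) (h4 : 0 ≤ C2) (sv : RR N ^ 9999 * LL N ^ 4 ≤ C2 * N * (1 / LL N ^ B))
    (h : x ≤ c1 * (RR N ^ 9999 * LL N ^ 4) + c2 * N * (1 / LL N ^ B) +
      c3 * N * (LL N ^ 11 / 2 ^ k)) :
    x ≤ (c1 * C2 + c2 + c3) * N * (1 / LL N ^ B + LL N ^ 11 / 2 ^ k) := by
  have p1 : 0 ≤ c3 * N * (1 / LL N ^ B) := by positivity
  have p2 : 0 ≤ c1 * C2 * N * (LL N ^ 11 / 2 ^ k) := by positivity
  have p3 : 0 ≤ c2 * N * (LL N ^ 11 / 2 ^ k) := by positivity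
  have p4 := mul_le_mul_of_nonneg_left sv h1
  generalize LL N ^ 11 / 2 ^ k = v, 1 / LL N ^ B = u, RR N ^ 9999 * LL N ^ 4 = w at *
  nlinarith

end CenAP

end Pool.Agent.P.MP_0ad054_nt.Chen
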