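import Pool.Agent.P.MP_0ad054_nt.Chen.CenAB

/-! Class sums of the switched part of Chen's minorant. -/

namespace Pool.Agent.P.MP_0ad054_nt.Chen

open Finset Pool.Agent.Lib.H9 Pool.Agent.P.MP_0ad054_nt.Sun Pool.Agent.P.MP_0ad054_nt.Sun.CentralP
open scoped ArithmeticFunction.vonMangoldt

namespace CenBP

lemma bet_le (a : ℕ) {c : ℕ → ℝ} (hc : ∀ d, |c d| ≤ 1) : |bet c a| ≤ Real.log a := by
  rw [← ArithmeticFunction.vonMangoldt_sum, ← Nat.sum_div_divisors a fun n => Λ n]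
  refine (abs_sum_le_sum_abs _ _).trans (sum_le_sum fun k _ => ?_)
  rw [abs_mul, abs_of_nonneg ArithmeticFunction.vonMangoldt_nonneg]
  exact mul_le_of_le_one_left ArithmeticFunction.vonMangoldt_nonneg (hc k)

lemma sum_c_le (X : ℕ) {c : ℕ → ℝ} {Z : ℝ} (hZ : 0 ≤ Z) (hc : ∀ d, |c d| ≤ 1)
    (hc' : ∀ d, c d ≠ 0 → (d : ℝ) ≤ Z) : ∑ k ∈ Icc 1 X, |c k| ≤ Z := by
  rw [← sum_filter_ne_zero]
  refine (sum_le_card_nsmul _ _ 1 fun d _ => hc d).trans (le_trans ?_ (Nat.floor_le hZ))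
  have : (Icc 1 X).filter (fun k => |c k| ≠ 0) ⊆ Icc 1 ⌊Z⌋₊ := fun k hk => by
    rw [mem_filter, mem_Icc] at hk
    exact mem_Icc.2 ⟨hk.1.1, Nat.le_floor (hc' k (abs_ne_zero.1 hk.2))⟩
  have := card_le_card this
  rw [Nat.card_Icc, Nat.add_sub_cancel] at this
  rw [nsmul_eq_mul, mul_one]
  exact_mod_cast this

lemma bet_bad {X r : ℕ} (hX : 1 ≤ X) (hr : r.Prime) {c : ℕ → ℝ} {Z : ℝ} (hZ : 0 ≤ Z)
    (hc : ∀ d, |c d| ≤ 1) (hc' : ∀ d, c d ≠ 0 → (d : ℝ) ≤ Z ∧ ¬ r ∣ d) :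
    ∑ a ∈ (Icc 1 X).filter (fun a => r ∣ a), |bet c a| ≤ Z * Real.log X := by
  have h0 : ∀ k j : ℕ, 0 ≤ |c k| * (if r ∣ j then Λ j else 0) := fun k j =>
    mul_nonneg (abs_nonneg _) (by
      split_ifs
      · exact ArithmeticFunction.vonMangoldt_nonneg
      · rfl)
  calc _ ≤ ∑ a ∈ (Icc 1 X).filter (fun a => r ∣ a),
        ∑ k ∈ a.divisors, |c k| * (if r ∣ a / k then Λ (a / k) else 0) := by
        refine sum_le_sum fun a ha => (abs_sum_le_sum_abs _ _).trans (sum_le_sum fun k hk => ?_)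
        rw [abs_mul, abs_of_nonneg ArithmeticFunction.vonMangoldt_nonneg]
        by_cases h1 : c k = 0
        · simp [h1]
        have h2 := (mem_filter.1 ha).2
        rw [← Nat.mul_div_cancel' (Nat.dvd_of_mem_divisors hk)] at h2
        rw [if_pos (((Nat.Prime.dvd_mul hr).1 h2).resolve_left (hc' k h1).2)]
    _ ≤ ∑ a ∈ Icc 1 X, ∑ k ∈ a.divisors, |c k| * (if r ∣ a / k then Λ (a / k) else 0) :=
        sum_le_sum_of_subset_of_nonneg (filter_subset _ _) fun a _ _ => sum_nonneg fun k _ => h0 _ _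
    _ ≤ ∑ k ∈ Icc 1 X, ∑ j ∈ Icc 1 X, |c k| * (if r ∣ j then Λ j else 0) :=
        sum_divisors_split X (fun k j => |c k| * (if r ∣ j then Λ j else 0)) h0
    _ ≤ _ := by
        rw [← sum_mul_sum, ← sum_filter]
        exact mul_le_mul (sum_c_le X hZ hc fun d h => (hc' d h).1) (lam_prime hr hX fun n hn =>
          ⟨(mem_Icc.1 (mem_filter.1 hn).1).2, (mem_filter.1 hn).2⟩)
          (sum_nonneg fun _ _ => ArithmeticFunction.vonMangoldt_nonneg) hZ

lemma sum_mult (N : ℕ) {p : ℕ} (hp : 0 < p) :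
    ∑ k ∈ (Icc 1 N).filter (fun k => p ∣ k), 1 / (k : ℝ) ≤ 1 / p * LL N := by
  have h1 : (Icc 1 N).filter (fun k => p ∣ k) ⊆ (Icc 1 N).image (fun j => p * j) := fun k hk => by
    rw [mem_filter, mem_Icc] at hk
    obtain ⟨⟨h1, h2⟩, j, rfl⟩ := hk
    exact mem_image.2 ⟨j, mem_Icc.2 ⟨Nat.pos_of_mul_pos_left h1,
      (Nat.le_mul_of_pos_left j hp).trans h2⟩, rfl⟩
  refine (sum_le_sum_of_subset_of_nonneg h1 fun _ _ _ => by positivity).trans ?_
  rw [sum_image fun i _ j _ h => Nat.eq_of_mul_eq_mul_left hp h]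
  refine le_trans (le_of_eq ?_) (mul_le_mul_of_nonneg_left (sum_inv_le_log N) (by positivity))
  rw [mul_sum]
  refine sum_congr rfl fun j _ => ?_
  rw [Nat.cast_mul, one_div_mul_one_div]

lemma Hc_sub {N X K : ℕ} (hK : 0 < K) {c : ℕ → ℝ} {w : ℝ} (hw : 0 < w) (hc : ∀ d, |c d| ≤ 1)
    (hc' : ∀ d, c d ≠ 0 → d ≤ N ∧ d ≤ X ∧ ∀ p : ℕ, p.Prime → p ∣ d → w < p) :
    |Hc N c - ∑ k ∈ (Icc 1 X).filter (fun k => k.Coprime K), c k / k| ≤
      2 * Real.log K * (1 / w * LL N) := by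
  have L0 : 0 ≤ LL N := by unfold LL; linarith [Real.log_natCast_nonneg N]
  have e1 : ∑ k ∈ (Icc 1 X).filter (fun k => k.Coprime K), c k / k =
      ∑ k ∈ (Icc 1 N).filter (fun k => k.Coprime K), c k / k := by
    rw [← sum_filter_ne_zero, eq_comm, ← sum_filter_ne_zero]
    refine sum_congr ?_ fun _ _ => rfl
    ext d
    simp only [mem_filter, mem_Icc]
    exact ⟨fun h => ⟨⟨⟨h.1.1.1, (hc' d (div_ne_zero_iff.1 h.2).1).2.1⟩, h.1.2⟩, h.2⟩,
      fun h => ⟨⟨⟨h.1.1.1, (hc' d (div_ne_zero_iff.1 h.2).1).1⟩, h.1.2⟩, h.2⟩⟩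
  rw [e1, Hc, ← sum_filter_add_sum_filter_not _ (fun k => k.Coprime K), add_sub_cancel_left]
  set P := K.primeFactors.filter (fun p : ℕ => w < p) with hP
  have t0 : ∀ p k : ℕ, (0 : ℝ) ≤ if p ∣ k then 1 / (k : ℝ) else 0 := fun p k => by
    split_ifs <;> positivity
  calc _ ≤ ∑ k ∈ (Icc 1 N).filter (fun k => ¬ k.Coprime K),
        ∑ p ∈ P, (if p ∣ k then 1 / (k : ℝ) else 0) := by
        refine (abs_sum_le_sum_abs _ _).trans (sum_le_sum fun k hk => ?_)
        by_cases h1 : c k = 0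
        · rw [h1, zero_div, abs_zero]
          exact sum_nonneg fun p _ => t0 p k
        obtain ⟨p, hp, h2, h3⟩ := Nat.Prime.not_coprime_iff_dvd.1 (mem_filter.1 hk).2
        refine le_trans ?_ (single_le_sum (fun p _ => t0 p k) (mem_filter.2
          ⟨Nat.mem_primeFactors.2 ⟨hp, h3, hK.ne'⟩, (hc' k h1).2.2 p hp h2⟩))
        rw [if_pos h2, abs_div, Nat.abs_cast]
        exact div_le_div_of_nonneg_right (hc k) (Nat.cast_nonneg _)
    _ ≤ ∑ k ∈ Icc 1 N, ∑ p ∈ P, (if p ∣ k then 1 / (k : ℝ) else 0) :=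
        sum_le_sum_of_subset_of_nonneg (filter_subset _ _) fun k _ _ => sum_nonneg fun p _ => t0 p k
    _ ≤ _ := by
        rw [sum_comm]
        refine (sum_le_card_nsmul _ _ (1 / w * LL N) fun p hp => ?_).trans ?_
        · rw [← sum_filter]
          refine (sum_mult N (Nat.prime_of_mem_primeFactors (mem_filter.1 hp).1).pos).trans ?_
          exact mul_le_mul_of_nonneg_right (one_div_le_one_div_of_le hw (mem_filter.1 hp).2.le) L0
        · rw [nsmul_eq_mul]
          refine mul_le_mul_of_nonneg_right (le_trans ?_ (card_le_log hK)) (by positivity)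
          exact_mod_cast card_filter_le _ _

lemma shift (X : ℕ) (q b : ℤ) (F : ℕ → ℝ) :
    ∑ m ∈ (Icc 3 X).filter (fun m : ℕ => q ∣ m - b), F m =
      ∑ a ∈ (Icc 1 (X - 2)).filter (fun a : ℕ => q ∣ a - (b - 2)), F (a + 2) := by
  symm
  refine sum_nbij' (fun a => a + 2) (fun m => m - 2) (fun a ha => ?_) (fun m hm => ?_)
    (fun a _ => by simp) (fun m hm => ?_) fun _ _ => rfl
  · rw [mem_filter, mem_Icc] at ha ⊢
    exact ⟨by omega, ha.2.trans (dvd_of_eq (by push_cast; ring))⟩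
  · rw [mem_filter, mem_Icc] at hm ⊢
    exact ⟨by omega, hm.2.trans (dvd_of_eq (by omega))⟩
  · rw [mem_filter, mem_Icc] at hm
    omega

end CenBP

open CenAP CenBP in
theorem cenB (h : S_BV2) : S_CenB := by
  intro B B1
  obtain ⟨C1, hC1, bv⟩ := h (4991 / 9995) (B + B1) (by norm_num)
  obtain ⟨C2, hC2, sv⟩ := save B
  obtain ⟨C3, hC3, ht⟩ := tau_RR
  refine ⟨(6 * C3 + 19) * C2 + 7 * C1 * 4 ^ (B + B1) + 14 * Real.exp 16, 11, by positivity,
    fun N y k q X b μ c hy hyk hk hμ hc hc1 hq hq' hqL hX => ?_⟩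
  have s := sz hy hyk hk
  have R8 := s.R8
  have R1 : 1 ≤ RR N := by linarith
  have L1 := s.L1
  have N1 : 1 ≤ N := by exact_mod_cast R1.trans s.RN
  have hH := Hc_le N fun d => (hc d).1
  have hM : |Hc N c * Mm N μ| ≤ LL N ^ 3 := by
    rw [abs_mul, pow_succ']
    exact mul_le_mul hH (Mm_le N fun d => (hμ d).1) (abs_nonneg _) (by positivity)
  refine wrap L1 (by positivity) (by positivity) (by positivity) hC2.le (sv N N1) ?_
  have p0 : 0 ≤ RR N ^ 9999 * LL N ^ 4 := by positivity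
  have p1 : 0 ≤ 7 * C1 * 4 ^ (B + B1) * N * (1 / LL N ^ B) := by positivity
  have p2 : 0 ≤ 14 * Real.exp 16 * N * (LL N ^ 11 / 2 ^ k) := by positivity
  have p3 : 0 ≤ C3 * (RR N ^ 9999 * LL N ^ 4) := by positivity
  set X' := X - 2 with hX'
  have x1 : (X : ℝ) ≤ X' + 2 := by exact_mod_cast (show X ≤ X' + 2 by omega)
  rcases lt_or_ge (X' : ℝ) (RR N ^ 9995) with hs | hs
  · have : 1 ≤ RR N ^ 9995 := one_le_pow₀ R1
    refine (short hy s _ _ hC3 hM (by linarith) fun m hm => ?_).trans (by linarith)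
    have m1 := (mem_Icc.1 hm).2.trans hX
    rw [FB, abs_mul, abs_mul]
    refine mul_le_mul (mul_le_mul ((bet_le _ fun d => (hc d).1).trans (s.l7 _ (by omega)))
      ((Yf_le hy k fun l => ?_).trans s.yk) (abs_nonneg _) (by positivity))
      ((Wm_le _ fun d => (hμ d).1).trans (ht N _ m1)) (abs_nonneg _) (by positivity)
    unfold w2
    split_ifs <;> simp
  obtain ⟨x2, hK, l2⟩ := level2 s hs
  have x7 : X' ≤ 7 * N := by omega
  have x7' : (X' : ℝ) ≤ 7 * N := by exact_mod_cast x7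
  have x3 : (X : ℝ) = X' + 2 := by exact_mod_cast (show X = X' + 2 by omega)
  have r1 : (N : ℝ) ^ (1 / 10 : ℝ) = RR N ^ 1000 := by
    rw [RR_pow]
    norm_num
  have r9 : (N : ℝ) ^ (9 / 10 : ℝ) = RR N ^ 9000 := by
    rw [RR_pow]
    norm_num
  rw [r1, r9] at hc
  have yw : (y : ℝ) ≤ RR N ^ 1000 := s.yR.trans (le_self_pow₀ R1 (by norm_num))
  set K0 := ⌊RR N ^ 4991⌋₊ with hK0
  have K0N : K0 ≤ N := by
    exact_mod_cast (Nat.floor_le (by positivity)).trans (s.pN 4991 (by norm_num))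
  have b1 := bv X' K0 (cH q (b - 2) (-2)) c x2 hK (fun K _ => cH_cop q _ _ K) (fun d => (hc d).1)
    fun d hd => by
      obtain ⟨a1, a2⟩ := (hc d).2 hd
      have d1 : d ≠ 1 := fun e => hd (e ▸ hc1)
      have d0 : d ≠ 0 := fun e => by
        have := a2 2 Nat.prime_two (e ▸ dvd_zero 2)
        have y2 : (2 : ℝ) ≤ y := by exact_mod_cast hy
        push_cast at this
        linarith
      constructor
      · have a3 := a2 _ (Nat.minFac_prime d1) (Nat.minFac_dvd d)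
        have a4 : (d.minFac : ℝ) ≤ d := by exact_mod_cast Nat.minFac_le (Nat.pos_of_ne_zero d0)
        have a5 : (X' : ℝ) ≤ (N : ℝ) ^ (2 : ℝ) := by
          rw [Real.rpow_two]
          nlinarith [s.RN]
        refine (Real.rpow_le_rpow (Nat.cast_nonneg _) a5 (by norm_num)).trans ?_
        rw [← Real.rpow_mul (Nat.cast_nonneg _), show (2 * (1 / 20) : ℝ) = 1 / 10 by norm_num, r1]
        linarith
      · refine a1.trans (le_trans ?_ (Real.rpow_le_rpow (by positivity) hs (by norm_num)))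
        rw [← Real.rpow_natCast _ 9995, ← Real.rpow_mul (by linarith), ← Real.rpow_natCast]
        exact Real.rpow_le_rpow_of_exponent_le R1 (by norm_num)
  have e1 := bv_le s hC1 hqL x7 l2 (sum_nonneg fun _ _ => abs_nonneg _) b1
  have e2 := reduce hy hq hq' hμ (level s) (b - 2) (Or.inr rfl) (Icc 1 X') (bet c) (X * Hc N c)
    (C3 * RR N) (N := N) fun n hn => (ind_sum N (a := n + 2) (by omega) (by omega)).trans
      (ht N _ (by have := (mem_Icc.1 hn).2; omega))
  have e3 : ∑ K ∈ Icc 1 K0, EH (Icc 1 X') (bet c) (X * Hc N c) q (b - 2) (-2) K ≤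
      ∑ K ∈ Icc 1 K0, |∑ a ∈ (Icc 1 X').filter
        (fun a : ℕ => (K : ℤ) ∣ a - cH q (b - 2) (-2) K), bet c a - (X' : ℝ) / K.totient *
          ∑ k ∈ (Icc 1 X').filter (fun k => k.Coprime K), c k / k| +
        16 * (RR N ^ 9000 * LL N ^ 2) * LL N ^ 2 := by
    refine (sum_le_sum (g := fun K : ℕ => |∑ a ∈ (Icc 1 X').filter
        (fun a : ℕ => (K : ℤ) ∣ a - cH q (b - 2) (-2) K), bet c a - (X' : ℝ) / K.totient *
          ∑ k ∈ (Icc 1 X').filter (fun k => k.Coprime K), c k / k| +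
          16 * (RR N ^ 9000 * LL N ^ 2) * (1 / K.totient)) fun K hK => ?_).trans (by
        rw [sum_add_distrib, ← mul_sum]
        refine add_le_add_right (mul_le_mul_of_nonneg_left ((sum_inv_tot K0).trans ?_)
          (by positivity)) _
        have a0 := Real.log_natCast_nonneg K0
        have a1 : Real.log K0 ≤ Real.log N := Real.log_le_log (by
          have : 0 < K0 := Nat.floor_pos.2 (one_le_pow₀ R1)
          exact_mod_cast this) (by exact_mod_cast K0N)
        unfold LL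
        gcongr)
    have K1 := (mem_Icc.1 hK).1
    have a1 := Hc_sub (N := N) (X := X') K1 (w := RR N ^ 1000) (by positivity) (fun d => (hc d).1)
      fun d hd => ⟨by exact_mod_cast ((hc d).2 hd).1.trans (s.pN _ (by norm_num)),
        by exact_mod_cast ((hc d).2 hd).1.trans ((pow_le_pow_right₀ R1 (by norm_num)).trans hs),
        ((hc d).2 hd).2⟩
    have a2 : Real.log K ≤ LL N := by
      have := Real.log_le_log (by exact_mod_cast K1)
        (show (K : ℝ) ≤ N by exact_mod_cast (mem_Icc.1 hK).2.trans K0N)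
      unfold LL
      linarith
    have a3 : X' * |Hc N c - ∑ k ∈ (Icc 1 X').filter (fun k => k.Coprime K), c k / k| ≤
        14 * (RR N ^ 9000 * LL N ^ 2) :=
      calc _ ≤ 7 * N * (2 * LL N * (1 / RR N ^ 1000 * LL N)) := by
            gcongr
            refine a1.trans ?_
            gcongr
        _ = _ := by
            rw [← RR_N N]
            field_simp
            norm_num
    have a4 : LL N ≤ RR N ^ 9000 * LL N ^ 2 :=
      (le_self_pow₀ L1 (by norm_num)).trans (le_mul_of_one_le_left (by positivity) (one_le_pow₀ R1))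
    have a5 : (0 : ℝ) ≤ 1 / K.totient := by positivity
    rw [← Nat.abs_cast (R := ℝ) X', ← abs_mul] at a3
    rw [EH, x3]
    generalize ∑ k ∈ (Icc 1 X').filter (fun k => k.Coprime K), c k / k = H' at *
    generalize ∑ a ∈ (Icc 1 X').filter
      (fun a : ℕ => (K : ℤ) ∣ a - cH q (b - 2) (-2) K), bet c a = S at *
    have a6 : S - (X' + 2) * Hc N c / K.totient = (S - X' / K.totient * H') -
        (X' * (Hc N c - H') + 2 * Hc N c) * (1 / K.totient) := by ring
    rw [a6]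
    refine (abs_sub _ _).trans (add_le_add_right ?_ _)
    rw [abs_mul, abs_of_nonneg a5]
    refine mul_le_mul_of_nonneg_right ((abs_add_le _ _).trans ?_) a5
    rw [abs_mul 2, abs_two]
    linarith
  have qR : (q : ℝ) ≤ RR N := le_trans (by exact_mod_cast hq') s.yR
  have e4 : (q : ℝ) * (16 * (RR N ^ 9000 * LL N ^ 2) * LL N ^ 2) ≤
      16 * (RR N ^ 9999 * LL N ^ 4) :=
    calc _ ≤ RR N * (16 * (RR N ^ 9000 * LL N ^ 2) * LL N ^ 2) := by gcongr
      _ = 16 * (RR N ^ 9001 * LL N ^ 4) := by ring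
      _ ≤ _ := by gcongr; norm_num
  have e5 : ∑ r ∈ Nat.primesLE y, ∑ n ∈ (Icc 1 X').filter (fun n => r ∣ n), |bet c n| ≤
      RR N * (RR N ^ 9000 * (2 * LL N)) := by
    refine (sum_le_card_nsmul _ _ (RR N ^ 9000 * (2 * LL N)) fun r hr => ?_).trans ?_
    · obtain ⟨a1, a2⟩ := Nat.mem_primesLE.1 hr
      refine (bet_bad (by omega) a2 (by positivity) (fun d => (hc d).1) fun d hd =>
        ⟨((hc d).2 hd).1, fun h1 => ?_⟩).trans
        (mul_le_mul_of_nonneg_left (s.l7 _ x7) (by positivity))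
      have a3 := ((hc d).2 hd).2 r a2 h1
      have a4 : (r : ℝ) ≤ y := by exact_mod_cast a1
      linarith
    · rw [nsmul_eq_mul]
      exact mul_le_mul_of_nonneg_right (card_primes s) (by positivity)
  have yk := s.yk
  have e6 : (y : ℝ) ^ (2 * k) * (C3 * RR N *
      ∑ r ∈ Nat.primesLE y, ∑ n ∈ (Icc 1 X').filter (fun n => r ∣ n), |bet c n|) ≤
      2 * (C3 * (RR N ^ 9999 * LL N ^ 4)) :=
    calc _ ≤ RR N * (C3 * RR N * (RR N * (RR N ^ 9000 * (2 * LL N)))) := by gcongr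
      _ = 2 * (C3 * (RR N ^ 9003 * LL N ^ 1)) := by ring
      _ ≤ _ := by gcongr <;> norm_num
  have e7 := mul_le_mul_of_nonneg_left e3 (Nat.cast_nonneg q : (0 : ℝ) ≤ q)
  have e8 := model hy s hq hq' hk hX (b := b) (Or.inr ⟨rfl, rfl⟩) (FB y k μ c) (H := Hc N c)
    (M := Mm N μ) hM (E := _) (le_trans (le_of_eq (by
      rw [shift]
      congr 2
      refine sum_congr rfl fun a _ => ?_
      rw [FB, mul_assoc, Wm_eq (N := N) (n := a) (h := -2) (by omega) (by omega) (Dl_le s hμ),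
        Nat.add_sub_cancel, show w2 (a + 2) = ind (-2) a from funext fun l =>
          if_congr (by rw [← Int.natCast_dvd_natCast]; simp) rfl rfl])) e2)
  rw [mul_add] at e7
  linarith

end Pool.Agent.P.MP_0ad054_nt.Chen
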