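import Pool.Agent.P.MP_0ad054_nt.Chen.Defs

/-! From weights on sets of primes to weights on integers. -/

namespace Pool.Agent.P.MP_0ad054_nt.Chen.ChenP

open Finset Pool.Agent.P.MP_0ad054_nt.Sun

theorem mem_prs {w z : ℝ} (hw : 0 ≤ w) {l : ℕ} : l ∈ prs w z ↔ l.Prime ∧ w < l ∧ (l : ℝ) ≤ z := by
  unfold prs
  rw [mem_filter, mem_Ioc, Nat.floor_lt hw]
  constructor
  · rintro ⟨⟨h1, h2⟩, h3⟩
    refine ⟨h3, h1, (Nat.le_floor_iff' h3.ne_zero).1 h2⟩
  · rintro ⟨h1, h2, h3⟩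
    exact ⟨⟨h2, Nat.le_floor h3⟩, h1⟩

/-- the weight on integers attached to a weight on sets of primes -/
noncomputable def push (P : Finset ℕ) (lam : Finset ℕ → ℝ) (q d : ℕ) : ℝ :=
  ∑ T ∈ P.powerset, if q * ∏ l ∈ T, l = d then lam T else 0

variable {P : Finset ℕ} {lam : Finset ℕ → ℝ} {q : ℕ}

theorem push_ne {d : ℕ} (h : push P lam q d ≠ 0) :
    ∃ T ⊆ P, q * ∏ l ∈ T, l = d ∧ lam T ≠ 0 := by
  obtain ⟨T, hT, h1⟩ := exists_ne_zero_of_sum_ne_zero h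
  split_ifs at h1 with h2
  · exact ⟨T, mem_powerset.1 hT, h2, h1⟩
  · exact absurd rfl h1

theorem push_abs (hP : ∀ l ∈ P, l.Prime) (hq : q ≠ 0) (hl : ∀ T, |lam T| ≤ 1) (d : ℕ) :
    |push P lam q d| ≤ 1 := by
  by_cases h : push P lam q d = 0
  · rw [h]; simp
  obtain ⟨T, hT, h1, -⟩ := push_ne h
  unfold push
  rw [sum_eq_single T (fun T' hT' hne => if_neg fun e => hne ?_) (fun h => absurd (mem_powerset.2 hT) h),
    if_pos h1]
  · exact hl T
  · have := Nat.eq_of_mul_eq_mul_left (Nat.pos_of_ne_zero hq) (e.trans h1.symm)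
    rw [← Nat.primeFactors_prod (fun l hl => hP l (mem_powerset.1 hT' hl)), this,
      Nat.primeFactors_prod (fun l hl => hP l (hT hl))]

theorem sum_push (S : Finset ℕ) (F : ℕ → ℝ) : ∑ d ∈ S, push P lam q d * F d =
    ∑ T ∈ P.powerset, if q * ∏ l ∈ T, l ∈ S then lam T * F (q * ∏ l ∈ T, l) else 0 := by
  unfold push
  simp only [sum_mul, ite_mul, zero_mul]
  rw [sum_comm]
  exact sum_congr rfl fun T _ => sum_ite_eq _ _ _

theorem Wm_push (hP : ∀ l ∈ P, l.Prime) (hq : ∀ l ∈ P, q.Coprime l) {a : ℕ} (ha : a ≠ 0) :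
    Wm (push P lam q) a = if q ∣ a then Sf P lam (w2 a) else 0 := by
  have := sum_push (P := P) (lam := lam) (q := q) a.divisors (fun _ => 1)
  simp only [mul_one, Nat.mem_divisors, ha, ne_eq, not_false_eq_true, and_true] at this
  unfold Wm Sf
  rw [this]
  split_ifs with h
  · refine sum_congr rfl fun T hT => ?_
    have hT' := mem_powerset.1 hT
    split_ifs with h1
    · rw [prod_eq_one, mul_one]
      intro l hl
      exact if_pos (((dvd_prod_of_mem _ hl).mul_left q).trans h1)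
    · by_contra h2
      refine h1 (Nat.Coprime.mul_dvd_of_dvd_of_dvd
        (Nat.Coprime.prod_right fun l hl => hq l (hT' hl)) h ?_)
      refine Finset.prod_primes_dvd a (fun l hl => (hP l (hT' hl)).prime) fun l hl => ?_
      by_contra h3
      exact h2 (by rw [prod_eq_zero hl (by unfold w2; rw [if_neg h3]), mul_zero])
  · exact sum_eq_zero fun T _ => if_neg fun e => h ((dvd_mul_right _ _).trans e)

theorem totient_prod (T : Finset ℕ) (hT : ∀ l ∈ T, l.Prime) :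
    (1 : ℝ) / (∏ l ∈ T, l).totient = ∏ l ∈ T, gg l := by
  induction T using Finset.induction_on with
  | empty => simp
  | insert p T hp ih =>
    have h1 := hT p (mem_insert_self _ _)
    have h2 : ∀ l ∈ T, l.Prime := fun l hl => hT l (mem_insert_of_mem hl)
    rw [prod_insert hp, prod_insert hp, Nat.totient_mul (Nat.Coprime.prod_right fun l hl =>
      (Nat.coprime_primes h1 (h2 l hl)).2 fun e => hp (e ▸ hl)), ← ih h2, Nat.totient_prime h1, gg]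
    push_cast [Nat.cast_sub h1.one_le]
    rw [one_div_mul_one_div]

theorem Mm_push {N : ℕ} (hP : ∀ l ∈ P, l.Prime) (hq : ∀ l ∈ P, q.Coprime l) (hq0 : q ≠ 0)
    (hN : ∀ T ⊆ P, lam T ≠ 0 → q * ∏ l ∈ T, l ≤ N) :
    Mm N (push P lam q) = 1 / q.totient * Sf P lam gg := by
  unfold Mm Sf
  simp only [div_eq_mul_one_div (push P lam q _)]
  rw [sum_push, mul_sum]
  refine sum_congr rfl fun T hT => ?_
  have hT' := mem_powerset.1 hT
  by_cases h : lam T = 0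
  · simp [h]
  rw [if_pos (mem_Icc.2 ⟨Nat.one_le_iff_ne_zero.2 (mul_ne_zero hq0
    (prod_ne_zero_iff.2 fun l hl => (hP l (hT' hl)).ne_zero)), hN T hT' h⟩),
    Nat.totient_mul (Nat.Coprime.prod_right fun l hl => hq l (hT' hl)),
    ← totient_prod T fun l hl => hP l (hT' hl)]
  push_cast
  rw [← one_div_mul_one_div]; ring

theorem w2_01 (a l : ℕ) : w2 a l = 0 ∨ w2 a l = 1 := by
  unfold w2; split_ifs <;> simp

theorem prod_01_nonneg {w : ℕ → ℝ} (hw : ∀ l, w l = 0 ∨ w l = 1) (P : Finset ℕ) :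
    0 ≤ ∏ l ∈ P, (1 - w l) :=
  prod_nonneg fun l _ => by rcases hw l with h | h <;> rw [h] <;> norm_num

theorem prod_01_le {w : ℕ → ℝ} (hw : ∀ l, w l = 0 ∨ w l = 1) (P : Finset ℕ) :
    ∏ l ∈ P, (1 - w l) ≤ 1 :=
  prod_le_one (fun l _ => by rcases hw l with h | h <;> rw [h] <;> norm_num)
    (fun l _ => by rcases hw l with h | h <;> rw [h] <;> norm_num)

theorem gg_bd {l : ℕ} (hl : (3 : ℝ) ≤ l) : 0 ≤ gg l ∧ gg l ≤ 2 / l ∧ gg l ≤ 1 / 2 := by
  unfold gg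
  have : (0 : ℝ) < l - 1 := by linarith
  refine ⟨by positivity, ?_, ?_⟩
  · rw [div_le_div_iff₀ this (by linarith)]; linarith
  · rw [div_le_div_iff₀ this (by norm_num)]; linarith

theorem dim_of {η y0 : ℝ} (hη : 0 ≤ η) (hy : 3 ≤ y0) (h : ∀ w z : ℝ, y0 ≤ w → w ≤ z →
    ∏ l ∈ prs w z, (1 - gg l)⁻¹ ≤ (1 + η) * Real.log z / Real.log w)
    (hP : ∀ l ∈ P, l.Prime ∧ y0 < l) : Dim η P gg := by
  refine ⟨fun l hl => ⟨(hP l hl).1, gg_bd (hy.trans (hP l hl).2.le)⟩, fun w z hw hwz => ?_⟩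
  have lw := Real.log_pos hw
  have lz := Real.log_le_log (by linarith) hwz
  by_cases hz : max w y0 ≤ z
  · have h1 := h _ z (le_max_right _ _) hz
    have l2 := Real.log_le_log (by linarith) (le_max_left w y0)
    refine le_trans ?_ (h1.trans (div_le_div_of_nonneg_left (by nlinarith) lw l2))
    refine prod_le_prod_of_subset_of_one_le (fun l hl => ?_) (fun l hl => ?_) (fun l hl _ => ?_)
    · rw [mem_filter] at hl
      exact (mem_prs (by positivity)).2 ⟨(hP l hl.1).1, max_lt hl.2.1 (hP l hl.1).2, hl.2.2⟩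
    · have := gg_bd (hy.trans (hP l (mem_filter.1 hl).1).2.le)
      exact inv_nonneg.2 (by linarith)
    · have := gg_bd (l := l) (hy.trans ((le_max_right w y0).trans
        ((mem_prs (by positivity)).1 hl).2.1.le))
      exact (one_le_inv₀ (by linarith)).2 (by linarith)
  · rw [filter_false_of_mem, prod_empty, le_div_iff₀ lw]
    · nlinarith
    · intro l hl h1
      exact hz (max_le hwz ((hP l hl).2.le.trans h1.2))

theorem Dim.mono {η η' : ℝ} {g : ℕ → ℝ} (h : Dim η P g) (hη : η ≤ η') : Dim η' P g := by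
  refine ⟨h.1, fun w z hw hwz => (h.2 w z hw hwz).trans ?_⟩
  have lw := Real.log_pos hw
  have lz := Real.log_le_log (by linarith) hwz
  gcongr
  linarith

/-- eventual domination of powers -/
theorem ev_pow {a b : ℝ} (hab : a < b) (C : ℝ) :
    ∃ N0 : ℕ, 1 ≤ N0 ∧ ∀ N : ℕ, N0 ≤ N → C * (N : ℝ) ^ a ≤ (N : ℝ) ^ b := by
  have h := (tendsto_rpow_atTop (sub_pos.2 hab)).comp tendsto_natCast_atTop_atTop
  obtain ⟨N0, hN0⟩ := Filter.eventually_atTop.1 (h.eventually_ge_atTop C)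
  refine ⟨max N0 1, le_max_right _ _, fun N hN => ?_⟩
  have h1 : (0 : ℝ) < N := by exact_mod_cast (le_max_right N0 1).trans hN
  have h2 : C ≤ (N : ℝ) ^ (b - a) := hN0 N ((le_max_left _ _).trans hN)
  calc _ ≤ (N : ℝ) ^ (b - a) * (N : ℝ) ^ a := by gcongr
    _ = _ := by rw [← Real.rpow_add h1]; congr 1; ring

theorem yy_cube (N : ℕ) : yy N ^ 3 = 7 * N := by
  unfold yy
  rw [← Real.rpow_natCast, ← Real.rpow_mul (by positivity)]; norm_num

theorem yy_nonneg (N : ℕ) : 0 ≤ yy N := by unfold yy; positivity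
theorem zz_nonneg (N : ℕ) : 0 ≤ zz N := by unfold zz; positivity

theorem yy_le (N : ℕ) : yy N ≤ 2 * (N : ℝ) ^ (1 / 3 : ℝ) := by
  refine le_of_pow_le_pow_left₀ (n := 3) (by norm_num) (by positivity) ?_
  rw [yy_cube, mul_pow, ← Real.rpow_natCast ((N : ℝ) ^ _), ← Real.rpow_mul (by positivity)]
  norm_num
  linarith [Nat.cast_nonneg (α := ℝ) N]

theorem mem_Pr {N : ℕ} {p : ℕ × ℕ} : p ∈ Pr N ↔ (p.1.Prime ∧ zz N < p.1 ∧ (p.1 : ℝ) ≤ yy N) ∧
    (p.2.Prime ∧ yy N < p.2 ∧ (p.2 : ℝ) ≤ 7 * N) ∧ p.1 * p.2 ^ 2 ≤ 7 * N := by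
  unfold Pr Qs
  rw [mem_filter, mem_product, mem_prs (zz_nonneg N), mem_prs (yy_nonneg N), and_assoc]

theorem Pr_le {N : ℕ} {p : ℕ × ℕ} (h : p ∈ Pr N) :
    ((p.1 * p.2 : ℕ) : ℝ) ≤ 4 * (N : ℝ) ^ (2 / 3 : ℝ) := by
  obtain ⟨⟨-, -, h1⟩, -, h2⟩ := mem_Pr.1 h
  have h3 : (p.1 : ℝ) * (p.2 : ℝ) ^ 2 ≤ yy N ^ 3 := by rw [yy_cube]; exact_mod_cast h2
  have h4 : (N : ℝ) ^ (2 / 3 : ℝ) = ((N : ℝ) ^ (1 / 3 : ℝ)) ^ 2 := by
    rw [← Real.rpow_natCast ((N : ℝ) ^ _), ← Real.rpow_mul (by positivity)]; norm_num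
  have h5 := yy_le N
  have h6 := yy_nonneg N
  have h7 : ((p.1 * p.2 : ℕ) : ℝ) ≤ yy N ^ 2 := by
    refine le_of_pow_le_pow_left₀ (n := 2) (by norm_num) (by positivity) ?_
    push_cast
    calc _ = (p.1 : ℝ) * (p.1 * (p.2 : ℝ) ^ 2) := by ring
      _ ≤ yy N * yy N ^ 3 := by gcongr
      _ = _ := by ring
  rw [h4]
  nlinarith

/-- for large `N` the quotient `Nl N / (p1 p2)` is at least `3` -/
theorem ev_Nl : ∃ N0 : ℕ, 1 ≤ N0 ∧ ∀ N : ℕ, N0 ≤ N → ∀ p ∈ Pr N,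
    1 ≤ Real.log (Nl N / (p.1 * p.2 : ℕ)) := by
  obtain ⟨N0, h0, h⟩ := ev_pow (a := 2 / 3) (b := 9999 / 10000) (by norm_num) 12
  refine ⟨N0, h0, fun N hN p hp => ?_⟩
  have h1 := Pr_le hp
  obtain ⟨⟨h2, -⟩, ⟨h3, -⟩, -⟩ := mem_Pr.1 hp
  have h4 : (0 : ℝ) < (p.1 * p.2 : ℕ) := by exact_mod_cast Nat.mul_pos h2.pos h3.pos
  have h5 : 3 ≤ Nl N / (p.1 * p.2 : ℕ) := by
    rw [le_div_iff₀ h4]; unfold Nl; linarith [h N hN]
  linarith [Real.log_le_log (by norm_num) h5, Real.log_three_gt_d9]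

theorem ck_nonneg {N : ℕ} (h : ∀ p ∈ Pr N, 1 ≤ Real.log (Nl N / (p.1 * p.2 : ℕ))) (k : ℕ) :
    0 ≤ ck N k := by
  refine sum_nonneg fun p hp => ?_
  split_ifs with e
  · have := h p hp
    rw [e] at this
    positivity
  · exact le_rfl

end Pool.Agent.P.MP_0ad054_nt.Chen.ChenP
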