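import Pool.Agent.P.MP_0ad054_nt.Sun.Defs

/-! Definitions and interface statements for the Chen type theorem on spheres. -/

namespace Pool.Agent.P.MP_0ad054_nt.Chen

open Finset Pool.Agent.P.MP_0ad054_nt.Sun
open scoped ArithmeticFunction.vonMangoldt

/-! ### transference without minor arc hypothesis -/

/-- the counting form of a pure frequency on the minor arcs -/
def S_GamMin : Prop :=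
  ∃ C : ℝ, 0 < C ∧ ∀ (N D : ℕ) (δ : ℤ × ℤ) (θ : ℝ) (γ : ℤ → ℂ), 1 ≤ D → D ≤ N →
    Minor N ((N : ℝ) ^ (1 / 1000 : ℝ)) θ → (∀ n, ‖γ n‖ ≤ 1) →
    ‖T1 N D δ γ (fun _ => 1) (fun m => e (θ * m))‖ ≤ C * (N : ℝ) ^ (2 - 1 / 10000 : ℝ)

def S_Trans2 : Prop :=
  ∃ c2 : ℝ, 0 < c2 ∧ ∃ (C : ℝ) (k : ℕ), 0 < C ∧
    ∀ (N D : ℕ) (K y1 E2 S : ℝ) (γ : ℤ → ℂ) (f : ℕ → ℂ), 1 ≤ N → GoodD D →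
    (D : ℝ) ≤ (N : ℝ) ^ c2 → 1 ≤ K → K ≤ (N : ℝ) ^ c2 → 1 ≤ y1 → 0 ≤ S →
    (∀ n, ‖γ n‖ ≤ 1) → (∀ n, γ n ≠ 0 → 3 ≤ n ∧ n ≤ N) →
    ∑ m ∈ Icc 3 (7 * N), ‖f m‖ ^ 2 ≤ E2 →
    (∀ (q X : ℕ) (b : ℤ), 1 ≤ q → (q : ℝ) ≤ y1 → X ≤ 7 * N →
      ‖∑ m ∈ (Icc 3 X).filter (fun m : ℕ => (q : ℤ) ∣ m - b), f m‖ ≤ S) →
    ‖TT N D γ (fun _ => 1) (fun m => f m.toNat)‖ ≤ C * (Del D).card * ((N : ℝ) ^ 2 / D) *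
      (Real.sqrt (E2 / N) * (Real.sqrt (K / (Del D).card) + (N : ℝ) ^ (-c2) +
        y1 ^ (-(1 / 16) : ℝ) + LL N ^ k / Real.sqrt K) + y1 ^ 5 * S / N)

/-! ### the linear sieve -/

/-- sieve weights of level `D`; `σ = 1` upper, `σ = -1` lower -/
def IsW (σ : ℝ) (P : Finset ℕ) (lam : Finset ℕ → ℝ) (D : ℝ) : Prop :=
  (∀ T, |lam T| ≤ 1) ∧ (∀ T ⊆ P, lam T ≠ 0 → ((∏ l ∈ T, l : ℕ) : ℝ) ≤ D) ∧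
  ∀ w : ℕ → ℝ, (∀ l, w l = 0 ∨ w l = 1) → 0 ≤ σ * (Sf P lam w - ∏ l ∈ P, (1 - w l))

/-- admissible densities -/
def Adm (P : Finset ℕ) (g : ℕ → ℝ) : Prop :=
  ∀ l ∈ P, l.Prime ∧ 0 ≤ g l ∧ g l ≤ 2 / l ∧ g l ≤ 1 / 2

/-- dimension one -/
def Dim (η : ℝ) (P : Finset ℕ) (g : ℕ → ℝ) : Prop :=
  Adm P g ∧ ∀ w z : ℝ, 1 < w → w ≤ z →
    ∏ l ∈ P.filter (fun l : ℕ => w < l ∧ (l : ℝ) ≤ z), (1 - g l)⁻¹ ≤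
      (1 + η) * Real.log z / Real.log w

/-- fundamental lemma, weight form -/
def S_FL : Prop :=
  ∃ C : ℝ, 0 < C ∧ ∀ (σ : ℝ) (k : ℕ) (P : Finset ℕ) (g : ℕ → ℝ) (z : ℝ), σ = 1 ∨ σ = -1 →
    1 ≤ z → Adm P g → (∀ l ∈ P, (l : ℝ) ≤ z) → ∃ lam, IsW σ P lam (z ^ (4 * k + 6)) ∧
      σ * (Sf P lam g - ∏ l ∈ P, (1 - g l)) ≤ C / 2 ^ k * ∏ l ∈ P, (1 - g l)

/-- the linear sieve at the two points that are used -/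
def S_Lin : Prop :=
  ∃ A : ℝ, 0 < A ∧ ∀ ε : ℝ, 0 < ε → ∃ η : ℝ, 0 < η ∧ ∃ z0 : ℝ, ∀ (P : Finset ℕ) (g : ℕ → ℝ)
    (z : ℝ), z0 ≤ z → Dim η P g → (∀ l ∈ P, (l : ℝ) ≤ z) →
    (∃ lam, IsW 1 P lam (z ^ 3) ∧ Sf P lam g ≤ (A / 3 + ε) * ∏ l ∈ P, (1 - g l)) ∧
    ∃ lam, IsW (-1) P lam (z ^ 4) ∧ (A * Real.log 3 / 4 - ε) * ∏ l ∈ P, (1 - g l) ≤ Sf P lam g

noncomputable def gg (l : ℕ) : ℝ := 1 / ((l : ℝ) - 1)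

/-- primes in `(w, z]` -/
noncomputable def prs (w z : ℝ) : Finset ℕ := (Ioc ⌊w⌋₊ ⌊z⌋₊).filter Nat.Prime

/-- two sided Mertens product -/
def S_Dim : Prop :=
  ∀ η : ℝ, 0 < η → ∃ y0 : ℝ, 3 ≤ y0 ∧ ∀ w z : ℝ, y0 ≤ w → w ≤ z →
    ∏ l ∈ prs w z, (1 - gg l)⁻¹ ≤ (1 + η) * Real.log z / Real.log w ∧
    ∏ l ∈ prs w z, (1 - gg l) ≤ (1 + η) * Real.log w / Real.log z

/-! ### Chen's weights -/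

noncomputable def zz (N : ℕ) : ℝ := (N : ℝ) ^ (499 / 4000 : ℝ)

noncomputable def Dl (N : ℕ) : ℝ := (N : ℝ) ^ (499 / 1000 : ℝ)

noncomputable def yy (N : ℕ) : ℝ := (7 * N : ℝ) ^ (1 / 3 : ℝ)

noncomputable def Nl (N : ℕ) : ℝ := (N : ℝ) ^ (9999 / 10000 : ℝ)

noncomputable def Qs (N : ℕ) : Finset ℕ := prs (zz N) (yy N)

noncomputable def Pr (N : ℕ) : Finset (ℕ × ℕ) :=
  (Qs N ×ˢ prs (yy N) (7 * N)).filter (fun p => p.1 * p.2 ^ 2 ≤ 7 * N)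

/-- coefficients of the switched term -/
noncomputable def ck (N k : ℕ) : ℝ :=
  ∑ p ∈ Pr N, if p.1 * p.2 = k then 1 / Real.log (Nl N / k) else 0

noncomputable def Wm (μ : ℕ → ℝ) (a : ℕ) : ℝ := ∑ d ∈ a.divisors, μ d

noncomputable def Mm (N : ℕ) (μ : ℕ → ℝ) : ℝ := ∑ d ∈ Icc 1 N, μ d / d.totient

noncomputable def Hc (N : ℕ) (c : ℕ → ℝ) : ℝ := ∑ k ∈ Icc 1 N, c k / k

noncomputable def bet (c : ℕ → ℝ) (a : ℕ) : ℝ := ∑ k ∈ a.divisors, c k * Λ (a / k)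

/-- bounded weights on numbers up to `D` without prime factors up to `y` -/
def Lev (y D : ℝ) (μ : ℕ → ℝ) : Prop :=
  ∀ d, |μ d| ≤ 1 ∧ (μ d ≠ 0 → (d : ℝ) ≤ D ∧ ∀ p : ℕ, p.Prime → p ∣ d → y < p)

/-- the numerical inequality; note `2 log 3 = 2.197...` -/
def S_Num : Prop :=
  ∃ N0 : ℕ, ∀ N : ℕ, N0 ≤ N →
    ∑ q ∈ Qs N, gg q * (Real.log (Dl N) / Real.log (Dl N / q)) +
      Real.log (7 * N) * Hc N (ck N) ≤ 219 / 100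

/-- the properties of Chen's weights; `Ex` is a set of primes left out of the sieve -/
def IsChen (N y : ℕ) (Ex : Finset ℕ) (μ1 μ3 : ℕ → ℝ) : Prop :=
  Lev y (Dl N) μ1 ∧ Lev y (Dl N) μ3 ∧
  (∀ a l : ℕ, 1 ≤ a → l.Prime → l ∣ a → y < l → (l : ℝ) ≤ zz N → l ∉ Ex → Wm μ1 a ≤ 0) ∧
  (∀ a : ℕ, 1 ≤ a → (∀ l : ℕ, l.Prime → l ∣ a → zz N < l) →
    Wm μ1 a ≤ 1 - (((Qs N).filter (fun q => q ∣ a)).card : ℝ) / 2) ∧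
  (∀ m : ℕ, 0 ≤ Wm μ3 m) ∧ ∀ m : ℕ, m.Prime → Dl N < m → 1 ≤ Wm μ3 m

/-- the mean value of Chen's weights -/
noncomputable def kk (N : ℕ) (μ1 μ3 : ℕ → ℝ) : ℝ :=
  Mm N μ1 - Real.log (7 * N) / 2 * (Hc N (ck N) * Mm N μ3)

def S_Chen : Prop :=
  ∃ (c : ℝ) (y0 N0 : ℕ), 0 < c ∧ ∀ (N y : ℕ) (Ex : Finset ℕ), N0 ≤ N → y0 ≤ y →
    (y : ℝ) ≤ zz N → (∀ l ∈ Ex, (l : ℝ) ≤ zz N) →
    ∃ μ1 μ3 : ℕ → ℝ, IsChen N y Ex μ1 μ3 ∧ c / LL N ≤ kk N μ1 μ3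

noncomputable def w2 (m l : ℕ) : ℝ := if l ∣ m then 1 else 0

noncomputable def FA (y k : ℕ) (μ : ℕ → ℝ) (m : ℕ) : ℝ := Λ m * Yf y k (w1 m) * Wm μ (m - 2)

noncomputable def FB (y k : ℕ) (μ c : ℕ → ℝ) (m : ℕ) : ℝ :=
  bet c (m - 2) * Yf y k (w2 m) * Wm μ m

noncomputable def md0 (y k m : ℕ) : ℝ := cW y * Yf y k (w0 m)

/-- Chen's minorant -/
noncomputable def FF (N y k : ℕ) (μ1 μ3 : ℕ → ℝ) (m : ℕ) : ℝ :=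
  FA y k μ1 m - Real.log (7 * N) / 2 * FB y k μ3 (ck N) m

/-- bad values -/
def B2 (y k D : ℕ) (z : ℝ) (m : ℕ) : Prop :=
  ¬ m.Prime ∨ (∃ l ∈ D.primeFactors, l ∣ m - 2) ∨
    2 * k < ((Nat.primesLE y).filter (fun l => l ∣ m - 2)).card ∨
    ∃ q : ℕ, q.Prime ∧ z < q ∧ q ^ 2 ∣ m - 2

def S_Sign : Prop :=
  ∃ N0 : ℕ, ∀ N : ℕ, N0 ≤ N →
    Lev ((N : ℝ) ^ (1 / 10 : ℝ)) ((N : ℝ) ^ (9 / 10 : ℝ)) (ck N) ∧ ck N 1 = 0 ∧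
    ∀ (y k D m : ℕ) (μ1 μ3 : ℕ → ℝ), IsChen N y D.primeFactors μ1 μ3 → (y : ℝ) ≤ zz N →
    Nl N + 2 ≤ m → m ≤ 7 * N → FF N y k μ1 μ3 m ≤ |FA y k μ1 m| ∧
    (¬ B2 y k D (zz N) m → 0 < FF N y k μ1 μ3 m → (m - 2).primeFactorsList.length ≤ 2 ∧
      ∀ q : ℕ, q.Prime → q ∣ m - 2 → zz N < q)

/-- Bombieri-Vinogradov for a bilinear sequence -/
def S_BV2 : Prop :=
  ∀ (θ : ℝ) (A : ℕ), θ < 1 / 2 → ∃ C : ℝ, 0 < C ∧ ∀ (X K : ℕ) (r : ℕ → ℤ) (c : ℕ → ℝ), 2 ≤ X →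
    (K : ℝ) ≤ (X : ℝ) ^ θ → (∀ d ∈ Icc 1 K, IsCoprime (r d) d) → (∀ k, |c k| ≤ 1) →
    (∀ k, c k ≠ 0 → (X : ℝ) ^ (1 / 20 : ℝ) ≤ k ∧ (k : ℝ) ≤ (X : ℝ) ^ (19 / 20 : ℝ)) →
    ∑ d ∈ Icc 1 K, |∑ a ∈ (Icc 1 X).filter (fun a : ℕ => (d : ℤ) ∣ a - r d), bet c a -
      (X : ℝ) / d.totient * ∑ k ∈ (Icc 1 X).filter (fun k => k.Coprime d), c k / k| ≤
      C * X / Real.log X ^ A

def S_CenA : Prop :=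
  ∀ B B1 : ℕ, ∃ (C : ℝ) (j : ℕ), 0 < C ∧ ∀ (N y k q X : ℕ) (b : ℤ) (μ : ℕ → ℝ), 2 ≤ y →
    (y : ℝ) ^ (2 * k + 1) ≤ (N : ℝ) ^ (1 / 10000 : ℝ) → 50 * (1 + Real.log y) ≤ k →
    Lev y (Dl N) μ → 1 ≤ q → q ≤ y → (q : ℝ) ≤ LL N ^ B1 → X ≤ 7 * N →
    |∑ m ∈ (Icc 3 X).filter (fun m : ℕ => (q : ℤ) ∣ m - b),
      (FA y k μ m - Mm N μ * md0 y k m)| ≤ C * N * (1 / LL N ^ B + LL N ^ j / 2 ^ k)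

def S_CenB : Prop :=
  ∀ B B1 : ℕ, ∃ (C : ℝ) (j : ℕ), 0 < C ∧ ∀ (N y k q X : ℕ) (b : ℤ) (μ c : ℕ → ℝ), 2 ≤ y →
    (y : ℝ) ^ (2 * k + 1) ≤ (N : ℝ) ^ (1 / 10000 : ℝ) → 50 * (1 + Real.log y) ≤ k →
    Lev y (Dl N) μ → Lev ((N : ℝ) ^ (1 / 10 : ℝ)) ((N : ℝ) ^ (9 / 10 : ℝ)) c → c 1 = 0 →
    1 ≤ q → q ≤ y → (q : ℝ) ≤ LL N ^ B1 → X ≤ 7 * N →
    |∑ m ∈ (Icc 3 X).filter (fun m : ℕ => (q : ℤ) ∣ m - b),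
      (FB y k μ c m - Hc N c * Mm N μ * md0 y k m)| ≤ C * N * (1 / LL N ^ B + LL N ^ j / 2 ^ k)

open Classical in
/-- moments -/
def S_Mom2 : Prop :=
  ∃ (C : ℝ) (j : ℕ), 0 < C ∧ ∀ (N y k D : ℕ) (z : ℝ) (μ μ' c : ℕ → ℝ), 2 ≤ y → y ≤ N → 1 ≤ z →
    (∀ d, |μ d| ≤ 1) → (∀ d, |μ' d| ≤ 1) → (∀ d, |c d| ≤ 1) →
    ∑ m ∈ Icc 3 (7 * N), (FA y k μ m - Mm N μ * md0 y k m) ^ 2 ≤ C * N * LL N ^ j ∧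
    ∑ m ∈ Icc 3 (7 * N), (FB y k μ' c m - Hc N c * Mm N μ' * md0 y k m) ^ 2 ≤ C * N * LL N ^ j ∧
    ∑ m ∈ (Icc 3 (7 * N)).filter (B2 y k D z), FA y k μ m ^ 2 ≤ C * N * LL N ^ j *
      (∑ l ∈ D.primeFactors, 1 / (l : ℝ) + 1 / 2 ^ k + (N : ℝ) ^ (-(1 / 4) : ℝ) + 1 / z)

end Pool.Agent.P.MP_0ad054_nt.Chen
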