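import Pool.Agent.P.MP_0ad054_nt.Chen.FinA

/-! The final assembly for the Chen type theorem. -/

namespace Pool.Agent.P.MP_0ad054_nt.Chen.FinP

open Finset Pool.Agent.P.MP_0ad054_nt.Sun Pool.Agent.P.MP_0ad054_nt.Sun.FinP

theorem large2 (hT : S_Trans2) (hM : S_Mom) (hM2 : S_Mom2) (hR : S_RG) (hCA : S_CenA)
    (hCB : S_CenB) (hS : S_Sphere) (hΔ : S_Delta) (hP : S_Primes) (hCh : S_Chen)
    (hSg : S_Sign) : ∀ A : ℕ, ∃ (C : ℝ) (N0 : ℕ), 0 < C ∧ ∀ N : ℕ, N0 ≤ N →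
      ∀ E : Finset ℕ, (∀ n ∈ E, n ≤ N ∧ Odd n ∧ ¬ Rep 2 (1 / 9) n) →
      (E.card : ℝ) ≤ C * N / LL N ^ A := by
  classical
  obtain ⟨cS, CS, kS, hcS, hCS, hS⟩ := hS
  obtain ⟨⟨CM, kM, hCM, hM1⟩, -, -⟩ := hM
  obtain ⟨C2, k2, hC2, hM2⟩ := hM2
  obtain ⟨CR, kR, hCR, hR⟩ := hR
  obtain ⟨c2, hc2, CT, kT, hCT, hT⟩ := hT
  obtain ⟨lD, hD⟩ := exists_D hP hΔ
  obtain ⟨cκ, y0, N1, hcκ, hCh⟩ := hCh
  obtain ⟨N2, hSg⟩ := hSg
  intro A
  obtain ⟨kk', hkk⟩ : ∃ k, k = kM + k2 + 2 := ⟨_, rfl⟩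
  obtain ⟨j, hj⟩ : ∃ j, j = kS + 2 * A + 1 := ⟨_, rfl⟩
  obtain ⟨j', hj'⟩ : ∃ j', j' = j + kk' + 1 := ⟨_, rfl⟩
  obtain ⟨CA, kA, hCA0, hCA⟩ := hCA (80 * j' + j) (16 * j')
  obtain ⟨CB, kB, hCB0, hCB⟩ := hCB (80 * j' + j + 1) (16 * j')
  obtain ⟨kC, hkC⟩ : ∃ k, k = kA + kB + 1 := ⟨_, rfl⟩
  obtain ⟨CC, hCC⟩ : ∃ C, C = CA + CB := ⟨_, rfl⟩
  have hCC0 : 0 < CC := by rw [hCC]; positivity
  obtain ⟨J, hJ⟩ : ∃ J, J = kR + kk' + kT + kC + 2 + 80 * j' + j := ⟨_, rfl⟩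
  obtain ⟨N0, hN0⟩ := params (ε := min c2 (1 / 10000)) (by positivity) (2 * J)
    (lD + y0 + 51 + ⌈CM + 4 * C2 + CR + 2 * CS / cS⌉₊)
  refine ⟨2 / cS * (9 + (9 + CT * (4 + 3 * CC)) / cκ) + 3, N0 + N1 + N2 + 7, by positivity,
    fun N hN E hE => ?_⟩
  obtain ⟨l, hl0, hlL, hLl, hG⟩ := hN0 N (by omega)
  obtain ⟨D, hGD, hD1, hD2, hD3, hD4⟩ := hD l (by omega)
  have hN1 : (1 : ℝ) ≤ N := by exact_mod_cast (by omega : 1 ≤ N)
  have hN' : (0 : ℝ) < N := by linarith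
  have hL := one_le_LL N
  have hcst : CM + 4 * C2 + CR + 2 * CS / cS ≤ l :=
    (Nat.le_ceil _).trans (by exact_mod_cast (by omega))
  have hq0 : 0 < 2 * CS / cS := by positivity
  obtain ⟨hl70, hl7⟩ := log7 N (by omega)
  set L := LL N with hLd
  set lam : ℝ := 2 ^ l with hlam
  set G : ℝ := 2 ^ (2 * l ^ 4) with hGd
  have hl4 : l ≤ l ^ 4 := Nat.le_self_pow (by norm_num) _
  have hlG : lam ≤ G := pow_le_pow_right₀ one_le_two (by omega)
  have hlG2 : lam * lam ≤ G := by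
    rw [hlam, ← pow_add]; exact pow_le_pow_right₀ one_le_two (by omega)
  have hG1 : G ≤ (N : ℝ) ^ c2 := hG.trans (Real.rpow_le_rpow_of_exponent_le hN1 (min_le_left _ _))
  have hGa : ∀ a : ℝ, 1 / 10000 ≤ a → G ≤ (N : ℝ) ^ a := fun a ha =>
    hG.trans (Real.rpow_le_rpow_of_exponent_le hN1 ((min_le_right _ _).trans ha))
  have hG3 := hGa _ le_rfl
  have hGz : G ≤ zz N := hGa _ (by norm_num)
  have hGN : G ≤ N := (hGa 1 (by norm_num)).trans_eq (Real.rpow_one _)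
  have hX : (L ^ J) ^ 2 ≤ lam := by rwa [← pow_mul, mul_comm]
  have hLa : ∀ a ≤ 2 * J, L ^ a ≤ lam := fun a ha => (pow_le_pow_right₀ hL ha).trans hLl
  have hDG : (D : ℝ) ≤ G := by rw [hGd]; exact_mod_cast hD1
  have hD0 : 1 ≤ D := Nat.pos_of_ne_zero hGD.1.ne_zero
  have hD0' : (0 : ℝ) < D := by exact_mod_cast hD0
  have hDN : D ≤ N := by exact_mod_cast hDG.trans hGN
  have hlam1 : (2 : ℝ) ≤ lam := le_self_pow₀ one_le_two (by omega)
  have hk : 1 / (2 : ℝ) ^ l ^ 2 ≤ 1 / lam := by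
    gcongr; exact pow_le_pow_right₀ one_le_two (Nat.le_self_pow (by norm_num) _)
  have sy : ((2 ^ l : ℕ) : ℝ) = lam := by simp [hlam]
  have hy2 : 2 ≤ 2 ^ l := Nat.le_self_pow (by omega) 2
  have hyN : 2 ^ l ≤ N := by exact_mod_cast sy.trans_le (hlG.trans hGN)
  have hDD1 : lam ^ (2 * l ^ 2 + 1) ≤ G := by
    rw [hlam, ← pow_mul]
    refine pow_le_pow_right₀ one_le_two ?_
    have h1 : 1 ≤ l ^ 2 := Nat.one_le_pow _ _ (by omega)
    calc l * (2 * l ^ 2 + 1) ≤ l * (2 * l ^ 2 + l ^ 2) := by gcongr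
      _ = 3 * l ^ 3 := by ring
      _ ≤ (2 * l) * l ^ 3 := by gcongr; omega
      _ = _ := by ring
  have hDD : (((2 ^ l) ^ (2 * l ^ 2) : ℕ) : ℝ) ≤ G := by
    rw [Nat.cast_pow, sy]
    exact (pow_le_pow_right₀ (by linarith) (Nat.le_succ _)).trans hDD1
  set s : Sv N :=
    { y := 2 ^ l, k := l ^ 2, DD := (2 ^ l) ^ (2 * l ^ 2), Ps := ∅, lam := fun _ => 1
      hy := hy2
      hyD := Nat.le_self_pow (Nat.mul_ne_zero two_ne_zero (pow_ne_zero 2 (by omega))) _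
      hDN := by exact_mod_cast hDD.trans hGN
      hP := by simp
      low := ⟨by simp, by simp [Sf], by simp [Sf]; norm_num⟩
      lev := fun T h1 _ => by rw [subset_empty.1 h1]; simp } with hs
  have hmd : ∀ m, mdl s m = md0 (2 ^ l) (l ^ 2) m := fun m => by simp [mdl, md0, hs, Sf]
  obtain ⟨μ1, μ3, hIs, hκ⟩ := hCh N (2 ^ l) D.primeFactors (by omega)
    (le_trans (by omega) (Nat.lt_two_pow_self (n := l)).le) (sy.trans_le (hlG.trans hGz))
    (fun p hp => le_trans (by exact_mod_cast Nat.le_of_mem_primeFactors hp) (hDG.trans hGz))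
  obtain ⟨hck, hck1, hSg⟩ := hSg N (by omega)
  obtain ⟨-, -, m3, -⟩ := hM1 N D s
  obtain ⟨n1, n2, n3⟩ := hM2 N (2 ^ l) (l ^ 2) D (zz N) μ1 μ3 (ck N) hy2 hyN
    (by linarith) (fun d => (hIs.1 d).1) (fun d => (hIs.2.1 d).1) (fun d => (hck d).1)
  rw [← hLd] at m3 n1 n2 n3 hκ
  set fa : ℕ → ℝ := fun m => FA (2 ^ l) (l ^ 2) μ1 m - Mm N μ1 * md0 (2 ^ l) (l ^ 2) m with hfa
  set fb : ℕ → ℝ := fun m => FB (2 ^ l) (l ^ 2) μ3 (ck N) m -
    Hc N (ck N) * Mm N μ3 * md0 (2 ^ l) (l ^ 2) m with hfb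
  set w := Real.log (7 * N) / 2 with hw
  -- the reduced exceptional set
  set E' := E.filter (fun n : ℕ => N / L ^ A < n ∧ ¬ ∃ p ∈ Ioc (2 ^ l) N, p ^ 2 ∣ n) with hE'd
  have hNl1 : 1 ≤ Nl N := Real.one_le_rpow hN1 (by norm_num)
  have hNl : Nl N + 2 ≤ N / L ^ A := by
    rw [le_div_iff₀ (by positivity)]
    calc (Nl N + 2) * L ^ A ≤ (Nl N * L) * L ^ A := by
          gcongr ?_ * _
          exact aux1 hNl1 (le_trans (by exact_mod_cast (by omega : 3 ≤ l)) hlL)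
      _ = Nl N * L ^ (A + 1) := by ring
      _ ≤ Nl N * (N : ℝ) ^ (1 / 10000 : ℝ) := by
          gcongr; exact (hLa _ (by omega)).trans (hlG.trans hG3)
      _ = N := by rw [Nl, ← Real.rpow_add hN']; norm_num
  have hE' : ∀ n ∈ E', 3 ≤ n ∧ n ≤ N := fun n hn => by
    rw [hE'd, mem_filter] at hn
    have : (2 : ℝ) < n := by linarith [hn.2.1]
    exact ⟨by exact_mod_cast this, (hE n hn.1).1⟩
  have hlog := aux3 (l := l) (by omega)
  have hTT := hT N D lam (L ^ (16 * j')) (N * L ^ (kk' + 1))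
    (CC * N * (1 / L ^ (80 * j' + j) + L ^ kC * (1 / lam + 1 / 2 ^ l ^ 2)))
    (fun n => gam E' n) (fun m => ((fa m - w * fb m : ℝ) : ℂ)) (by omega) hGD (hDG.trans hG1)
    (by linarith) (hlG.trans hG1) (one_le_pow₀ hL) (by positivity) (norm_gam E') (gam_supp hE')
    (by
      simp only [Complex.norm_real, Real.norm_eq_abs, sq_abs]
      calc _ ≤ ∑ m ∈ Icc 3 (7 * N), (2 * fa m ^ 2 + 2 * L ^ 2 * fb m ^ 2) := by
            exact sum_le_sum fun m _ => aux2 hl70 hl7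
        _ ≤ 2 * (L ^ 2 * (C2 * N * L ^ k2)) + 2 * L ^ 2 * (C2 * N * L ^ k2) := by
            rw [sum_add_distrib, ← mul_sum, ← mul_sum]
            gcongr
            exact n1.trans (le_mul_of_one_le_left (by positivity) (one_le_pow₀ hL))
        _ = N * (L ^ (k2 + 2) * (4 * C2)) := by ring
        _ ≤ _ := by
            rw [pow_succ L kk']
            gcongr
            · omega
            · linarith)
    (fun q X b h1 h2 h3 => by
      rw [← Complex.ofReal_sum, Complex.norm_real, Real.norm_eq_abs, sum_sub_distrib, ← mul_sum]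
      have h4 : q ≤ 2 ^ l := by
        have := h2.trans (hLa _ (by omega))
        rw [← sy] at this
        exact_mod_cast this
      have h5 := hCA N (2 ^ l) (l ^ 2) q X b μ1 hy2 (by rw [sy]; exact hDD1.trans hG3) hlog hIs.1
        h1 h4 h2 h3
      have h6 := hCB N (2 ^ l) (l ^ 2) q X b μ3 (ck N) hy2 (by rw [sy]; exact hDD1.trans hG3) hlog
        hIs.2.1 hck hck1 h1 h4 h2 h3
      rw [← hLd] at h5 h6
      refine (abs_sub _ _).trans ?_
      rw [abs_mul, abs_of_nonneg hl70]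
      have h7 : ∀ i ≤ kC, L ^ i / 2 ^ l ^ 2 ≤ L ^ kC * (1 / lam + 1 / 2 ^ l ^ 2) := by
        intro i hi
        rw [div_eq_mul_one_div]
        gcongr
        exact le_add_of_nonneg_left (by positivity)
      calc _ ≤ CA * N * (1 / L ^ (80 * j' + j) + L ^ kA / 2 ^ l ^ 2) +
            L * (CB * N * (1 / L ^ (80 * j' + j + 1) + L ^ kB / 2 ^ l ^ 2)) :=
            add_le_add h5 (mul_le_mul hl7 h6 (abs_nonneg _) (by linarith))
        _ = CA * N * (1 / L ^ (80 * j' + j) + L ^ kA / 2 ^ l ^ 2) +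
            CB * N * (1 / L ^ (80 * j' + j) + L ^ (kB + 1) / 2 ^ l ^ 2) := by
            field_simp; ring
        _ ≤ _ := by
            rw [hCC, add_mul CA, add_mul (CA * N)]
            gcongr
            · exact h7 _ (by omega)
            · exact h7 _ (by omega))
  have hd : lam ^ 2 ≤ (Del D).card := by rw [hlam]; exact_mod_cast hD4
  have hd0 : (0 : ℝ) < (Del D).card := lt_of_lt_of_le (by positivity) hd
  have hτ := tau_bd (kM := kk') (kT := kT) (kC := kC)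
    (n2 := Real.sqrt (N * L ^ (kk' + 1) / N) * (N : ℝ) ^ (-c2)) hN' hL rfl hX hd hCC0.le
    (by
      rw [mul_div_cancel_left₀ _ hN'.ne', Real.rpow_neg hN'.le, ← div_eq_mul_inv,
        div_le_div_iff₀ (by positivity) (by positivity), one_mul]
      refine le_trans ?_ (hlG2.trans hG1)
      gcongr
      exact (Real.sqrt_le_iff.2 ⟨by positivity,
        le_self_pow₀ (one_le_pow₀ hL) two_ne_zero⟩).trans (hLa (kk' + 1) (by omega)))
    hk hj' (by omega)
  have hsq : Real.sqrt (lam * (N * L ^ (kk' + 1)) / (N * (Del D).card)) =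
      Real.sqrt (N * L ^ (kk' + 1) / N) * Real.sqrt (lam / (Del D).card) := by
    rw [← Real.sqrt_mul (by positivity)]
    congr 1; field_simp
  rw [hsq] at hτ
  have key := core2 hD0 hDN s hE' (κ0 := cκ / L) (m0 := cS * N / (2 * D * L ^ (kS + A)))
    (ρ := N * L ^ (kR + 1)) (e := N * L ^ (kk' + 1) / lam)
    (τ := CT * (Del D).card * ((N : ℝ) ^ 2 / D) * ((4 + 3 * CC) / L ^ j)) (by positivity) hκ
    (FF N (2 ^ l) (l ^ 2) μ1 μ3)
    (fun m => if B2 (2 ^ l) (l ^ 2) D (zz N) m then |FA (2 ^ l) (l ^ 2) μ1 m| else 0)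
    (fun m => fa m - w * fb m)
    (fun m => by rw [hmd]; simp only [hfa, hfb, hw, FF, kk]; ring) (fun n hn δ hδ => ?_)
    (fun n hn δ hδ ξ η h => ?_) ?_ ?_ ?_
    (hTT.trans (mul_le_mul_of_nonneg_left (le_trans (le_of_eq (by ring)) hτ) (by positivity)))
  rotate_left
  · have h1 := hE' n hn
    rw [hE'd, mem_filter] at hn
    refine le_trans ?_ (hS N D n s δ hGD hδ (fun p hp => ⟨hD2 p hp, by simp [hs]⟩) (hE n hn.1).2.1
      h1.1 h1.2 fun p hp hp' hd => hn.2.2 ⟨p, mem_Ioc.2 ⟨hp', ?_⟩, hd⟩)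
    · have h2 : 2 * (cS * N / (2 * D * L ^ (kS + A))) ≤ cS * n / (D * L ^ kS) := by
        calc _ = cS * (N / L ^ A) / (D * L ^ kS) := by field_simp; ring
          _ ≤ _ := by gcongr; exact hn.2.1.le
      have h3 : CS * ((D * s.DD : ℕ) : ℝ) ^ 11 * (n : ℝ) ^ (39 / 40 : ℝ) ≤
          cS * N / (2 * D * L ^ (kS + A)) := by
        rw [le_div_iff₀ (by positivity), Nat.cast_mul, mul_pow]
        calc _ = cS * ((2 * CS / cS * L ^ (kS + A)) * D ^ 12 * (s.DD : ℝ) ^ 11 *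
              (n : ℝ) ^ (39 / 40 : ℝ)) := by field_simp
          _ ≤ cS * ((N : ℝ) ^ (1 / 10000 : ℝ) * ((N : ℝ) ^ (1 / 10000 : ℝ)) ^ 12 *
              ((N : ℝ) ^ (1 / 10000 : ℝ)) ^ 11 * (N : ℝ) ^ (39 / 40 : ℝ)) := by
              gcongr
              · calc _ ≤ L * L ^ (kS + A) := by gcongr; linarith
                  _ = L ^ (kS + A + 1) := by ring
                  _ ≤ _ := (hLa _ (by omega)).trans (hlG.trans hG3)
              · exact hDG.trans hG3
              · exact hDD.trans hG3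
              · exact h1.2
          _ ≤ _ := by
              gcongr
              rw [← Real.rpow_natCast, ← Real.rpow_natCast, ← Real.rpow_mul hN'.le,
                ← Real.rpow_mul hN'.le, ← Real.rpow_add hN',
                ← Real.rpow_add hN', ← Real.rpow_add hN']
              exact (Real.rpow_le_rpow_of_exponent_le hN1 (by norm_num)).trans_eq
                (Real.rpow_one _)
      linarith
    · exact (Nat.le_self_pow two_ne_zero p).trans ((Nat.le_of_dvd (by omega) hd).trans h1.2)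
  · have h1 := hE' n hn
    have h2 := QQ_le hδ ξ η
    rw [h] at h2
    have h3 : n ≤ (GG ξ + AA δ η).toNat := by omega
    obtain ⟨h4, h5⟩ := hSg (2 ^ l) (l ^ 2) D (GG ξ + AA δ η).toNat μ1 μ3 hIs
      (sy.trans_le (hlG.trans hGz))
      ((hNl.trans (mem_filter.1 hn).2.1.le).trans (by exact_mod_cast h3)) (by omega)
    split_ifs with hb
    · exact h4
    · by_contra hpos
      obtain ⟨h6, h7⟩ := h5 hb (not_le.1 hpos)
      have h8 : (GG ξ + AA δ η).toNat.Prime := by_contra fun h9 => hb (Or.inl h9)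
      exact (hE n (mem_filter.1 hn).1).2.2 (rep2 (by omega) h1.2 hδ h h8 h6 h7)
  · refine (hR N (by omega)).trans ?_
    rw [pow_succ, mul_comm CR, mul_assoc, mul_comm CR]; gcongr; linarith
  · refine m3.trans ?_
    rw [div_eq_mul_one_div, div_eq_mul_one_div _ lam]
    gcongr ?_ * ?_
    rw [pow_succ, mul_comm CM, mul_assoc, mul_comm CM]
    gcongr
    · omega
    · linarith
  · have h1 : (N : ℝ) ^ (-(1 / 4) : ℝ) ≤ 1 / lam := by
      rw [Real.rpow_neg hN'.le, ← one_div]; gcongr; exact hlG.trans (hGa _ (by norm_num))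
    have h2 : 1 / zz N ≤ 1 / lam := by gcongr; exact hlG.trans hGz
    calc _ = ∑ m ∈ (Icc 3 (7 * N)).filter (B2 (2 ^ l) (l ^ 2) D (zz N)),
          FA (2 ^ l) (l ^ 2) μ1 m ^ 2 := by
          rw [sum_filter]
          exact sum_congr rfl fun m _ => by split_ifs <;> simp
      _ ≤ _ := n3
      _ ≤ C2 * N * L ^ k2 * (1 / lam + 1 / lam + 1 / lam + 1 / lam) := by gcongr
      _ = N * (L ^ k2 * (4 * C2)) / lam := by ring
      _ ≤ _ := by
          rw [pow_succ]; gcongr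
          · omega
          · linarith
  have h1 : Real.sqrt (N * L ^ (kR + 1) * (N * L ^ (kk' + 1) / lam)) ≤ N / L ^ j := by
    refine Real.sqrt_le_iff.2 ⟨by positivity, ?_⟩
    calc _ ≤ N * L ^ (kR + 1) * (N * L ^ (kk' + 1) / L ^ (kR + kk' + 2 + 2 * j)) := by
          gcongr; exact hLa _ (by omega)
      _ = _ := by field_simp; ring
  have h2 : (E'.card : ℝ) ≤ 2 / cS * (9 + (9 + CT * (4 + 3 * CC)) / cκ) * N / L ^ A := by
    have h3 : (Del D).card * (E'.card * (cS * N / (2 * D * L ^ (kS + A)))) ≤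
        (Del D).card * ((2 / cS * (9 + (9 + CT * (4 + 3 * CC)) / cκ) * N / L ^ A) *
          (cS * N / (2 * D * L ^ (kS + A)))) := by
      refine key.trans ?_
      have h4 : (N : ℝ) / L ^ j ≤ N / L ^ (kS + 2 * A) := by gcongr; omega
      calc _ ≤ (Del D).card * (9 * N / D) * (N / L ^ (kS + 2 * A)) +
            ((Del D).card * (9 * N / D) * (N / L ^ j) + CT * (Del D).card * (N ^ 2 / D) *
            ((4 + 3 * CC) / L ^ j)) / (cκ / L) := by
            gcongr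
            exact h1.trans h4
        _ = _ := by rw [hj]; generalize ((Del D).card : ℝ) = d; field_simp; ring
    exact le_of_mul_le_mul_right (le_of_mul_le_mul_left h3 hd0) (by positivity)
  set S := E \ (E' ∪ range (⌊N / L ^ A⌋₊ + 1))
  have h4 : (E.card : ℝ) ≤ S.card + (E'.card + (⌊N / L ^ A⌋₊ + 1)) := by
    have : _ ≤ S.card := le_card_sdiff (E' ∪ range (⌊N / L ^ A⌋₊ + 1)) E
    have h3 := card_union_le E' (range (⌊N / L ^ A⌋₊ + 1))
    rw [card_range] at h3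
    exact_mod_cast (show E.card ≤ S.card + (E'.card + (⌊N / L ^ A⌋₊ + 1)) by omega)
  have h5 := card_sq_dvd N (2 ^ l) Nat.one_le_two_pow S fun n hn => by
    rw [mem_sdiff, mem_union, not_or, hE'd, mem_filter, mem_range] at hn
    refine ⟨(hE n hn.1).2.1.pos, (hE n hn.1).1, by_contra fun h => hn.2.1 ⟨hn.1, ?_, h⟩⟩
    exact (Nat.lt_floor_add_one _).trans_le (by exact_mod_cast not_lt.1 hn.2.2)
  have h6 : (N : ℝ) / (2 ^ l : ℕ) ≤ N / L ^ A := by
    gcongr; push_cast; exact hLa _ (by omega)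
  have h7 : (⌊N / L ^ A⌋₊ : ℝ) ≤ N / L ^ A := Nat.floor_le (by positivity)
  rw [add_mul, add_div, mul_div_assoc 3]
  linarith

end Pool.Agent.P.MP_0ad054_nt.Chen.FinP
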