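import Pool.Agent.P.MP_0ad054_nt.Chen.Defs
import Pool.Agent.P.MP_0ad054_nt.Sun.FinA

/-! Auxiliary results for the final assembly of the Chen type theorem. -/

namespace Pool.Agent.P.MP_0ad054_nt.Chen.FinP

open Finset Pool.Agent.P.MP_0ad054_nt.Sun Pool.Agent.P.MP_0ad054_nt.Sun.FinP

/-- `n` has a representation with `p` prime and `p - 2` almost prime -/
def Rep (R : ℕ) (c : ℝ) (n : ℕ) : Prop :=
  ∃ x y z w : ℤ, ∃ p : ℕ, x ^ 2 + y ^ 2 + z ^ 2 + w ^ 2 = (n : ℤ) ∧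
    (p : ℤ) = x ^ 2 + 3 * y ^ 2 + 5 * z ^ 2 + 7 * w ^ 2 ∧ p.Prime ∧
    (p - 2).primeFactorsList.length ≤ R ∧ ∀ q : ℕ, q.Prime → q ∣ p - 2 → (n : ℝ) ^ c ≤ q

theorem tau_bd {N d L X lam CC n2 p : ℝ} {kM kT kC j j' J : ℕ} (hN : 0 < N) (hL : 1 ≤ L)
    (hX : X = L ^ J) (hl : X ^ 2 ≤ lam) (hd : lam ^ 2 ≤ d) (hC : 0 ≤ CC) (hn : n2 ≤ 1 / lam)
    (hp : p ≤ 1 / lam) (hj : j' = j + kM + 1) (hJ : kM + kT + kC + 1 + 80 * j' + j ≤ J) :
    Real.sqrt (lam * (N * L ^ (kM + 1)) / (N * d)) + n2 + Real.sqrt (N * L ^ (kM + 1) / N) *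
      ((L ^ (16 * j')) ^ (-(1 / 16) : ℝ) + L ^ kT / Real.sqrt lam) + (L ^ (16 * j')) ^ 5 *
      (CC * N * (1 / L ^ (80 * j' + j) + L ^ kC * (1 / lam + p))) / N ≤ (4 + 3 * CC) / L ^ j := by
  have hX1 : 1 ≤ X := hX ▸ one_le_pow₀ hL
  have hXl : X ≤ lam := (le_self_pow₀ hX1 two_ne_zero).trans hl
  have key : ∀ a, a + j ≤ J → L ^ a / X ≤ 1 / L ^ j := by
    intro a ha
    rw [div_le_div_iff₀ (by positivity) (by positivity), one_mul, ← pow_add, hX]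
    exact pow_le_pow_right₀ hL ha
  have hl0 : 0 < lam := by linarith
  have t1 : Real.sqrt (lam * (N * L ^ (kM + 1)) / (N * d)) ≤ 1 / L ^ j := by
    refine le_trans (Real.sqrt_le_iff.2 ⟨by positivity, ?_⟩) (key (kM + 1) (by omega))
    calc _ ≤ lam * (N * L ^ (kM + 1)) / (N * lam ^ 2) := by gcongr
      _ = L ^ (kM + 1) / lam := by field_simp
      _ ≤ (L ^ (kM + 1)) ^ 2 / X ^ 2 := by
          gcongr; exact le_self_pow₀ (one_le_pow₀ hL) two_ne_zero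
      _ = _ := by rw [div_pow]
  have t2 : n2 ≤ 1 / L ^ j := by
    refine hn.trans (le_trans ?_ (key 0 (by omega)))
    rw [pow_zero]; gcongr
  have t3 : Real.sqrt (N * L ^ (kM + 1) / N) *
      ((L ^ (16 * j')) ^ (-(1 / 16) : ℝ) + L ^ kT / Real.sqrt lam) ≤ 2 / L ^ j := by
    have e1 : (L ^ (16 * j')) ^ (-(1 / 16) : ℝ) = 1 / L ^ j' := by
      rw [← Real.rpow_natCast, ← Real.rpow_mul (by linarith), one_div (L ^ j'),
        ← Real.rpow_natCast, ← Real.rpow_neg (by linarith)]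
      congr 1; push_cast; ring
    rw [e1, mul_div_cancel_left₀ _ hN.ne']
    calc _ ≤ L ^ (kM + 1) * (1 / L ^ j' + L ^ kT / X) := by
          gcongr
          · exact Real.sqrt_le_iff.2 ⟨by positivity, le_self_pow₀ (one_le_pow₀ hL) two_ne_zero⟩
          · exact Real.le_sqrt_of_sq_le hl
      _ = 1 / L ^ j + L ^ (kM + 1 + kT) / X := by rw [hj]; field_simp; ring
      _ ≤ 1 / L ^ j + 1 / L ^ j := by linarith [key (kM + 1 + kT) (by omega)]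
      _ = _ := by ring
  have t4 : (L ^ (16 * j')) ^ 5 * (CC * N * (1 / L ^ (80 * j' + j) + L ^ kC * (1 / lam + p))) / N ≤
      3 * CC / L ^ j := by
    calc _ ≤ (L ^ (16 * j')) ^ 5 * (CC * N * (1 / L ^ (80 * j' + j) + L ^ kC * (1 / X + 1 / X))) /
          N := by gcongr; refine hp.trans ?_; gcongr
      _ = CC * (1 / L ^ j + 2 * (L ^ (80 * j' + kC) / X)) := by field_simp; ring
      _ ≤ CC * (1 / L ^ j + 2 * (1 / L ^ j)) := by gcongr CC * (_ + 2 * ?_); exact key _ (by omega)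
      _ = _ := by ring
  calc _ ≤ 1 / L ^ j + 1 / L ^ j + 2 / L ^ j + 3 * CC / L ^ j := by linarith
    _ = _ := by ring

theorem all_of {R : ℕ} {c : ℝ} (h : ∀ A : ℕ, ∃ (C : ℝ) (N0 : ℕ), 0 < C ∧ ∀ N : ℕ, N0 ≤ N →
      ∀ E : Finset ℕ, (∀ n ∈ E, n ≤ N ∧ Odd n ∧ ¬ Rep R c n) → (E.card : ℝ) ≤ C * N / LL N ^ A)
    (A : ℕ) : ∃ C : ℝ, ∀ N : ℕ, 2 ≤ N →
      (({n : ℕ | n ≤ N ∧ Odd n ∧ ¬ Rep R c n}.ncard : ℕ) : ℝ) ≤ C * N / Real.log N ^ A := by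
  obtain ⟨C, N0, hC, h⟩ := h A
  have := Real.log_natCast_nonneg N0
  refine ⟨C + 2 * Real.log N0 ^ A, fun N hN => ?_⟩
  have hN' : (2 : ℝ) ≤ N := by exact_mod_cast hN
  have hl : 0 < Real.log N := Real.log_pos (by linarith)
  have hf : {n : ℕ | n ≤ N ∧ Odd n ∧ ¬ Rep R c n}.Finite :=
    (Set.finite_le_nat N).subset fun n hn => hn.1
  rw [Set.ncard_eq_toFinset_card _ hf]
  rcases le_total N0 N with h1 | h1
  · refine (h N h1 _ fun n hn => hf.mem_toFinset.1 hn).trans ?_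
    gcongr
    · linarith [pow_nonneg this A]
    · unfold LL; linarith
  · have h2 : hf.toFinset.card ≤ (range (N + 1)).card :=
      card_le_card fun n hn => mem_range.2 (Nat.lt_succ_of_le (hf.mem_toFinset.1 hn).1)
    rw [card_range] at h2
    have h3 : (hf.toFinset.card : ℝ) ≤ N + 1 := by exact_mod_cast h2
    rw [le_div_iff₀ (by positivity)]
    calc _ ≤ 2 * N * Real.log N0 ^ A := by gcongr; linarith
      _ ≤ _ := by nlinarith [mul_pos hC (show (0 : ℝ) < N by linarith)]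

open Classical in
theorem core2 {N D : ℕ} (hD : 1 ≤ D) (hN : D ≤ N) (s : Sv N) {E : Finset ℕ}
    (hE : ∀ n ∈ E, 3 ≤ n ∧ n ≤ N) {κ0 κ m0 ρ e τ : ℝ} (hκ0 : 0 < κ0) (hκ : κ0 ≤ κ)
    (F F1 a : ℕ → ℝ) (ha : ∀ m, a m = F m - κ * mdl s m)
    (hsph : ∀ n ∈ E, ∀ δ ∈ Del D, m0 ≤ ∑ ξ ∈ box (Nat.sqrt N), ∑ η ∈ box (Nat.sqrt (N / D)),
        if QQ D ξ η = n then mdlp s (GG ξ + AA δ η).toNat else 0)
    (hexc : ∀ n ∈ E, ∀ δ ∈ Del D, ∀ ξ η, QQ D ξ η = n →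
      F (GG ξ + AA δ η).toNat ≤ F1 (GG ξ + AA δ η).toNat)
    (hρ : ∑ g ∈ Icc (0 : ℤ) (8 * N), rG N g ^ 3 ≤ ρ)
    (h0 : ∑ m ∈ (Icc 3 (7 * N)).filter (B0 s), mdl s m ^ 2 ≤ e)
    (h2 : ∑ m ∈ Icc 3 (7 * N), F1 m ^ 2 ≤ e)
    (hT : ‖TT N D (fun n => gam E n) (fun _ => 1) (fun m => (a m.toNat : ℂ))‖ ≤ τ) :
    (Del D).card * (E.card * m0) ≤ (Del D).card * (9 * N / D) * Real.sqrt (ρ * e) +
      ((Del D).card * (9 * N / D) * Real.sqrt (ρ * e) + τ) / κ0 := by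
  set F0 : ℕ → ℝ := fun m => if B0 s m then |mdl s m| else 0
  have a1 : (Del D).card * (E.card * m0) ≤ TR N D E (fun _ => 1) (mdlp s) := by
    rw [← nsmul_eq_mul, ← sum_const, TR]
    refine sum_le_sum fun δ hδ => ?_
    rw [← nsmul_eq_mul, ← sum_const]
    refine (sum_le_sum fun n hn => hsph n hn δ hδ).trans (le_of_eq ?_)
    rw [sum_comm]
    refine sum_congr rfl fun ξ _ => ?_
    rw [sum_comm]
    refine sum_congr rfl fun η _ => ?_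
    rw [gam, mul_one, sum_mul]
    exact sum_congr rfl fun n _ => by split_ifs <;> simp
  have a2 : κ * TR N D E (fun _ => 1) (mdlp s) ≤ κ * TR N D E (fun _ => 1) F0 +
      TR N D E (fun _ => 1) F1 - TR N D E (fun _ => 1) a := by
    simp only [TR, mul_sum, ← sum_add_distrib, ← sum_sub_distrib]
    refine sum_le_sum fun δ hδ => sum_le_sum fun ξ _ => sum_le_sum fun η _ => ?_
    rcases gam_eq E (QQ D ξ η) with h | ⟨h, n, hn, hn'⟩
    · simp [h]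
    · have h3 := hexc n hn δ hδ ξ η hn'
      generalize (GG ξ + AA δ η).toNat = m at h3
      rw [h, mdlp, ha]
      simp only [F0]
      linarith
  have r1 : ∑ g ∈ Icc (0 : ℤ) (8 * N), (fun _ => (1 : ℝ)) g ^ 2 * rG N g ^ 2 ≤ ρ :=
    le_trans (sum_le_sum fun g _ => by simpa using rG_sq_le N g) hρ
  have b0 := TR_ub hD hN hE (fun _ => 1) F0 r1 (e := e) (by
    refine le_trans (le_of_eq ?_) h0
    rw [sum_filter]
    exact sum_congr rfl fun m _ => by simp only [F0]; split_ifs <;> simp)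
  have b2 := TR_ub hD hN hE (fun _ => 1) F1 r1 h2
  have b3 := TR_le N D E (fun _ => 1) a
  simp only [Complex.ofReal_one] at b3
  rw [← b3] at hT
  set U := (Del D).card * (9 * (N : ℝ) / D) * Real.sqrt (ρ * e)
  have hκ' : 0 < κ := hκ0.trans_le hκ
  have hU : 0 ≤ U + τ := add_nonneg ((abs_nonneg _).trans b2) ((abs_nonneg _).trans hT)
  have b4 : (U + τ) / κ ≤ (U + τ) / κ0 := div_le_div_of_nonneg_left hU hκ0 hκ
  rw [abs_le] at b0 b2 hT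
  have b5 : TR N D E (fun _ => 1) (mdlp s) - U ≤ (U + τ) / κ := by
    rw [le_div_iff₀ hκ']
    nlinarith [mul_le_mul_of_nonneg_left b0.2 hκ'.le, b2.2, hT.1]
  linarith

theorem rep2 {N D n : ℕ} (hN : 1 ≤ N) (hnN : n ≤ N)
    {δ : ℤ × ℤ} (hδ : δ ∈ Del D) {ξ η : ℤ × ℤ} (h : QQ D ξ η = n)
    (hp : (GG ξ + AA δ η).toNat.Prime)
    (h2 : ((GG ξ + AA δ η).toNat - 2).primeFactorsList.length ≤ 2)
    (hq : ∀ q : ℕ, q.Prime → q ∣ (GG ξ + AA δ η).toNat - 2 → zz N < q) :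
    Rep 2 (1 / 9) n := by
  have h1 := QQ_le hδ ξ η
  rw [h] at h1
  have hN1 : (1 : ℝ) ≤ N := by exact_mod_cast hN
  refine ⟨ξ.1, δ.1 * η.1 - δ.2 * η.2, δ.2 * η.1 + δ.1 * η.2, ξ.2, (GG ξ + AA δ η).toNat, ?_, ?_,
    hp, h2, fun q h1 h2 => le_trans ?_ (hq q h1 h2).le⟩
  · rw [← h, QQ, ← mem_Del.1 hδ]; ring
  · rw [Int.toNat_of_nonneg (by omega), GG, AA]; ring
  · calc (n : ℝ) ^ (1 / 9 : ℝ) ≤ (N : ℝ) ^ (1 / 9 : ℝ) := by gcongr
      _ ≤ _ := Real.rpow_le_rpow_of_exponent_le hN1 (by norm_num)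

theorem log7 (N : ℕ) (hN : 1 ≤ N) :
    0 ≤ Real.log (7 * N) / 2 ∧ Real.log (7 * N) / 2 ≤ LL N := by
  have hN1 : (1 : ℝ) ≤ N := by exact_mod_cast hN
  have h0 := Real.log_natCast_nonneg N
  refine ⟨div_nonneg (Real.log_nonneg (by linarith)) two_pos.le, ?_⟩
  rw [Real.log_mul (by norm_num) (by linarith)]
  have h1 : Real.log 7 ≤ 2 := by
    rw [Real.log_le_iff_le_exp (by norm_num), show (2 : ℝ) = 1 + 1 by norm_num, Real.exp_add]
    nlinarith [Real.exp_one_gt_d9]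
  unfold LL; linarith

theorem aux1 {x L : ℝ} (hx : 1 ≤ x) (hL : 3 ≤ L) : x + 2 ≤ x * L := by nlinarith

theorem aux2 {a b w L : ℝ} (h0 : 0 ≤ w) (h : w ≤ L) :
    (a - w * b) ^ 2 ≤ 2 * a ^ 2 + 2 * L ^ 2 * b ^ 2 := by
  have h1 : w ^ 2 * b ^ 2 ≤ L ^ 2 * b ^ 2 := by gcongr
  nlinarith [sq_nonneg (a + w * b)]

theorem aux3 {l : ℕ} (hl : 51 ≤ l) :
    50 * (1 + Real.log ((2 ^ l : ℕ) : ℝ)) ≤ ((l ^ 2 : ℕ) : ℝ) := by
  rw [Nat.cast_pow, Real.log_pow]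
  have h4 : Real.log 2 ≤ 1 := by linarith [Real.log_two_lt_d9]
  have h5 : (51 : ℝ) ≤ l := by exact_mod_cast hl
  have h6 : l * Real.log 2 ≤ l := mul_le_of_le_one_right (by linarith) h4
  push_cast
  nlinarith

end Pool.Agent.P.MP_0ad054_nt.Chen.FinP
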