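import Pool.Agent.P.MP_0ad054_nt.Chen.Defs

/-! Buchstab's identity for sieve weights. -/

namespace Pool.Agent.P.MP_0ad054_nt.Chen.LinP

open Finset Pool.Agent.P.MP_0ad054_nt.Sun

noncomputable def VV (P : Finset ℕ) (g : ℕ → ℝ) : ℝ := ∏ l ∈ P, (1 - g l)

/-- one step -/
noncomputable def glue (p : ℕ) (a b : Finset ℕ → ℝ) (T : Finset ℕ) : ℝ :=
  if p ∈ T then -b (T.erase p) else a T

lemma Sf_glue (P : Finset ℕ) (p : ℕ) (hp : p ∉ P) (a b : Finset ℕ → ℝ) (w : ℕ → ℝ) :
    Sf (insert p P) (glue p a b) w = Sf P a w - w p * Sf P b w := by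
  unfold Sf
  rw [sum_powerset_insert hp, mul_sum, sub_eq_add_neg, ← sum_neg_distrib]
  congr 1
  · refine sum_congr rfl fun T hT => ?_
    have : p ∉ T := fun h => hp (mem_powerset.1 hT h)
    simp [glue, this]
  · refine sum_congr rfl fun T hT => ?_
    have : p ∉ T := fun h => hp (mem_powerset.1 hT h)
    rw [prod_insert this]
    simp only [glue, mem_insert_self, if_true, erase_insert this]
    ring

lemma err_glue (σ : ℝ) (P : Finset ℕ) (p : ℕ) (hp : p ∉ P) (a b : Finset ℕ → ℝ) (w : ℕ → ℝ) :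
    σ * (Sf (insert p P) (glue p a b) w - VV (insert p P) w) =
      σ * (Sf P a w - VV P w) + w p * (-σ * (Sf P b w - VV P w)) := by
  rw [Sf_glue P p hp]
  unfold VV
  rw [prod_insert hp]
  ring

lemma isW_glue (σ D : ℝ) (P : Finset ℕ) (p : ℕ) (hp : p ∉ P) (hp0 : 0 < p)
    (a b : Finset ℕ → ℝ) (ha : IsW σ P a D) (hb : IsW (-σ) P b (D / p)) :
    IsW σ (insert p P) (glue p a b) D := by
  refine ⟨fun T => ?_, fun T hT h0 => ?_, fun w hw => ?_⟩
  · unfold glue
    split_ifs
    · rw [abs_neg]; exact hb.1 _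
    · exact ha.1 _
  · unfold glue at h0
    split_ifs at h0 with h
    · have h1 : T.erase p ⊆ P := by
        intro x hx
        have := hT (mem_of_mem_erase hx)
        rcases mem_insert.1 this with h2 | h2
        · exact absurd h2 (ne_of_mem_erase hx)
        · exact h2
      have h2 := hb.2.1 _ h1 (by simpa using h0)
      rw [← mul_prod_erase T _ h]
      have hp' : (0 : ℝ) < p := by exact_mod_cast hp0
      rw [le_div_iff₀ hp'] at h2
      push_cast at h2 ⊢
      linarith
    · exact ha.2.1 T ((subset_insert_iff_of_notMem h).1 hT) h0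
  · have := err_glue σ P p hp a b w
    unfold VV at this
    rw [this]
    have h1 := ha.2.2 w hw
    have h2 := hb.2.2 w hw
    have h3 : 0 ≤ w p := by rcases hw p with h | h <;> simp [h]
    exact add_nonneg h1 (mul_nonneg h3 h2)

lemma buch (σ D a E0 : ℝ) (g uu : ℕ → ℝ) (P : Finset ℕ) :
    (∀ l ∈ P, 0 < l ∧ 0 ≤ g l) →
    (∃ lam, IsW σ (P.filter (fun l : ℕ => (l : ℝ) ≤ a)) lam D ∧
      σ * (Sf (P.filter (fun l : ℕ => (l : ℝ) ≤ a)) lam g -
        VV (P.filter (fun l : ℕ => (l : ℝ) ≤ a)) g) ≤ E0) →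
    (∀ p ∈ P, a < p → ∃ lam, IsW (-σ) (P.filter (· < p)) lam (D / p) ∧
      -σ * (Sf (P.filter (· < p)) lam g - VV (P.filter (· < p)) g) ≤
        uu p * VV (P.filter (· < p)) g) →
    ∃ lam, IsW σ P lam D ∧ σ * (Sf P lam g - VV P g) ≤
      E0 + ∑ p ∈ P.filter (fun l : ℕ => a < l), uu p * (g p * VV (P.filter (· < p)) g) := by
  induction P using Finset.induction_on_max with
  | empty => intro _ h0 _; simpa using h0
  | insert p P hp ih =>
    intro hg h0 h1
    have hpP : p ∉ P := fun h => lt_irrefl _ (hp p h)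
    by_cases hpa : (p : ℝ) ≤ a
    · have e1 : (insert p P).filter (fun l : ℕ => (l : ℝ) ≤ a) = insert p P := by
        refine filter_true_of_mem fun l hl => ?_
        rcases mem_insert.1 hl with h | h
        · rw [h]; exact hpa
        · exact le_trans (by exact_mod_cast (hp l h).le) hpa
      have e2 : (insert p P).filter (fun l : ℕ => a < l) = ∅ := by
        refine filter_false_of_mem fun l hl => ?_
        rw [← e1] at hl
        exact not_lt.2 (mem_filter.1 hl).2
      rw [e1] at h0
      rw [e2]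
      simpa using h0
    · have e1 : (insert p P).filter (fun l : ℕ => (l : ℝ) ≤ a) =
          P.filter (fun l : ℕ => (l : ℝ) ≤ a) := by
        rw [filter_insert, if_neg hpa]
      have e2 : (insert p P).filter (fun l : ℕ => a < l) =
          insert p (P.filter (fun l : ℕ => a < l)) := by
        rw [filter_insert, if_pos (not_le.1 hpa)]
      have e3 : (insert p P).filter (· < p) = P := by
        rw [filter_insert, if_neg (lt_irrefl _)]
        exact filter_true_of_mem hp
      have e4 : ∀ q ∈ P, (insert p P).filter (· < q) = P.filter (· < q) := by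
        intro q hq
        rw [filter_insert, if_neg (not_lt.2 (hp q hq).le)]
      rw [e1] at h0
      obtain ⟨la, hla, hla2⟩ := ih (fun l hl => hg l (mem_insert_of_mem hl)) h0 (by
        intro q hq hq2
        have := h1 q (mem_insert_of_mem hq) hq2
        rwa [e4 q hq] at this)
      obtain ⟨lb, hlb, hlb2⟩ := h1 p (mem_insert_self _ _) (not_le.1 hpa)
      rw [e3] at hlb hlb2
      have hgp := hg p (mem_insert_self _ _)
      refine ⟨glue p la lb, isW_glue σ D P p hpP hgp.1 la lb hla hlb, ?_⟩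
      rw [err_glue σ P p hpP, e2, sum_insert (fun h => hpP (mem_filter.1 h).1), e3]
      have e5 : ∑ q ∈ P.filter (fun l : ℕ => a < l),
          uu q * (g q * VV ((insert p P).filter (· < q)) g) =
          ∑ q ∈ P.filter (fun l : ℕ => a < l), uu q * (g q * VV (P.filter (· < q)) g) :=
        sum_congr rfl fun q hq => by rw [e4 q (mem_filter.1 hq).1]
      rw [e5]
      have := mul_le_mul_of_nonneg_left hlb2 hgp.2
      nlinarith

/-- telescoping -/
lemma tele (a : ℝ) (g : ℕ → ℝ) (P : Finset ℕ) :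
    ∑ p ∈ P.filter (fun l : ℕ => a < l), g p * VV (P.filter (· < p)) g =
      VV (P.filter (fun l : ℕ => (l : ℝ) ≤ a)) g - VV P g := by
  induction P using Finset.induction_on_max with
  | empty => simp
  | insert p P hp ih =>
    have hpP : p ∉ P := fun h => lt_irrefl _ (hp p h)
    by_cases hpa : (p : ℝ) ≤ a
    · have e1 : (insert p P).filter (fun l : ℕ => (l : ℝ) ≤ a) = insert p P := by
        refine filter_true_of_mem fun l hl => ?_
        rcases mem_insert.1 hl with h | h
        · rw [h]; exact hpa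
        · exact le_trans (by exact_mod_cast (hp l h).le) hpa
      have e2 : (insert p P).filter (fun l : ℕ => a < l) = ∅ := by
        refine filter_false_of_mem fun l hl => ?_
        rw [← e1] at hl
        exact not_lt.2 (mem_filter.1 hl).2
      rw [e1, e2]; simp
    · have e1 : (insert p P).filter (fun l : ℕ => (l : ℝ) ≤ a) =
          P.filter (fun l : ℕ => (l : ℝ) ≤ a) := by
        rw [filter_insert, if_neg hpa]
      have e2 : (insert p P).filter (fun l : ℕ => a < l) =
          insert p (P.filter (fun l : ℕ => a < l)) := by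
        rw [filter_insert, if_pos (not_le.1 hpa)]
      have e3 : (insert p P).filter (· < p) = P := by
        rw [filter_insert, if_neg (lt_irrefl _)]
        exact filter_true_of_mem hp
      have e4 : ∀ q ∈ P, (insert p P).filter (· < q) = P.filter (· < q) := by
        intro q hq
        rw [filter_insert, if_neg (not_lt.2 (hp q hq).le)]
      have e5 : ∑ q ∈ P.filter (fun l : ℕ => a < l),
          (g q * VV ((insert p P).filter (· < q)) g) =
          ∑ q ∈ P.filter (fun l : ℕ => a < l), (g q * VV (P.filter (· < q)) g) :=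
        sum_congr rfl fun q hq => by rw [e4 q (mem_filter.1 hq).1]
      rw [e1, e2, sum_insert (fun h => hpP (mem_filter.1 h).1), e3, e5, ih]
      unfold VV
      rw [prod_insert hpP]
      ring

lemma Adm.mono {P P' : Finset ℕ} {g : ℕ → ℝ} (h : Adm P g) (hP : P' ⊆ P) : Adm P' g :=
  fun l hl => h l (hP hl)

lemma VV_pos {P : Finset ℕ} {g : ℕ → ℝ} (h : Adm P g) : 0 < VV P g :=
  prod_pos fun l hl => by have := (h l hl).2.2.2; linarith

lemma dim_sub {η : ℝ} {P P' : Finset ℕ} {g : ℕ → ℝ} (h : Dim η P g) (hP : P' ⊆ P) :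
    Dim η P' g := by
  refine ⟨fun l hl => h.1 l (hP hl), fun w z hw hz => le_trans ?_ (h.2 w z hw hz)⟩
  refine prod_le_prod_of_subset_of_one_le (filter_subset_filter _ hP) ?_ ?_
  · intro l hl
    have := (h.1 l (hP (mem_filter.1 hl).1)).2.2.2
    exact inv_nonneg.2 (by linarith)
  · intro l hl _
    have := h.1 l (mem_filter.1 hl).1
    exact (one_le_inv₀ (by linarith [this.2.2.2])).2 (by linarith [this.2.1])

lemma dim_mono {η η' : ℝ} {P : Finset ℕ} {g : ℕ → ℝ} (h : Dim η P g) (hη : η ≤ η') :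
    Dim η' P g := by
  refine ⟨h.1, fun w z hw hz => le_trans (h.2 w z hw hz) ?_⟩
  have h1 : 0 < Real.log w := Real.log_pos hw
  have h2 : 0 < Real.log z := Real.log_pos (by linarith)
  gcongr

/-- the product over the small primes -/
lemma VV_le {η : ℝ} {P : Finset ℕ} {g : ℕ → ℝ} (h : Dim η P g) (w z : ℝ) (hw : 1 < w)
    (hz : w ≤ z) (hP : ∀ l ∈ P, (l : ℝ) ≤ z) :
    VV (P.filter (fun l : ℕ => (l : ℝ) ≤ w)) g ≤ (1 + η) * Real.log z / Real.log w * VV P g := by
  have h1 := h.2 w z hw hz
  have e1 : P.filter (fun l : ℕ => w < l ∧ (l : ℝ) ≤ z) =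
      P.filter (fun l : ℕ => ¬ (l : ℝ) ≤ w) :=
    filter_congr fun l hl => by simp [hP l hl]
  rw [e1, prod_inv_distrib] at h1
  have e2 : VV P g = VV (P.filter (fun l : ℕ => (l : ℝ) ≤ w)) g *
      VV (P.filter (fun l : ℕ => ¬ (l : ℝ) ≤ w)) g := by
    unfold VV; rw [prod_filter_mul_prod_filter_not]
  have h2 := VV_pos (Adm.mono h.1 (filter_subset (fun l : ℕ => ¬ (l : ℝ) ≤ w) P))
  have h3 := VV_pos (Adm.mono h.1 (filter_subset (fun l : ℕ => (l : ℝ) ≤ w) P))
  have h4 : (VV (P.filter (fun l : ℕ => ¬ (l : ℝ) ≤ w)) g)⁻¹ ≤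
    (1 + η) * Real.log z / Real.log w := h1
  rw [inv_le_iff_one_le_mul₀ h2] at h4
  rw [e2]
  nlinarith

end Pool.Agent.P.MP_0ad054_nt.Chen.LinP
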