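import Pool.Agent.P.MP_0ad054_nt.Chen.LinA

/-! Valid constants of the linear sieve and Buchstab's inequality for them. -/

namespace Pool.Agent.P.MP_0ad054_nt.Chen.LinP

open Finset Pool.Agent.P.MP_0ad054_nt.Sun

def Val (σ s c η z0 : ℝ) : Prop :=
  ∀ (P : Finset ℕ) (g : ℕ → ℝ) (z : ℝ), z0 ≤ z → Dim η P g → (∀ l ∈ P, (l : ℝ) ≤ z) →
    ∃ lam, IsW σ P lam (z ^ s) ∧ σ * (Sf P lam g - VV P g) ≤ c * VV P g

def Valid (σ s c : ℝ) : Prop := ∀ ε : ℝ, 0 < ε → ∃ η : ℝ, 0 < η ∧ ∃ z0 : ℝ, Val σ s (c + ε) η z0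

lemma isW_mono {σ D D' : ℝ} {P : Finset ℕ} {lam : Finset ℕ → ℝ} (h : IsW σ P lam D)
    (hD : D ≤ D') : IsW σ P lam D' :=
  ⟨h.1, fun T hT h0 => (h.2.1 T hT h0).trans hD, h.2.2⟩

lemma val_mono {σ s c η z0 η' z0' : ℝ} (h : Val σ s c η z0) (hη : η' ≤ η) (hz : z0 ≤ z0') :
    Val σ s c η' z0' :=
  fun P g z h1 h2 h3 => h P g z (hz.trans h1) (dim_mono h2 hη) h3

lemma valid_mono {σ s c s' c' : ℝ} (h : Valid σ s c) (hs : s ≤ s') (hc : c ≤ c') :
    Valid σ s' c' := by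
  intro ε hε
  obtain ⟨η, hη, z0, h1⟩ := h ε hε
  refine ⟨η, hη, max z0 1, fun P g z hz hD hP => ?_⟩
  obtain ⟨lam, h2, h3⟩ := h1 P g z ((le_max_left _ _).trans hz) hD hP
  refine ⟨lam, isW_mono h2 (Real.rpow_le_rpow_of_exponent_le ((le_max_right _ _).trans hz) hs),
    h3.trans ?_⟩
  have := VV_pos hD.1
  gcongr

lemma valid_low (s : ℝ) : Valid (-1) s 1 := by
  intro ε hε
  refine ⟨1, one_pos, 0, fun P g z _ hD _ => ⟨fun _ => 0, ⟨by simp, by simp, ?_⟩, ?_⟩⟩
  · intro w hw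
    have : 0 ≤ ∏ l ∈ P, (1 - w l) := prod_nonneg fun l _ => by rcases hw l with h | h <;> simp [h]
    simpa [Sf] using this
  · have := VV_pos hD.1
    simp only [Sf, zero_mul, sum_const_zero]
    nlinarith

lemma valid_closed {σ s c : ℝ} (h : ∀ ε : ℝ, 0 < ε → Valid σ s (c + ε)) : Valid σ s c := by
  intro ε hε
  have := h (ε / 2) (by linarith) (ε / 2) (by linarith)
  rwa [add_assoc, add_halves] at this

lemma valid_fin (σ ε : ℝ) (hε : 0 < ε) (t u : ℕ → ℝ) (m : ℕ)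
    (h : ∀ i ∈ range m, Valid σ (t i) (u i)) :
    ∃ η : ℝ, 0 < η ∧ ∃ z0 : ℝ, ∀ i ∈ range m, Val σ (t i) (u i + ε) η z0 := by
  induction m with
  | zero => exact ⟨1, one_pos, 0, by simp⟩
  | succ m ih =>
    obtain ⟨η, hη, z0, h1⟩ := ih fun i hi => h i (mem_range.2 (by have := mem_range.1 hi; omega))
    obtain ⟨η', hη', z0', h2⟩ := h m (self_mem_range_succ m) ε hε
    refine ⟨min η η', lt_min hη hη', max z0 z0', fun i hi => ?_⟩
    rcases Nat.lt_succ_iff_lt_or_eq.1 (mem_range.1 hi) with h3 | h3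
    · exact val_mono (h1 i (mem_range.2 h3)) (min_le_left _ _) (le_max_left _ _)
    · rw [h3]; exact val_mono h2 (min_le_right _ _) (le_max_right _ _)

lemma VV_pow {η : ℝ} {P : Finset ℕ} {g : ℕ → ℝ} (h : Dim η P g) (z s τ : ℝ) (hz : 1 < z)
    (hs : 0 < s) (hτ : s ≤ τ) (hP : ∀ l ∈ P, (l : ℝ) ≤ z) :
    VV (P.filter (fun l : ℕ => (l : ℝ) ≤ z ^ (s / τ))) g ≤ (1 + η) * (τ / s) * VV P g := by
  have hτ0 : 0 < τ := lt_of_lt_of_le hs hτ
  have h1 : 1 < z ^ (s / τ) := Real.one_lt_rpow hz (by positivity)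
  have h2 : z ^ (s / τ) ≤ z := by
    calc z ^ (s / τ) ≤ z ^ (1 : ℝ) :=
          Real.rpow_le_rpow_of_exponent_le hz.le ((div_le_one hτ0).2 hτ)
      _ = z := Real.rpow_one z
  have h3 := VV_le h _ z h1 h2 hP
  rw [Real.log_rpow (by linarith)] at h3
  have h4 : 0 < Real.log z := Real.log_pos hz
  refine h3.trans (le_of_eq ?_)
  field_simp

theorem buchV (σ s T b c : ℝ) (m n : ℕ) (t u τ d : ℕ → ℝ) (hs : 0 < s) (hT : s ≤ T)
    (hb : 0 ≤ b) (hc : 0 ≤ c) (hd : ∀ j ∈ range n, 0 ≤ d j ∧ s ≤ τ j)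
    (hI : ∀ i ∈ range m, Valid (-σ) (t i) (u i)) (hI2 : ∀ i ∈ range m, 0 < t i + 1)
    (hcov : ∀ x : ℝ, s ≤ x → x < T → ∃ i ∈ range m, t i + 1 ≤ x ∧
      u i ≤ b + ∑ j ∈ range n, if x < τ j then d j else 0)
    (hV : Valid σ T c) :
    Valid σ s (∑ j ∈ range n, d j * (τ j / s - 1) + b * (T / s - 1) + c * (T / s)) := by
  intro ε hε
  have hT0 : 0 < T := lt_of_lt_of_le hs hT
  set S1 : ℝ := ∑ j ∈ range n, d j * (τ j / s) with hS1
  have hS10 : 0 ≤ S1 := sum_nonneg fun j hj =>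
    mul_nonneg (hd j hj).1 (div_nonneg (hs.le.trans (hd j hj).2) hs.le)
  set R : ℝ := T / s with hR
  have hR1 : 1 ≤ R := (one_le_div hs).2 hT
  set K : ℝ := (c + b + 4) * R + S1 with hK
  have hK0 : 0 < K := by positivity
  set ε1 : ℝ := min 1 (ε / K) with hε1
  have hε10 : 0 < ε1 := lt_min one_pos (by positivity)
  have hε11 : ε1 ≤ 1 := min_le_left _ _
  have hε12 : ε1 * K ≤ ε := by
    have : ε1 ≤ ε / K := min_le_right _ _
    rwa [le_div_iff₀ hK0] at this
  obtain ⟨η1, hη1, z1, h1⟩ := valid_fin (-σ) ε1 hε10 t u m hI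
  obtain ⟨η2, hη2, z2, h2⟩ := hV ε1 hε10
  set η : ℝ := min ε1 (min η1 η2) with hη
  have hη0 : 0 < η := lt_min hε10 (lt_min hη1 hη2)
  have hηa : η ≤ ε1 := min_le_left _ _
  have hηb : η ≤ η1 := (min_le_right _ _).trans (min_le_left _ _)
  have hηc : η ≤ η2 := (min_le_right _ _).trans (min_le_right _ _)
  set z3 : ℝ := max 2 (max z1 z2) with hz3
  have hz32 : 2 ≤ z3 := le_max_left _ _
  refine ⟨η, hη0, z3 ^ R, fun P g z hz hD hP => ?_⟩
  have hz1 : 1 < z := lt_of_lt_of_le (Real.one_lt_rpow (by linarith) (by linarith)) hz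
  have hz0 : 0 < z := by linarith
  have hL : 0 < Real.log z := Real.log_pos hz1
  set a : ℝ := z ^ (s / T) with ha
  have ha3 : z3 ≤ a := by
    have : (z3 ^ R) ^ (s / T) ≤ a := Real.rpow_le_rpow (by positivity) hz (by positivity)
    rwa [← Real.rpow_mul (by linarith), hR, show T / s * (s / T) = 1 by field_simp,
      Real.rpow_one] at this
  have haT : a ^ T = z ^ s := by
    rw [ha, ← Real.rpow_mul hz0.le]; congr 1; field_simp
  have hV0 := VV_pos hD.1
  obtain ⟨lam, hl1, hl2⟩ := buch σ (z ^ s) a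
    ((c + ε1) * VV (P.filter (fun l : ℕ => (l : ℝ) ≤ a)) g) g
    (fun p => ε1 + b + ∑ j ∈ range n, if z ^ (s / τ j) < (p : ℝ) then d j else 0) P
    (fun l hl => ⟨(hD.1 l hl).1.pos, (hD.1 l hl).2.1⟩)
    (by
      rw [← haT]
      exact h2 _ g a (((le_max_right _ _).trans (le_max_right _ _)).trans ha3)
        (dim_mono (dim_sub hD (filter_subset _ _)) hηc) (fun l hl => (mem_filter.1 hl).2))
    (by
      intro p hp hap
      have hp1 : (1 : ℝ) < p := by linarith
      have hp0 : (0 : ℝ) < p := by linarith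
      have hLp : 0 < Real.log p := Real.log_pos hp1
      have hx1 : s ≤ s * Real.log z / Real.log p := by
        rw [le_div_iff₀ hLp]
        exact mul_le_mul_of_nonneg_left (Real.log_le_log hp0 (hP p hp)) hs.le
      have key : ∀ y : ℝ, 0 < y → (z ^ (s / y) < p ↔ s * Real.log z / Real.log p < y) := by
        intro y hy
        rw [← Real.log_lt_log_iff (by positivity) hp0, Real.log_rpow hz0, div_lt_iff₀ hLp,
          div_mul_eq_mul_div, div_lt_iff₀ hy, mul_comm y]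
      obtain ⟨i, hi, hi1, hi2⟩ := hcov _ hx1 ((key T hT0).1 hap)
      have hti := hI2 i hi
      have hpw : (p : ℝ) ≤ z ^ (s / (t i + 1)) := by
        by_contra hcon
        exact absurd ((key _ hti).1 (not_le.1 hcon)) (not_lt.2 hi1)
      set w : ℝ := z ^ (s / (t i + 1)) with hw
      have hw0 : 0 < w := by positivity
      obtain ⟨lam, h3, h4⟩ := h1 i hi (P.filter (· < p)) g w
        ((((le_max_left _ _).trans (le_max_right _ _)).trans ha3).trans (hap.le.trans hpw))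
        (dim_mono (dim_sub hD (filter_subset _ _)) hηb)
        (fun l hl => le_trans (by exact_mod_cast (mem_filter.1 hl).2.le) hpw)
      refine ⟨lam, isW_mono h3 ?_, h4.trans ?_⟩
      · have e1 : w ^ t i * w = z ^ s := by
          rw [← Real.rpow_add_one hw0.ne', hw, ← Real.rpow_mul hz0.le]
          congr 1; field_simp
        rw [le_div_iff₀ hp0, ← e1]
        exact mul_le_mul_of_nonneg_left hpw (by positivity)
      · refine mul_le_mul_of_nonneg_right ?_
          (VV_pos (Adm.mono hD.1 (filter_subset _ _))).le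
        have : (∑ j ∈ range n, if s * Real.log z / Real.log p < τ j then d j else 0) =
            ∑ j ∈ range n, if z ^ (s / τ j) < (p : ℝ) then d j else 0 :=
          sum_congr rfl fun j hj => by
            simp only [key _ (lt_of_lt_of_le hs (hd j hj).2)]
        rw [this] at hi2
        linarith)
  refine ⟨lam, hl1, hl2.trans ?_⟩
  have hnn : ∀ p ∈ P, 0 ≤ g p * VV (P.filter (· < p)) g := fun p hp =>
    mul_nonneg (hD.1 p hp).2.1 (VV_pos (Adm.mono hD.1 (filter_subset _ _))).le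
  have e1 : ∑ p ∈ P.filter (fun l : ℕ => a < l),
      (ε1 + b + ∑ j ∈ range n, if z ^ (s / τ j) < (p : ℝ) then d j else 0) *
        (g p * VV (P.filter (· < p)) g) ≤
      (ε1 + b) * (VV (P.filter (fun l : ℕ => (l : ℝ) ≤ a)) g - VV P g) +
      ∑ j ∈ range n, d j * ((1 + η) * (τ j / s) * VV P g - VV P g) := by
    simp only [add_mul (ε1 + b), sum_add_distrib, sum_mul]
    rw [← mul_sum, tele, sum_comm]
    refine add_le_add le_rfl (sum_le_sum fun j hj => ?_)
    have h5 := VV_pow hD z s (τ j) hz1 hs (hd j hj).2 hP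
    calc _ ≤ ∑ p ∈ P, (if z ^ (s / τ j) < (p : ℝ) then d j else 0) *
          (g p * VV (P.filter (· < p)) g) :=
          sum_le_sum_of_subset_of_nonneg (filter_subset _ _) fun p hp _ =>
            mul_nonneg (by split_ifs; exacts [(hd j hj).1, le_rfl]) (hnn p hp)
      _ = d j * ∑ p ∈ P.filter (fun l : ℕ => z ^ (s / τ j) < l),
          g p * VV (P.filter (· < p)) g := by
          rw [sum_filter, mul_sum]
          exact sum_congr rfl fun p _ => by split_ifs <;> simp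
      _ ≤ _ := by
          rw [tele]
          exact mul_le_mul_of_nonneg_left (by linarith) (hd j hj).1
  have h6 : VV (P.filter (fun l : ℕ => (l : ℝ) ≤ a)) g ≤ (1 + η) * R * VV P g :=
    VV_pow hD z s T hz1 hs hT hP
  have e2 : ∑ j ∈ range n, d j * ((1 + η) * (τ j / s) * VV P g - VV P g) =
      (∑ j ∈ range n, d j * (τ j / s - 1) + η * S1) * VV P g := by
    rw [hS1, mul_sum, ← sum_add_distrib, sum_mul]
    exact sum_congr rfl fun j _ => by ring
  rw [e2] at e1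
  set Va := VV (P.filter (fun l : ℕ => (l : ℝ) ≤ a)) g
  set V := VV P g
  set S0 := ∑ j ∈ range n, d j * (τ j / s - 1)
  have h7 : (c + ε1 + (ε1 + b)) * Va ≤ (c + ε1 + (ε1 + b)) * ((1 + η) * R * V) :=
    mul_le_mul_of_nonneg_left h6 (by positivity)
  have h8 : (c + ε1 + (ε1 + b)) * ((1 + η) * R) - (ε1 + b) + η * S1 ≤
      b * (R - 1) + c * R + ε := by
    have a1 : η * S1 ≤ ε1 * S1 := mul_le_mul_of_nonneg_right hηa hS10
    have a2 : η * ((c + b) * R) ≤ ε1 * ((c + b) * R) :=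
      mul_le_mul_of_nonneg_right hηa (by positivity)
    have a3 : η * (ε1 * R) ≤ 1 * (ε1 * R) :=
      mul_le_mul_of_nonneg_right (hηa.trans hε11) (by positivity)
    rw [hK] at hε12
    nlinarith
  have h9 := mul_le_mul_of_nonneg_right h8 hV0.le
  nlinarith

end Pool.Agent.P.MP_0ad054_nt.Chen.LinP
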