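import Pool.Agent.P.MP_0ad054_nt.Chen.Defs
import Pool.Agent.P.MP_0ad054_nt.Sun.Trans
import Pool.Agent.P.MP_0ad054_nt.Sun.U2A

/-! The counting form of a pure frequency on the minor arcs: Weyl's bound. -/

namespace Pool.Agent.P.MP_0ad054_nt.Chen

open Finset ZMod Pool.Agent.P.MP_0ad054_nt.Sun
open scoped ComplexConjugate

namespace Trans2P

theorem card_I (R : ℕ) : ((Icc (-(R : ℤ)) R).card : ℝ) = 2 * R + 1 := by
  rw [Int.card_Icc]
  have : ((R : ℤ) + 1 - -(R : ℤ)).toNat = 2 * R + 1 := by omega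
  rw [this]; push_cast; ring

theorem card_H (R : ℕ) : ((Icc (-(2 * R : ℤ)) (2 * R)).card : ℝ) = 4 * R + 1 := by
  rw [Int.card_Icc]
  have : ((2 * R : ℤ) + 1 - -(2 * R : ℤ)).toNat = 4 * R + 1 := by omega
  rw [this]; push_cast; ring

theorem reindex {A : Type*} [AddCommMonoid A] (R : ℕ) (ψ : ℤ → ℤ → A) :
    ∑ u ∈ Icc (-(R : ℤ)) R, ∑ u' ∈ Icc (-(R : ℤ)) R, ψ u u' =
      ∑ h ∈ Icc (-(2 * R : ℤ)) (2 * R), ∑ l ∈ (Icc (-(R : ℤ)) R).filter
        (fun l => l + h ∈ Icc (-(R : ℤ)) R), ψ l (l + h) := by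
  simp only [sum_filter]
  rw [sum_comm (s := Icc (-(2 * R : ℤ)) (2 * R))]
  refine sum_congr rfl fun l hl => ?_
  rw [← sum_filter]
  rw [mem_Icc] at hl
  refine sum_nbij' (fun u => u - l) (fun h => l + h) ?_ ?_ ?_ ?_ ?_
  · intro u hu
    simp only [mem_Icc, mem_filter] at hu ⊢
    omega
  · intro h hh
    exact (mem_filter.1 hh).2
  · intro u _; simp
  · intro u _; simp
  · intro u _; simp

theorem sq_diff (R : ℕ) (φ : ℤ → ℝ) (hφ : ∀ k, 0 ≤ φ k) {T : ℝ} (hT : 0 ≤ T)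
    (hτ : ∀ n : ℕ, n ≤ 8 * R ^ 2 → tau n ≤ T) :
    ∑ u ∈ Icc (-(R : ℤ)) R, ∑ u' ∈ Icc (-(R : ℤ)) R, φ (u' ^ 2 - u ^ 2) ≤
      2 * T * ∑ k ∈ Icc (-(8 * R ^ 2 : ℤ)) (8 * R ^ 2), φ k + (6 * R + 2) * φ 0 := by
  have h := U2P.sum_shift_le φ hφ 1 (Icc (-(2 * R : ℤ)) (2 * R)) (Icc (-(R : ℤ)) R)
    (Icc (-(8 * R ^ 2 : ℤ)) (8 * R ^ 2)) (T := T) (fun h hh l hl => by
      rw [mem_Icc] at hh hl
      have a : |h * (2 * l + 1 * h)| ≤ 8 * R ^ 2 := by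
        rw [abs_mul]
        have b1 : |h| ≤ 2 * R := abs_le.2 hh
        have b2 : |2 * l + 1 * h| ≤ 4 * R := abs_le.2 ⟨by omega, by omega⟩
        calc _ ≤ (2 * R : ℤ) * (4 * R) := by gcongr
          _ = _ := by ring
      refine ⟨mem_Icc.2 (abs_le.1 a), hτ _ ?_⟩
      have : ((h * (2 * l + 1 * h)).natAbs : ℤ) ≤ ((8 * R ^ 2 : ℕ) : ℤ) := by
        rw [Int.natCast_natAbs]; push_cast; exact a
      exact_mod_cast this) hT
  rw [card_H, card_I] at h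
  rw [reindex R (fun u u' => φ (u' ^ 2 - u ^ 2))]
  refine le_trans (sum_le_sum fun k _ => ?_) (h.trans (le_of_eq (by ring)))
  refine le_trans (le_of_eq (sum_congr rfl fun l _ => ?_))
    (sum_le_sum_of_subset_of_nonneg (filter_subset _ _) fun l _ _ => hφ _)
  congr 1; ring

theorem ind_sum (J : Finset ℤ) (k0 : ℤ) : ∑ k ∈ J, (if k = k0 then (1 : ℝ) else 0) ≤ 1 := by
  rw [sum_ite_eq']; split_ifs <;> norm_num

theorem energy (R : ℕ) {T : ℝ} (hT : 0 ≤ T) (hτ : ∀ n : ℕ, n ≤ 8 * R ^ 2 → tau n ≤ T) :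
    ∑ η ∈ Sun.box R, ∑ η' ∈ Sun.box R,
      (if η.1 ^ 2 + η.2 ^ 2 = η'.1 ^ 2 + η'.2 ^ 2 then (1 : ℝ) else 0) ≤
      (2 * R + 1) ^ 2 * (8 * T + 9) := by
  unfold Sun.box
  simp only [sum_product]
  have e1 : ∀ s s' : ℤ, ∑ u ∈ Icc (-(R : ℤ)) R, ∑ u' ∈ Icc (-(R : ℤ)) R,
      (if s ^ 2 + u ^ 2 = s' ^ 2 + u' ^ 2 then (1 : ℝ) else 0) ≤
      2 * T + (6 * R + 2) * (if s' ^ 2 - s ^ 2 = 0 then (1 : ℝ) else 0) := by
    intro s s'
    have := sq_diff R (fun k => if k = s ^ 2 - s' ^ 2 then (1 : ℝ) else 0)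
      (fun k => by positivity) hT hτ
    refine le_trans (le_of_eq (sum_congr rfl fun u _ => sum_congr rfl fun u' _ => ?_))
      (this.trans (add_le_add ?_ (le_of_eq ?_)))
    · exact if_congr (by omega) rfl rfl
    · have := ind_sum (Icc (-(8 * R ^ 2 : ℤ)) (8 * R ^ 2)) (s ^ 2 - s' ^ 2)
      nlinarith
    · congr 1; exact if_congr (by omega) rfl rfl
  have e2 := sq_diff R (fun k => if k = 0 then (1 : ℝ) else 0) (fun k => by positivity) hT hτ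
  have e3 := ind_sum (Icc (-(8 * R ^ 2 : ℤ)) (8 * R ^ 2)) 0
  simp only [if_true, mul_one] at e2
  calc _ = ∑ s ∈ Icc (-(R : ℤ)) R, ∑ s' ∈ Icc (-(R : ℤ)) R, ∑ u ∈ Icc (-(R : ℤ)) R,
        ∑ u' ∈ Icc (-(R : ℤ)) R, (if s ^ 2 + u ^ 2 = s' ^ 2 + u' ^ 2 then (1 : ℝ) else 0) :=
        sum_congr rfl fun s _ => sum_comm
    _ ≤ ∑ s ∈ Icc (-(R : ℤ)) R, ∑ s' ∈ Icc (-(R : ℤ)) R,
        (2 * T + (6 * R + 2) * (if s' ^ 2 - s ^ 2 = 0 then (1 : ℝ) else 0)) :=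
        sum_le_sum fun s _ => sum_le_sum fun s' _ => e1 s s'
    _ = (2 * R + 1) ^ 2 * (2 * T) + (6 * R + 2) * ∑ s ∈ Icc (-(R : ℤ)) R,
        ∑ s' ∈ Icc (-(R : ℤ)) R, (if s' ^ 2 - s ^ 2 = 0 then (1 : ℝ) else 0) := by
        simp only [sum_add_distrib, sum_const, nsmul_eq_mul, card_I, ← mul_sum]; ring
    _ ≤ (2 * R + 1) ^ 2 * (2 * T) + (6 * R + 2) * (2 * T + (6 * R + 2)) := by
        gcongr
        refine e2.trans ?_
        nlinarith
    _ ≤ _ := by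
        have : (0 : ℝ) ≤ R := Nat.cast_nonneg R
        nlinarith [mul_nonneg this hT, mul_nonneg (mul_nonneg this this) hT]

theorem l2 {W : ℕ} [NeZero W] {ι : Type*} (S : Finset ι) (a : ι → ℂ) (ha : ∀ i, ‖a i‖ ≤ 1)
    (n : ι → ℤ) (hn : ∀ i ∈ S, 0 ≤ n i ∧ n i < W) :
    ∑ j : ZMod W, ‖∑ i ∈ S, a i * stdAddChar (j * (n i : ZMod W))‖ ^ 2 ≤
      W * ∑ i ∈ S, ∑ i' ∈ S, (if n i = n i' then (1 : ℝ) else 0) := by
  have h : ((∑ j : ZMod W, ‖∑ i ∈ S, a i * stdAddChar (j * (n i : ZMod W))‖ ^ 2 : ℝ) : ℂ) =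
      ∑ i ∈ S, ∑ i' ∈ S, a i * conj (a i') * (if n i = n i' then (W : ℂ) else 0) := by
    rw [Complex.ofReal_sum]
    simp only [normSq_eq, map_sum, map_mul, U2P.conj_ch, sum_mul_sum]
    rw [sum_comm]
    refine sum_congr rfl fun i hi => ?_
    rw [sum_comm]
    refine sum_congr rfl fun i' hi' => ?_
    have e1 : ∀ j : ZMod W, a i * stdAddChar (j * (n i : ZMod W)) *
        (conj (a i') * stdAddChar (-(j * (n i' : ZMod W)))) =
        a i * conj (a i') * stdAddChar (j * ((n i : ZMod W) - (n i' : ZMod W))) := by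
      intro j
      rw [show j * ((n i : ZMod W) - (n i' : ZMod W)) = j * n i + -(j * n i') by ring,
        AddChar.map_add_eq_mul]; ring
    simp only [e1, ← mul_sum, U2P.orth]
    congr 1
    refine if_congr ⟨fun h => ?_, fun h => by rw [h, sub_self]⟩ rfl rfl
    have := (ZMod.intCast_eq_intCast_iff_dvd_sub _ _ _).1 (sub_eq_zero.1 h)
    have h1 := hn i hi
    have h2 := hn i' hi'
    have h3 := Int.eq_zero_of_abs_lt_dvd this (by rw [abs_lt]; omega)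
    omega
  have h2 := congrArg norm h
  rw [Complex.norm_real, Real.norm_of_nonneg (sum_nonneg fun _ _ => by positivity)] at h2
  rw [h2, mul_sum]
  refine (norm_sum_le _ _).trans (sum_le_sum fun i _ => ?_)
  rw [mul_sum]
  refine (norm_sum_le _ _).trans (sum_le_sum fun i' _ => ?_)
  rw [norm_mul, norm_mul, Complex.norm_conj]
  split_ifs
  · rw [Complex.norm_natCast, mul_one]
    have := mul_le_one₀ (ha i) (norm_nonneg _) (ha i')
    have hW : (0 : ℝ) ≤ W := Nat.cast_nonneg W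
    nlinarith
  · simp

/-- the quadratic Weyl sum -/
noncomputable def Sw (R : ℕ) (b : ℝ) : ℂ := ∑ x ∈ Icc (-(R : ℤ)) R, e (b * (x : ℝ) ^ 2)

theorem Sw_triv (R : ℕ) (b : ℝ) : ‖Sw R b‖ ≤ 2 * R + 1 := by
  unfold Sw
  refine (norm_sum_le _ _).trans ?_
  simp only [norm_e, sum_const, nsmul_eq_mul, mul_one, card_I, le_refl]

theorem weyl (R : ℕ) (b : ℝ) :
    ‖Sw R b‖ ^ 2 ≤ ∑ h ∈ Icc (-(2 * R : ℤ)) (2 * R), mn (2 * R + 1) (2 * b * h) := by
  have h : ((‖Sw R b‖ ^ 2 : ℝ) : ℂ) = ∑ h ∈ Icc (-(2 * R : ℤ)) (2 * R), e (b * (h : ℝ) ^ 2) *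
      ∑ l ∈ (Icc (-(R : ℤ)) R).filter (fun l => l + h ∈ Icc (-(R : ℤ)) R), e (2 * b * h * l) := by
    rw [normSq_eq, mul_comm]
    unfold Sw
    rw [map_sum, sum_mul_sum,
      reindex R (fun u u' => conj (e (b * (u : ℝ) ^ 2)) * e (b * (u' : ℝ) ^ 2))]
    refine sum_congr rfl fun h _ => ?_
    rw [mul_sum]
    refine sum_congr rfl fun l _ => ?_
    rw [conj_e, ← e_add, ← e_add]
    congr 1; push_cast; ring
  have h2 := congrArg norm h
  rw [Complex.norm_real, Real.norm_of_nonneg (by positivity)] at h2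
  rw [h2]
  refine (norm_sum_le _ _).trans (sum_le_sum fun h _ => ?_)
  rw [norm_mul, norm_e, one_mul]
  refine geom_convex _ _ (fun a b c ha hc h1 h2 => ?_) ?_
  · simp only [mem_filter, mem_Icc] at ha hc ⊢
    omega
  · rw [← card_I]
    exact_mod_cast card_filter_le _ _

theorem weyl2 {N : ℕ} (hN : 1 ≤ N) {P : ℝ} (hP : 0 < P) (hPN : P ^ 2 ≤ N) (b : ℝ) (β : ℚ)
    (hβ : |2 * b - β| ≤ 1 / (β.den : ℝ) ^ 2) (h1 : P ≤ β.den) (h2 : β.den * P ≤ N)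
    (h3 : β.den ≤ 4 * N) : ‖Sw (Nat.sqrt N) b‖ ^ 2 ≤ 400 * N * LL N / P := by
  set R := Nat.sqrt N with hR
  have hN1 : (1 : ℝ) ≤ N := by exact_mod_cast hN
  have hq : (0 : ℝ) < β.den := by exact_mod_cast β.den_pos
  have hq1 : (1 : ℝ) ≤ β.den := by exact_mod_cast β.den_pos
  have hβ' : |2 * b - (β.num : ℝ) / β.den| ≤ 1 / (β.den : ℝ) ^ 2 := by
    rw [← Rat.cast_def]; exact hβ
  have h := minsum_Icc (x := 2 * b) (Y := 2 * R + 1) (by positivity) β.den_pos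
    (Int.isCoprime_iff_gcd_eq_one.2 β.reduced) hβ' (-(2 * R : ℤ)) (2 * R)
  rw [card_H] at h
  refine (weyl R b).trans (h.trans ?_)
  have r1 : (R : ℝ) ^ 2 ≤ N := by exact_mod_cast Nat.sqrt_le' N
  have r2 : (1 : ℝ) ≤ R := by
    have : 1 ≤ R := Nat.le_sqrt'.2 (by simpa using hN)
    exact_mod_cast this
  have hL := TransP.one_le_LL N
  have l1 : 1 + Real.log β.den ≤ 4 * LL N := by
    have a1 : Real.log β.den ≤ Real.log (4 * N) :=
      Real.log_le_log hq (by exact_mod_cast h3)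
    rw [Real.log_mul (by norm_num) (by linarith)] at a1
    have a2 : Real.log 4 ≤ 4 - 1 := Real.log_le_sub_one_of_pos (by norm_num)
    have a3 := Real.log_natCast_nonneg N
    unfold LL
    linarith
  have l0 : 0 ≤ 1 + Real.log β.den := by have := Real.log_natCast_nonneg β.den; linarith
  have r3 : R * P ≤ N := by
    refine (sq_le_sq₀ (by positivity) (by positivity)).1 ?_
    rw [mul_pow, sq (N : ℝ)]
    gcongr
  rw [le_div_iff₀ hP]
  set l := 1 + Real.log β.den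
  have t1 : (4 * R + 1) / β.den * (6 * (2 * R + 1)) * P ≤ 90 * N := by
    have : P / β.den ≤ 1 := (div_le_one hq).2 h1
    calc _ = (4 * R + 1) * (6 * (2 * R + 1)) * (P / β.den) := by ring
      _ ≤ (5 * R) * (6 * (3 * R)) * 1 := by gcongr <;> linarith
      _ ≤ _ := by nlinarith
  have t2 : (4 * R + 1) / β.den * (2 * β.den * l) * P ≤ 40 * N * LL N := by
    calc _ = (4 * R + 1) * P * (2 * l) := by field_simp
      _ ≤ (5 * R) * P * (2 * (4 * LL N)) := by gcongr; linarith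
      _ = 40 * (R * P) * LL N := by ring
      _ ≤ _ := by gcongr
  have t3 : 6 * (2 * R + 1) * P ≤ 18 * N := by
    calc _ ≤ 6 * (3 * R) * P := by gcongr; linarith
      _ = 18 * (R * P) := by ring
      _ ≤ _ := by gcongr
  have t4 : 2 * β.den * l * P ≤ 8 * N * LL N := by
    calc _ = 2 * (β.den * P) * l := by ring
      _ ≤ 2 * N * (4 * LL N) := by gcongr
      _ = _ := by ring
  have t5 : (N : ℝ) ≤ N * LL N := le_mul_of_one_le_right (by linarith) hL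
  calc _ = (4 * R + 1) / β.den * (6 * (2 * R + 1)) * P +
        (4 * R + 1) / β.den * (2 * β.den * l) * P + 6 * (2 * R + 1) * P + 2 * β.den * l * P := by
        ring
    _ ≤ _ := by linarith

theorem pair {N : ℕ} (hN : 1 ≤ N) {θ : ℝ} (hθ : Minor N ((N : ℝ) ^ (1 / 1000 : ℝ)) θ) (α : ℝ) :
    ‖Sw (Nat.sqrt N) (α + θ) * Sw (Nat.sqrt N) (α + 7 * θ)‖ ^ 2 ≤
      14400 * (N : ℝ) ^ 2 * LL N / (N : ℝ) ^ (1 / 2000 : ℝ) := by
  have hN1 : (1 : ℝ) ≤ N := by exact_mod_cast hN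
  have hN0 : (0 : ℝ) < N := by linarith
  set U := (N : ℝ) ^ (1 / 2000 : ℝ) with hU
  have hU1 : 1 ≤ U := Real.one_le_rpow hN1 (by norm_num)
  have hU2 : U ^ 2 = (N : ℝ) ^ (1 / 1000 : ℝ) := by
    rw [hU, ← Real.rpow_natCast, ← Real.rpow_mul hN0.le]; norm_num
  have hUN : U ^ 2 ≤ N := by
    rw [hU2]; simpa using Real.rpow_le_rpow_of_exponent_le hN1 (by norm_num : (1 / 1000 : ℝ) ≤ 1)
  set P := U / 4 with hP
  have hP0 : 0 < P := by positivity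
  have hPN : P ^ 2 ≤ N := by rw [hP, div_pow]; linarith
  have hNP : 1 ≤ N / P := by
    rw [one_le_div hP0, hP]; nlinarith
  set n := ⌊N / P⌋₊ with hn
  have hn0 : 0 < n := Nat.floor_pos.2 hNP
  have hn1 : (n : ℝ) * P ≤ N := by
    rw [← le_div_iff₀ hP0]; exact Nat.floor_le (by positivity)
  have hn2 : (N : ℝ) ≤ (n + 1) * P := by
    rw [← div_le_iff₀ hP0]; exact (Nat.lt_floor_add_one _).le
  have hn3 : n ≤ 4 * N := by
    have : (n : ℝ) ≤ 4 * N := by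
      have : (0 : ℝ) ≤ n := Nat.cast_nonneg n
      rw [hP] at hn1; nlinarith
    exact_mod_cast this
  have hL := TransP.one_le_LL N
  have triv : ∀ b, ‖Sw (Nat.sqrt N) b‖ ^ 2 ≤ 9 * N := by
    intro b
    have r1 : ((Nat.sqrt N : ℕ) : ℝ) ^ 2 ≤ N := by exact_mod_cast Nat.sqrt_le' N
    have r2 : (1 : ℝ) ≤ (Nat.sqrt N : ℕ) := by
      have : 1 ≤ Nat.sqrt N := Nat.le_sqrt'.2 (by simpa using hN)
      exact_mod_cast this
    have := Sw_triv (Nat.sqrt N) b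
    have := norm_nonneg (Sw (Nat.sqrt N) b)
    nlinarith
  have good : ∀ (b : ℝ) (β : ℚ), |2 * b - β| ≤ 1 / ((n + 1) * β.den) → β.den ≤ n → P ≤ β.den →
      ‖Sw (Nat.sqrt N) b‖ ^ 2 ≤ 400 * N * LL N / P := by
    intro b β h1 h2 h3
    have hq : (0 : ℝ) < β.den := by exact_mod_cast β.den_pos
    have h2' : (β.den : ℝ) ≤ n := by exact_mod_cast h2
    refine weyl2 hN hP0 hPN b β (h1.trans ?_) h3 (le_trans (by gcongr) hn1) (h2.trans hn3)
    rw [sq]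
    gcongr
    linarith
  obtain ⟨β1, a1, b1⟩ := Real.exists_rat_abs_sub_le_and_den_le (2 * (α + θ)) hn0
  obtain ⟨β2, a2, b2⟩ := Real.exists_rat_abs_sub_le_and_den_le (2 * (α + 7 * θ)) hn0
  have fin : 9 * N * (400 * N * LL N / P) = 14400 * (N : ℝ) ^ 2 * LL N / U := by
    rw [hP]; field_simp; ring
  rw [norm_mul, mul_pow, ← fin]
  by_cases c1 : P ≤ β1.den
  · rw [mul_comm]
    exact mul_le_mul (triv _) (good _ _ a1 b1 c1) (by positivity) (by positivity)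
  by_cases c2 : P ≤ β2.den
  · exact mul_le_mul (triv _) (good _ _ a2 b2 c2) (by positivity) (by positivity)
  exfalso
  push Not at c1 c2
  have q1 : (0 : ℝ) < β1.den := by exact_mod_cast β1.den_pos
  have q2 : (0 : ℝ) < β2.den := by exact_mod_cast β2.den_pos
  have hm := hθ (12 * β1.den * β2.den)
    (Nat.mul_pos (Nat.mul_pos (by norm_num) β1.den_pos) β2.den_pos) (by
      push_cast
      rw [← hU2]
      have : (β1.den : ℝ) * β2.den ≤ P * P := by gcongr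
      rw [hP] at this
      nlinarith)
  have hd := dn_le (((12 * β1.den * β2.den : ℕ) : ℝ) * θ) (β2.num * β1.den - β1.num * β2.den)
  have n1 : (β1.num : ℝ) = β1 * β1.den := by exact_mod_cast (Rat.mul_den_eq_num β1).symm
  have n2 : (β2.num : ℝ) = β2 * β2.den := by exact_mod_cast (Rat.mul_den_eq_num β2).symm
  have e1 : ((12 * β1.den * β2.den : ℕ) : ℝ) * θ - ((β2.num * β1.den - β1.num * β2.den : ℤ) : ℝ) =
      β1.den * (β2.den * (2 * (α + 7 * θ) - β2)) - β2.den * (β1.den * (2 * (α + θ) - β1)) := by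
    push_cast; rw [n1, n2]; ring
  have f1 : |β1.den * (2 * (α + θ) - β1)| ≤ 1 / (n + 1) := by
    rw [abs_mul, abs_of_pos q1]
    refine (mul_le_mul_of_nonneg_left a1 q1.le).trans (le_of_eq ?_)
    field_simp
  have f2 : |β2.den * (2 * (α + 7 * θ) - β2)| ≤ 1 / (n + 1) := by
    rw [abs_mul, abs_of_pos q2]
    refine (mul_le_mul_of_nonneg_left a2 q2.le).trans (le_of_eq ?_)
    field_simp
  have f3 : 1 / ((n : ℝ) + 1) ≤ P / N := by
    rw [div_le_div_iff₀ (by positivity) hN0]; linarith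
  rw [e1] at hd
  have f4 := hm.trans_le (hd.trans (abs_sub _ _))
  rw [abs_mul (β1.den : ℝ), abs_mul (β2.den : ℝ) (β1.den * _), abs_of_pos q1, abs_of_pos q2] at f4
  have f5 : (β1.den : ℝ) * |β2.den * (2 * (α + 7 * θ) - β2)| ≤ P * (P / N) :=
    mul_le_mul c1.le (f2.trans f3) (abs_nonneg _) hP0.le
  have f6 : (β2.den : ℝ) * |β1.den * (2 * (α + θ) - β1)| ≤ P * (P / N) :=
    mul_le_mul c2.le (f1.trans f3) (abs_nonneg _) hP0.le
  have f7 : P * (P / N) = U ^ 2 / N / 16 := by rw [hP]; ring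
  have f8 : 0 < U ^ 2 / N := by positivity
  rw [← hU2] at f4
  linarith

theorem inv_dft {M : ℕ} [NeZero M] (F : ZMod M → ℂ) (g : ZMod M) :
    F g = ∑ r, ((M : ℂ)⁻¹ * dft F r) * stdAddChar (r * g) := by
  rw [← TransP.proj_apply]
  unfold TransP.proj
  simp

theorem mem_box {n : ℕ} {ξ : ℤ × ℤ} (h : ξ ∈ Sun.box (Nat.sqrt n)) :
    ξ.1 ^ 2 ≤ n ∧ ξ.2 ^ 2 ≤ n := by
  unfold Sun.box at h
  simp only [mem_product, mem_Icc] at h
  have r1 : ((Nat.sqrt n : ℕ) : ℤ) ^ 2 ≤ n := by exact_mod_cast Nat.sqrt_le' n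
  exact ⟨(sq_le_sq' h.1.1 h.1.2).trans r1, (sq_le_sq' h.2.1 h.2.2).trans r1⟩

theorem eta_le {N D : ℕ} {η : ℤ × ℤ} (h : η ∈ Sun.box (Nat.sqrt (N / D))) :
    0 ≤ (D : ℤ) * (η.1 ^ 2 + η.2 ^ 2) ∧ (D : ℤ) * (η.1 ^ 2 + η.2 ^ 2) ≤ 2 * N := by
  obtain ⟨h1, h2⟩ := mem_box h
  have h3 : (D : ℤ) * ((N / D : ℕ) : ℤ) ≤ N := by exact_mod_cast Nat.mul_div_le N D
  have h4 : (0 : ℤ) ≤ D := Int.natCast_nonneg D
  refine ⟨by positivity, ?_⟩
  nlinarith [mul_le_mul_of_nonneg_left h1 h4, mul_le_mul_of_nonneg_left h2 h4]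

theorem T1_eq (N D : ℕ) (δ : ℤ × ℤ) (θ : ℝ) (γ : ℤ → ℂ) :
    T1 N D δ γ (fun _ => 1) (fun m => e (θ * m)) =
      ∑ j : ZMod (4 * N + 1), ((((4 * N + 1 : ℕ) : ℂ))⁻¹ *
        dft (fun g : ZMod (4 * N + 1) => γ g.val) j) *
        (Sw (Nat.sqrt N) ((j.val : ℝ) / (4 * N + 1 : ℕ) + θ) *
          Sw (Nat.sqrt N) ((j.val : ℝ) / (4 * N + 1 : ℕ) + 7 * θ) *
          ∑ η ∈ Sun.box (Nat.sqrt (N / D)), e (θ * AA δ η) *
            stdAddChar (j * (((D : ℤ) * (η.1 ^ 2 + η.2 ^ 2) : ℤ) : ZMod (4 * N + 1)))) := by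
  unfold T1 Sw
  have e1 : ∀ ξ ∈ Sun.box (Nat.sqrt N), ∀ η ∈ Sun.box (Nat.sqrt (N / D)),
      γ (QQ D ξ η) * 1 * e (θ * (GG ξ + AA δ η : ℤ)) =
      ∑ j : ZMod (4 * N + 1), ((((4 * N + 1 : ℕ) : ℂ))⁻¹ *
        dft (fun g : ZMod (4 * N + 1) => γ g.val) j) *
        (e (((j.val : ℝ) / (4 * N + 1 : ℕ) + θ) * (ξ.1 : ℝ) ^ 2) *
          e (((j.val : ℝ) / (4 * N + 1 : ℕ) + 7 * θ) * (ξ.2 : ℝ) ^ 2) * (e (θ * AA δ η) *
            stdAddChar (j * (((D : ℤ) * (η.1 ^ 2 + η.2 ^ 2) : ℤ) : ZMod (4 * N + 1))))) := by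
    intro ξ hξ η hη
    obtain ⟨a1, a2⟩ := mem_box hξ
    obtain ⟨a3, a4⟩ := eta_le hη
    have a5 : 0 ≤ QQ D ξ η := by unfold QQ; positivity
    have a6 : QQ D ξ η < (4 * N + 1 : ℕ) := by unfold QQ; push_cast; omega
    have a7 : (((QQ D ξ η : ZMod (4 * N + 1)).val : ℕ) : ℤ) = QQ D ξ η := by
      rw [ZMod.val_intCast, Int.emod_eq_of_lt a5 a6]
    have a8 := inv_dft (fun g : ZMod (4 * N + 1) => γ g.val) (QQ D ξ η)
    simp only [a7] at a8
    rw [a8, mul_one, sum_mul]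
    refine sum_congr rfl fun j _ => ?_
    rw [mul_assoc]
    congr 1
    simp only [TransP.char_eq, ← e_add]
    congr 1
    unfold QQ GG
    push_cast
    ring
  rw [sum_congr rfl fun ξ hξ => sum_congr rfl fun η hη => e1 ξ hξ η hη]
  simp only [← mul_sum, ← sum_mul, sum_comm (t := (univ : Finset (ZMod (4 * N + 1))))]
  refine sum_congr rfl fun j _ => ?_
  congr 2
  unfold Sun.box
  rw [sum_product, sum_mul_sum]

end Trans2P

open Trans2P in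
theorem gamMin : S_GamMin := by
  obtain ⟨C1, hC1, h1⟩ := one_add_log_le (ε := 1 / 10000) (by norm_num)
  obtain ⟨C2, hC2, h2⟩ := tau_le (ε := 1 / 10000) (by norm_num)
  refine ⟨Real.sqrt (14400 * C1 * (5 * (9 * (64 * C2 + 9)))), by positivity,
    fun N D δ θ γ hD hDN hθ hγ => ?_⟩
  have hN : 1 ≤ N := hD.trans hDN
  have hN1 : (1 : ℝ) ≤ N := by exact_mod_cast hN
  have hN0 : (0 : ℝ) < N := by linarith
  set V := (N : ℝ) ^ (1 / 10000 : ℝ) with hV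
  have hV1 : 1 ≤ V := Real.one_le_rpow hN1 (by norm_num)
  refine (sq_le_sq₀ (norm_nonneg _) (by positivity)).1 ?_
  rw [T1_eq]
  refine (cs_norm _ _ _).trans ?_
  have a1 : ∑ j : ZMod (4 * N + 1), ‖(((4 * N + 1 : ℕ) : ℂ))⁻¹ *
      dft (fun g : ZMod (4 * N + 1) => γ g.val) j‖ ^ 2 ≤ 1 := by
    simp only [norm_mul, norm_inv, Complex.norm_natCast, mul_pow, ← mul_sum]
    rw [TransP.parseval]
    have b1 : ∑ g : ZMod (4 * N + 1), ‖γ g.val‖ ^ 2 ≤ (4 * N + 1 : ℕ) := by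
      refine (sum_le_card_nsmul _ _ 1 fun g _ => ?_).trans ?_
      · exact pow_le_one₀ (norm_nonneg _) (hγ _)
      · simp
    have b2 : (0 : ℝ) < (4 * N + 1 : ℕ) := by positivity
    calc _ ≤ (((4 * N + 1 : ℕ) : ℝ))⁻¹ ^ 2 * ((4 * N + 1 : ℕ) * (4 * N + 1 : ℕ)) := by gcongr
      _ = 1 := by field_simp
  set R := Nat.sqrt (N / D) with hR
  have r1 : R ^ 2 ≤ N := (Nat.sqrt_le' _).trans (Nat.div_le_self _ _)
  have a2 := energy R (T := 8 * C2 * V) (by positivity) fun n hn => by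
    refine (h2 n).trans ?_
    have b1 : (n : ℝ) ≤ 8 * N := by exact_mod_cast (by omega : n ≤ 8 * N)
    have b2 : (8 : ℝ) ^ (1 / 10000 : ℝ) ≤ 8 := by
      simpa using Real.rpow_le_rpow_of_exponent_le (by norm_num : (1 : ℝ) ≤ 8)
        (by norm_num : (1 / 10000 : ℝ) ≤ 1)
    calc _ ≤ C2 * (8 * N : ℝ) ^ (1 / 10000 : ℝ) := by gcongr
      _ = C2 * ((8 : ℝ) ^ (1 / 10000 : ℝ) * V) := by rw [Real.mul_rpow (by norm_num) hN0.le]
      _ ≤ C2 * (8 * V) := by gcongr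
      _ = _ := by ring
  have a3 := l2 (W := 4 * N + 1) (Sun.box R) (fun η => e (θ * AA δ η)) (fun η => (norm_e _).le)
    (fun η => (D : ℤ) * (η.1 ^ 2 + η.2 ^ 2)) fun η hη => by
      obtain ⟨b1, b2⟩ := eta_le hη
      exact ⟨b1, by push_cast; omega⟩
  have hD0 : (D : ℤ) ≠ 0 := by exact_mod_cast (by omega : D ≠ 0)
  simp only [mul_right_inj' hD0] at a3
  have a4 : (2 * (R : ℝ) + 1) ^ 2 ≤ 9 * N := by
    have b1 : (R : ℝ) ^ 2 ≤ N := by exact_mod_cast r1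
    have b2 : (1 : ℝ) ≤ R := by
      have : 1 ≤ R := Nat.le_sqrt'.2 (by simpa using (Nat.one_le_div_iff hD).2 hDN)
      exact_mod_cast this
    nlinarith
  have a5 : ((4 * N + 1 : ℕ) : ℝ) ≤ 5 * N := by push_cast; linarith
  have a6 := a3.trans (mul_le_mul a5 (a2.trans (mul_le_mul a4
    (show 8 * (8 * C2 * V) + 9 ≤ (64 * C2 + 9) * V by nlinarith) (by positivity) (by positivity)))
    (sum_nonneg fun _ _ => sum_nonneg fun _ _ => by positivity) (by positivity))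
  have hL : LL N ≤ C1 * V := h1 N hN1
  have a7 : 14400 * (N : ℝ) ^ 2 * LL N / (N : ℝ) ^ (1 / 2000 : ℝ) ≤
      14400 * (N : ℝ) ^ 2 * (C1 * V) / V ^ 5 := by
    have : V ^ 5 = (N : ℝ) ^ (1 / 2000 : ℝ) := by
      rw [hV, ← Real.rpow_natCast, ← Real.rpow_mul hN0.le]; norm_num
    rw [this]; gcongr
  refine (mul_le_of_le_one_left (sum_nonneg fun _ _ => by positivity) a1).trans ?_
  refine (sum_le_sum (g := fun j : ZMod (4 * N + 1) => 14400 * (N : ℝ) ^ 2 * (C1 * V) / V ^ 5 *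
    ‖∑ η ∈ Sun.box R, e (θ * AA δ η) *
      stdAddChar (j * (((D : ℤ) * (η.1 ^ 2 + η.2 ^ 2) : ℤ) : ZMod (4 * N + 1)))‖ ^ 2)
    fun j _ => ?_).trans ?_
  · rw [norm_mul, mul_pow]
    exact mul_le_mul_of_nonneg_right ((pair hN hθ _).trans a7) (by positivity)
  rw [← mul_sum]
  refine (mul_le_mul_of_nonneg_left a6 (by positivity)).trans ?_
  have a8 : (N : ℝ) ^ (2 - 1 / 10000 : ℝ) = (N : ℝ) ^ 2 / V := by
    rw [Real.rpow_sub hN0, hV]; norm_num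
  rw [mul_pow, Real.sq_sqrt (by positivity), a8]
  calc _ = 14400 * C1 * (5 * (9 * (64 * C2 + 9))) * ((N : ℝ) ^ 2 / V) ^ 2 / V := by
        field_simp
    _ ≤ _ := div_le_self (by positivity) hV1

end Pool.Agent.P.MP_0ad054_nt.Chen
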